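import Pool.Agent.TH549.CK.Fin

/-! The final theorem with the definitions in a short form. -/

set_option autoImplicit false

namespace Pool.Agent.TH549.CK.Pub

open TensorProduct

/-- `f` has a pole of order at most `n` at the point `w = 0` -/
structure Pole {K : Type} [Field K] (n : ℕ) (f : LaurentSeries K) : Prop where
  coeff : ∀ k : ℤ, k < -n → f.coeff k = 0

/-- `R` is the ring of the functions on a smooth projective curve of genus `g` which are regular
outside the point `w = 0` -/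
structure IsCurve {K : Type} [Field K] (g : ℕ) (R : Subalgebra K (LaurentSeries K)) : Prop where
  dedekind : IsDedekindDomain R
  finiteType : Algebra.FiniteType K R
  genus : ∀ n : ℕ, 2 * g ≤ n + 1 →
    Module.finrank K (Submodule.span K {f : R | Pole n (f : LaurentSeries K)}) = n + 1 - g

/-- a nonzero section of `n (F₁ + F₂)` of order at least `y > 0` along the diagonal has `c y < n` -/
structure Bound {K : Type} [Field K] (c : ℝ) (R : Subalgebra K (LaurentSeries K)) : Prop where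
  lt : ∀ (n y : ℕ) (G : R ⊗[K] R), 0 < y → G ≠ 0 →
    G ∈ Submodule.span K {x | ∃ f h : R, Pole n (f : LaurentSeries K) ∧
      Pole n (h : LaurentSeries K) ∧ f ⊗ₜ[K] h = x} →
    G ∈ KaehlerDifferential.ideal K R ^ y → c * y < n

/-- a nonzero section of `A ⊠ A`, `A = O (n ∞ - D)`, `D` the divisor of the ideal `J`, of order at
least `y` along the diagonal has `c y ≤ n - deg D` -/
structure BoundJ {K : Type} [Field K] (c : ℝ) (R : Subalgebra K (LaurentSeries K)) : Prop where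
  le : ∀ (J : Ideal R) (n y : ℕ) (G : R ⊗[K] R), J ≠ ⊥ → G ≠ 0 →
    G ∈ Submodule.span K {x | ∃ f ∈ J, ∃ h ∈ J, Pole n (f : LaurentSeries K) ∧
      Pole n (h : LaurentSeries K) ∧ f ⊗ₜ[K] h = x} →
    G ∈ KaehlerDifferential.ideal K R ^ y → c * y + Module.finrank K (R ⧸ J) ≤ n

/-- algebraic family of curves over `Spec S`: the spaces of functions with a pole of order at most
`n` have bases whose coefficients are the values of elements of `S` -/
structure IsFam {K : Type} [Field K] (S : Type) [CommRing S] [Algebra K S] (g : ℕ)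
    (R : (S →ₐ[K] K) → Subalgebra K (LaurentSeries K)) : Prop where
  basis : ∀ n : ℕ, 2 * g ≤ n + 1 → ∃ e : Fin (n + 1 - g) → LaurentSeries S,
    ∀ φ : S →ₐ[K] K, ∃ b : Fin (n + 1 - g) → R φ, LinearIndependent K b ∧
      (∀ f : R φ, f ∈ Submodule.span K (Set.range b) ↔ Pole n (f : LaurentSeries K)) ∧
      ∀ i k, (b i : LaurentSeries K).coeff k = φ ((e i).coeff k)

section
variable {K : Type} [Field K]

theorem mem_Lp_iff {R : Subalgebra K (LaurentSeries K)} {n : ℕ} {f : R} :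
    f ∈ Lp R n ↔ Pole n (f : LaurentSeries K) :=
  ⟨fun h => ⟨h⟩, fun h => h.1⟩

theorem span_eq (R : Subalgebra K (LaurentSeries K)) (n : ℕ) :
    Submodule.span K {f : R | Pole n (f : LaurentSeries K)} = Lp R n := by
  have e : {f : R | Pole n (f : LaurentSeries K)} = (Lp R n : Set R) := by
    ext f
    exact mem_Lp_iff.symm
  rw [e, Submodule.span_eq]

theorem tensor_le {R : Subalgebra K (LaurentSeries K)} (V : Submodule K R) (G : R ⊗[K] R)
    (p : R → Prop) (hp : ∀ f, p f → f ∈ V)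
    (h : G ∈ Submodule.span K {x : R ⊗[K] R | ∃ f h : R, p f ∧ p h ∧ f ⊗ₜ[K] h = x}) :
    G ∈ LinearMap.range (TensorProduct.map V.subtype V.subtype) := by
  refine Submodule.span_le.2 ?_ h
  rintro x ⟨f, h, hf, hh, rfl⟩
  exact ⟨(⟨f, hp f hf⟩ : V) ⊗ₜ[K] (⟨h, hp h hh⟩ : V), rfl⟩

theorem Bound.of {R : Subalgebra K (LaurentSeries K)} {c : ℝ} (h : DiagBoundF R c) : Bound c R := by
  refine ⟨fun n y G hy hG hL hI => h n y G hy hG ?_ (FV_of_mem hI)⟩
  exact tensor_le (Lp R n) G (fun f => Pole n (f : LaurentSeries K)) (fun f hf => mem_Lp_iff.2 hf) hL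

theorem BoundJ.of {R : Subalgebra K (LaurentSeries K)} {c : ℝ} (h : DiagBoundJ R c) :
    BoundJ c R := by
  refine ⟨fun J n y G hJ hG hL hI => h J n y G hJ hG ?_ (FV_of_mem hI)⟩
  refine tensor_le (Lp R n ⊓ J.restrictScalars K) G
    (fun f => f ∈ J ∧ Pole n (f : LaurentSeries K)) (fun f hf => ⟨mem_Lp_iff.2 hf.2, hf.1⟩) ?_
  refine Submodule.span_mono ?_ hL
  rintro x ⟨f, hf, k, hk, h1, h2, rfl⟩
  exact ⟨f, k, ⟨hf, h1⟩, ⟨hk, h2⟩, rfl⟩

theorem IsFam.isFamily {S : Type} [CommRing S] [Algebra K S] {g : ℕ}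
    {R : (S →ₐ[K] K) → Subalgebra K (LaurentSeries K)} (h : IsFam S g R) : IsFamily K S g R := by
  refine ⟨fun n hn => ?_⟩
  obtain ⟨e, he⟩ := h.basis n hn
  refine ⟨e, fun φ => ?_⟩
  obtain ⟨b, hli, hsp, hb⟩ := he φ
  have heq : Submodule.span K (Set.range b) = Lp (R φ) n := by
    ext f
    rw [hsp f, mem_Lp_iff]
  refine ⟨(Module.Basis.span hli).map (LinearEquiv.ofEq _ _ heq), fun i k => ?_⟩
  rw [← hb i k]
  have e1 : ((((Module.Basis.span hli).map (LinearEquiv.ofEq _ _ heq)) i : Lp (R φ) n) : R φ) = b i := by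
    rw [Module.Basis.map_apply, LinearEquiv.coe_ofEq_apply, Module.Basis.span_apply]
  rw [e1]

end

theorem final {g : ℕ} (hN : NagataStrict g) (hg : 0 < g) :
    ∃ R₀ : Subalgebra ℂ (LaurentSeries ℂ), IsCurve g R₀ ∧ Bound (1 + √g) R₀ ∧
      BoundJ (1 + √g) R₀ ∧
      ∀ (S : Type) [CommRing S] [IsDomain S] [Algebra ℂ S]
        (R : (S →ₐ[ℂ] ℂ) → Subalgebra ℂ (LaurentSeries ℂ)), IsFam S g R →
        (∃ φ₀, R φ₀ = R₀) →
        ∃ s : ℕ → S, (∀ j, s j ≠ 0) ∧ ∀ φ : S →ₐ[ℂ] ℂ, (∀ j, φ (s j) ≠ 0) →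
          Bound (1 + √g) (R φ) ∧ (IsIntegrallyClosed (R φ) → BoundJ (1 + √g) (R φ)) := by
  obtain ⟨R₀, h1, h2, h3, h4, h5, h6⟩ := CK.final hN hg
  refine ⟨R₀, ⟨h1, h2, fun n hn => ?_⟩, Bound.of h4, BoundJ.of h5, ?_⟩
  · rw [span_eq]
    exact h3 n hn
  · intro S _ _ _ R hR hφ
    obtain ⟨s, hs, hs'⟩ := h6 S R hR.isFamily hφ
    exact ⟨s, hs, fun φ hφ' => ⟨Bound.of (hs' φ hφ').1, fun hi => BoundJ.of ((hs' φ hφ').2 hi)⟩⟩

end Pool.Agent.TH549.CK.Pub
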