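import Pool.Agent.TH549.CK.Defs2

/-! Additivity of the codimension of ideals in Dedekind domains. -/

set_option autoImplicit false

namespace Pool.Agent.TH549.CK
open TensorProduct
variable {K : Type} [Field K]

theorem finrank_quot_mul [IsAlgClosed K] {R : Type} [CommRing R] [IsDedekindDomain R] [Algebra K R]
    {I J : Ideal R} (hI : I ≠ ⊥) (hJ : J ≠ ⊥) [Module.Finite K (R ⧸ I)] [Module.Finite K (R ⧸ J)] :
    Module.Finite K (R ⧸ (I * J)) ∧
    Module.finrank K (R ⧸ (I * J)) = Module.finrank K (R ⧸ I) + Module.finrank K (R ⧸ J) := by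
  have hIJ : I * J ≠ 0 := mul_ne_zero hI hJ
  have hle : I * J ≤ I := Ideal.mul_le_left
  obtain ⟨a, ha⟩ := IsDedekindDomain.exists_sup_span_eq hle hIJ
  have haI : a ∈ I := by
    rw [← ha]
    exact Ideal.mem_sup_right (Ideal.mem_span_singleton_self a)
  -- multiplication by `a`
  let ψ : R →ₗ[R] R ⧸ (I * J) :=
    LinearMap.toSpanSingleton R (R ⧸ (I * J)) (Ideal.Quotient.mk (I * J) a)
  have hψ : ∀ r, ψ r = Ideal.Quotient.mk (I * J) (r * a) := fun r => by
    show r • Ideal.Quotient.mk (I * J) a = _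
    rw [Algebra.smul_def, map_mul]
    rfl
  have hker : ∀ r, ψ r = 0 ↔ r ∈ J := by
    intro r
    rw [hψ, Ideal.Quotient.eq_zero_iff_mem]
    constructor
    · intro h
      have h1 : I * Ideal.span {r} ≤ I * J := by
        rw [Ideal.mul_le]
        intro x hx y hy
        rw [← ha] at hx
        obtain ⟨u, hu, v, hv, rfl⟩ := Submodule.mem_sup.1 hx
        obtain ⟨s, rfl⟩ := Ideal.mem_span_singleton'.1 hv
        obtain ⟨t, rfl⟩ := Ideal.mem_span_singleton'.1 hy
        have e1 : (u + s * a) * (t * r) = t * r * u + s * t * (r * a) := by ring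
        rw [e1]
        exact Ideal.add_mem _ (Ideal.mul_mem_left _ _ hu) (Ideal.mul_mem_left _ _ h)
      have h2 : I * J ∣ I * Ideal.span {r} := Ideal.dvd_iff_le.2 h1
      have h3 : J ∣ Ideal.span {r} := (mul_dvd_mul_iff_left hI).1 h2
      exact Ideal.dvd_iff_le.1 h3 (Ideal.mem_span_singleton_self r)
    · intro h
      rw [mul_comm r a]
      exact Ideal.mul_mem_mul haI h
  let fR : (R ⧸ J) →ₗ[R] R ⧸ (I * J) := Submodule.liftQ J ψ fun r hr => (hker r).2 hr
  let f : (R ⧸ J) →ₗ[K] R ⧸ (I * J) := fR.restrictScalars K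
  have hf : ∀ r : R, f (Ideal.Quotient.mk J r) = Ideal.Quotient.mk (I * J) (r * a) := fun r => by
    rw [← hψ]
    rfl
  have hfinj : Function.Injective f := by
    rw [injective_iff_map_eq_zero]
    intro x hx
    obtain ⟨r, rfl⟩ := Ideal.Quotient.mk_surjective x
    rw [hf, ← hψ, hker] at hx
    exact Ideal.Quotient.eq_zero_iff_mem.2 hx
  let g : (R ⧸ (I * J)) →ₗ[K] R ⧸ I := (Ideal.Quotient.factorₐ K hle).toLinearMap
  have hg : ∀ r : R, g (Ideal.Quotient.mk (I * J) r) = Ideal.Quotient.mk I r := fun r => rfl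
  have hgsurj : Function.Surjective g := by
    intro x
    obtain ⟨r, rfl⟩ := Ideal.Quotient.mk_surjective x
    exact ⟨Ideal.Quotient.mk _ r, hg r⟩
  have hex : LinearMap.range f = LinearMap.ker g := by
    ext x
    obtain ⟨r, rfl⟩ := Ideal.Quotient.mk_surjective x
    rw [LinearMap.mem_ker, hg, Ideal.Quotient.eq_zero_iff_mem, LinearMap.mem_range]
    constructor
    · rintro ⟨y, hy⟩
      obtain ⟨s, rfl⟩ := Ideal.Quotient.mk_surjective y
      rw [hf, Ideal.Quotient.mk_eq_mk_iff_sub_mem] at hy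
      have h1 : r = s * a - (s * a - r) := by ring
      rw [h1]
      exact Ideal.sub_mem _ (Ideal.mul_mem_left _ _ haI) (hle hy)
    · intro h
      rw [← ha] at h
      obtain ⟨u, hu, v, hv, rfl⟩ := Submodule.mem_sup.1 h
      obtain ⟨s, rfl⟩ := Ideal.mem_span_singleton'.1 hv
      refine ⟨Ideal.Quotient.mk J s, ?_⟩
      rw [hf, Ideal.Quotient.mk_eq_mk_iff_sub_mem]
      have e1 : s * a - (u + s * a) = -u := by ring
      rw [e1]
      exact Ideal.neg_mem_iff _ |>.2 hu
  have h1 : Module.Finite K (LinearMap.ker g) := by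
    rw [← hex]
    infer_instance
  have h2 : Module.Finite K ((R ⧸ (I * J)) ⧸ LinearMap.ker g) :=
    Module.Finite.equiv (g.quotKerEquivOfSurjective hgsurj).symm
  have h3 : Module.Finite K (R ⧸ (I * J)) := Module.Finite.of_submodule_quotient (LinearMap.ker g)
  refine ⟨h3, ?_⟩
  rw [← LinearMap.finrank_range_add_finrank_ker g, LinearMap.range_eq_top.2 hgsurj, finrank_top,
    ← hex, LinearMap.finrank_range_of_inj hfinj]

end Pool.Agent.TH549.CK
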