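import Pool.Agent.TH549.CK.Defs

/-! CK-10: base change of the inequality. -/

set_option autoImplicit false

namespace Pool.Agent.TH549.CK

open Polynomial TensorProduct

namespace P10

section abs

variable {K Ω R A : Type} [Field K] [Field Ω] [Algebra K Ω] [CommRing R] [Algebra K R]
  [CommRing A] [Algebra K A] [Algebra Ω A] [IsScalarTower K Ω A]

/-- `ι ⊗ ι` -/
noncomputable def Phi (Ω : Type) [Field Ω] [Algebra K Ω] [Algebra Ω A] [IsScalarTower K Ω A]
    (ι : R →ₐ[K] A) : R ⊗[K] R →ₐ[K] A ⊗[Ω] A :=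
  Algebra.TensorProduct.productMap
    ((Algebra.TensorProduct.includeLeft : A →ₐ[K] A ⊗[Ω] A).comp ι)
    (((Algebra.TensorProduct.includeRight : A →ₐ[Ω] A ⊗[Ω] A).restrictScalars K).comp ι)

lemma Phi_tmul (ι : R →ₐ[K] A) (x y : R) : Phi Ω ι (x ⊗ₜ y) = ι x ⊗ₜ[Ω] ι y := by
  unfold Phi
  rw [Algebra.TensorProduct.productMap_apply_tmul]
  simp

/-- tensors of elements of `P` are combinations of images of tensors of elements of `V` -/
lemma range_le (ι : R →ₐ[K] A) (V : Submodule K R) (P : Submodule Ω A)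
    (hP : P ≤ Submodule.span Ω (ι '' (V : Set R))) {G : A ⊗[Ω] A}
    (hG : G ∈ LinearMap.range (TensorProduct.map P.subtype P.subtype)) :
    G ∈ Submodule.span Ω (Phi Ω ι ''
      (LinearMap.range (TensorProduct.map V.subtype V.subtype) : Set (R ⊗[K] R))) := by
  obtain ⟨z, rfl⟩ := hG
  induction z using TensorProduct.induction_on with
  | zero => rw [map_zero]; exact zero_mem _
  | add x y hx hy => rw [map_add]; exact add_mem hx hy
  | tmul p q =>
    rw [TensorProduct.map_tmul]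
    have h1 : (TensorProduct.mk Ω A A) p.1 q.1 ∈
        Submodule.map₂ (TensorProduct.mk Ω A A) (Submodule.span Ω (ι '' (V : Set R)))
          (Submodule.span Ω (ι '' (V : Set R))) :=
      Submodule.apply_mem_map₂ _ (hP p.2) (hP q.2)
    rw [Submodule.map₂_span_span] at h1
    refine Submodule.span_mono ?_ h1
    rintro _ ⟨_, ⟨x, hx, rfl⟩, _, ⟨y, hy, rfl⟩, rfl⟩
    refine ⟨x ⊗ₜ y, ⟨(⟨x, hx⟩ : V) ⊗ₜ (⟨y, hy⟩ : V), ?_⟩, Phi_tmul ι x y⟩
    rw [TensorProduct.map_tmul]
    rfl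

lemma span_Phi (ι : R →ₐ[K] A) (hι : Submodule.span Ω (Set.range ι) = ⊤) (G : A ⊗[Ω] A) :
    G ∈ Submodule.span Ω (Set.range (Phi Ω ι)) := by
  have h1 : G ∈ LinearMap.range (TensorProduct.map (⊤ : Submodule Ω A).subtype
      (⊤ : Submodule Ω A).subtype) := by
    induction G using TensorProduct.induction_on with
    | zero => exact zero_mem _
    | add x y hx hy => exact add_mem hx hy
    | tmul x y => exact ⟨(⟨x, trivial⟩ : (⊤ : Submodule Ω A)) ⊗ₜ (⟨y, trivial⟩ : (⊤ : Submodule Ω A)), rfl⟩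
  have h2 := range_le ι (⊤ : Submodule K R) (⊤ : Submodule Ω A) (by
    rw [← hι]
    apply Submodule.span_mono
    rintro _ ⟨x, rfl⟩
    exact ⟨x, trivial, rfl⟩) h1
  refine Submodule.span_mono ?_ h2
  rintro _ ⟨x, -, rfl⟩
  exact ⟨x, rfl⟩

/-- the powers of the ideal of the diagonal -/
lemma ideal_le (ι : R →ₐ[K] A) (hι : Submodule.span Ω (Set.range ι) = ⊤) (γ : ℕ) {G : A ⊗[Ω] A}
    (hG : G ∈ (KaehlerDifferential.ideal Ω A) ^ γ) :
    G ∈ Submodule.span Ω (Phi Ω ι ''
      (((KaehlerDifferential.ideal K R) ^ γ : Ideal (R ⊗[K] R)) : Set (R ⊗[K] R))) := by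
  have h1 : KaehlerDifferential.ideal Ω A ≤ Ideal.map (Phi Ω ι) (KaehlerDifferential.ideal K R) := by
    rw [← KaehlerDifferential.span_range_eq_ideal Ω A, Ideal.span_le]
    rintro _ ⟨x, rfl⟩
    have hx : x ∈ Submodule.span Ω (Set.range ι) := by rw [hι]; trivial
    change 1 ⊗ₜ[Ω] x - x ⊗ₜ[Ω] 1 ∈ Ideal.map (Phi Ω ι) (KaehlerDifferential.ideal K R)
    induction hx using Submodule.span_induction with
    | mem x hx =>
      obtain ⟨f, rfl⟩ := hx
      have h2 : (1 ⊗ₜ[K] f - f ⊗ₜ[K] 1 : R ⊗[K] R) ∈ KaehlerDifferential.ideal K R := by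
        rw [← KaehlerDifferential.span_range_eq_ideal K R]
        exact Ideal.subset_span ⟨f, rfl⟩
      have h3 := Ideal.mem_map_of_mem (Phi Ω ι) h2
      rw [map_sub, Phi_tmul, Phi_tmul, map_one] at h3
      exact h3
    | zero => simp
    | add x y _ _ hx hy =>
      have e : (1 : A) ⊗ₜ[Ω] (x + y) - (x + y) ⊗ₜ[Ω] (1 : A) =
          ((1 : A) ⊗ₜ[Ω] x - x ⊗ₜ[Ω] (1 : A)) + ((1 : A) ⊗ₜ[Ω] y - y ⊗ₜ[Ω] (1 : A)) := by
        rw [TensorProduct.tmul_add, TensorProduct.add_tmul]; ring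
      rw [e]
      exact add_mem hx hy
    | smul c x _ hx =>
      have e : (1 : A) ⊗ₜ[Ω] (c • x) - (c • x) ⊗ₜ[Ω] (1 : A) =
          (algebraMap Ω (A ⊗[Ω] A) c) * ((1 : A) ⊗ₜ[Ω] x - x ⊗ₜ[Ω] (1 : A)) := by
        rw [TensorProduct.tmul_smul, ← TensorProduct.smul_tmul', ← Algebra.smul_def, smul_sub]
      rw [e]
      exact Ideal.mul_mem_left _ _ hx
  have h4 : G ∈ Ideal.map (Phi Ω ι) ((KaehlerDifferential.ideal K R) ^ γ) := by
    rw [Ideal.map_pow]
    exact Ideal.pow_right_mono h1 γ hG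
  set J : Ideal (R ⊗[K] R) := (KaehlerDifferential.ideal K R) ^ γ with hJ
  clear_value J
  clear hG
  unfold Ideal.map at h4
  induction h4 using Submodule.span_induction with
  | mem x hx => exact Submodule.subset_span hx
  | zero => exact zero_mem _
  | add x y _ _ hx hy => exact add_mem hx hy
  | smul c x _ hx =>
    have hc := span_Phi ι hι c
    rw [smul_eq_mul]
    have h5 := Submodule.mul_mem_mul hc hx
    rw [Submodule.span_mul_span] at h5
    refine Submodule.span_mono ?_ h5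
    rintro _ ⟨_, ⟨a, rfl⟩, _, ⟨b, hb, rfl⟩, rfl⟩
    refine ⟨a * b, Ideal.mul_mem_left _ _ hb, ?_⟩
    exact map_mul _ _ _

end abs

section ev

variable {K R : Type} [Field K] [CommRing R] [Algebra K R]

/-- the coefficients of an element of `R ⊗ R` -/
noncomputable def ev (cf : ℤ → R →ₗ[K] K) (k l : ℤ) : R ⊗[K] R →ₗ[K] K :=
  LinearMap.mul' K K ∘ₗ TensorProduct.map (cf k) (cf l)

lemma ev_tmul (cf : ℤ → R →ₗ[K] K) (k l : ℤ) (x y : R) : ev cf k l (x ⊗ₜ y) = cf k x * cf l y := by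
  simp [ev]

/-- a tensor vanishes if it is annihilated by all functionals on the first factor -/
lemma eq_zero_of_dual {M N : Type} [AddCommGroup M] [Module K M] [AddCommGroup N] [Module K N]
    {z : M ⊗[K] N} (h : ∀ u : M →ₗ[K] K, TensorProduct.lid K N (LinearMap.rTensor N u z) = 0) :
    z = 0 := by
  classical
  set b := Module.Basis.ofVectorSpace K M
  apply (TensorProduct.equivFinsuppOfBasisLeft b).injective
  rw [map_zero]
  ext i
  rw [TensorProduct.equivFinsuppOfBasisLeft_apply, h]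
  rfl

lemma ev_inj {cf : ℤ → R →ₗ[K] K} (hcf : ∀ x, (∀ k, cf k x = 0) → x = 0) {s : R ⊗[K] R}
    (h : ∀ k l, ev cf k l s = 0) : s = 0 := by
  have h1 : ∀ l, TensorProduct.rid K R (LinearMap.lTensor R (cf l) s) = 0 := by
    intro l
    apply hcf
    intro k
    rw [← h k l]
    clear h
    induction s using TensorProduct.induction_on with
    | zero => simp
    | add x y hx hy => simp only [map_add, hx, hy]
    | tmul x y =>
      rw [ev_tmul, LinearMap.lTensor_tmul, TensorProduct.rid_tmul, map_smul, smul_eq_mul, mul_comm]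
  apply eq_zero_of_dual
  intro u
  apply hcf
  intro l
  have h2 : cf l (TensorProduct.lid K R (LinearMap.rTensor R u s)) =
      u (TensorProduct.rid K R (LinearMap.lTensor R (cf l) s)) := by
    clear h h1
    induction s using TensorProduct.induction_on with
    | zero => simp
    | add x y hx hy => simp only [map_add, hx, hy]
    | tmul x y =>
      rw [LinearMap.lTensor_tmul, TensorProduct.rid_tmul, map_smul, LinearMap.rTensor_tmul,
        TensorProduct.lid_tmul, map_smul, smul_eq_mul, smul_eq_mul, mul_comm]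
  rw [h2, h1, map_zero]

end ev

section descent

variable {K Ω R A : Type} [Field K] [Field Ω] [Algebra K Ω] [CommRing R] [Algebra K R]
  [CommRing A] [Algebra K A] [Algebra Ω A] [IsScalarTower K Ω A]

lemma ev_Phi (ι : R →ₐ[K] A) (cf : ℤ → R →ₗ[K] K) (cf' : ℤ → A →ₗ[Ω] Ω)
    (hc : ∀ k f, cf' k (ι f) = algebraMap K Ω (cf k f)) (k l : ℤ) (s : R ⊗[K] R) :
    ev cf' k l (Phi Ω ι s) = algebraMap K Ω (ev cf k l s) := by
  induction s using TensorProduct.induction_on with
  | zero => simp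
  | add x y hx hy => simp only [map_add, hx, hy]
  | tmul x y => rw [Phi_tmul, ev_tmul, ev_tmul, hc, hc, map_mul]

lemma key (ι : R →ₐ[K] A) (cf : ℤ → R →ₗ[K] K) (cf' : ℤ → A →ₗ[Ω] Ω)
    (hc : ∀ k f, cf' k (ι f) = algebraMap K Ω (cf k f)) (V : Submodule K (R ⊗[K] R))
    {G : A ⊗[Ω] A} (hG : G ∈ Submodule.span Ω (Phi Ω ι '' (V : Set (R ⊗[K] R)))) :
    ∀ u : Ω →ₗ[K] K, ∃ v ∈ V, ∀ k l, ev cf k l v = u (ev cf' k l G) := by
  induction hG using Submodule.span_induction with
  | mem x hx =>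
    obtain ⟨v, hv, rfl⟩ := hx
    intro u
    refine ⟨u 1 • v, V.smul_mem _ hv, fun k l => ?_⟩
    rw [ev_Phi ι cf cf' hc, map_smul, Algebra.algebraMap_eq_smul_one, map_smul, smul_eq_mul,
      smul_eq_mul, mul_comm]
  | zero => exact fun u => ⟨0, V.zero_mem, fun k l => by simp⟩
  | add x y _ _ hx hy =>
    intro u
    obtain ⟨v, hv, h1⟩ := hx u
    obtain ⟨w, hw, h2⟩ := hy u
    exact ⟨v + w, V.add_mem hv hw, fun k l => by rw [map_add, map_add, map_add, h1, h2]⟩
  | smul c x _ hx =>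
    intro u
    obtain ⟨v, hv, h1⟩ := hx (u ∘ₗ LinearMap.mulLeft K c)
    refine ⟨v, hv, fun k l => ?_⟩
    rw [h1, map_smul]
    rfl

/-- descent of functions on the square -/
lemma descent (ι : R →ₐ[K] A) (cf : ℤ → R →ₗ[K] K) (cf' : ℤ → A →ₗ[Ω] Ω)
    (hc : ∀ k f, cf' k (ι f) = algebraMap K Ω (cf k f))
    (hcf : ∀ x, (∀ k, cf k x = 0) → x = 0) (hcf' : ∀ x, (∀ k, cf' k x = 0) → x = 0)
    (V W : Submodule K (R ⊗[K] R)) {G : A ⊗[Ω] A} (hG0 : G ≠ 0)
    (hV : G ∈ Submodule.span Ω (Phi Ω ι '' (V : Set (R ⊗[K] R))))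
    (hW : G ∈ Submodule.span Ω (Phi Ω ι '' (W : Set (R ⊗[K] R)))) :
    ∃ g : R ⊗[K] R, g ≠ 0 ∧ g ∈ V ∧ g ∈ W := by
  have h1 : ∃ k l, ev cf' k l G ≠ 0 := by
    by_contra hcon
    push Not at hcon
    exact hG0 (ev_inj hcf' hcon)
  obtain ⟨k, l, hkl⟩ := h1
  have h2 : ∃ u : Ω →ₗ[K] K, u (ev cf' k l G) ≠ 0 := by
    by_contra hcon
    push Not at hcon
    exact hkl ((Module.forall_dual_apply_eq_zero_iff K _).1 hcon)
  obtain ⟨u, hu⟩ := h2
  obtain ⟨v, hv, h3⟩ := key ι cf cf' hc V hV u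
  obtain ⟨w, hw, h4⟩ := key ι cf cf' hc W hW u
  have h5 : v = w := by
    rw [← sub_eq_zero]
    apply ev_inj hcf
    intro k l
    rw [map_sub, h3, h4, sub_self]
  refine ⟨v, ?_, hv, h5 ▸ hw⟩
  intro h0
  rw [h0] at h3
  have := h3 k l
  rw [map_zero] at this
  exact hu this.symm

/-- elements with vanishing coefficients are combinations of such elements of `R` -/
lemma pole_le (ι : R →ₐ[K] A) (hι : Submodule.span Ω (Set.range ι) = ⊤)
    (cf : ℤ → R →ₗ[K] K) (cf' : ℤ → A →ₗ[Ω] Ω)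
    (hc : ∀ k f, cf' k (ι f) = algebraMap K Ω (cf k f)) (J : Set ℤ) {x : A}
    (hx : ∀ k ∈ J, cf' k x = 0) :
    x ∈ Submodule.span Ω (ι '' {f : R | ∀ k ∈ J, cf k f = 0}) := by
  classical
  set φ : Ω ⊗[K] R →ₗ[Ω] A := LinearMap.liftBaseChange Ω ι.toLinearMap with hφ
  have hφt : ∀ (ω : Ω) (f : R), φ (ω ⊗ₜ f) = ω • ι f := fun ω f => rfl
  have h1 : x ∈ LinearMap.range φ := by
    have h2 : Submodule.span Ω (Set.range ι) ≤ LinearMap.range φ := by
      rw [Submodule.span_le]
      rintro _ ⟨f, rfl⟩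
      exact ⟨1 ⊗ₜ f, by rw [hφt, one_smul]⟩
    rw [hι] at h2
    exact h2 trivial
  obtain ⟨z, rfl⟩ := h1
  have h3 : ∀ (u : Ω →ₗ[K] K) (k : ℤ) (z : Ω ⊗[K] R),
      cf k (TensorProduct.lid K R (LinearMap.rTensor R u z)) = u (cf' k (φ z)) := by
    intro u k z
    induction z using TensorProduct.induction_on with
    | zero => simp
    | add x y hx hy => simp only [map_add, hx, hy]
    | tmul ω f =>
      rw [hφt, map_smul, hc, LinearMap.rTensor_tmul, TensorProduct.lid_tmul, map_smul, smul_eq_mul,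
        smul_eq_mul, mul_comm ω, ← Algebra.smul_def, map_smul, smul_eq_mul, mul_comm]
  set b := Module.Basis.ofVectorSpace K Ω
  have h4 := (TensorProduct.equivFinsuppOfBasisLeft b).symm_apply_apply z
  rw [TensorProduct.equivFinsuppOfBasisLeft_symm_apply] at h4
  rw [← h4, Finsupp.sum, map_sum]
  refine Submodule.sum_mem _ fun i _ => ?_
  rw [hφt]
  refine Submodule.smul_mem _ _ (Submodule.subset_span ⟨_, ?_, rfl⟩)
  intro k hk
  rw [TensorProduct.equivFinsuppOfBasisLeft_apply, h3, hx k hk, map_zero]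

end descent

section laurent

variable {K Ω : Type} [Field K] [Field Ω] [Algebra K Ω]

/-- extension of scalars for Laurent series -/
noncomputable def mapL (K Ω : Type) [Field K] [Field Ω] [Algebra K Ω] :
    LaurentSeries K →+* LaurentSeries Ω where
  toFun x := HahnSeries.map x (algebraMap K Ω)
  map_one' := HahnSeries.map_one (algebraMap K Ω).toMonoidWithZeroHom
  map_mul' x y := HahnSeries.map_mul (algebraMap K Ω).toNonUnitalRingHom
  map_zero' := by ext; simp
  map_add' x y := by ext; simp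

lemma coeff_mapL (x : LaurentSeries K) (k : ℤ) :
    (mapL K Ω x).coeff k = algebraMap K Ω (x.coeff k) := rfl

/-- the coefficients -/
noncomputable def cfl (R : Subalgebra K (LaurentSeries K)) (k : ℤ) : R →ₗ[K] K where
  toFun f := (f : LaurentSeries K).coeff k
  map_add' x y := by simp
  map_smul' c x := by
    rw [Subalgebra.coe_smul, Algebra.smul_def]
    have h2 : algebraMap K (LaurentSeries K) c = HahnSeries.C c := LaurentSeries.algebraMap_apply K c
    rw [h2, HahnSeries.C_mul_eq_smul, HahnSeries.coeff_smul]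
    rfl

lemma cfl_inj (R : Subalgebra K (LaurentSeries K)) (x : R) (h : ∀ k, cfl R k x = 0) : x = 0 := by
  apply Subtype.ext
  ext k
  exact h k

lemma mapL_mem (R : Subalgebra K (LaurentSeries K)) (f : R) :
    mapL K Ω (f : LaurentSeries K) ∈ ext R Ω :=
  Algebra.subset_adjoin ⟨f, f.2, fun _ => rfl⟩

/-- the scalar structure -/
noncomputable abbrev algK (R : Subalgebra K (LaurentSeries K)) (Ω : Type) [Field Ω] [Algebra K Ω] :
    Algebra K (ext R Ω) :=
  ((algebraMap Ω (ext R Ω)).comp (algebraMap K Ω)).toAlgebra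

end laurent

end P10

theorem ext_diagBound {K : Type} [Field K] {R : Subalgebra K (LaurentSeries K)} (Ω : Type)
    [Field Ω] [Algebra K Ω] {c : ℝ} (h : DiagBound R c) : DiagBound (ext R Ω) c := by
  intro n γ G hG0 hL hI
  let _ : Algebra K (ext R Ω) := P10.algK R Ω
  have : IsScalarTower K Ω (ext R Ω) := IsScalarTower.of_algebraMap_eq (fun _ => rfl)
  let ι : R →ₐ[K] ext R Ω :=
    { toFun := fun f => ⟨P10.mapL K Ω (f : LaurentSeries K), P10.mapL_mem R f⟩
      map_one' := Subtype.ext (map_one (P10.mapL K Ω))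
      map_mul' := fun x y => Subtype.ext (map_mul (P10.mapL K Ω) _ _)
      map_zero' := Subtype.ext (map_zero (P10.mapL K Ω))
      map_add' := fun x y => Subtype.ext (map_add (P10.mapL K Ω) _ _)
      commutes' := fun k => by
        apply Subtype.ext
        change P10.mapL K Ω (algebraMap K (LaurentSeries K) k) =
          algebraMap Ω (LaurentSeries Ω) (algebraMap K Ω k)
        rw [LaurentSeries.algebraMap_apply, LaurentSeries.algebraMap_apply]
        exact HahnSeries.map_C k (algebraMap K Ω) }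
  have hι : Submodule.span Ω (Set.range ι) = ⊤ := by
    rw [eq_top_iff]
    rintro ⟨x, hx⟩ -
    have hmul : ∀ x y : ext R Ω, x ∈ Submodule.span Ω (Set.range ι) →
        y ∈ Submodule.span Ω (Set.range ι) → x * y ∈ Submodule.span Ω (Set.range ι) := by
      intro x y hx hy
      have h1 := Submodule.mul_mem_mul hx hy
      rw [Submodule.span_mul_span] at h1
      refine Submodule.span_mono ?_ h1
      rintro _ ⟨_, ⟨a, rfl⟩, _, ⟨b, rfl⟩, rfl⟩
      exact ⟨a * b, map_mul ι a b⟩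
    unfold ext at hx
    induction hx using Algebra.adjoin_induction with
    | mem x hx =>
      obtain ⟨f, hf, hfx⟩ := hx
      refine Submodule.subset_span ⟨⟨f, hf⟩, ?_⟩
      apply Subtype.ext
      ext k
      exact (hfx k).symm
    | algebraMap r =>
      have h1 : (⟨algebraMap Ω (LaurentSeries Ω) r, Subalgebra.algebraMap_mem _ r⟩ : ext R Ω) =
          r • ι 1 := by
        rw [map_one, ← Algebra.algebraMap_eq_smul_one]
        rfl
      have h2 : r • ι 1 ∈ Submodule.span Ω (Set.range ι) :=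
        Submodule.smul_mem _ _ (Submodule.subset_span ⟨1, rfl⟩)
      rw [← h1] at h2
      exact h2
    | add x y hx hy h1 h2 => exact add_mem h1 h2
    | mul x y hx hy h1 h2 => exact hmul ⟨x, hx⟩ ⟨y, hy⟩ h1 h2
  have hc : ∀ k f, P10.cfl (ext R Ω) k (ι f) = algebraMap K Ω (P10.cfl R k f) := fun k f => rfl
  have hP : Lp (ext R Ω) n ≤ Submodule.span Ω (ι '' (Lp R n : Set R)) := by
    intro x hx
    exact P10.pole_le ι hι (P10.cfl R) (P10.cfl (ext R Ω)) hc {k : ℤ | k < -(n : ℤ)} hx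
  obtain ⟨g, hg0, hgL, hgI⟩ := P10.descent ι (P10.cfl R) (P10.cfl (ext R Ω)) hc
    (P10.cfl_inj R) (P10.cfl_inj (ext R Ω))
    (LinearMap.range (TensorProduct.map (Lp R n).subtype (Lp R n).subtype))
    (((KaehlerDifferential.ideal K R) ^ γ).restrictScalars K) hG0
    (P10.range_le ι (Lp R n) (Lp (ext R Ω) n) hP hL)
    (P10.ideal_le ι hι γ hI)
  exact h n γ g hg0 hgL hgI

end Pool.Agent.TH549.CK
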