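import Pool.Agent.TH549.CK.Defs2

/-! CK-21: the order along the diagonal (FV_of_mem, FV_mul, FV_cancel). -/

set_option autoImplicit false

namespace Pool.Agent.TH549.CK

open TensorProduct

variable {K : Type} [Field K]

namespace P21

theorem coeff_mul_sup {x y : LaurentSeries K} {s s' : Set ℤ} (hs : s.IsPWO) (hs' : s'.IsPWO)
    (hx : x.support ⊆ s) (hy : y.support ⊆ s') (n : ℤ) :
    (x * y).coeff n = ∑ p ∈ Finset.antidiagonal hs hs' n, x.coeff p.1 * y.coeff p.2 := by
  rw [HahnSeries.coeff_mul_left' hs hx]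
  apply Finset.sum_subset
  · intro p hp
    rw [Finset.mem_antidiagonal] at hp ⊢
    exact ⟨hp.1, hy hp.2.1, hp.2.2⟩
  · intro p hp hn
    rw [Finset.mem_antidiagonal] at hp hn
    have h0 : y.coeff p.2 = 0 := by
      by_contra h
      exact hn ⟨hp.1, h, hp.2.2⟩
    rw [h0, mul_zero]

/-- the weighted series -/
noncomputable def EE (i : ℕ) (f : LaurentSeries K) : LaurentSeries K :=
  HahnSeries.single (i : ℤ) (1 : K) * LaurentSeries.hasseDeriv K i f

theorem EE_coeff (i : ℕ) (f : LaurentSeries K) (n : ℤ) :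
    (EE i f).coeff n = Ring.choose n i • f.coeff n := by
  unfold EE
  have h := HahnSeries.coeff_single_mul_add (r := (1 : K)) (x := LaurentSeries.hasseDeriv K i f)
    (a := n - i) (b := (i : ℤ))
  rw [sub_add_cancel, one_mul] at h
  rw [h, LaurentSeries.hasseDeriv_coeff, sub_add_cancel]

theorem EE_support (i : ℕ) (f : LaurentSeries K) : (EE i f).support ⊆ f.support := by
  intro n hn h0
  apply hn
  rw [EE_coeff, h0, smul_zero]

theorem EE_mul (j : ℕ) (f f' : LaurentSeries K) :
    EE j (f * f') = ∑ p ∈ Finset.HasAntidiagonal.antidiagonal j, EE p.1 f * EE p.2 f' := by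
  ext n
  rw [EE_coeff, HahnSeries.coeff_sum,
    coeff_mul_sup f.isPWO_support f'.isPWO_support (le_refl _) (le_refl _), Finset.smul_sum]
  have h1 : ∀ p : ℕ × ℕ, (EE p.1 f * EE p.2 f').coeff n =
      ∑ q ∈ Finset.antidiagonal f.isPWO_support f'.isPWO_support n,
        (Ring.choose q.1 p.1 * Ring.choose q.2 p.2) • (f.coeff q.1 * f'.coeff q.2) := by
    intro p
    rw [coeff_mul_sup f.isPWO_support f'.isPWO_support (EE_support _ _) (EE_support _ _)]
    refine Finset.sum_congr rfl fun q _ => ?_
    rw [EE_coeff, EE_coeff, smul_mul_smul_comm]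
  rw [Finset.sum_congr rfl (fun p _ => h1 p), Finset.sum_comm]
  refine Finset.sum_congr rfl fun q hq => ?_
  rw [Finset.mem_antidiagonal] at hq
  rw [← Finset.sum_smul, ← hq.2.2, Ring.add_choose_eq j (Commute.all _ _)]

theorem single_cancel {j : ℕ} {x y : LaurentSeries K}
    (h : HahnSeries.single (j : ℤ) (1 : K) * x = HahnSeries.single (j : ℤ) (1 : K) * y) : x = y := by
  refine mul_left_cancel₀ ?_ h
  rw [Ne, HahnSeries.single_eq_zero_iff]
  exact one_ne_zero

theorem hasse_mul (j : ℕ) (f f' : LaurentSeries K) :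
    LaurentSeries.hasseDeriv K j (f * f') = ∑ p ∈ Finset.HasAntidiagonal.antidiagonal j,
      LaurentSeries.hasseDeriv K p.1 f * LaurentSeries.hasseDeriv K p.2 f' := by
  apply single_cancel (j := j)
  have h := EE_mul j f f'
  unfold EE at h
  rw [h, Finset.mul_sum]
  refine Finset.sum_congr rfl fun p hp => ?_
  rw [Finset.HasAntidiagonal.mem_antidiagonal] at hp
  have h2 : HahnSeries.single (j : ℤ) (1 : K) =
      HahnSeries.single (p.1 : ℤ) (1 : K) * HahnSeries.single (p.2 : ℤ) (1 : K) := by
    rw [HahnSeries.single_mul_single, mul_one, ← hp]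
    push_cast
    rfl
  rw [h2]
  ring

theorem sj_mul (R : Subalgebra K (LaurentSeries K)) (j : ℕ) (G H : R ⊗[K] R) :
    sj R j (G * H) = ∑ p ∈ Finset.HasAntidiagonal.antidiagonal j, sj R p.1 G * sj R p.2 H := by
  induction G using TensorProduct.induction_on with
  | zero => simp
  | add G G' h1 h2 =>
    rw [add_mul, map_add, h1, h2, ← Finset.sum_add_distrib]
    refine Finset.sum_congr rfl fun p _ => ?_
    rw [map_add, add_mul]
  | tmul f h =>
    induction H using TensorProduct.induction_on with
    | zero => simp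
    | add H H' h1 h2 =>
      rw [mul_add, map_add, h1, h2, ← Finset.sum_add_distrib]
      refine Finset.sum_congr rfl fun p _ => ?_
      rw [map_add, mul_add]
    | tmul f' h' =>
      rw [Algebra.TensorProduct.tmul_mul_tmul, sj_tmul, Subalgebra.coe_mul, Subalgebra.coe_mul,
        hasse_mul, Finset.sum_mul]
      refine Finset.sum_congr rfl fun p _ => ?_
      rw [sj_tmul, sj_tmul]
      ring

theorem sj_zero' (R : Subalgebra K (LaurentSeries K)) (G : R ⊗[K] R) :
    sj R 0 G = ((Algebra.TensorProduct.lmul' K G : R) : LaurentSeries K) := by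
  induction G using TensorProduct.induction_on with
  | zero => simp
  | add G G' h1 h2 => rw [map_add, map_add, h1, h2, Subalgebra.coe_add]
  | tmul f h =>
    rw [sj_tmul, Algebra.TensorProduct.lmul'_apply_tmul, Subalgebra.coe_mul,
      LaurentSeries.hasseDeriv_zero]
    rfl

theorem FV_one {R : Subalgebra K (LaurentSeries K)} {G : R ⊗[K] R}
    (h : G ∈ KaehlerDifferential.ideal K R) : FV R 1 G := by
  intro j hj
  have hj0 : j = 0 := by omega
  subst hj0
  rw [sj_zero']
  have h1 : Algebra.TensorProduct.lmul' K G = 0 := h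
  rw [h1]
  rfl

theorem FV_add {R : Subalgebra K (LaurentSeries K)} {γ : ℕ} {G H : R ⊗[K] R}
    (hG : FV R γ G) (hH : FV R γ H) : FV R γ (G + H) := by
  intro j hj
  rw [map_add, hG j hj, hH j hj, add_zero]

end P21

open P21

theorem FV_mul {R : Subalgebra K (LaurentSeries K)} {γ δ : ℕ} {G H : R ⊗[K] R}
    (hG : FV R γ G) (hH : FV R δ H) : FV R (γ + δ) (G * H) := by
  intro j hj
  rw [sj_mul]
  refine Finset.sum_eq_zero fun p hp => ?_
  rw [Finset.HasAntidiagonal.mem_antidiagonal] at hp
  by_cases h1 : p.1 < γ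
  · rw [hG _ h1, zero_mul]
  · rw [hH _ (by omega), mul_zero]

theorem FV_of_mem {R : Subalgebra K (LaurentSeries K)} {γ : ℕ} {G : R ⊗[K] R}
    (h : G ∈ (KaehlerDifferential.ideal K R) ^ γ) : FV R γ G := by
  induction γ generalizing G with
  | zero => exact fun j hj => absurd hj (Nat.not_lt_zero j)
  | succ γ ih =>
    rw [pow_succ] at h
    refine Submodule.mul_induction_on h (fun m hm n hn => ?_) (fun x y hx hy => FV_add hx hy)
    exact FV_mul (ih hm) (FV_one hn)

/-- cancelling factors `c ⊗ c` -/
theorem FV_cancel {R : Subalgebra K (LaurentSeries K)} {γ : ℕ} {G : R ⊗[K] R} {c : R} (hc : c ≠ 0)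
    (h : FV R γ ((c ⊗ₜ[K] c) * G)) : FV R γ G := by
  intro j
  induction j using Nat.strong_induction_on with
  | _ j ih =>
    intro hj
    have h1 := h j hj
    rw [sj_mul, Finset.sum_eq_single (0, j)] at h1
    · rw [sj_zero', Algebra.TensorProduct.lmul'_apply_tmul] at h1
      rcases mul_eq_zero.1 h1 with h2 | h2
      · exfalso
        have h3 : c * c = 0 := Subtype.ext h2
        exact hc (mul_self_eq_zero.1 h3)
      · exact h2
    · rintro ⟨i, l⟩ hp hne
      rw [Finset.HasAntidiagonal.mem_antidiagonal] at hp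
      simp only at hp ⊢
      have hl : l < j := by
        by_contra hcon
        apply hne
        have h4 : i = 0 := by omega
        have h5 : l = j := by omega
        rw [h4, h5]
      rw [ih l hl (by omega), mul_zero]
    · intro hn
      exact absurd (Finset.HasAntidiagonal.mem_antidiagonal.2 (zero_add j)) hn

end Pool.Agent.TH549.CK
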