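import Pool.Agent.TH549.CK.Defs2
import Pool.Agent.TH549.CK.P10
import Pool.Agent.TH549.CK.P21
import Pool.Agent.TH549.CK.P24

/-! CK-25: from the point at infinity to all line bundles. -/

set_option autoImplicit false

namespace Pool.Agent.TH549.CK

open TensorProduct

namespace P25

/-! ### a domain with a pole order -/

section abs

variable {K A : Type} [Field K] [CommRing A] [IsDomain A] [Algebra K A]

/-- `o` is minus the pole order, `L n` the functions with a pole of order at most `n` -/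
structure Ord (o : A → ℤ) (L : ℕ → Submodule K A) : Prop where
  mul : ∀ x y, x ≠ 0 → y ≠ 0 → o (x * y) = o x + o y
  mem : ∀ (n : ℕ) (x : A), x ≠ 0 → (x ∈ L n ↔ -(n : ℤ) ≤ o x)

variable {o : A → ℤ} {L : ℕ → Submodule K A} (H : Ord o L)
include H

theorem ord_one : o 1 = 0 := by
  have h := H.mul 1 1 one_ne_zero one_ne_zero
  rw [one_mul] at h
  omega

theorem ord_pow {f : A} (hf : f ≠ 0) (k : ℕ) : o (f ^ k) = k * o f := by
  induction k with
  | zero => rw [pow_zero, ord_one H]; push_cast; ring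
  | succ k ih =>
    rw [pow_succ, H.mul _ _ (pow_ne_zero _ hf) hf, ih]
    push_cast
    ring

theorem L_mono {n m : ℕ} (h : n ≤ m) : L n ≤ L m := by
  intro f hf
  by_cases hf0 : f = 0
  · rw [hf0]; exact zero_mem _
  rw [H.mem _ _ hf0] at hf ⊢
  omega

theorem L_mul {n m : ℕ} {f h : A} (hf : f ∈ L n) (hh : h ∈ L m) : f * h ∈ L (n + m) := by
  by_cases hf0 : f = 0
  · rw [hf0, zero_mul]; exact zero_mem _
  by_cases hh0 : h = 0
  · rw [hh0, mul_zero]; exact zero_mem _
  rw [H.mem _ _ (mul_ne_zero hf0 hh0), H.mul _ _ hf0 hh0]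
  rw [H.mem _ _ hf0] at hf
  rw [H.mem _ _ hh0] at hh
  push_cast
  omega

theorem one_mem_L (n : ℕ) : (1 : A) ∈ L n := by
  rw [H.mem _ _ one_ne_zero, ord_one H]
  omega

theorem exists_mem_L (f : A) : ∃ n, f ∈ L n := by
  by_cases hf : f = 0
  · exact ⟨0, by rw [hf]; exact zero_mem _⟩
  · exact ⟨(-(o f)).toNat, by rw [H.mem _ _ hf]; omega⟩

variable {g : ℕ} (hg : ∀ n : ℕ, 2 * g ≤ n + 1 → Module.finrank K (L n) = n + 1 - g)
include hg

theorem fin_L (n : ℕ) : Module.Finite K (L n) := by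
  have h1 : Module.Finite K (L (n + 2 * g)) := by
    apply Module.finite_of_finrank_pos
    rw [hg _ (by omega)]
    omega
  exact Module.Finite.of_injective (Submodule.inclusion (L_mono H (by omega : n ≤ n + 2 * g)))
    (Submodule.inclusion_injective _)

/-- no function vanishes at infinity -/
theorem order_nonpos {f : A} (hf : f ≠ 0) : o f ≤ 0 := by
  by_contra hlt
  rw [not_le] at hlt
  have hfin : Module.Finite K (L (2 * g)) := fin_L H hg _
  have hF0 : f ^ (2 * g + 1) ≠ 0 := pow_ne_zero _ hf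
  have hF : (2 * g + 1 : ℤ) ≤ o (f ^ (2 * g + 1)) := by
    rw [ord_pow H hf]
    push_cast
    nlinarith
  have hmem : ∀ v ∈ L (2 * g), (LinearMap.mulLeft K (f ^ (2 * g + 1))) v ∈ L (2 * g) := by
    intro v hv
    rw [LinearMap.mulLeft_apply]
    by_cases hv0 : v = 0
    · rw [hv0, mul_zero]; exact zero_mem _
    rw [H.mem _ _ (mul_ne_zero hF0 hv0), H.mul _ _ hF0 hv0]
    rw [H.mem _ _ hv0] at hv
    omega
  have hinj : Function.Injective ((LinearMap.mulLeft K (f ^ (2 * g + 1))).restrict hmem) := by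
    rw [← LinearMap.ker_eq_bot, LinearMap.ker_eq_bot']
    intro v hv
    have h1 := congrArg Subtype.val hv
    rw [LinearMap.coe_restrict_apply, LinearMap.mulLeft_apply] at h1
    apply Subtype.ext
    exact (mul_eq_zero.1 h1).resolve_left hF0
  obtain ⟨v, hv⟩ := LinearMap.surjective_of_injective hinj ⟨1, one_mem_L H _⟩
  have h1 := congrArg Subtype.val hv
  rw [LinearMap.coe_restrict_apply, LinearMap.mulLeft_apply] at h1
  have hv0 : (v : A) ≠ 0 := by
    intro h0
    rw [h0, mul_zero] at h1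
    exact zero_ne_one h1
  have h2 := H.mul _ _ hF0 hv0
  rw [h1] at h2
  have h3 := (H.mem _ _ hv0).1 v.2
  change o 1 = _ at h2
  rw [ord_one H] at h2
  push_cast at h3
  omega

theorem exists_deg {f : A} (hf : f ≠ 0) : ∃ m : ℕ, o f = -(m : ℤ) :=
  ⟨(-(o f)).toNat, by have := order_nonpos H hg hf; omega⟩

/-- the codimension of a principal ideal -/
theorem quot_fin {f : A} (hf : f ≠ 0) {m : ℕ} (hm : o f = -(m : ℤ)) :
    Module.Finite K (A ⧸ Ideal.span {f}) ∧ Module.finrank K (A ⧸ Ideal.span {f}) ≤ m := by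
  classical
  set π : A →ₗ[K] (A ⧸ Ideal.span {f}) := (Ideal.Quotient.mkₐ K (Ideal.span {f})).toLinearMap
    with hπ
  have hπs : Function.Surjective π := Ideal.Quotient.mkₐ_surjective K _
  -- the images of the spaces `L`
  have hW : ∀ n : ℕ, Module.Finite K (LinearMap.range (π ∘ₗ (L (n + 2 * g + m)).subtype)) ∧
      Module.finrank K (LinearMap.range (π ∘ₗ (L (n + 2 * g + m)).subtype)) ≤ m := by
    intro n
    have hf1 : Module.Finite K (L (n + 2 * g + m)) := fin_L H hg _
    have hf2 : Module.Finite K (L (n + 2 * g)) := fin_L H hg _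
    refine ⟨inferInstance, ?_⟩
    have h1 := LinearMap.finrank_range_add_finrank_ker (π ∘ₗ (L (n + 2 * g + m)).subtype)
    rw [hg _ (by omega)] at h1
    have hmem : ∀ v : L (n + 2 * g), f * (v : A) ∈ L (n + 2 * g + m) := by
      intro v
      rw [mul_comm f (v : A)]
      apply L_mul H v.2
      rw [H.mem _ _ hf, hm]
    have hker : ∀ v : L (n + 2 * g), (⟨f * (v : A), hmem v⟩ : L (n + 2 * g + m)) ∈
        LinearMap.ker (π ∘ₗ (L (n + 2 * g + m)).subtype) := by
      intro v
      rw [LinearMap.mem_ker]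
      exact Ideal.Quotient.eq_zero_iff_mem.2
        (Ideal.mul_mem_right _ _ (Ideal.mem_span_singleton_self f))
    let φ : L (n + 2 * g) →ₗ[K] LinearMap.ker (π ∘ₗ (L (n + 2 * g + m)).subtype) :=
      { toFun := fun v => ⟨⟨f * (v : A), hmem v⟩, hker v⟩
        map_add' := fun v w => by
          apply Subtype.ext; apply Subtype.ext
          exact mul_add _ _ _
        map_smul' := fun c v => by
          apply Subtype.ext; apply Subtype.ext
          exact mul_smul_comm _ _ _ }
    have hφ : Function.Injective φ := by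
      intro v w hvw
      apply Subtype.ext
      exact mul_left_cancel₀ hf (congrArg Subtype.val (congrArg Subtype.val hvw))
    have h2 := LinearMap.finrank_le_finrank_of_injective hφ
    rw [hg _ (by omega)] at h2
    omega
  have hrank : Module.rank K (A ⧸ Ideal.span {f}) ≤ m := by
    apply rank_le
    intro s hs
    have h1 : ∀ x : A ⧸ Ideal.span {f}, ∃ n, x ∈ (L n).map π := by
      intro x
      obtain ⟨y, rfl⟩ := hπs x
      obtain ⟨n, hn⟩ := exists_mem_L H y
      exact ⟨n, Submodule.mem_map_of_mem hn⟩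
    choose N hN using h1
    have h2 : Submodule.span K (s : Set (A ⧸ Ideal.span {f})) ≤
        LinearMap.range (π ∘ₗ (L (s.sup N + 2 * g + m)).subtype) := by
      rw [Submodule.span_le]
      intro x hx
      obtain ⟨y, hy, hyx⟩ := hN x
      have h3 : N x ≤ s.sup N := Finset.le_sup (f := N) hx
      exact ⟨⟨y, L_mono H (by omega) hy⟩, hyx⟩
    obtain ⟨h3, h4⟩ := hW (s.sup N)
    have h5 := Submodule.finrank_mono h2
    rw [finrank_span_finset_eq_card hs] at h5
    exact h5.trans h4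
  refine ⟨?_, ?_⟩
  · rw [← Module.rank_lt_aleph0_iff]
    exact hrank.trans_lt (Cardinal.natCast_lt_aleph0)
  · exact Module.finrank_le_of_rank_le hrank

/-- a nonzero element of small degree in an ideal of finite codimension -/
theorem exists_small {I : Ideal A} (hI : Module.Finite K (A ⧸ I)) {e : ℕ}
    (he : Module.finrank K (A ⧸ I) = e) : ∃ h ∈ I, h ≠ 0 ∧ h ∈ L (e + 2 * g) := by
  have hf : Module.Finite K (L (e + 2 * g)) := fin_L H hg _
  have h1 : LinearMap.ker ((Ideal.Quotient.mkₐ K I).toLinearMap ∘ₗ (L (e + 2 * g)).subtype) ≠ ⊥ := by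
    apply LinearMap.ker_ne_bot_of_finrank_lt
    rw [hg _ (by omega), he]
    omega
  obtain ⟨v, hv, hv0⟩ := Submodule.exists_mem_ne_zero_of_ne_bot h1
  refine ⟨v, Ideal.Quotient.eq_zero_iff_mem.1 hv, fun h0 => hv0 (Subtype.ext h0), v.2⟩

omit H hg

/-! ### tensors -/

theorem T_mul {P Q S : Submodule K A} (h : ∀ a ∈ P, ∀ b ∈ Q, a * b ∈ S) {G G' : A ⊗[K] A}
    (hG : G ∈ LinearMap.range (TensorProduct.map P.subtype P.subtype))
    (hG' : G' ∈ LinearMap.range (TensorProduct.map Q.subtype Q.subtype)) :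
    G * G' ∈ LinearMap.range (TensorProduct.map S.subtype S.subtype) := by
  obtain ⟨t, rfl⟩ := hG
  obtain ⟨u, rfl⟩ := hG'
  induction t using TensorProduct.induction_on with
  | zero => rw [map_zero, zero_mul]; exact zero_mem _
  | add x y hx hy => rw [map_add, add_mul]; exact add_mem hx hy
  | tmul a a' =>
    induction u using TensorProduct.induction_on with
    | zero => rw [map_zero, mul_zero]; exact zero_mem _
    | add x y hx hy => rw [map_add, mul_add]; exact add_mem hx hy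
    | tmul b b' =>
      rw [TensorProduct.map_tmul, TensorProduct.map_tmul, Algebra.TensorProduct.tmul_mul_tmul]
      exact ⟨(⟨(a : A) * b, h _ a.2 _ b.2⟩ : S) ⊗ₜ (⟨(a' : A) * b', h _ a'.2 _ b'.2⟩ : S),
        TensorProduct.map_tmul _ _ _ _⟩

theorem T_div {P S : Submodule K A} {h F : A} (hd : ∀ a ∈ P, ∃ y ∈ S, h * a = F * y)
    {G : A ⊗[K] A} (hG : G ∈ LinearMap.range (TensorProduct.map P.subtype P.subtype)) :
    ∃ G' ∈ LinearMap.range (TensorProduct.map S.subtype S.subtype),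
      (h ⊗ₜ[K] h) * G = (F ⊗ₜ[K] F) * G' := by
  obtain ⟨t, rfl⟩ := hG
  induction t using TensorProduct.induction_on with
  | zero => exact ⟨0, zero_mem _, by rw [map_zero, mul_zero, mul_zero]⟩
  | add x y hx hy =>
    obtain ⟨X, hX, hX'⟩ := hx
    obtain ⟨Y, hY, hY'⟩ := hy
    exact ⟨X + Y, add_mem hX hY, by rw [map_add, mul_add, hX', hY', mul_add]⟩
  | tmul a a' =>
    obtain ⟨y, hy, e⟩ := hd _ a.2
    obtain ⟨y', hy', e'⟩ := hd _ a'.2
    refine ⟨y ⊗ₜ y', ⟨(⟨y, hy⟩ : S) ⊗ₜ (⟨y', hy'⟩ : S), TensorProduct.map_tmul _ _ _ _⟩, ?_⟩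
    rw [TensorProduct.map_tmul, Algebra.TensorProduct.tmul_mul_tmul,
      Algebra.TensorProduct.tmul_mul_tmul]
    change (h * (a : A)) ⊗ₜ[K] (h * (a' : A)) = _
    rw [e, e']

include H in
theorem T_pow {n : ℕ} {J : Ideal A} {G : A ⊗[K] A}
    (hG : G ∈ LinearMap.range (TensorProduct.map (L n ⊓ J.restrictScalars K).subtype
      (L n ⊓ J.restrictScalars K).subtype)) (k : ℕ) :
    G ^ k ∈ LinearMap.range (TensorProduct.map (L (k * n) ⊓ (J ^ k).restrictScalars K).subtype
      (L (k * n) ⊓ (J ^ k).restrictScalars K).subtype) := by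
  induction k with
  | zero =>
    have h1 : (1 : A) ∈ L (0 * n) ⊓ (J ^ 0).restrictScalars K := by
      refine ⟨one_mem_L H _, ?_⟩
      rw [pow_zero, Ideal.one_eq_top]
      exact Submodule.mem_top
    rw [pow_zero]
    exact ⟨(⟨1, h1⟩ : ↥(L (0 * n) ⊓ (J ^ 0).restrictScalars K)) ⊗ₜ
      (⟨1, h1⟩ : ↥(L (0 * n) ⊓ (J ^ 0).restrictScalars K)), TensorProduct.map_tmul _ _ _ _⟩
  | succ k ih =>
    rw [pow_succ]
    refine T_mul ?_ ih hG
    rintro a ⟨ha, ha'⟩ b ⟨hb, hb'⟩
    refine ⟨?_, ?_⟩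
    · rw [Nat.succ_mul]
      exact L_mul H ha hb
    · exact Ideal.mul_mem_mul ha' hb'

/-! ### powers of ideals -/

theorem quot_pow
    (hC : ∀ {I J : Ideal A}, I ≠ ⊥ → J ≠ ⊥ → Module.Finite K (A ⧸ I) → Module.Finite K (A ⧸ J) →
      Module.Finite K (A ⧸ (I * J)) ∧
      Module.finrank K (A ⧸ (I * J)) = Module.finrank K (A ⧸ I) + Module.finrank K (A ⧸ J))
    {I : Ideal A} (hI : I ≠ ⊥) (hf : Module.Finite K (A ⧸ I)) (k : ℕ) :
    Module.Finite K (A ⧸ I ^ k) ∧
      Module.finrank K (A ⧸ I ^ k) = k * Module.finrank K (A ⧸ I) := by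
  induction k with
  | zero =>
    rw [pow_zero, Ideal.one_eq_top]
    have : Subsingleton (A ⧸ (⊤ : Ideal A)) := Ideal.Quotient.subsingleton_iff.2 rfl
    exact ⟨inferInstance, by rw [Module.finrank_zero_of_subsingleton, zero_mul]⟩
  | succ k ih =>
    rw [pow_succ]
    obtain ⟨h1, h2⟩ := hC (pow_ne_zero k hI) hI ih.1 hf
    exact ⟨h1, by rw [h2, ih.2]; ring⟩

theorem fin_of_le {I J : Ideal A} (h : I ≤ J) (hI : Module.Finite K (A ⧸ I)) :
    Module.Finite K (A ⧸ J) :=
  Module.Finite.of_surjective (Ideal.Quotient.factorₐ K h).toLinearMap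
    (Ideal.Quotient.factor_surjective h)

include H hg in
/-- the abstract form -/
theorem main [IsDedekindDomain A] (hdom : ∀ x y : A ⊗[K] A, x ≠ 0 → y ≠ 0 → x * y ≠ 0)
    (htm : ∀ x : A, x ≠ 0 → x ⊗ₜ[K] x ≠ 0)
    (hC : ∀ {I J : Ideal A}, I ≠ ⊥ → J ≠ ⊥ → Module.Finite K (A ⧸ I) → Module.Finite K (A ⧸ J) →
      Module.Finite K (A ⧸ (I * J)) ∧
      Module.finrank K (A ⧸ (I * J)) = Module.finrank K (A ⧸ I) + Module.finrank K (A ⧸ J))
    (V : ℕ → A ⊗[K] A → Prop) (hV0 : ∀ x, V 0 x)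
    (hVm : ∀ γ δ x y, V γ x → V δ y → V (γ + δ) (x * y))
    (hVc : ∀ (γ : ℕ) (x : A ⊗[K] A) (c : A), c ≠ 0 → V γ ((c ⊗ₜ[K] c) * x) → V γ x) {c : ℝ}
    (hB : ∀ (n γ : ℕ) (G : A ⊗[K] A), 0 < γ → G ≠ 0 →
      G ∈ LinearMap.range (TensorProduct.map (L n).subtype (L n).subtype) → V γ G → c * γ < n)
    (J : Ideal A) (n γ : ℕ) (G : A ⊗[K] A) (hG : G ≠ 0)
    (hGm : G ∈ LinearMap.range (TensorProduct.map (L n ⊓ J.restrictScalars K).subtype
      (L n ⊓ J.restrictScalars K).subtype))
    (hGV : V γ G) : c * γ + Module.finrank K (A ⧸ J) ≤ n := by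
  -- a nonzero function in `J`
  have h1 : ∃ f : A, f ∈ L n ∧ f ∈ J ∧ f ≠ 0 := by
    by_contra hcon
    push Not at hcon
    apply hG
    obtain ⟨t, rfl⟩ := hGm
    clear hGV hG
    induction t using TensorProduct.induction_on with
    | zero => rw [map_zero]
    | add x y hx hy => rw [map_add, hx, hy, add_zero]
    | tmul a a' =>
      rw [TensorProduct.map_tmul]
      change (a : A) ⊗ₜ[K] (a' : A) = 0
      rw [hcon _ a.2.1 a.2.2, TensorProduct.zero_tmul]
  obtain ⟨f, hfn, hfJ, hf0⟩ := h1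
  obtain ⟨m, hm⟩ := exists_deg H hg hf0
  have hmn : m ≤ n := by
    have := (H.mem _ _ hf0).1 hfn
    omega
  obtain ⟨hfin, hle⟩ := quot_fin H hg hf0 hm
  obtain ⟨I, hI⟩ := (Ideal.dvd_span_singleton.2 hfJ)
  have hsp : Ideal.span {f} ≠ ⊥ := by
    rw [Ne, Ideal.span_singleton_eq_bot]
    exact hf0
  have hJ0 : J ≠ ⊥ := by
    rintro rfl
    exact hf0 hfJ
  have hI0 : I ≠ ⊥ := by
    rintro rfl
    apply hsp
    rw [hI]
    exact mul_zero J
  have hJfin : Module.Finite K (A ⧸ J) := fin_of_le (hI ▸ Ideal.mul_le_left) hfin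
  have hIfin : Module.Finite K (A ⧸ I) := fin_of_le (hI ▸ Ideal.mul_le_right) hfin
  have hde : Module.finrank K (A ⧸ J) + Module.finrank K (A ⧸ I) ≤ m := by
    have := (hC hJ0 hI0 hJfin hIfin).2
    rw [← this, ← hI]
    exact hle
  set d := Module.finrank K (A ⧸ J) with hd
  set e := Module.finrank K (A ⧸ I) with he
  clear_value d e
  obtain ⟨r, hr⟩ := Nat.exists_eq_add_of_le (show d ≤ n by omega)
  -- the inequalities for the powers
  have hk : 0 < γ → ∀ k : ℕ, 0 < k → c * ((k * γ : ℕ) : ℝ) < ((k * r + 2 * g : ℕ) : ℝ) := by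
    intro hγ k hk
    obtain ⟨h2, h3⟩ := quot_pow hC hI0 hIfin k
    rw [← he] at h3
    obtain ⟨h, hhI, hh0, hhL⟩ := exists_small H hg h2 h3
    have hF0 : f ^ k ≠ 0 := pow_ne_zero _ hf0
    have hdiv : ∀ a ∈ L (k * n) ⊓ (J ^ k).restrictScalars K, ∃ y ∈ L (k * r + 2 * g),
        h * a = f ^ k * y := by
      rintro a ⟨ha, haJ⟩
      have h4 : h * a ∈ Ideal.span {f ^ k} := by
        rw [← Ideal.span_singleton_pow, hI, mul_pow, mul_comm (J ^ k)]
        exact Ideal.mul_mem_mul hhI haJ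
      obtain ⟨y, hy⟩ := Ideal.mem_span_singleton.1 h4
      refine ⟨y, ?_, hy⟩
      by_cases hy0 : y = 0
      · rw [hy0]; exact zero_mem _
      have ha0 : a ≠ 0 := by
        rintro rfl
        rw [mul_zero] at hy
        exact mul_ne_zero hF0 hy0 hy.symm
      have h5 := H.mul _ _ hh0 ha0
      rw [hy, H.mul _ _ hF0 hy0, ord_pow H hf0, hm] at h5
      rw [H.mem _ _ hh0] at hhL
      rw [SetLike.mem_coe, H.mem _ _ ha0] at ha
      rw [H.mem _ _ hy0]
      have h6 : (k : ℤ) * (d + e) ≤ k * m := by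
        have : k * (d + e) ≤ k * m := Nat.mul_le_mul_left _ hde
        exact_mod_cast this
      have h7 : (k : ℤ) * n = k * d + k * r := by
        rw [hr]; push_cast; ring
      push_cast at hhL ha ⊢
      have h8 : (k : ℤ) * (d + e) = k * d + k * e := by ring
      have h9 : (k : ℤ) * -(m : ℤ) = - (k * m) := by ring
      rw [h9] at h5
      linarith
    obtain ⟨G', hG', he'⟩ := T_div hdiv (T_pow H hGm k)
    have hVp : ∀ k : ℕ, V (k * γ) (G ^ k) := by
      intro k
      induction k with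
      | zero => rw [Nat.zero_mul]; exact hV0 _
      | succ k ih =>
        rw [Nat.succ_mul, pow_succ]
        exact hVm _ _ _ _ ih hGV
    have hGp : ∀ k : ℕ, 0 < k → G ^ k ≠ 0 := by
      intro k hk
      induction k, hk using Nat.le_induction with
      | base => change G ^ 1 ≠ 0; rw [pow_one]; exact hG
      | succ k _ ih => rw [pow_succ]; exact hdom _ _ ih hG
    have hV' := hVm 0 (k * γ) (h ⊗ₜ[K] h) (G ^ k) (hV0 _) (hVp k)
    rw [he', Nat.zero_add] at hV'
    have hne : (h ⊗ₜ[K] h) * G ^ k ≠ 0 := hdom _ _ (htm h hh0) (hGp k hk)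
    rw [he'] at hne
    have hG0 : G' ≠ 0 := by
      rintro rfl
      exact hne (mul_zero _)
    exact hB _ _ G' (Nat.mul_pos hk hγ) hG0 hG' (hVc _ _ _ hF0 hV')
  rcases Nat.eq_zero_or_pos γ with hγ | hγ
  · rw [hγ, Nat.cast_zero, mul_zero, zero_add]
    have : d ≤ n := by omega
    exact_mod_cast this
  · by_contra hcon
    rw [not_le] at hcon
    have h2 : (0 : ℝ) < c * γ - r := by
      have : (n : ℝ) = d + r := by rw [hr]; push_cast; ring
      linarith
    obtain ⟨k, hk'⟩ := exists_nat_gt ((2 * g : ℝ) / (c * γ - r))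
    have h3 := hk hγ (k + 1) (Nat.succ_pos k)
    rw [div_lt_iff₀ h2] at hk'
    push_cast at h3
    nlinarith

end abs

/-! ### the square is a domain -/

/-- Laurent series over `A` -/
def HR (A : Type) [CommRing A] : Type := HahnSeries ℤ A

noncomputable instance (A : Type) [CommRing A] : CommRing (HR A) :=
  inferInstanceAs (CommRing (HahnSeries ℤ A))

instance (A : Type) [CommRing A] [IsDomain A] : IsDomain (HR A) :=
  inferInstanceAs (IsDomain (HahnSeries ℤ A))

noncomputable instance (K A : Type) [Field K] [CommRing A] [Algebra K A] : Algebra K (HR A) :=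
  RingHom.toAlgebra ((HahnSeries.C : A →+* HahnSeries ℤ A).comp (algebraMap K A))

section dom

variable {K A : Type} [Field K] [CommRing A] [IsDomain A] [Algebra K A]

/-- extension of scalars -/
noncomputable def mapA (K A : Type) [Field K] [CommRing A] [Algebra K A] :
    LaurentSeries K →+* HahnSeries ℤ A where
  toFun x := HahnSeries.map x (algebraMap K A)
  map_one' := HahnSeries.map_one (algebraMap K A).toMonoidWithZeroHom
  map_mul' x y := HahnSeries.map_mul (algebraMap K A).toNonUnitalRingHom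
  map_zero' := by ext; simp
  map_add' x y := by ext; simp

theorem coeff_mapA (x : LaurentSeries K) (k : ℤ) :
    (mapA K A x).coeff k = algebraMap K A (x.coeff k) := rfl

variable (E : A →+* LaurentSeries K) (hE : ∀ c, E (algebraMap K A c) = HahnSeries.C c)

/-- the first factor -/
noncomputable def inA : A →ₐ[K] HR A where
  toRingHom := (mapA K A).comp E
  commutes' := fun c => by
    change mapA K A (E (algebraMap K A c)) = HahnSeries.C (algebraMap K A c)
    rw [hE]
    exact HahnSeries.map_C c (algebraMap K A)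

/-- the second factor -/
noncomputable def inB : A →ₐ[K] HR A where
  toRingHom := (HahnSeries.C : A →+* HahnSeries ℤ A)
  commutes' := fun _ => rfl

/-- the expansion -/
noncomputable def Phi : A ⊗[K] A →ₐ[K] HR A := Algebra.TensorProduct.productMap (inA E hE) inB

theorem Phi_tmul (x y : A) : Phi E hE (x ⊗ₜ y) =
    (mapA K A (E x) * HahnSeries.C y : HahnSeries ℤ A) :=
  Algebra.TensorProduct.productMap_apply_tmul _ _ _ _

theorem coeff_Phi (cf : ℤ → A →ₗ[K] K) (hcf : ∀ k x, cf k x = (E x).coeff k) (s : A ⊗[K] A)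
    (k : ℤ) : (Phi E hE s : HahnSeries ℤ A).coeff k =
      TensorProduct.lid K A (LinearMap.rTensor A (cf k) s) := by
  induction s using TensorProduct.induction_on with
  | zero => rw [map_zero, map_zero, map_zero]; rfl
  | add x y hx hy =>
    rw [map_add, map_add, map_add, ← hx, ← hy]
    rfl
  | tmul x y =>
    rw [Phi_tmul, mul_comm, HahnSeries.C_mul_eq_smul, HahnSeries.coeff_smul, coeff_mapA,
      LinearMap.rTensor_tmul, TensorProduct.lid_tmul, hcf, smul_eq_mul, mul_comm,
      Algebra.smul_def]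

theorem Phi_inj (cf : ℤ → A →ₗ[K] K) (hcf : ∀ k x, cf k x = (E x).coeff k)
    (hinj : ∀ x, E x = 0 → x = 0) (s : A ⊗[K] A) (h : Phi E hE s = 0) : s = 0 := by
  apply P10.ev_inj (cf := cf)
  · intro x hx
    apply hinj
    ext k
    rw [← hcf, hx]
    rfl
  · intro k l
    have h1 : TensorProduct.lid K A (LinearMap.rTensor A (cf k) s) = 0 := by
      rw [← coeff_Phi E hE cf hcf, h]
      rfl
    have h2 : P10.ev cf k l s = cf l (TensorProduct.lid K A (LinearMap.rTensor A (cf k) s)) := by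
      clear h h1
      induction s using TensorProduct.induction_on with
      | zero => simp
      | add x y hx hy => simp only [map_add, hx, hy]
      | tmul x y =>
        rw [P10.ev_tmul, LinearMap.rTensor_tmul, TensorProduct.lid_tmul, map_smul, smul_eq_mul]
    rw [h2, h1, map_zero]

include hE in
theorem dom_mul (cf : ℤ → A →ₗ[K] K) (hcf : ∀ k x, cf k x = (E x).coeff k)
    (hinj : ∀ x, E x = 0 → x = 0) (x y : A ⊗[K] A) (hx : x ≠ 0) (hy : y ≠ 0) : x * y ≠ 0 := by
  intro h
  have h1 : Phi E hE x * Phi E hE y = 0 := by rw [← map_mul, h, map_zero]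
  rcases mul_eq_zero.1 h1 with h2 | h2
  · exact hx (Phi_inj E hE cf hcf hinj x h2)
  · exact hy (Phi_inj E hE cf hcf hinj y h2)

include hE in
theorem dom_tmul (hinj : ∀ x, E x = 0 → x = 0) (x : A) (hx : x ≠ 0) : x ⊗ₜ[K] x ≠ 0 := by
  intro h
  have h1 : (mapA K A (E x) * HahnSeries.C x : HahnSeries ℤ A) = 0 := by
    rw [← Phi_tmul E hE, h, map_zero]
    rfl
  rcases mul_eq_zero.1 h1 with h2 | h2
  · apply hx
    apply hinj
    ext k
    have h3 := congrArg (fun z : HahnSeries ℤ A => z.coeff k) h2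
    change algebraMap K A ((E x).coeff k) = 0 at h3
    exact (map_eq_zero_iff _ (algebraMap K A).injective).1 h3
  · exact hx ((map_eq_zero_iff _ HahnSeries.C_injective).1 h2)

end dom

end P25

variable {K : Type} [Field K]

theorem all_line_bundles_of [IsAlgClosed K] {R : Subalgebra K (LaurentSeries K)} {g : ℕ}
    [IsDedekindDomain R]
    (hmul : ∀ {γ δ : ℕ} {G H : R ⊗[K] R}, FV R γ G → FV R δ H → FV R (γ + δ) (G * H))
    (hcancel : ∀ {γ : ℕ} {G : R ⊗[K] R} {c : R}, c ≠ 0 → FV R γ ((c ⊗ₜ[K] c) * G) → FV R γ G)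
    (hquot : ∀ {I J : Ideal R}, I ≠ ⊥ → J ≠ ⊥ → Module.Finite K (R ⧸ I) → Module.Finite K (R ⧸ J) →
      Module.Finite K (R ⧸ (I * J)) ∧
      Module.finrank K (R ⧸ (I * J)) = Module.finrank K (R ⧸ I) + Module.finrank K (R ⧸ J))
    (hg : ∀ n : ℕ, 2 * g ≤ n + 1 → Module.finrank K (Lp R n) = n + 1 - g)
    {c : ℝ} (h : DiagBoundF R c) : DiagBoundJ R c := by
  have hE : ∀ c : K, (R.val.toRingHom : R →+* LaurentSeries K) (algebraMap K R c) =
      HahnSeries.C c := fun c => LaurentSeries.algebraMap_apply K c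
  have hinj : ∀ x : R, (R.val.toRingHom : R →+* LaurentSeries K) x = 0 → x = 0 :=
    fun x hx => Subtype.ext hx
  have H : P25.Ord (K := K) (A := R) (fun x => (x : LaurentSeries K).order) (Lp R) :=
    { mul := fun x y hx hy => HahnSeries.order_mul (fun h0 => hx (Subtype.ext h0))
        (fun h0 => hy (Subtype.ext h0))
      mem := fun n x hx => by
        have hx' : (x : LaurentSeries K) ≠ 0 := fun h0 => hx (Subtype.ext h0)
        constructor
        · intro hm
          by_contra hlt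
          exact HahnSeries.coeff_order_eq_zero.not.2 hx' (hm _ (not_le.1 hlt))
        · intro hm k hk
          exact HahnSeries.coeff_eq_zero_of_lt_order (lt_of_lt_of_le hk hm) }
  intro J n γ G hJ hG hGm hGV
  exact P25.main H hg (P25.dom_mul _ hE (P10.cfl R) (fun _ _ => rfl) hinj) (P25.dom_tmul _ hE hinj)
    hquot (FV R) (fun _ _ hj => absurd hj (Nat.not_lt_zero _)) (fun _ _ _ _ => hmul)
    (fun _ _ _ => hcancel) h J n γ G hG hGm hGV

theorem P25.quot_aux [IsAlgClosed K] {R : Subalgebra K (LaurentSeries K)} [IsDedekindDomain R]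
    {I J : Ideal R} (hI : I ≠ ⊥) (hJ : J ≠ ⊥) (_ : Module.Finite K (R ⧸ I))
    (_ : Module.Finite K (R ⧸ J)) :
    Module.Finite K (R ⧸ (I * J)) ∧
      Module.finrank K (R ⧸ (I * J)) = Module.finrank K (R ⧸ I) + Module.finrank K (R ⧸ J) :=
  finrank_quot_mul (K := K) (R := R) hI hJ

theorem all_line_bundles [IsAlgClosed K] {R : Subalgebra K (LaurentSeries K)} {g : ℕ}
    [IsDedekindDomain R] (hg : ∀ n : ℕ, 2 * g ≤ n + 1 → Module.finrank K (Lp R n) = n + 1 - g)
    {c : ℝ} (h : DiagBoundF R c) : DiagBoundJ R c :=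
  all_line_bundles_of (R := R) (fun {_ _ _ _} h1 h2 => FV_mul h1 h2)
    (fun {_ _ _} h1 h2 => FV_cancel h1 h2)
    (fun {_ _} h1 h2 h3 h4 => P25.quot_aux h1 h2 h3 h4) hg h

end Pool.Agent.TH549.CK
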