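import Pool.Agent.TH549.CK.Defs2
import Pool.Agent.TH291.C2.Ded

/-! CK-26: the affine ring of a smooth pointed curve is a Dedekind domain of finite type. -/

set_option autoImplicit false

namespace Pool.Agent.TH549.CK

open TensorProduct

variable {K : Type} [Field K]

namespace P26

theorem mem_Lp_iff {R : Subalgebra K (LaurentSeries K)} {n : ℕ} {f : R} :
    f ∈ Lp R n ↔ (f = 0 ∨ -(n : ℤ) ≤ (f : LaurentSeries K).order) := by
  rw [mem_Lp]
  constructor
  · intro h
    by_cases hf : (f : LaurentSeries K) = 0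
    · left; exact Subtype.ext hf
    · right
      by_contra hlt
      push Not at hlt
      exact (HahnSeries.coeff_order_eq_zero.not.2 hf) (h _ hlt)
  · rintro (h | h) k hk
    · subst h; simp
    · exact HahnSeries.coeff_eq_zero_of_lt_order (lt_of_lt_of_le hk h)

theorem Lp_mono (R : Subalgebra K (LaurentSeries K)) : Monotone (Lp R) := by
  intro m n hmn f hf k hk
  exact hf k (by omega)

theorem Lp_top (R : Subalgebra K (LaurentSeries K)) (f : R) : ∃ n, f ∈ Lp R n := by
  refine ⟨(-(f : LaurentSeries K).order).toNat, mem_Lp_iff.2 (Or.inr ?_)⟩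
  have := Int.self_le_toNat (-(f : LaurentSeries K).order)
  omega

theorem Lp_mul {R : Subalgebra K (LaurentSeries K)} {m n : ℕ} {f h : R} (hf : f ∈ Lp R m)
    (hh : h ∈ Lp R n) : f * h ∈ Lp R (m + n) := by
  rw [mem_Lp_iff] at hf hh ⊢
  rcases hf with rfl | hf
  · left; simp
  rcases hh with rfl | hh
  · left; simp
  by_cases hf0 : (f : LaurentSeries K) = 0
  · left; rw [Subtype.ext hf0 (a2 := (0 : R)), zero_mul]
  by_cases hh0 : (h : LaurentSeries K) = 0
  · left; rw [Subtype.ext hh0 (a2 := (0 : R)), mul_zero]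
  right
  have e : ((f * h : R) : LaurentSeries K) = (f : LaurentSeries K) * (h : LaurentSeries K) := rfl
  rw [e, HahnSeries.order_mul hf0 hh0]
  push_cast
  omega

theorem Lp_mul' {R : Subalgebra K (LaurentSeries K)} {m n : ℕ} {f h : R} (hf : f ∉ Lp R m)
    (hh : h ∉ Lp R n) : f * h ∉ Lp R (m + n + 1) := by
  rw [mem_Lp_iff] at hf hh ⊢
  push Not at hf hh ⊢
  have hf0 : (f : LaurentSeries K) ≠ 0 := fun h0 => hf.1 (Subtype.ext h0)
  have hh0 : (h : LaurentSeries K) ≠ 0 := fun h0 => hh.1 (Subtype.ext h0)
  have e : ((f * h : R) : LaurentSeries K) = (f : LaurentSeries K) * (h : LaurentSeries K) := rfl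
  refine ⟨fun h0 => ?_, ?_⟩
  · have : ((f * h : R) : LaurentSeries K) = 0 := by rw [h0]; rfl
    rw [e] at this
    exact mul_ne_zero hf0 hh0 this
  · rw [e, HahnSeries.order_mul hf0 hh0]
    push_cast
    have h1 := hf.2
    have h2 := hh.2
    omega

theorem finite_gen {k A : Type} [Field k] [CommRing A] [Algebra k A] (V : Submodule k A)
    (h : 0 < Module.finrank k V) : Module.Finite k V :=
  Module.finite_of_finrank_pos h

theorem finite_le {k A : Type} [Field k] [CommRing A] [Algebra k A] {V W : Submodule k A}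
    (hW : Module.Finite k W) (h : V ≤ W) : Module.Finite k V :=
  Submodule.finiteDimensional_of_le h

theorem Lp_finite {R : Subalgebra K (LaurentSeries K)} {g : ℕ} (h : IsSmoothCurve R g) (n : ℕ) :
    Module.Finite K (Lp R n) := by
  have h1 := h.genus (n + 2 * g) (by omega)
  have h2 : Module.Finite K (Lp R (n + 2 * g)) := finite_gen (Lp R (n + 2 * g)) (by omega)
  exact finite_le h2 (Lp_mono R (Nat.le_add_right n (2 * g)))

theorem algebraMap_mem (R : Subalgebra K (LaurentSeries K)) (c : K) (n : ℕ) :
    algebraMap K R c ∈ Lp R n := by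
  intro k hk
  have e : ((algebraMap K R c : R) : LaurentSeries K) = HahnSeries.C c := by
    have : ((algebraMap K R c : R) : LaurentSeries K) = algebraMap K (LaurentSeries K) c := rfl
    rw [this, LaurentSeries.algebraMap_apply]
  rw [e, HahnSeries.C_apply, HahnSeries.coeff_single_of_ne (by omega)]

/-- the ring of functions without pole -/
def S0 (R : Subalgebra K (LaurentSeries K)) : Subalgebra K R where
  carrier := {f | f ∈ Lp R 0}
  mul_mem' := fun {x y} hx hy => by
    have := Lp_mul (m := 0) (n := 0) hx hy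
    exact this
  add_mem' := fun {x y} hx hy => (Lp R 0).add_mem hx hy
  algebraMap_mem' := fun c => algebraMap_mem R c 0

theorem Lp_zero [IsAlgClosed K] {R : Subalgebra K (LaurentSeries K)} {g : ℕ}
    (h : IsSmoothCurve R g) (a : R) : a ∈ Lp R 0 ↔ ∃ c : K, a = algebraMap K R c := by
  constructor
  · intro ha
    have hfin : Module.Finite K (S0 R) := by
      have h1 := Lp_finite h 0
      have h2 : Subalgebra.toSubmodule (S0 R) = Lp R 0 := by
        ext x; rfl
      have h3 : Module.Finite K (Subalgebra.toSubmodule (S0 R)) := by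
        rw [h2]; exact h1
      exact h3
    have hint : Algebra.IsIntegral K (S0 R) := Algebra.IsIntegral.of_finite K (S0 R)
    obtain ⟨c, hc⟩ := IsAlgClosed.algebraMap_bijective_of_isIntegral (k := K) (K := S0 R) |>.2 ⟨a, ha⟩
    refine ⟨c, ?_⟩
    have := congrArg (fun z : S0 R => (z : R)) hc
    simpa using this.symm
  · rintro ⟨c, rfl⟩
    exact algebraMap_mem R c 0

end P26

theorem dedekind_of_smooth [IsAlgClosed K] [CharZero K] {R : Subalgebra K (LaurentSeries K)} {g : ℕ}
    (h : IsSmoothCurve R g) : IsDedekindDomain R ∧ Algebra.FiniteType K R := by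
  have hc := Pool.Agent.TH291.C2.isPointedCurve_of (k := K) (A := R) (V := Lp R) (g := g) h.normal
    (P26.Lp_mono R) (P26.Lp_top R) (P26.Lp_zero h) P26.Lp_mul P26.Lp_mul' (P26.Lp_finite h) h.genus
  exact ⟨hc.dedekind, hc.finiteType⟩

end Pool.Agent.TH549.CK
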