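import Pool.Agent.TH549.CK.Defs2

/-! CK-22: on a smooth curve the order along the diagonal given by the divided derivatives is the
order given by the powers of the ideal of the diagonal. -/

set_option autoImplicit false

namespace Pool.Agent.TH549.CK
open TensorProduct
variable {K : Type} [Field K]

namespace P22

theorem coeff_mul_Icc (f g : LaurentSeries K) (n A B : ℤ) (hA : ∀ k, k < A → f.coeff k = 0)
    (hB : ∀ k, B < k → g.coeff (n - k) = 0) :
    (f * g).coeff n = ∑ a ∈ Finset.Icc A B, f.coeff a * g.coeff (n - a) := by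
  rw [HahnSeries.coeff_mul]
  refine Finset.sum_of_injOn (fun ij => ij.1) ?_ ?_ ?_ ?_
  · intro x hx y hy h
    have hx' := (Finset.mem_antidiagonal.1 (Finset.mem_coe.1 hx)).2.2
    have hy' := (Finset.mem_antidiagonal.1 (Finset.mem_coe.1 hy)).2.2
    simp only at h
    ext
    · exact h
    · omega
  · intro x hx
    have hx' := Finset.mem_antidiagonal.1 (Finset.mem_coe.1 hx)
    simp only [Finset.coe_Icc, Set.mem_Icc]
    constructor
    · by_contra h
      exact hx'.1 (hA _ (not_le.1 h))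
    · by_contra h
      apply hx'.2.1
      rw [show x.2 = n - x.1 by omega]
      exact hB _ (not_le.1 h)
  · intro a _ ha
    by_contra h
    apply ha
    refine ⟨(a, n - a), ?_, rfl⟩
    rw [Finset.mem_coe, Finset.mem_antidiagonal]
    exact ⟨left_ne_zero_of_mul h, right_ne_zero_of_mul h, by simp⟩
  · intro x hx
    have hx' := (Finset.mem_antidiagonal.1 hx).2.2
    rw [show n - x.1 = x.2 by omega]

/-- the Leibniz rule -/
theorem hasse_mul (k : ℕ) (f g : LaurentSeries K) :
    LaurentSeries.hasseDeriv K k (f * g) = ∑ ij ∈ Finset.HasAntidiagonal.antidiagonal k,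
      LaurentSeries.hasseDeriv K ij.1 f * LaurentSeries.hasseDeriv K ij.2 g := by
  ext n
  have hf : ∀ m, m < f.order → f.coeff m = 0 := fun m hm => HahnSeries.coeff_eq_zero_of_lt_order hm
  have hg : ∀ m, m < g.order → g.coeff m = 0 := fun m hm => HahnSeries.coeff_eq_zero_of_lt_order hm
  set A := f.order with hA
  set B := n + k - g.order with hB
  have hl : (f * g).coeff (n + k) = ∑ a ∈ Finset.Icc A B, f.coeff a * g.coeff (n + k - a) :=
    coeff_mul_Icc f g (n + k) A B hf (fun m hm => hg _ (by omega))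
  rw [LaurentSeries.hasseDeriv_coeff, hl, HahnSeries.coeff_sum]
  have hr : ∀ ij ∈ Finset.HasAntidiagonal.antidiagonal k,
      (LaurentSeries.hasseDeriv K ij.1 f * LaurentSeries.hasseDeriv K ij.2 g).coeff n =
        ∑ a ∈ Finset.Icc A B, (Ring.choose a ij.1 * Ring.choose (n + k - a) ij.2) •
          (f.coeff a * g.coeff (n + k - a)) := by
    intro ij hij
    have hij' : ij.1 + ij.2 = k := Finset.HasAntidiagonal.mem_antidiagonal.1 hij
    have hk : (k : ℤ) = ij.1 + ij.2 := by omega
    rw [coeff_mul_Icc _ _ n (A - ij.1) (B - ij.1)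
      (fun m hm => by rw [LaurentSeries.hasseDeriv_coeff, hf _ (by omega), smul_zero])
      (fun m hm => by rw [LaurentSeries.hasseDeriv_coeff, hg _ (by omega), smul_zero])]
    refine Finset.sum_nbij' (fun a => a + ij.1) (fun a => a - ij.1) ?_ ?_ ?_ ?_ ?_
    · intro a ha
      rw [Finset.mem_Icc] at ha ⊢
      omega
    · intro a ha
      rw [Finset.mem_Icc] at ha ⊢
      omega
    · intro a _
      simp
    · intro a _
      simp
    · intro a _
      rw [LaurentSeries.hasseDeriv_coeff, LaurentSeries.hasseDeriv_coeff]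
      have e : n + (k : ℤ) - (a + ij.1) = n - a + ij.2 := by omega
      rw [e, mul_smul]
      rw [smul_mul_assoc, mul_smul_comm]
  rw [Finset.sum_congr rfl hr, Finset.sum_comm, Finset.smul_sum]
  refine Finset.sum_congr rfl fun a _ => ?_
  rw [← Finset.sum_smul, ← Ring.add_choose_eq k (Commute.all a (n + k - a))]
  congr 2
  ring

theorem sj_mul (R : Subalgebra K (LaurentSeries K)) (k : ℕ) (x y : R ⊗[K] R) :
    sj R k (x * y) = ∑ ij ∈ Finset.HasAntidiagonal.antidiagonal k, sj R ij.1 x * sj R ij.2 y := by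
  induction x with
  | zero => simp
  | add x x' hx hx' =>
    rw [add_mul, map_add, hx, hx', ← Finset.sum_add_distrib]
    refine Finset.sum_congr rfl fun ij _ => ?_
    rw [map_add, add_mul]
  | tmul f h =>
    induction y with
    | zero => simp
    | add y y' hy hy' =>
      rw [mul_add, map_add, hy, hy', ← Finset.sum_add_distrib]
      refine Finset.sum_congr rfl fun ij _ => ?_
      rw [map_add, mul_add]
    | tmul f' h' =>
      rw [Algebra.TensorProduct.tmul_mul_tmul, sj_tmul, Subalgebra.coe_mul, hasse_mul,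
        Finset.sum_mul]
      refine Finset.sum_congr rfl fun ij _ => ?_
      rw [sj_tmul, sj_tmul, Subalgebra.coe_mul]
      ring

theorem sj_zero_eq (R : Subalgebra K (LaurentSeries K)) (x : R ⊗[K] R) :
    sj R 0 x = ((Algebra.TensorProduct.lmul' K x : R) : LaurentSeries K) := by
  induction x with
  | zero => simp
  | add x x' hx hx' => rw [map_add, hx, hx', map_add, Subalgebra.coe_add]
  | tmul f h =>
    rw [sj_tmul, LaurentSeries.hasseDeriv_zero, Algebra.TensorProduct.lmul'_apply_tmul,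
      Subalgebra.coe_mul]
    rfl

section lead

variable {B L : Type} [CommRing B] [CommRing L] {s : ℕ → B → L}

theorem s_mul_le (hmul : ∀ k x y, s k (x * y) =
    ∑ ij ∈ Finset.HasAntidiagonal.antidiagonal k, s ij.1 x * s ij.2 y) {a b : ℕ} {x y : B}
    (hx : ∀ i < a, s i x = 0) (hy : ∀ i < b, s i y = 0) :
    (∀ i < a + b, s i (x * y) = 0) ∧ s (a + b) (x * y) = s a x * s b y := by
  constructor
  · intro k hk
    rw [hmul]
    refine Finset.sum_eq_zero fun ij hij => ?_
    have hij' := Finset.HasAntidiagonal.mem_antidiagonal.1 hij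
    rcases lt_or_ge ij.1 a with h | h
    · rw [hx _ h, zero_mul]
    · rw [hy _ (by omega), mul_zero]
  · rw [hmul, Finset.sum_eq_single (a, b)]
    · intro ij hij hne
      have hij' := Finset.HasAntidiagonal.mem_antidiagonal.1 hij
      rcases lt_or_ge ij.1 a with h | h
      · rw [hx _ h, zero_mul]
      · have h2 : ij.2 < b := by
          by_contra h3
          apply hne
          ext <;> omega
        rw [hy _ h2, mul_zero]
    · intro h
      exact absurd (Finset.HasAntidiagonal.mem_antidiagonal.2 (show a + b = a + b from rfl)) h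

theorem s_pow (hmul : ∀ k x y, s k (x * y) =
    ∑ ij ∈ Finset.HasAntidiagonal.antidiagonal k, s ij.1 x * s ij.2 y) (h1 : s 0 1 = 1) {x : B}
    (hx : s 0 x = 0) (n : ℕ) :
    (∀ i < n, s i (x ^ n) = 0) ∧ s n (x ^ n) = s 1 x ^ n := by
  induction n with
  | zero =>
    refine ⟨fun i hi => absurd hi (Nat.not_lt_zero _), ?_⟩
    rw [pow_zero, pow_zero, h1]
  | succ n ih =>
    have h := s_mul_le hmul (a := n) (b := 1) ih.1 (y := x)
      (fun i hi => by rw [Nat.lt_one_iff.1 hi]; exact hx)
    rw [pow_succ, pow_succ, ← ih.2]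
    exact h

end lead

section gen

variable {A : Type} [CommRing A] [Algebra K A]

/-- `1 ⊗ x - x ⊗ 1` -/
noncomputable def xi (K : Type) [Field K] {A : Type} [CommRing A] [Algebra K A] (x : A) :
    A ⊗[K] A := 1 ⊗ₜ x - x ⊗ₜ 1

theorem xi_add (x y : A) : xi K (x + y) = xi K x + xi K y := by
  unfold xi
  rw [TensorProduct.tmul_add, TensorProduct.add_tmul]
  ring

theorem xi_mul (x y : A) : xi K (x * y) = (1 ⊗ₜ x) * xi K y + (y ⊗ₜ 1) * xi K x := by
  unfold xi
  rw [mul_sub, mul_sub, Algebra.TensorProduct.tmul_mul_tmul, Algebra.TensorProduct.tmul_mul_tmul,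
    Algebra.TensorProduct.tmul_mul_tmul, Algebra.TensorProduct.tmul_mul_tmul]
  simp only [mul_one, one_mul]
  rw [mul_comm y x]
  ring

theorem xi_algebraMap (c : K) : xi K (algebraMap K A c) = 0 := by
  unfold xi
  rw [Algebra.algebraMap_eq_smul_one, TensorProduct.tmul_smul, TensorProduct.smul_tmul', sub_self]

theorem xi_mem (x : A) : xi K x ∈ KaehlerDifferential.ideal K A :=
  KaehlerDifferential.one_smul_sub_smul_one_mem_ideal K x

theorem xi_add_tmul (x : A) : xi K x + x ⊗ₜ[K] (1 : A) = (1 : A) ⊗ₜ[K] x := sub_add_cancel _ _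

theorem exists_const [IsAlgClosed K] [Algebra.FiniteType K A] (m : Ideal A) [hm : m.IsMaximal]
    (f : A) : ∃ c : K, f - algebraMap K A c ∈ m := by
  let := Ideal.Quotient.field m
  have : Module.Finite K (A ⧸ m) := finite_of_finite_type_of_isJacobsonRing K (A ⧸ m)
  obtain ⟨c, hc⟩ := (IsAlgClosed.algebraMap_bijective_of_isIntegral (k := K) (K := A ⧸ m)).2
    (Ideal.Quotient.mk m f)
  refine ⟨c, ?_⟩
  rw [← Ideal.Quotient.eq, ← hc]
  rfl

theorem local_gen [IsAlgClosed K] [Algebra.FiniteType K A] (m : Ideal A) [hm : m.IsMaximal]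
    (x : A) (hx : m ≤ Ideal.span {x} ⊔ m ^ 2) (hxm : x ∈ m) :
    ∃ u : A ⊗[K] A, Algebra.TensorProduct.lmul' K u ∉ m ∧
      ∀ z ∈ KaehlerDifferential.ideal K A, u * z ∈ Ideal.span {xi K x} := by
  set M : Ideal (A ⊗[K] A) := m.comap (Algebra.TensorProduct.lmul' K : A ⊗[K] A →ₐ[K] A) with hM
  set I := KaehlerDifferential.ideal K A with hI
  have hl : ∀ a ∈ m, a ⊗ₜ[K] (1 : A) ∈ M := by
    intro a ha
    rw [hM, Ideal.mem_comap, Algebra.TensorProduct.lmul'_apply_tmul, mul_one]
    exact ha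
  have hr : ∀ a ∈ m, (1 : A) ⊗ₜ[K] a ∈ M := by
    intro a ha
    rw [hM, Ideal.mem_comap, Algebra.TensorProduct.lmul'_apply_tmul, one_mul]
    exact ha
  set N : Ideal (A ⊗[K] A) := Ideal.span {xi K x} ⊔ M • I with hN
  have hMI : ∀ a ∈ M, ∀ f : A, a * xi K f ∈ N := fun a ha f =>
    Submodule.mem_sup_right (Submodule.smul_mem_smul ha (xi_mem f))
  have hsq : ∀ f ∈ m ^ 2, xi K f ∈ N := by
    intro f hf
    rw [pow_two] at hf
    refine Submodule.mul_induction_on hf ?_ ?_
    · intro a ha b hb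
      rw [xi_mul]
      exact add_mem (hMI _ (hr a ha) _) (hMI _ (hl b hb) _)
    · intro a b ha hb
      rw [xi_add]
      exact add_mem ha hb
  have hall : ∀ f : A, xi K f ∈ N := by
    intro f
    obtain ⟨c, hc⟩ := exists_const (K := K) m f
    have e : f = algebraMap K A c + (f - algebraMap K A c) := by ring
    rw [e, xi_add, xi_algebraMap, zero_add]
    obtain ⟨p, hp, q, hq, hpq⟩ := Submodule.mem_sup.1 (hx hc)
    rw [← hpq, xi_add]
    refine add_mem ?_ (hsq q hq)
    obtain ⟨r, rfl⟩ := Ideal.mem_span_singleton'.1 hp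
    rw [xi_mul]
    exact add_mem (Submodule.mem_sup_left (Ideal.mul_mem_left _ _
      (Ideal.mem_span_singleton_self _))) (hMI _ (hl x hxm) _)
  have hle : I ≤ N := by
    rw [hI, ← KaehlerDifferential.span_range_eq_ideal, Ideal.span_le]
    rintro _ ⟨f, rfl⟩
    exact hall f
  have hfg : I.FG := KaehlerDifferential.ideal_fg K A
  obtain ⟨u, hu, hu'⟩ := Submodule.exists_sub_one_mem_and_smul_le_of_fg_of_le_sup hfg le_rfl hle
  refine ⟨u, ?_, ?_⟩
  · intro h
    have h1 : Algebra.TensorProduct.lmul' K (u - 1) ∈ m := hu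
    rw [map_sub, map_one] at h1
    have h2 : (1 : A) ∈ m := by
      have := sub_mem h h1
      simpa using this
    exact hm.ne_top ((Ideal.eq_top_iff_one _).2 h2)
  · intro z hz
    exact hu' (Submodule.smul_mem_pointwise_smul z u I hz)

theorem exists_unif [IsDedekindDomain A] (m : Ideal A) [hm : m.IsMaximal] :
    ∃ x ∈ m, m ≤ Ideal.span {x} ⊔ m ^ 2 := by
  by_cases h : m = ⊥
  · exact ⟨0, zero_mem _, by rw [h]; exact bot_le⟩
  · have hlt : m ^ 2 < m := by
      have := Ideal.pow_succ_lt_pow h 1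
      simpa using this
    obtain ⟨x, hx, hx2⟩ := SetLike.exists_of_lt hlt
    refine ⟨x, hx, ?_⟩
    have h1 : m ^ (1 + 1) < Ideal.span {x} ⊔ m ^ 2 := by
      refine lt_of_le_of_ne le_sup_right fun h2 => hx2 ?_
      have h3 : x ∈ Ideal.span {x} ⊔ m ^ 2 := Submodule.mem_sup_left (Ideal.mem_span_singleton_self x)
      rw [← h2] at h3
      exact h3
    have h4 : Ideal.span {x} ⊔ m ^ 2 ≤ m ^ 1 := by
      rw [pow_one]
      exact sup_le ((Ideal.span_singleton_le_iff_mem _).2 hx) hlt.le
    have h5 := Ideal.eq_prime_pow_of_succ_lt_of_le h h1 h4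
    rw [h5, pow_one]

end gen

theorem const_of_hasse [CharZero K] (f : LaurentSeries K) (h : LaurentSeries.hasseDeriv K 1 f = 0) :
    f = HahnSeries.C (f.coeff 0) := by
  ext n
  by_cases hn : n = 0
  · rw [hn]
    simp
  · have h1 := LaurentSeries.hasseDeriv_coeff (R := K) 1 f (n - 1)
    rw [h] at h1
    have e : n - 1 + ((1 : ℕ) : ℤ) = n := by push_cast; ring
    rw [e, Ring.choose_one_right] at h1
    have h2 : (0 : K) = n • f.coeff n := h1
    rw [zsmul_eq_mul] at h2
    have h3 : (n : K) ≠ 0 := by exact_mod_cast hn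
    have h4 : f.coeff n = 0 := by
      rcases mul_eq_zero.1 h2.symm with h | h
      · exact absurd h h3
      · exact h
    rw [h4, HahnSeries.C_apply, HahnSeries.coeff_single_of_ne hn]

section ring

variable {A B : Type} [CommRing A] [CommRing B]

theorem mem_of_locally (μ : B →+* A) (hμ : Function.Surjective μ) (I : Ideal B)
    (hI : RingHom.ker μ = I) {j : ℕ} {G : B} (hG : G ∈ I ^ j)
    (h : ∀ m : Ideal A, m.IsMaximal → ∃ u : B, μ u ∉ m ∧ u * G ∈ I ^ (j + 1)) :
    G ∈ I ^ (j + 1) := by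
  let a : Ideal B :=
    { carrier := {z | z * G ∈ I ^ (j + 1)}
      add_mem' := fun {x y} hx hy => by
        rw [Set.mem_ofPred_eq, add_mul]
        exact add_mem hx hy
      zero_mem' := by
        rw [Set.mem_ofPred_eq, zero_mul]
        exact zero_mem _
      smul_mem' := fun c x hx => by
        rw [Set.mem_ofPred_eq, smul_eq_mul, mul_assoc]
        exact Ideal.mul_mem_left _ _ hx }
  have hIa : ∀ z ∈ I, z ∈ a := by
    intro z hz
    change z * G ∈ I ^ (j + 1)
    rw [pow_succ']
    exact Ideal.mul_mem_mul hz hG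
  by_contra hne
  have hne' : a.map μ ≠ ⊤ := by
    intro ht
    have h1 : (1 : A) ∈ a.map μ := by rw [ht]; exact Submodule.mem_top
    obtain ⟨z, hz, hz1⟩ := (Ideal.mem_map_iff_of_surjective μ hμ).1 h1
    have h2 : 1 - z ∈ a := by
      apply hIa
      rw [← hI, RingHom.mem_ker, map_sub, map_one, hz1, sub_self]
    have h3 : (1 : B) ∈ a := by
      have := add_mem h2 hz
      rwa [sub_add_cancel] at this
    have h4 : 1 * G ∈ I ^ (j + 1) := h3
    rw [one_mul] at h4
    exact hne h4
  obtain ⟨m, hm, ham⟩ := Ideal.exists_le_maximal _ hne'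
  obtain ⟨u, hu, hu'⟩ := h m hm
  exact hu (ham (Ideal.mem_map_of_mem μ (show u ∈ a from hu')))

theorem pow_local {I : Ideal B} {u ξ : B} (h : ∀ z ∈ I, u * z ∈ Ideal.span {ξ}) (j : ℕ) :
    ∀ z ∈ I ^ j, ∃ H, u ^ j * z = ξ ^ j * H := by
  induction j with
  | zero => intro z _; exact ⟨z, by simp⟩
  | succ j ih =>
    intro z hz
    rw [pow_succ] at hz
    refine Submodule.mul_induction_on hz ?_ ?_
    · intro p hp q hq
      obtain ⟨H, hH⟩ := ih p hp
      obtain ⟨r, hr⟩ := Ideal.mem_span_singleton'.1 (h q hq)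
      refine ⟨H * r, ?_⟩
      calc u ^ (j + 1) * (p * q) = (u ^ j * p) * (u * q) := by ring
        _ = (ξ ^ j * H) * (r * ξ) := by rw [hH, hr]
        _ = _ := by ring
    · rintro p q ⟨H, hH⟩ ⟨H', hH'⟩
      exact ⟨H + H', by rw [mul_add, mul_add, hH, hH']⟩

end ring

theorem step [IsAlgClosed K] {A L : Type} [CommRing A] [Algebra K A] [Field L]
    [IsDedekindDomain A] [Algebra.FiniteType K A] {s : ℕ → A ⊗[K] A → L}
    (hmul : ∀ k x y, s k (x * y) =
      ∑ ij ∈ Finset.HasAntidiagonal.antidiagonal k, s ij.1 x * s ij.2 y)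
    (h1 : s 0 1 = 1) (h0 : ∀ z, s 0 z = 0 ↔ z ∈ KaehlerDifferential.ideal K A)
    (hD : ∀ x : A, s 1 (xi K x) = 0 → xi K x = 0) {j : ℕ} {G : A ⊗[K] A}
    (hG : G ∈ (KaehlerDifferential.ideal K A) ^ j) (hs : ∀ i < j + 1, s i G = 0) :
    G ∈ (KaehlerDifferential.ideal K A) ^ (j + 1) := by
  refine mem_of_locally (Algebra.TensorProduct.lmul' K : A ⊗[K] A →ₐ[K] A).toRingHom
    (fun r => ⟨r ⊗ₜ 1, by
      change (Algebra.TensorProduct.lmul' K : A ⊗[K] A →ₐ[K] A) (r ⊗ₜ 1) = r
      rw [Algebra.TensorProduct.lmul'_apply_tmul, mul_one]⟩)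
    (KaehlerDifferential.ideal K A) rfl hG ?_
  intro m hm
  obtain ⟨x, hxm, hx⟩ := exists_unif m
  obtain ⟨u, hu, huI⟩ := local_gen (K := K) m x hx hxm
  obtain ⟨H, hH⟩ := pow_local huI j G hG
  have hξ0 : s 0 (xi K x) = 0 := (h0 _).2 (xi_mem x)
  have hup : ∀ n : ℕ, (Algebra.TensorProduct.lmul' K : A ⊗[K] A →ₐ[K] A).toRingHom (u ^ n) ∉ m := by
    intro n h
    rw [map_pow] at h
    exact hu (hm.isPrime.mem_of_pow_mem _ h)
  by_cases hc : s 1 (xi K x) = 0
  · have hc := hD x hc
    rcases Nat.eq_zero_or_pos j with hj | hj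
    · subst hj
      refine ⟨u ^ 0, hup 0, ?_⟩
      rw [pow_zero, one_mul, zero_add, pow_one]
      exact (h0 _).1 (hs 0 (by omega))
    · refine ⟨u ^ j, hup j, ?_⟩
      rw [hH, hc, zero_pow (by omega), zero_mul]
      exact zero_mem _
  · refine ⟨u ^ j, hup j, ?_⟩
    have h2 := (s_mul_le hmul (a := 0) (b := j + 1) (x := u ^ j) (y := G)
        (fun i hi => absurd hi (Nat.not_lt_zero _)) hs).1 j (by omega)
    have h3 := s_pow hmul h1 hξ0 j
    have h5 := (s_mul_le hmul (a := j) (b := 0) (x := xi K x ^ j) (y := H) h3.1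
        (fun i hi => absurd hi (Nat.not_lt_zero _))).2
    rw [add_zero, ← hH, h2, h3.2] at h5
    have h6 : s 0 H = 0 := by
      rcases mul_eq_zero.1 h5.symm with h7 | h7
      · exact absurd h7 (pow_ne_zero _ hc)
      · exact h7
    rw [hH, pow_succ]
    exact Ideal.mul_mem_mul (Ideal.pow_mem_pow (xi_mem x) j) ((h0 _).1 h6)

theorem hasse_one (j : ℕ) : LaurentSeries.hasseDeriv K (j + 1) (1 : LaurentSeries K) = 0 := by
  ext n
  rw [LaurentSeries.hasseDeriv_coeff]
  by_cases h : n + ((j + 1 : ℕ) : ℤ) = 0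
  · rw [h, Ring.choose_zero_succ, zero_smul, HahnSeries.coeff_zero]
  · rw [HahnSeries.coeff_one, if_neg h, smul_zero, HahnSeries.coeff_zero]

end P22

open P22 in
theorem mem_of_FV [IsAlgClosed K] [CharZero K] {R : Subalgebra K (LaurentSeries K)}
    [IsDedekindDomain R] [Algebra.FiniteType K R] {γ : ℕ} {G : R ⊗[K] R} (h : FV R γ G) :
    G ∈ (KaehlerDifferential.ideal K R) ^ γ := by
  have h1 : sj R 0 (1 : R ⊗[K] R) = 1 := by
    rw [sj_zero_eq, map_one, Subalgebra.coe_one]
  have h0 : ∀ z : R ⊗[K] R, sj R 0 z = 0 ↔ z ∈ KaehlerDifferential.ideal K R := by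
    intro z
    rw [sj_zero_eq, RingHom.mem_ker]
    exact ZeroMemClass.coe_eq_zero
  have hD : ∀ x : R, sj R 1 (xi K x) = 0 → xi K x = 0 := by
    intro x hx
    have h2 : sj R 1 (xi K x) = - LaurentSeries.hasseDeriv K 1 (x : LaurentSeries K) := by
      have h3 := congrArg (sj R 1) (xi_add_tmul (K := K) x)
      rw [map_add, sj_tmul, sj_tmul, Subalgebra.coe_one, hasse_one 0, zero_mul, mul_one] at h3
      exact eq_neg_of_add_eq_zero_left h3
    rw [h2, neg_eq_zero] at hx
    have h3 := const_of_hasse _ hx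
    have h4 : x = algebraMap K R ((x : LaurentSeries K).coeff 0) := by
      apply Subtype.ext
      calc (x : LaurentSeries K) = HahnSeries.C ((x : LaurentSeries K).coeff 0) := h3
        _ = algebraMap K (LaurentSeries K) ((x : LaurentSeries K).coeff 0) :=
          (LaurentSeries.algebraMap_apply K _).symm
        _ = _ := rfl
    rw [h4]
    exact xi_algebraMap _
  have key : ∀ j, j ≤ γ → G ∈ (KaehlerDifferential.ideal K R) ^ j := by
    intro j
    induction j with
    | zero =>
      intro _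
      rw [pow_zero, Ideal.one_eq_top]
      exact Submodule.mem_top
    | succ j ih =>
      intro hj
      exact step (s := fun k => sj R k) (fun k x y => sj_mul R k x y) h1 h0 hD (ih (by omega))
        fun i hi => h i (by omega)
  exact key γ le_rfl

end Pool.Agent.TH549.CK
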