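import Pool.Agent.TH549.CK.Defs

/-! Basic facts. -/

namespace Pool.Agent.TH549.CK

open Polynomial

variable {F : Type} [Field F] {g : ℕ} {a b : Fin g → F}

theorem QQ_monic (a b : Fin g → F) : (QQ a b).Monic := by
  unfold QQ
  exact monic_prod_of_monic _ _ fun i _ => (monic_X_sub_C _).mul (monic_X_sub_C _)

theorem QQ_natDegree (a b : Fin g → F) : (QQ a b).natDegree = 2 * g := by
  unfold QQ
  rw [natDegree_prod_of_monic _ _ fun i _ => (monic_X_sub_C _).mul (monic_X_sub_C _)]
  have : ∀ i, ((X - C (a i)) * (X - C (b i))).natDegree = 2 := by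
    intro i
    rw [(monic_X_sub_C _).natDegree_mul (monic_X_sub_C _), natDegree_X_sub_C, natDegree_X_sub_C]
  simp [this, mul_comm]

theorem QQ_eval {c : F} : (QQ a b).eval c = 0 ↔ ∃ i, c = a i ∨ c = b i := by
  unfold QQ
  rw [eval_prod, Finset.prod_eq_zero_iff]
  simp [sub_eq_zero]

theorem QQ_simple (h : Dist a b) {c : F} (hc : (QQ a b).eval c = 0) :
    (QQ a b).derivative.eval c ≠ 0 := by
  have e : QQ a b = ∏ j : Fin g ⊕ Fin g, (X - C (Sum.elim a b j)) := by
    unfold QQ
    rw [Fintype.prod_sum_type, Finset.prod_mul_distrib]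
    rfl
  obtain ⟨j, hj⟩ : ∃ j : Fin g ⊕ Fin g, c = Sum.elim a b j := by
    obtain ⟨i, hi | hi⟩ := QQ_eval.1 hc
    · exact ⟨Sum.inl i, hi⟩
    · exact ⟨Sum.inr i, hi⟩
  rw [e, derivative_prod_finset, hj, eval_finsetSum]
  rw [Finset.sum_eq_single j]
  · rw [eval_mul, eval_prod]
    simp only [derivative_sub, derivative_X, derivative_C, sub_zero, eval_one, mul_one]
    rw [Finset.prod_ne_zero_iff]
    intro k hk
    rw [eval_sub, eval_X, eval_C, sub_ne_zero]
    intro h2
    exact (Finset.mem_erase.1 hk).1 (h h2.symm)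
  · intro k _ hk
    rw [eval_mul, eval_prod]
    rw [Finset.prod_eq_zero (i := j)]
    · simp
    · exact Finset.mem_erase.2 ⟨fun h2 => hk h2.symm, Finset.mem_univ _⟩
    · simp
  · intro h2; exact absurd (Finset.mem_univ _) h2

theorem tay_apply (c : F) (P : F[X]) : tay c P = ((P.comp (X + C c) : F[X]) : PowerSeries F) := rfl

theorem coeff_tay (c : F) (P : F[X]) (k : ℕ) :
    PowerSeries.coeff k (tay c P) = (P.comp (X + C c)).coeff k := by
  rw [tay_apply, Polynomial.coeff_coe]

theorem constantCoeff_tay (c : F) (P : F[X]) : PowerSeries.coeff 0 (tay c P) = P.eval c := by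
  rw [coeff_tay, Polynomial.coeff_zero_eq_eval_zero, Polynomial.eval_comp]
  simp

theorem tay_injective (c : F) : Function.Injective (tay c) := by
  rw [injective_iff_map_eq_zero]
  intro P hP
  rw [tay_apply, Polynomial.coe_eq_zero_iff] at hP
  have := congrArg (fun R : F[X] => R.comp (X - C c)) hP
  simpa [Polynomial.comp_assoc] using this

theorem coeff_one_tay (c : F) (P : F[X]) :
    PowerSeries.coeff 1 (tay c P) = P.derivative.eval c := by
  rw [coeff_tay, show (1 : ℕ) = 0 + 1 from rfl]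
  have h1 := Polynomial.coeff_derivative (P.comp (X + C c)) 0
  rw [Polynomial.derivative_comp, Polynomial.coeff_zero_eq_eval_zero] at h1
  simp [Polynomial.eval_comp] at h1
  simpa using h1.symm

theorem tay_mul_eps {Q : F[X]} {c : F} (hc : Q.eval c = 0) (hc' : Q.derivative.eval c ≠ 0) :
    tay c Q * eps Q c = PowerSeries.X := by
  have h0 : tay c Q = PowerSeries.X * (PowerSeries.mk fun k => (Q.comp (X + C c)).coeff (k + 1)) := by
    ext k
    rcases k with _ | k
    · rw [constantCoeff_tay, hc]; simp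
    · rw [coeff_tay, PowerSeries.coeff_succ_X_mul, PowerSeries.coeff_mk]
  rw [h0, eps, mul_assoc, PowerSeries.mul_inv_cancel, mul_one]
  rw [← PowerSeries.coeff_zero_eq_constantCoeff_apply, PowerSeries.coeff_mk]
  rw [← coeff_tay, zero_add, coeff_one_tay]
  exact hc'

theorem tay_QQ_mul_eps (h : Dist a b) {c : F} (hc : (QQ a b).eval c = 0) :
    tay c (QQ a b) * eps (QQ a b) c = PowerSeries.X :=
  tay_mul_eps hc (QQ_simple h hc)

theorem eps_ne_zero {Q : F[X]} {c : F} (hc : Q.eval c = 0) (hc' : Q.derivative.eval c ≠ 0) :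
    eps Q c ≠ 0 := by
  intro h
  have := tay_mul_eps hc hc'
  rw [h, mul_zero] at this
  exact PowerSeries.X_ne_zero this.symm

theorem constantCoeff_eps {Q : F[X]} {c : F} (hc : Q.eval c = 0) (hc' : Q.derivative.eval c ≠ 0) :
    PowerSeries.constantCoeff (eps Q c) ≠ 0 := by
  intro h0
  have h1 := tay_mul_eps hc hc'
  have h2 := congrArg (PowerSeries.coeff 1) h1
  rw [PowerSeries.coeff_mul, PowerSeries.coeff_one_X] at h2
  rw [Finset.Nat.antidiagonal_succ, Finset.sum_cons] at h2
  simp at h2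
  have h3 : PowerSeries.constantCoeff (tay c Q) = 0 := by
    rw [← PowerSeries.coeff_zero_eq_constantCoeff_apply, constantCoeff_tay, hc]
  rw [h0, h3] at h2
  simp at h2

theorem coeff_Ev (Q : F[X]) (c : F) (f : PowerSeries F[X]) (m : ℕ) :
    PowerSeries.coeff m (Ev Q c f) = eps Q c ^ m * tay c (PowerSeries.coeff m f) := by
  simp [Ev, PowerSeries.coeff_rescale]

theorem coeff_oh (Q : F[X]) (o : PowerSeries F) (m : ℕ) :
    PowerSeries.coeff m (oh Q o) = Q ^ m * C (PowerSeries.coeff m o) := by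
  simp [oh, PowerSeries.coeff_rescale]

theorem oh_X (Q : F[X]) : oh Q PowerSeries.X = tau Q := by
  ext1 m
  rw [coeff_oh, tau, PowerSeries.coeff_C_mul, PowerSeries.coeff_X, PowerSeries.coeff_X]
  split_ifs with h
  · subst h; simp
  · simp

theorem Ev_oh (h : Dist a b) {c : F} (hc : (QQ a b).eval c = 0) (o : PowerSeries F) (k m : ℕ) :
    PowerSeries.coeff k (PowerSeries.coeff m (Ev (QQ a b) c (oh (QQ a b) o))) =
      if k = m then PowerSeries.coeff m o else 0 := by
  rw [coeff_Ev, coeff_oh, map_mul (tay c), map_pow (tay c), ← mul_assoc, ← mul_pow,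
    mul_comm (eps _ _), tay_QQ_mul_eps h hc]
  have : tay c (C (PowerSeries.coeff m o)) = PowerSeries.C (PowerSeries.coeff m o) := by
    rw [tay_apply]; simp
  rw [this, PowerSeries.coeff_mul_C, PowerSeries.coeff_X_pow]
  split_ifs <;> simp

theorem Ev_tau (h : Dist a b) {c : F} (hc : (QQ a b).eval c = 0) :
    Ev (QQ a b) c (tau (QQ a b)) = PowerSeries.C (PowerSeries.X : PowerSeries F) * PowerSeries.X := by
  rw [← oh_X]
  ext m k
  rw [Ev_oh h hc, PowerSeries.coeff_C_mul, PowerSeries.coeff_X, PowerSeries.coeff_X]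
  by_cases h1 : m = 1
  · subst h1
    by_cases h2 : k = 1
    · simp [h2]
    · simp [h2, PowerSeries.coeff_X]
  · simp [h1]

theorem oh_mem_MM (h : Dist a b) (o : PowerSeries F) : oh (QQ a b) o ∈ MM a b := by
  rw [mem_MM]
  intro i
  ext m k
  rw [coeff_coeff_swp, Ev_oh h (QQ_eval.2 ⟨i, Or.inl rfl⟩), Ev_oh h (QQ_eval.2 ⟨i, Or.inr rfl⟩)]
  by_cases hk : k = m
  · subst hk; simp
  · rw [if_neg hk, if_neg fun h => hk h.symm]

theorem oh_mem (h : Dist a b) (o : PowerSeries F) : oh (QQ a b) o ∈ MB a b :=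
  ⟨oh_mem_MM h o, 0, Bd.oh o⟩

theorem tau_mem_MM (h : Dist a b) : tau (QQ a b) ∈ MM a b := by
  rw [← oh_X]; exact oh_mem_MM h _

/-- a function on the curve vanishes if its expansion at a point vanishes -/
theorem Ev_injective {Q : F[X]} {c : F} (hc : Q.eval c = 0) (hc' : Q.derivative.eval c ≠ 0) :
    Function.Injective (Ev Q c) := by
  rw [injective_iff_map_eq_zero]
  intro f hf
  ext1 m
  have h1 := congrArg (PowerSeries.coeff m) hf
  rw [coeff_Ev, map_zero, mul_eq_zero] at h1
  rcases h1 with h1 | h1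
  · exact absurd (eq_zero_of_pow_eq_zero h1) (eps_ne_zero hc hc')
  · rw [map_zero]
    exact (injective_iff_map_eq_zero _).1 (tay_injective c) _ h1

end Pool.Agent.TH549.CK
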