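import Pool.Agent.TH549.CK.Defs

/-! Multiplicities from ring homomorphisms. -/

namespace Pool.Agent.TH549.CK

open Polynomial TensorProduct

variable {F : Type} [Field F] {g : ℕ} {a b : Fin g → F}

namespace P11

theorem aux (K : Type) [Field K] [Algebra (PowerSeries F) K]
    [IsFractionRing (PowerSeries F) K] {M R D : Type} [CommRing M] [CommRing R] [Algebra K R]
    [CommRing D] [IsDomain D] (O : PowerSeries F → M) (χ : M →+* R)
    (hinj : Function.Injective χ)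
    (hO : ∀ o : PowerSeries F, χ (O o) = algebraMap K R (algebraMap (PowerSeries F) K o))
    (hz : ∀ z : R, ∃ (N : ℕ) (f : M),
      algebraMap K R (algebraMap (PowerSeries F) K (PowerSeries.X ^ N)) * z = χ f)
    (κ : PowerSeries F →+* D) (ψ₁ ψ₂ : M →+* D) (h₁ : ∀ o, ψ₁ (O o) = κ o)
    (h₂ : ∀ o, ψ₂ (O o) = κ o) {π : D} (hπ : Prime π)
    (hτ : ¬ π ∣ κ PowerSeries.X) (hd : ∀ f, π ∣ ψ₁ f - ψ₂ f)
    {r : ℕ} (e : Fin r → M) (o : Fin r → Fin r → PowerSeries F) {γ : ℕ}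
    (hG : ∑ x, ∑ y, algebraMap (PowerSeries F) K (o x y) • (χ (e x) ⊗ₜ[K] χ (e y)) ∈
      (KaehlerDifferential.ideal K R) ^ γ) :
    π ^ γ ∣ ∑ x, ∑ y, κ (o x y) * ψ₁ (e x) * ψ₂ (e y) := by
  classical
  have hne : κ PowerSeries.X ≠ 0 := by
    intro h0
    exact hτ (h0 ▸ dvd_zero π)
  -- `R` is the localization of `M` at `t`
  let _ : Algebra M R := χ.toAlgebra
  have hal : ∀ m : M, algebraMap M R m = χ m := fun _ => rfl
  have hOpow : ∀ N : ℕ, χ (O PowerSeries.X ^ N) =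
      algebraMap K R (algebraMap (PowerSeries F) K (PowerSeries.X ^ N)) := by
    intro N
    rw [map_pow, hO, map_pow, map_pow]
  have hX0 : algebraMap (PowerSeries F) K PowerSeries.X ≠ 0 := by
    intro h0
    exact PowerSeries.X_ne_zero (IsFractionRing.injective (PowerSeries F) K (by rw [h0, map_zero]))
  have hunit : IsUnit (χ (O PowerSeries.X)) := by
    rw [hO]
    exact (isUnit_iff_ne_zero.2 hX0).map _
  have hloc : IsLocalization.Away (O PowerSeries.X) R := by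
    refine ⟨?_, ?_, ?_⟩
    · rintro ⟨_, N, rfl⟩
      rw [hal, map_pow]
      exact hunit.pow N
    · intro z
      obtain ⟨N, f, hf⟩ := hz z
      refine ⟨(f, ⟨O PowerSeries.X ^ N, N, rfl⟩), ?_⟩
      simp only
      rw [hal, hal, hOpow, mul_comm]
      exact hf
    · intro x y hxy
      rw [hal, hal] at hxy
      exact ⟨1, by rw [hinj hxy]⟩
  -- the target
  set P := Localization.Away (κ PowerSeries.X) with hP
  have hιinj : Function.Injective (algebraMap D P) :=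
    IsLocalization.injective P (powers_le_nonZeroDivisors_of_noZeroDivisors hne)
  have hκu : IsUnit (algebraMap D P (κ PowerSeries.X)) :=
    IsLocalization.Away.algebraMap_isUnit (κ PowerSeries.X)
  have hu₁ : IsUnit (((algebraMap D P).comp ψ₁) (O PowerSeries.X)) := by
    rw [RingHom.comp_apply, h₁]; exact hκu
  have hu₂ : IsUnit (((algebraMap D P).comp ψ₂) (O PowerSeries.X)) := by
    rw [RingHom.comp_apply, h₂]; exact hκu
  obtain ⟨φ₁, hφ₁⟩ : ∃ φ : R →+* P, ∀ m, φ (χ m) = algebraMap D P (ψ₁ m) :=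
    ⟨IsLocalization.Away.lift (S := R) (O PowerSeries.X) hu₁, fun m =>
      IsLocalization.Away.lift_eq (S := R) (O PowerSeries.X) hu₁ m⟩
  obtain ⟨φ₂, hφ₂⟩ : ∃ φ : R →+* P, ∀ m, φ (χ m) = algebraMap D P (ψ₂ m) :=
    ⟨IsLocalization.Away.lift (S := R) (O PowerSeries.X) hu₂, fun m =>
      IsLocalization.Away.lift_eq (S := R) (O PowerSeries.X) hu₂ m⟩
  have hK : φ₁.comp (algebraMap K R) = φ₂.comp (algebraMap K R) := by
    refine IsLocalization.ringHom_ext (nonZeroDivisors (PowerSeries F)) ?_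
    ext1 o'
    simp only [RingHom.comp_apply]
    rw [← hO, hφ₁, hφ₂, h₁, h₂]
  let _ : Algebra K P := (φ₁.comp (algebraMap K R)).toAlgebra
  have halK : ∀ c : K, algebraMap K P c = φ₁ (algebraMap K R c) := fun _ => rfl
  let A₁ : R →ₐ[K] P := { φ₁ with commutes' := fun c => rfl }
  let A₂ : R →ₐ[K] P := { φ₂ with
    commutes' := fun c => by
      have := RingHom.congr_fun hK c
      exact this.symm }
  have hA₁ : ∀ z, A₁ z = φ₁ z := fun _ => rfl
  have hA₂ : ∀ z, A₂ z = φ₂ z := fun _ => rfl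
  set Ψ := Algebra.TensorProduct.productMap A₁ A₂ with hΨ
  have hI : KaehlerDifferential.ideal K R ≤
      (Ideal.span {algebraMap D P π}).comap (Ψ : R ⊗[K] R →+* P) := by
    rw [← KaehlerDifferential.span_range_eq_ideal, Ideal.span_le]
    rintro _ ⟨z, rfl⟩
    rw [SetLike.mem_coe, Ideal.mem_comap, Ideal.mem_span_singleton]
    have e1 : (Ψ : R ⊗[K] R →+* P) ((1 : R) ⊗ₜ[K] z - z ⊗ₜ[K] (1 : R)) = φ₂ z - φ₁ z := by
      rw [map_sub]
      change Ψ ((1 : R) ⊗ₜ[K] z) - Ψ (z ⊗ₜ[K] (1 : R)) = _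
      rw [hΨ, Algebra.TensorProduct.productMap_apply_tmul,
        Algebra.TensorProduct.productMap_apply_tmul, map_one, map_one, one_mul, mul_one, hA₁, hA₂]
    simp only
    rw [e1]
    obtain ⟨N, f, hf⟩ := hz z
    rw [← hOpow] at hf
    have g1 : algebraMap D P (κ PowerSeries.X) ^ N * φ₁ z = algebraMap D P (ψ₁ f) := by
      rw [← hφ₁ f, ← hf, map_mul, hφ₁, map_pow, map_pow, h₁]
    have g2 : algebraMap D P (κ PowerSeries.X) ^ N * φ₂ z = algebraMap D P (ψ₂ f) := by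
      rw [← hφ₂ f, ← hf, map_mul, hφ₂, map_pow, map_pow, h₂]
    obtain ⟨q, hq⟩ := hd f
    have g3 : algebraMap D P (κ PowerSeries.X) ^ N * (φ₂ z - φ₁ z) =
        algebraMap D P π * algebraMap D P (-q) := by
      rw [mul_sub, g1, g2, ← map_mul, ← map_sub]
      congr 1
      linear_combination -hq
    have g4 : algebraMap D P π ∣ algebraMap D P (κ PowerSeries.X) ^ N * (φ₂ z - φ₁ z) := ⟨_, g3⟩
    exact (hκu.pow N).dvd_mul_left.1 g4
  have hIγ : KaehlerDifferential.ideal K R ^ γ ≤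
      (Ideal.span {algebraMap D P π ^ γ}).comap (Ψ : R ⊗[K] R →+* P) := by
    refine (Ideal.pow_right_mono hI γ).trans ?_
    rw [← Ideal.span_singleton_pow]
    exact Ideal.le_comap_pow _ _
  have h3 := hIγ hG
  rw [Ideal.mem_comap, Ideal.mem_span_singleton] at h3
  have e2 : (Ψ : R ⊗[K] R →+* P) (∑ x, ∑ y, algebraMap (PowerSeries F) K (o x y) •
      (χ (e x) ⊗ₜ[K] χ (e y))) =
      algebraMap D P (∑ x, ∑ y, κ (o x y) * ψ₁ (e x) * ψ₂ (e y)) := by
    change Ψ _ = _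
    rw [map_sum, map_sum]
    refine Finset.sum_congr rfl fun x _ => ?_
    rw [map_sum, map_sum]
    refine Finset.sum_congr rfl fun y _ => ?_
    rw [map_smul, hΨ, Algebra.TensorProduct.productMap_apply_tmul, hA₁, hA₂, hφ₁, hφ₂,
      Algebra.smul_def, halK, ← hO, hφ₁, h₁, map_mul, map_mul, mul_assoc]
  rw [e2, ← map_pow] at h3
  obtain ⟨w, hw⟩ := h3
  obtain ⟨N, d', hd'⟩ := IsLocalization.Away.surj (κ PowerSeries.X) w
  have h4 : (∑ x, ∑ y, κ (o x y) * ψ₁ (e x) * ψ₂ (e y)) * κ PowerSeries.X ^ N = π ^ γ * d' := by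
    apply hιinj
    rw [map_mul, hw, map_mul, map_pow (algebraMap D P) (κ PowerSeries.X) N, mul_assoc, hd']
  refine hπ.pow_dvd_of_dvd_mul_right γ (b := κ PowerSeries.X ^ N) ?_ ⟨d', h4⟩
  intro h5
  exact hτ (hπ.dvd_of_dvd_pow h5)

end P11

/-- `psi_dvd` with the facts of CK-1 (`oh_mem h`) and CK-6 (`exists_chiR K h`) as hypotheses -/
theorem psi_dvd_of (K : Type) [Field K] [Algebra (PowerSeries F) K]
    [IsFractionRing (PowerSeries F) K] (hm : ∀ o : PowerSeries F, oh (QQ a b) o ∈ MB a b)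
    (hχ : ∃ χ : MB a b →+* RK K a b,
      (∀ (f : MB a b) (k : ℤ), ((χ f : RK K a b) : LaurentSeries K).coeff k =
        algebraMap (PowerSeries F) K (cinf (QQ a b) f k)) ∧
      Function.Injective χ ∧
      (∀ o : PowerSeries F, χ ⟨oh (QQ a b) o, hm o⟩ =
        algebraMap K (RK K a b) (algebraMap (PowerSeries F) K o)) ∧
      (∀ z : RK K a b, ∃ (N : ℕ) (f : MB a b),
        algebraMap K (RK K a b) (algebraMap (PowerSeries F) K (PowerSeries.X ^ N)) * z = χ f))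
    {D : Type} [CommRing D] [IsDomain D] (κ : PowerSeries F →+* D)
    (ψ₁ ψ₂ : MB a b →+* D) (h₁ : ∀ o, ψ₁ ⟨oh (QQ a b) o, hm o⟩ = κ o)
    (h₂ : ∀ o, ψ₂ ⟨oh (QQ a b) o, hm o⟩ = κ o) {π : D} (hπ : Prime π)
    (hτ : ¬ π ∣ κ PowerSeries.X) (hd : ∀ f, π ∣ ψ₁ f - ψ₂ f)
    {r : ℕ} (e : Fin r → MB a b) (E : Fin r → RK K a b)
    (hE : ∀ x k, (E x : LaurentSeries K).coeff k =
      algebraMap (PowerSeries F) K (cinf (QQ a b) (e x) k))
    (o : Fin r → Fin r → PowerSeries F) {γ : ℕ}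
    (hG : ∑ x, ∑ y, algebraMap (PowerSeries F) K (o x y) • (E x ⊗ₜ[K] E y) ∈
      (KaehlerDifferential.ideal K (RK K a b)) ^ γ) :
    π ^ γ ∣ ∑ x, ∑ y, κ (o x y) * ψ₁ (e x) * ψ₂ (e y) := by
  obtain ⟨χ, c1, c2, c3, c4⟩ := hχ
  have hEe : ∀ x, E x = χ (e x) := by
    intro x
    apply Subtype.ext
    apply HahnSeries.ext
    funext k
    rw [hE, c1]
  simp only [hEe] at hG
  exact P11.aux K (fun o => ⟨oh (QQ a b) o, hm o⟩) χ c2 c3 c4 κ ψ₁ ψ₂ h₁ h₂ hπ hτ hd e o hG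

end Pool.Agent.TH549.CK
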