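import Pool.Agent.TH549.CK.Lin
import Pool.Agent.TH549.CK.P1
import Pool.Agent.TH549.CK.P11

/-!
# Multiplicity at the node
-/

set_option autoImplicit false

namespace Pool.Agent.TH549.CK

open Polynomial TensorProduct

namespace P12

variable {F : Type} [Field F]

/-- restriction to the diagonal -/
noncomputable def dg (x : PowerSeries (PowerSeries F)) : PowerSeries F :=
  PowerSeries.mk fun n =>
    ∑ k ∈ Finset.range (n + 1), PowerSeries.coeff (n - k) (PowerSeries.coeff k x)

/-- the quotient -/
noncomputable def quo (x : PowerSeries (PowerSeries F)) : PowerSeries (PowerSeries F) :=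
  PowerSeries.mk fun i => PowerSeries.mk fun n =>
    ∑ j ∈ Finset.range (n + 1), PowerSeries.coeff (n - j) (PowerSeries.coeff (i + 1 + j) x)

theorem coeff_quo (x : PowerSeries (PowerSeries F)) (i n : ℕ) :
    PowerSeries.coeff n (PowerSeries.coeff i (quo x)) =
      ∑ j ∈ Finset.range (n + 1), PowerSeries.coeff (n - j) (PowerSeries.coeff (i + 1 + j) x) := by
  unfold quo
  rw [PowerSeries.coeff_mk, PowerSeries.coeff_mk]

theorem coeff_dg (x : PowerSeries (PowerSeries F)) (n : ℕ) :
    PowerSeries.coeff n (dg x) =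
      ∑ k ∈ Finset.range (n + 1), PowerSeries.coeff (n - k) (PowerSeries.coeff k x) := by
  unfold dg
  rw [PowerSeries.coeff_mk]

theorem sub_dg (x : PowerSeries (PowerSeries F)) :
    x - PowerSeries.C (dg x) =
      (PowerSeries.X - PowerSeries.C (PowerSeries.X : PowerSeries F)) * quo x := by
  ext k n
  rw [sub_mul, map_sub, map_sub, map_sub, map_sub, PowerSeries.coeff_C_mul]
  rcases k with _ | k
  · rw [PowerSeries.coeff_zero_X_mul, map_zero, zero_sub, PowerSeries.coeff_C, if_pos rfl]
    rcases n with _ | n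
    · rw [PowerSeries.coeff_zero_X_mul, coeff_dg]
      simp
    · rw [PowerSeries.coeff_succ_X_mul, coeff_quo, coeff_dg, Finset.sum_range_succ' _ (n + 1),
        Nat.sub_zero]
      have h : ∑ k ∈ Finset.range (n + 1),
          PowerSeries.coeff (n + 1 - (k + 1)) (PowerSeries.coeff (k + 1) x) =
          ∑ j ∈ Finset.range (n + 1), PowerSeries.coeff (n - j) (PowerSeries.coeff (0 + 1 + j) x) := by
        refine Finset.sum_congr rfl fun j _ => ?_
        have e1 : n + 1 - (j + 1) = n - j := by omega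
        have e2 : j + 1 = 0 + 1 + j := by omega
        rw [e1, e2]
      rw [h]
      ring
  · rw [PowerSeries.coeff_succ_X_mul, coeff_quo, PowerSeries.coeff_C, if_neg (Nat.succ_ne_zero k),
      map_zero, sub_zero]
    rcases n with _ | n
    · rw [PowerSeries.coeff_zero_X_mul]
      simp
    · rw [PowerSeries.coeff_succ_X_mul, coeff_quo, Finset.sum_range_succ' _ (n + 1), Nat.sub_zero,
        add_zero]
      have h : ∑ j ∈ Finset.range (n + 1),
          PowerSeries.coeff (n + 1 - (j + 1)) (PowerSeries.coeff (k + 1 + (j + 1)) x) =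
          ∑ j ∈ Finset.range (n + 1),
            PowerSeries.coeff (n - j) (PowerSeries.coeff (k + 1 + 1 + j) x) := by
        refine Finset.sum_congr rfl fun j _ => ?_
        have e1 : n + 1 - (j + 1) = n - j := by omega
        have e2 : k + 1 + (j + 1) = k + 1 + 1 + j := by omega
        rw [e1, e2]
      rw [h]
      ring

theorem dg_swp (x : PowerSeries (PowerSeries F)) : dg (swp x) = dg x := by
  ext n
  rw [coeff_dg, coeff_dg, ← Finset.sum_range_reflect]
  refine Finset.sum_congr rfl fun k hk => ?_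
  have hk' := Finset.mem_range.1 hk
  rw [coeff_coeff_swp]
  have e1 : n + 1 - 1 - k = n - k := by omega
  have e2 : n - (n - k) = k := by omega
  rw [e1, e2]

/-- multiples of `π` vanish on the diagonal -/
theorem dg_mul (w : PowerSeries (PowerSeries F)) :
    dg ((PowerSeries.C (PowerSeries.X : PowerSeries F) - PowerSeries.X) * w) = 0 := by
  ext n
  rw [coeff_dg, map_zero]
  have h : ∀ k ∈ Finset.range (n + 1), PowerSeries.coeff (n - k) (PowerSeries.coeff k
      ((PowerSeries.C (PowerSeries.X : PowerSeries F) - PowerSeries.X) * w)) =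
      (if k < n then PowerSeries.coeff (n - k - 1) (PowerSeries.coeff k w) else 0) -
        (if k = 0 then 0 else PowerSeries.coeff (n - k) (PowerSeries.coeff (k - 1) w)) := by
    intro k hk
    have hk' := Finset.mem_range.1 hk
    rw [sub_mul, map_sub, map_sub, PowerSeries.coeff_C_mul]
    congr 1
    · by_cases h1 : k < n
      · rw [if_pos h1]
        obtain ⟨j, hj⟩ : ∃ j, n - k = j + 1 := ⟨n - k - 1, by omega⟩
        rw [hj, PowerSeries.coeff_succ_X_mul, Nat.add_sub_cancel]
      · rw [if_neg h1]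
        have h2 : n - k = 0 := by omega
        rw [h2, PowerSeries.coeff_zero_X_mul]
    · rcases k with _ | k
      · rw [PowerSeries.coeff_zero_X_mul, if_pos rfl, map_zero]
      · rw [PowerSeries.coeff_succ_X_mul, if_neg (Nat.succ_ne_zero k), Nat.add_sub_cancel]
  rw [Finset.sum_congr rfl h, Finset.sum_sub_distrib, sub_eq_zero, Finset.sum_range_succ,
    if_neg (lt_irrefl n), add_zero, Finset.sum_range_succ' _ n, if_pos rfl, add_zero]
  refine Finset.sum_congr rfl fun k hk => ?_
  have hk' := Finset.mem_range.1 hk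
  rw [if_pos hk', if_neg (Nat.succ_ne_zero k), Nat.add_sub_cancel]
  have e1 : n - k - 1 = n - (k + 1) := by omega
  rw [e1]

theorem dg_of_dvd {x : PowerSeries (PowerSeries F)}
    (h : (PowerSeries.C (PowerSeries.X : PowerSeries F) - PowerSeries.X) ∣ x) : dg x = 0 := by
  obtain ⟨w, rfl⟩ := h
  exact dg_mul w

theorem dg_C (u : PowerSeries F) : dg (PowerSeries.C u) = u := by
  ext n
  rw [coeff_dg, Finset.sum_eq_single 0]
  · rw [PowerSeries.coeff_C, if_pos rfl, Nat.sub_zero]
  · intro k _ hk
    rw [PowerSeries.coeff_C, if_neg hk, map_zero]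
  · intro h
    exact absurd (Finset.mem_range.2 (Nat.succ_pos n)) h

theorem dvd_sub_dg (x : PowerSeries (PowerSeries F)) :
    (PowerSeries.C (PowerSeries.X : PowerSeries F) - PowerSeries.X) ∣ x - PowerSeries.C (dg x) :=
  ⟨-quo x, by rw [sub_dg]; ring⟩

end P12

section
variable {F : Type} [Field F] {g : ℕ} {a b : Fin g → F}

theorem diag_dvd (x : PowerSeries (PowerSeries F)) :
    (PowerSeries.C PowerSeries.X - PowerSeries.X : PowerSeries (PowerSeries F)) ∣ x - swp x := by
  have h1 := P12.dvd_sub_dg x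
  have h2 := P12.dvd_sub_dg (swp x)
  rw [P12.dg_swp] at h2
  have h3 := dvd_sub h1 h2
  rwa [sub_sub_sub_cancel_right] at h3

theorem diag_prime : Prime (PowerSeries.C PowerSeries.X - PowerSeries.X : PowerSeries (PowerSeries F)) := by
  refine ⟨?_, ?_, ?_⟩
  · intro h
    have h1 := congrArg (PowerSeries.coeff 1) h
    rw [map_sub, PowerSeries.coeff_one_X, PowerSeries.coeff_C, if_neg one_ne_zero, zero_sub,
      map_zero, neg_eq_zero] at h1
    exact one_ne_zero h1
  · intro h
    have h1 := P12.dg_of_dvd (h.dvd (a := PowerSeries.C (1 : PowerSeries F)))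
    rw [P12.dg_C] at h1
    exact one_ne_zero h1
  · intro x y h
    have h1 := P12.dvd_sub_dg x
    have h2 := P12.dvd_sub_dg y
    have h3 : (PowerSeries.C PowerSeries.X - PowerSeries.X : PowerSeries (PowerSeries F)) ∣
        PowerSeries.C (P12.dg x * P12.dg y) := by
      have e : PowerSeries.C (P12.dg x * P12.dg y) =
          x * y - ((x - PowerSeries.C (P12.dg x)) * y +
            PowerSeries.C (P12.dg x) * (y - PowerSeries.C (P12.dg y))) := by
        rw [map_mul]
        ring
      rw [e]
      exact dvd_sub h (dvd_add (h1.mul_right _) (h2.mul_left _))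
    have h4 := P12.dg_of_dvd h3
    rw [P12.dg_C] at h4
    rcases mul_eq_zero.1 h4 with h5 | h5
    · left
      rwa [h5, map_zero, sub_zero] at h1
    · right
      rwa [h5, map_zero, sub_zero] at h2

end

namespace P12

variable {F : Type} [Field F] {g : ℕ} {a b : Fin g → F}

theorem swp_swp (x : PowerSeries (PowerSeries F)) : swp (swp x) = x := by
  ext k m
  rw [coeff_coeff_swp, coeff_coeff_swp]

/-- the constants -/
noncomputable def ka (α β : F) : PowerSeries F →+* PowerSeries (PowerSeries F) :=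
  (PowerSeries.rescale (PowerSeries.C (α * β) * PowerSeries.X)).comp
    (PowerSeries.map (PowerSeries.C : F →+* PowerSeries F))

theorem coeff_ka (α β : F) (o : PowerSeries F) (k m : ℕ) :
    PowerSeries.coeff k (PowerSeries.coeff m (ka α β o)) =
      if k = m then (α * β) ^ m * PowerSeries.coeff m o else 0 := by
  unfold ka
  rw [RingHom.comp_apply, PowerSeries.coeff_rescale, PowerSeries.coeff_map, mul_pow, ← map_pow,
    mul_assoc, PowerSeries.coeff_C_mul, PowerSeries.coeff_mul_C, PowerSeries.coeff_X_pow]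
  split_ifs
  · rw [one_mul]
  · rw [zero_mul, mul_zero]

/-- the first point -/
noncomputable def ps (a b : Fin g → F) (c α β : F) : MB a b →+* PowerSeries (PowerSeries F) :=
  ((PowerSeries.rescale (PowerSeries.C β)).comp
    ((PowerSeries.map (PowerSeries.rescale α)).comp (Ev (QQ a b) c))).comp (MB a b).subtype

theorem coeff_ps (c α β : F) (f : MB a b) (k m : ℕ) :
    PowerSeries.coeff k (PowerSeries.coeff m (ps a b c α β f)) =
      β ^ m * (α ^ k * PowerSeries.coeff k (PowerSeries.coeff m (Ev (QQ a b) c f))) := by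
  unfold ps
  rw [RingHom.comp_apply, RingHom.comp_apply, RingHom.comp_apply, PowerSeries.coeff_rescale,
    PowerSeries.coeff_map, ← map_pow, PowerSeries.coeff_C_mul, PowerSeries.coeff_rescale]
  rfl

theorem ps_oh (h : Dist a b) {c : F} (hc : (QQ a b).eval c = 0) (α β : F) (o : PowerSeries F) :
    ps a b c α β ⟨oh (QQ a b) o, oh_mem h o⟩ = ka α β o := by
  ext m k
  rw [coeff_ps, coeff_ka, Ev_oh h hc]
  split_ifs with h1
  · rw [h1]
    ring
  · ring

theorem swp_ka (α β : F) (o : PowerSeries F) : swp (ka α β o) = ka α β o := by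
  ext m k
  rw [coeff_coeff_swp, coeff_ka, coeff_ka]
  by_cases h1 : k = m
  · rw [h1]
  · rw [if_neg h1, if_neg (fun h => h1 h.symm)]

/-- the substitution `r = 0` -/
noncomputable def cc : PowerSeries (PowerSeries F) →+* PowerSeries F := PowerSeries.constantCoeff

theorem cc_ka (α β : F) (o : PowerSeries F) :
    cc (ka α β o) = PowerSeries.C (PowerSeries.coeff 0 o) := by
  unfold cc
  ext k
  rw [← PowerSeries.coeff_zero_eq_constantCoeff_apply, coeff_ka, PowerSeries.coeff_C, pow_zero,
    one_mul]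

theorem tay_coe (c : F) (P : F[X]) : tay c P = ((P.comp (X + C c) : F[X]) : PowerSeries F) := rfl

/-- the coefficients of `P (c + α z)` -/
theorem coeff_lin (c α : F) (P : F[X]) (k : ℕ) :
    (P.comp (C c + C α * X)).coeff k = α ^ k * PowerSeries.coeff k (tay c P) := by
  have h : P.comp (C c + C α * X) = (P.comp (X + C c)).comp (C α * X) := by
    rw [comp_assoc]
    congr 1
    simp [add_comm]
  rw [h, comp_C_mul_X_coeff, tay_coe, Polynomial.coeff_coe, mul_comm]

theorem cc_ps (c α β : F) (f : MB a b) :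
    cc (ps a b c α β f) =
      (((PowerSeries.coeff 0 (f : PowerSeries F[X])).comp (C c + C α * X) : F[X]) :
        PowerSeries F) := by
  unfold cc
  ext k
  rw [← PowerSeries.coeff_zero_eq_constantCoeff_apply, coeff_ps, coeff_Ev, Polynomial.coeff_coe,
    coeff_lin, pow_zero, pow_zero, one_mul, one_mul]

theorem cc_swp_ps {c c' : F}
    (hcc : ∀ f : MB a b, Ev (QQ a b) c f = swp (Ev (QQ a b) c' f)) (α β : F) (f : MB a b) :
    cc (swp (ps a b c α β f)) =
      (((PowerSeries.coeff 0 (f : PowerSeries F[X])).comp (C c' + C β * X) : F[X]) :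
        PowerSeries F) := by
  unfold cc
  ext k
  rw [← PowerSeries.coeff_zero_eq_constantCoeff_apply, coeff_coeff_swp, coeff_ps, hcc,
    coeff_coeff_swp, coeff_Ev, Polynomial.coeff_coe, coeff_lin, pow_zero, pow_zero, one_mul,
    one_mul]

theorem lin_red {r : ℕ} (c c' α β : F) (e : Fin r → PowerSeries F[X])
    (o : Fin r → Fin r → PowerSeries F) :
    lin c c' α β (red e o) = ∑ x, ∑ y, C (PowerSeries.coeff 0 (o x y)) *
      (PowerSeries.coeff 0 (e x)).comp (C c + C α * X) *
      (PowerSeries.coeff 0 (e y)).comp (C c' + C β * X) := by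
  unfold red
  rw [map_sum]
  refine Finset.sum_congr rfl fun x _ => ?_
  rw [map_sum]
  refine Finset.sum_congr rfl fun y _ => ?_
  rw [map_mul, map_mul]
  have h0 : ∀ P : F[X], lin c c' α β (Polynomial.aeval (MvPolynomial.X 0) P) =
      P.comp (C c + C α * X) := by
    intro P
    rw [← Polynomial.aeval_algHom_apply, Polynomial.comp_eq_aeval]
    congr 2
    simp [lin]
  have h1 : ∀ P : F[X], lin c c' α β (Polynomial.aeval (MvPolynomial.X 1) P) =
      P.comp (C c' + C β * X) := by
    intro P
    rw [← Polynomial.aeval_algHom_apply, Polynomial.comp_eq_aeval]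
    congr 2
    simp [lin]
  rw [h0, h1]
  congr 2
  unfold lin
  rw [MvPolynomial.aeval_C]
  rfl

theorem node (K : Type) [Field K] [Algebra (PowerSeries F) K]
    [IsFractionRing (PowerSeries F) K] (h : Dist a b)
    (hχ : ∃ χ : MB a b →+* RK K a b,
      (∀ (f : MB a b) (k : ℤ), ((χ f : RK K a b) : LaurentSeries K).coeff k =
        algebraMap (PowerSeries F) K (cinf (QQ a b) f k)) ∧
      Function.Injective χ ∧
      (∀ o : PowerSeries F, χ ⟨oh (QQ a b) o, oh_mem h o⟩ =
        algebraMap K (RK K a b) (algebraMap (PowerSeries F) K o)) ∧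
      (∀ z : RK K a b, ∃ (N : ℕ) (f : MB a b),
        algebraMap K (RK K a b) (algebraMap (PowerSeries F) K (PowerSeries.X ^ N)) * z = χ f))
    {r : ℕ} (e : Fin r → MB a b) (E : Fin r → RK K a b)
    (hE : ∀ x k, (E x : LaurentSeries K).coeff k =
      algebraMap (PowerSeries F) K (cinf (QQ a b) (e x) k))
    (o : Fin r → Fin r → PowerSeries F) {γ : ℕ}
    (hG : ∑ x, ∑ y, algebraMap (PowerSeries F) K (o x y) • (E x ⊗ₜ[K] E y) ∈
      (KaehlerDifferential.ideal K (RK K a b)) ^ γ) {c c' : F} (hc : (QQ a b).eval c = 0)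
    (hcc : ∀ f : MB a b, Ev (QQ a b) c f = swp (Ev (QQ a b) c' f)) {α β : F}
    (hα : α ≠ 0) (hβ : β ≠ 0) :
    (X : F[X]) ^ γ ∣ lin c c' α β (red (fun x => (e x : PowerSeries F[X])) o) := by
  have hτ : ¬ (PowerSeries.C PowerSeries.X - PowerSeries.X : PowerSeries (PowerSeries F)) ∣
      ka α β PowerSeries.X := by
    intro hd
    have h1 := congrArg (PowerSeries.coeff 2) (dg_of_dvd hd)
    rw [coeff_dg, map_zero] at h1
    simp only [coeff_ka] at h1
    rw [Finset.sum_range_succ, Finset.sum_range_succ, Finset.sum_range_succ] at h1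
    simp [PowerSeries.coeff_X] at h1
    exact h1.elim hα hβ
  have key := psi_dvd_of K (oh_mem h) hχ (ka α β) (ps a b c α β) (swp.comp (ps a b c α β))
    (fun o => ps_oh h hc α β o)
    (fun o => by rw [RingHom.comp_apply, ps_oh h hc, swp_ka]) diag_prime hτ
    (fun f => diag_dvd _) e E hE o hG
  have key2 := map_dvd (cc (F := F)) key
  rw [map_pow, map_sum] at key2
  have e1 : cc (PowerSeries.C PowerSeries.X - PowerSeries.X : PowerSeries (PowerSeries F)) =
      PowerSeries.X := by
    unfold cc
    rw [map_sub, PowerSeries.constantCoeff_C, PowerSeries.constantCoeff_X, sub_zero]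
  have e2 : ∑ x, cc (∑ y, ka α β (o x y) * ps a b c α β (e x) * (swp.comp (ps a b c α β)) (e y)) =
      ((lin c c' α β (red (fun x => (e x : PowerSeries F[X])) o) : F[X]) : PowerSeries F) := by
    rw [lin_red]
    have e3 : ∀ p : F[X], (p : PowerSeries F) = Polynomial.coeToPowerSeries.ringHom p := fun p => rfl
    rw [e3, map_sum]
    refine Finset.sum_congr rfl fun x _ => ?_
    rw [map_sum, map_sum]
    refine Finset.sum_congr rfl fun y _ => ?_
    rw [map_mul, map_mul, map_mul, map_mul, cc_ka, cc_ps, RingHom.comp_apply, cc_swp_ps hcc,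
      e3, e3]
    congr 2
    rw [← e3, Polynomial.coe_C]
  rw [e1, e2, PowerSeries.X_pow_dvd_iff] at key2
  rw [Polynomial.X_pow_dvd_iff]
  intro d hd
  have h1 := key2 d hd
  rwa [Polynomial.coeff_coe] at h1

end P12

section
variable {F : Type} [Field F] {g : ℕ} {a b : Fin g → F}

/-- `node_dvd` with `exists_chiR K h` (CK-6) as a hypothesis -/
theorem node_dvd_of (K : Type) [Field K] [Algebra (PowerSeries F) K]
    [IsFractionRing (PowerSeries F) K] (h : Dist a b)
    (hχ : ∃ χ : MB a b →+* RK K a b,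
      (∀ (f : MB a b) (k : ℤ), ((χ f : RK K a b) : LaurentSeries K).coeff k =
        algebraMap (PowerSeries F) K (cinf (QQ a b) f k)) ∧
      Function.Injective χ ∧
      (∀ o : PowerSeries F, χ ⟨oh (QQ a b) o, oh_mem h o⟩ =
        algebraMap K (RK K a b) (algebraMap (PowerSeries F) K o)) ∧
      (∀ z : RK K a b, ∃ (N : ℕ) (f : MB a b),
        algebraMap K (RK K a b) (algebraMap (PowerSeries F) K (PowerSeries.X ^ N)) * z = χ f))
    {r : ℕ} (e : Fin r → MB a b) (E : Fin r → RK K a b)
    (hE : ∀ x k, (E x : LaurentSeries K).coeff k = algebraMap (PowerSeries F) K (cinf (QQ a b) (e x) k))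
    (o : Fin r → Fin r → PowerSeries F) {γ : ℕ}
    (hG : ∑ x, ∑ y, algebraMap (PowerSeries F) K (o x y) • (E x ⊗ₜ[K] E y) ∈
      (KaehlerDifferential.ideal K (RK K a b)) ^ γ) (i : Fin g) {α β : F}
    (hα : α ≠ 0) (hβ : β ≠ 0) :
    (X : F[X]) ^ γ ∣ lin (a i) (b i) α β (red (fun x => (e x : PowerSeries F[X])) o) ∧
    (X : F[X]) ^ γ ∣ lin (b i) (a i) α β (red (fun x => (e x : PowerSeries F[X])) o) := by
  have h1 : ∀ f : MB a b, Ev (QQ a b) (a i) f = swp (Ev (QQ a b) (b i) f) :=
    fun f => mem_MM.1 f.2.1 i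
  have h2 : ∀ f : MB a b, Ev (QQ a b) (b i) f = swp (Ev (QQ a b) (a i) f) := by
    intro f
    rw [h1 f, P12.swp_swp]
  exact ⟨P12.node K h hχ e E hE o hG (QQ_eval.2 ⟨i, Or.inl rfl⟩) h1 hα hβ,
    P12.node K h hχ e E hE o hG (QQ_eval.2 ⟨i, Or.inr rfl⟩) h2 hα hβ⟩

end

end Pool.Agent.TH549.CK
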