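import Pool.Agent.TH549.CK.Lin
import Pool.Agent.TH549.CK.P1
import Pool.Agent.TH549.CK.P11

/-!
# Multiplicity at a general point of the diagonal (CK-13, job 4631, helper692)
-/

set_option autoImplicit false

namespace Pool.Agent.TH549.CK

open Polynomial TensorProduct

namespace P13

variable {F : Type} [Field F]

/-- `P ↦ P (c + α z)` as a power series -/
noncomputable def th (c α : F) : F[X] →+* PowerSeries F :=
  (Polynomial.coeToPowerSeries.ringHom (R := F)).comp (Polynomial.compRingHom (C c + C α * X))

lemma th_apply (c α : F) (P : F[X]) : th c α P = ((P.comp (C c + C α * X) : F[X]) : PowerSeries F) :=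
  rfl

lemma cc_th (c α : F) (P : F[X]) : PowerSeries.constantCoeff (th c α P) = P.eval c := by
  rw [th_apply, ← PowerSeries.coeff_zero_eq_constantCoeff_apply, Polynomial.coeff_coe,
    Polynomial.coeff_zero_eq_eval_zero, Polynomial.eval_comp]
  simp

/-- expansion along the line `s = c + α z` -/
noncomputable def ps (Q : F[X]) (c α : F) : PowerSeries F[X] →+* PowerSeries (PowerSeries F) :=
  (PowerSeries.rescale (th c α Q)⁻¹).comp (PowerSeries.map (th c α))

lemma coeff_ps (Q : F[X]) (c α : F) (f : PowerSeries F[X]) (m : ℕ) :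
    PowerSeries.coeff m (ps Q c α f) = (th c α Q)⁻¹ ^ m * th c α (PowerSeries.coeff m f) := by
  unfold ps
  rw [RingHom.comp_apply, PowerSeries.coeff_rescale, PowerSeries.coeff_map]

lemma ps_oh {Q : F[X]} {c : F} (hc : Q.eval c ≠ 0) (α : F) (o : PowerSeries F) :
    ps Q c α (oh Q o) = PowerSeries.map PowerSeries.C o := by
  ext1 m
  have h0 : PowerSeries.constantCoeff (th c α Q) ≠ 0 := by
    rw [cc_th]
    exact hc
  have h1 : PowerSeries.coeff m (oh Q o) = Q ^ m * C (PowerSeries.coeff m o) := by
    unfold oh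
    rw [RingHom.comp_apply, PowerSeries.coeff_rescale, PowerSeries.coeff_map]
  rw [coeff_ps, h1, map_mul, map_pow, ← mul_assoc, ← mul_pow, PowerSeries.inv_mul_cancel _ h0,
    one_pow, one_mul, PowerSeries.coeff_map, th_apply, C_comp, Polynomial.coe_C]

/-- put `z = 0` -/
noncomputable def z0 (F : Type) [Field F] : PowerSeries (PowerSeries F) →+* PowerSeries F :=
  PowerSeries.map (PowerSeries.constantCoeff (R := F))

lemma dvd_iff (x : PowerSeries (PowerSeries F)) :
    (PowerSeries.C (PowerSeries.X : PowerSeries F)) ∣ x ↔ z0 F x = 0 := by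
  constructor
  · rintro ⟨y, rfl⟩
    rw [map_mul]
    have : z0 F (PowerSeries.C (PowerSeries.X : PowerSeries F)) = 0 := by
      unfold z0
      rw [PowerSeries.map_C, PowerSeries.constantCoeff_X, map_zero]
    rw [this, zero_mul]
  · intro h
    have h1 : ∀ m, ∃ y, PowerSeries.coeff m x = PowerSeries.X * y := by
      intro m
      apply PowerSeries.X_dvd_iff.2
      have h2 := congrArg (PowerSeries.coeff m) h
      unfold z0 at h2
      rw [PowerSeries.coeff_map, map_zero] at h2
      exact h2
    choose y hy using h1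
    refine ⟨PowerSeries.mk y, ?_⟩
    ext1 m
    rw [PowerSeries.coeff_C_mul, PowerSeries.coeff_mk, hy]

lemma prime_CX : Prime (PowerSeries.C (PowerSeries.X : PowerSeries F)) := by
  refine ⟨?_, ?_, ?_⟩
  · intro h
    have h1 := congrArg (PowerSeries.coeff 0) h
    rw [PowerSeries.coeff_C, if_pos rfl, map_zero] at h1
    exact PowerSeries.X_ne_zero h1
  · intro h
    have h1 : (PowerSeries.C (PowerSeries.X : PowerSeries F)) ∣ 1 := h.dvd
    rw [dvd_iff, map_one] at h1
    exact one_ne_zero h1
  · intro x y hxy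
    rw [dvd_iff, map_mul] at hxy
    rw [dvd_iff, dvd_iff]
    exact mul_eq_zero.1 hxy

end P13

variable {F : Type} [Field F] {g : ℕ} {a b : Fin g → F}

/-- `gen_dvd` with the statement of `exists_chiR K h` (CK-6) as a hypothesis -/
theorem gen_dvd_of (K : Type) [Field K] [Algebra (PowerSeries F) K]
    [IsFractionRing (PowerSeries F) K] (h : Dist a b)
    (hχ : ∃ χ : MB a b →+* RK K a b,
      (∀ (f : MB a b) (k : ℤ), ((χ f : RK K a b) : LaurentSeries K).coeff k =
        algebraMap (PowerSeries F) K (cinf (QQ a b) f k)) ∧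
      Function.Injective χ ∧
      (∀ o : PowerSeries F, χ ⟨oh (QQ a b) o, oh_mem h o⟩ =
        algebraMap K (RK K a b) (algebraMap (PowerSeries F) K o)) ∧
      (∀ z : RK K a b, ∃ (N : ℕ) (f : MB a b),
        algebraMap K (RK K a b) (algebraMap (PowerSeries F) K (PowerSeries.X ^ N)) * z = χ f))
    {r : ℕ} (e : Fin r → MB a b) (E : Fin r → RK K a b)
    (hE : ∀ x k, (E x : LaurentSeries K).coeff k = algebraMap (PowerSeries F) K (cinf (QQ a b) (e x) k))
    (o : Fin r → Fin r → PowerSeries F) {γ : ℕ}
    (hG : ∑ x, ∑ y, algebraMap (PowerSeries F) K (o x y) • (E x ⊗ₜ[K] E y) ∈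
      (KaehlerDifferential.ideal K (RK K a b)) ^ γ) {c : F}
    (hc : (QQ a b).eval c ≠ 0) (α β : F) :
    (X : F[X]) ^ γ ∣ lin c c α β (red (fun x => (e x : PowerSeries F[X])) o) := by
  have key := psi_dvd_of K (oh_mem h) hχ (D := PowerSeries (PowerSeries F)) (PowerSeries.map PowerSeries.C)
    ((P13.ps (QQ a b) c α).comp (MB a b).subtype) ((P13.ps (QQ a b) c β).comp (MB a b).subtype)
    (fun o => P13.ps_oh hc α o) (fun o => P13.ps_oh hc β o)
    (π := PowerSeries.C (PowerSeries.X : PowerSeries F)) P13.prime_CX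
    (by
      rw [P13.dvd_iff, PowerSeries.map_X]
      unfold P13.z0
      rw [PowerSeries.map_X]
      exact PowerSeries.X_ne_zero)
    (fun f => by
      rw [P13.dvd_iff, map_sub, sub_eq_zero]
      ext m
      unfold P13.z0
      rw [PowerSeries.coeff_map, PowerSeries.coeff_map, RingHom.comp_apply, RingHom.comp_apply,
        P13.coeff_ps, P13.coeff_ps, map_mul, map_mul, map_pow, map_pow,
        PowerSeries.constantCoeff_inv, PowerSeries.constantCoeff_inv, P13.cc_th, P13.cc_th,
        P13.cc_th, P13.cc_th]) e E hE o hG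
  -- put `t = 0`
  have h2 : (PowerSeries.X : PowerSeries F) ^ γ ∣
      ((lin c c α β (red (fun x => (e x : PowerSeries F[X])) o) : F[X]) : PowerSeries F) := by
    have h3 := map_dvd (PowerSeries.constantCoeff (R := PowerSeries F)) key
    rw [map_pow, PowerSeries.constantCoeff_C] at h3
    convert h3 using 1
    have h4 : ∀ (δ : F) (f : MB a b), PowerSeries.constantCoeff
        (((P13.ps (QQ a b) c δ).comp (MB a b).subtype) f) =
          P13.th c δ (PowerSeries.coeff 0 (f : PowerSeries F[X])) := by
      intro δ f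
      rw [← PowerSeries.coeff_zero_eq_constantCoeff_apply, RingHom.comp_apply, P13.coeff_ps,
        pow_zero, one_mul]
      rfl
    have h5 : ∀ p : PowerSeries F, PowerSeries.constantCoeff
        (PowerSeries.map (PowerSeries.C (R := F)) p) = PowerSeries.C (PowerSeries.coeff 0 p) := by
      intro p
      rw [← PowerSeries.coeff_zero_eq_constantCoeff_apply, PowerSeries.coeff_map]
    simp only [map_sum, map_mul, h4, h5]
    have h6 : ∀ p : F[X], ((p : F[X]) : PowerSeries F) =
        Polynomial.coeToPowerSeries.ringHom (R := F) p := fun _ => rfl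
    unfold red
    rw [h6]
    simp only [map_sum, map_mul]
    apply Finset.sum_congr rfl
    intro x _
    apply Finset.sum_congr rfl
    intro y _
    have h7 : lin c c α β (MvPolynomial.C (PowerSeries.coeff 0 (o x y))) =
        C (PowerSeries.coeff 0 (o x y)) := by
      unfold lin
      rw [MvPolynomial.aeval_C]
      rfl
    have h8 : ∀ (i : Fin 2) (P : F[X]), lin c c α β (Polynomial.aeval (MvPolynomial.X i) P) =
        P.comp (![C c + C α * X, C c + C β * X] i) := by
      intro i P
      unfold lin
      rw [← Polynomial.aeval_algHom_apply, MvPolynomial.aeval_X, Polynomial.comp,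
        Polynomial.aeval_def]
      rfl
    rw [h7, h8, h8, ← h6 (C _), Polynomial.coe_C]
    rfl
  rw [PowerSeries.X_pow_dvd_iff] at h2
  rw [Polynomial.X_pow_dvd_iff]
  intro d hd
  have := h2 d hd
  rwa [Polynomial.coeff_coe] at this

end Pool.Agent.TH549.CK
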