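import Pool.Agent.TH549.CK.Lin

/-! CK-14: the limit of a function on the square of the Mumford curve (helper952). -/

set_option autoImplicit false

namespace Pool.Agent.TH549.CK

open Polynomial TensorProduct

namespace P14

section red

variable {F : Type} [Field F]

/-- to iterated polynomials -/
noncomputable def itp (F : Type) [Field F] : MvPolynomial (Fin 2) F →ₐ[F] F[X][X] :=
  MvPolynomial.aeval ![C X, X]

theorem itp_fst (p : F[X]) : itp F (Polynomial.aeval (MvPolynomial.X 0) p) = C p := by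
  have h : ((itp F).comp (Polynomial.aeval (MvPolynomial.X 0 : MvPolynomial (Fin 2) F))) =
      IsScalarTower.toAlgHom F F[X] F[X][X] := by
    apply Polynomial.algHom_ext
    simp [itp]
  exact DFunLike.congr_fun h p

theorem itp_snd (p : F[X]) : itp F (Polynomial.aeval (MvPolynomial.X 1) p) = p.map C := by
  have h : ((itp F).comp (Polynomial.aeval (MvPolynomial.X 1 : MvPolynomial (Fin 2) F))) =
      Polynomial.mapAlgHom (Algebra.ofId F F[X]) := by
    apply Polynomial.algHom_ext
    simp [itp]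
  exact DFunLike.congr_fun h p

theorem red_ne_zero {r : ℕ} {e : Fin r → PowerSeries F[X]} {o : Fin r → Fin r → PowerSeries F}
    (hli : LinearIndependent F (fun x => PowerSeries.coeff 0 (e x)))
    {x₀ y₀ : Fin r} (ho : PowerSeries.coeff 0 (o x₀ y₀) ≠ 0) : red e o ≠ 0 := by
  intro h
  have h1 := congrArg (itp F) h
  unfold red at h1
  rw [map_zero, map_sum] at h1
  have h2 : ∀ x, itp F (∑ y, MvPolynomial.C (PowerSeries.coeff 0 (o x y)) *
      Polynomial.aeval (MvPolynomial.X 0 : MvPolynomial (Fin 2) F) (PowerSeries.coeff 0 (e x)) *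
      Polynomial.aeval (MvPolynomial.X 1 : MvPolynomial (Fin 2) F) (PowerSeries.coeff 0 (e y))) =
      ∑ y, C (C (PowerSeries.coeff 0 (o x y)) * PowerSeries.coeff 0 (e x)) *
        (PowerSeries.coeff 0 (e y)).map C := by
    intro x
    rw [map_sum]
    refine Finset.sum_congr rfl fun y _ => ?_
    rw [map_mul, map_mul, itp_fst, itp_snd, C_mul]
    congr 2
    have : itp F (MvPolynomial.C (PowerSeries.coeff 0 (o x y))) =
        algebraMap F F[X][X] (PowerSeries.coeff 0 (o x y)) := (itp F).commutes _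
    rw [this]
    rfl
  rw [Finset.sum_congr rfl fun x _ => h2 x] at h1
  have h3 : ∀ j x, ∑ y, PowerSeries.coeff 0 (o x y) * (PowerSeries.coeff 0 (e y)).coeff j = 0 := by
    intro j
    have h4 := congrArg (fun p : F[X][X] => p.coeff j) h1
    simp only [Polynomial.finsetSum_coeff, Polynomial.coeff_C_mul, Polynomial.coeff_map,
      Polynomial.coeff_zero] at h4
    refine Fintype.linearIndependent_iff.1 hli _ ?_
    rw [← h4]
    refine Finset.sum_congr rfl fun x _ => ?_
    rw [Finset.sum_smul]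
    refine Finset.sum_congr rfl fun y _ => ?_
    rw [Polynomial.smul_eq_C_mul, C_mul]
    ring
  have h5 : ∑ y, PowerSeries.coeff 0 (o x₀ y) • PowerSeries.coeff 0 (e y) = 0 := by
    ext j
    rw [Polynomial.finsetSum_coeff, Polynomial.coeff_zero, ← h3 j x₀]
    refine Finset.sum_congr rfl fun y _ => ?_
    rw [Polynomial.coeff_smul, smul_eq_mul]
  exact ho (Fintype.linearIndependent_iff.1 hli _ h5 y₀)

theorem degreeOf_aeval_X (i j : Fin 2) (p : F[X]) :
    MvPolynomial.degreeOf i (Polynomial.aeval (MvPolynomial.X j : MvPolynomial (Fin 2) F) p) ≤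
      if i = j then p.natDegree else 0 := by
  rw [Polynomial.aeval_eq_sum_range]
  refine (MvPolynomial.degreeOf_sum_le _ _ _).trans (Finset.sup_le fun k hk => ?_)
  rw [MvPolynomial.smul_eq_C_mul]
  refine (MvPolynomial.degreeOf_C_mul_le _ _ _).trans ?_
  refine (MvPolynomial.degreeOf_pow_le _ _ _).trans ?_
  rw [MvPolynomial.degreeOf_X]
  split_ifs with h
  · rw [mul_one]
    exact Nat.lt_succ_iff.1 (Finset.mem_range.1 hk)
  · simp

theorem degreeOf_red {r n : ℕ} {e : Fin r → PowerSeries F[X]} {o : Fin r → Fin r → PowerSeries F}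
    (he : ∀ x, (PowerSeries.coeff 0 (e x)).natDegree ≤ n) (i : Fin 2) :
    MvPolynomial.degreeOf i (red e o) ≤ n := by
  unfold red
  refine (MvPolynomial.degreeOf_sum_le _ _ _).trans (Finset.sup_le fun x _ => ?_)
  refine (MvPolynomial.degreeOf_sum_le _ _ _).trans (Finset.sup_le fun y _ => ?_)
  refine (MvPolynomial.degreeOf_mul_le _ _ _).trans ?_
  have h1 := (MvPolynomial.degreeOf_C_mul_le
    (Polynomial.aeval (MvPolynomial.X 0 : MvPolynomial (Fin 2) F) (PowerSeries.coeff 0 (e x))) i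
    (PowerSeries.coeff 0 (o x y))).trans (degreeOf_aeval_X i 0 _)
  have h2 := degreeOf_aeval_X i 1 (PowerSeries.coeff 0 (e y))
  have h3 := he x
  have h4 := he y
  refine (add_le_add h1 h2).trans ?_
  fin_cases i
  · simpa using h3
  · simpa using h4

end red

/-- clearing denominators -/
theorem exists_scale {F : Type} [Field F] (K : Type) [Field K] [Algebra (PowerSeries F) K]
    [IsFractionRing (PowerSeries F) K] {ι : Type} [Finite ι] (k : ι → K) (hk : ∃ i, k i ≠ 0) :
    ∃ (c : K) (o : ι → PowerSeries F), (∀ i, algebraMap (PowerSeries F) K (o i) = c * k i) ∧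
      ∃ i, PowerSeries.coeff 0 (o i) ≠ 0 := by
  classical
  obtain ⟨b, hb⟩ := IsLocalization.exist_integer_multiples_of_finite
    (nonZeroDivisors (PowerSeries F)) k
  choose p hp using hb
  have hb0 : algebraMap (PowerSeries F) K b ≠ 0 :=
    IsLocalization.to_map_ne_zero_of_mem_nonZeroDivisors K le_rfl b.2
  have hp' : ∀ i, algebraMap (PowerSeries F) K (p i) = algebraMap (PowerSeries F) K b * k i := by
    intro i
    rw [hp i]
    exact Algebra.smul_def _ _
  obtain ⟨i₀, hi₀⟩ := hk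
  have hex : ∃ N : ℕ, ∃ i, PowerSeries.coeff N (p i) ≠ 0 := by
    by_contra hc
    push Not at hc
    have h1 : p i₀ = 0 := by
      ext N
      rw [hc N i₀, map_zero]
    have h2 := hp' i₀
    rw [h1, map_zero] at h2
    exact (mul_ne_zero hb0 hi₀) h2.symm
  have hmin : ∀ i, (PowerSeries.X : PowerSeries F) ^ (Nat.find hex) ∣ p i := by
    intro i
    rw [PowerSeries.X_pow_dvd_iff]
    intro j hj
    by_contra h
    exact Nat.find_min hex hj ⟨i, h⟩
  choose o ho using hmin
  obtain ⟨i₁, hi₁⟩ := Nat.find_spec hex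
  have hX : algebraMap (PowerSeries F) K (PowerSeries.X ^ (Nat.find hex)) ≠ 0 := by
    intro h
    have h2 := (IsFractionRing.injective (PowerSeries F) K) (h.trans (map_zero _).symm)
    exact pow_ne_zero _ PowerSeries.X_ne_zero h2
  refine ⟨(algebraMap (PowerSeries F) K (PowerSeries.X ^ (Nat.find hex)))⁻¹ *
    algebraMap (PowerSeries F) K b, o, fun i => ?_, i₁, ?_⟩
  · rw [mul_assoc, ← hp' i]
    conv_rhs => rw [ho i, map_mul]
    rw [inv_mul_cancel_left₀ hX]
  · rw [ho i₁, PowerSeries.coeff_X_pow_mul'] at hi₁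
    simpa using hi₁

/-- the limit, from the three facts of the other pieces -/
theorem limit_aux {F : Type} [Field F] {g : ℕ} {a b : Fin g → F} (K : Type) [Field K]
    [Algebra (PowerSeries F) K] [IsFractionRing (PowerSeries F) K] {n γ : ℕ}
    {G : RK K a b ⊗[K] RK K a b} (hG0 : G ≠ 0)
    (hL : G ∈ LinearMap.range (TensorProduct.map (Lp (RK K a b) n).subtype (Lp (RK K a b) n).subtype))
    (hI : G ∈ (KaehlerDifferential.ideal K (RK K a b)) ^ γ)
    (hB : ∃ (r : ℕ) (e : Fin r → MB a b) (B : Module.Basis (Fin r) K (Lp (RK K a b) n)),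
      (∀ x, Bd (QQ a b) n (e x : PowerSeries F[X])) ∧
      (∀ x k, ((B x : RK K a b) : LaurentSeries K).coeff k =
        algebraMap (PowerSeries F) K (cinf (QQ a b) (e x) k)) ∧
      LinearIndependent F (fun x => PowerSeries.coeff 0 (e x : PowerSeries F[X])))
    (hnode : ∀ {r : ℕ} (e : Fin r → MB a b) (E : Fin r → RK K a b),
      (∀ x k, (E x : LaurentSeries K).coeff k =
        algebraMap (PowerSeries F) K (cinf (QQ a b) (e x) k)) →
      ∀ (o : Fin r → Fin r → PowerSeries F) {γ : ℕ},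
      (∑ x, ∑ y, algebraMap (PowerSeries F) K (o x y) • (E x ⊗ₜ[K] E y) ∈
        (KaehlerDifferential.ideal K (RK K a b)) ^ γ) → ∀ (i : Fin g) {α β : F},
      α ≠ 0 → β ≠ 0 →
      (X : F[X]) ^ γ ∣ lin (a i) (b i) α β (red (fun x => (e x : PowerSeries F[X])) o) ∧
      (X : F[X]) ^ γ ∣ lin (b i) (a i) α β (red (fun x => (e x : PowerSeries F[X])) o))
    (hgen : ∀ {r : ℕ} (e : Fin r → MB a b) (E : Fin r → RK K a b),
      (∀ x k, (E x : LaurentSeries K).coeff k =
        algebraMap (PowerSeries F) K (cinf (QQ a b) (e x) k)) →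
      ∀ (o : Fin r → Fin r → PowerSeries F) {γ : ℕ},
      (∑ x, ∑ y, algebraMap (PowerSeries F) K (o x y) • (E x ⊗ₜ[K] E y) ∈
        (KaehlerDifferential.ideal K (RK K a b)) ^ γ) → ∀ {c : F},
      (QQ a b).eval c ≠ 0 → ∀ (α β : F),
      (X : F[X]) ^ γ ∣ lin c c α β (red (fun x => (e x : PowerSeries F[X])) o)) :
    ∃ P : MvPolynomial (Fin 2) F, P ≠ 0 ∧ P.degreeOf 0 ≤ n ∧ P.degreeOf 1 ≤ n ∧
      (∀ i α β, α ≠ 0 → β ≠ 0 → (X : F[X]) ^ γ ∣ lin (a i) (b i) α β P ∧
        (X : F[X]) ^ γ ∣ lin (b i) (a i) α β P) ∧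
      (∀ c, (QQ a b).eval c ≠ 0 → ∀ α β, (X : F[X]) ^ γ ∣ lin c c α β P) := by
  obtain ⟨r, e, B, hBd, hBc, hli⟩ := hB
  obtain ⟨G', rfl⟩ := hL
  set k : Fin r × Fin r → K := fun p => (B.tensorProduct B).repr G' p with hk
  have hG' : G' = ∑ p : Fin r × Fin r, k p • (B p.1 ⊗ₜ[K] B p.2) := by
    conv_lhs => rw [← (B.tensorProduct B).sum_repr G']
    refine Finset.sum_congr rfl fun p _ => ?_
    rw [Module.Basis.tensorProduct_apply]
  have hne : ∃ p, k p ≠ 0 := by
    by_contra hc
    push Not at hc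
    apply hG0
    rw [hG']
    simp [hc]
  obtain ⟨c, o, ho, ⟨x₀, y₀⟩, h0⟩ := exists_scale (F := F) K k hne
  have hsum : ∑ x, ∑ y, algebraMap (PowerSeries F) K (o (x, y)) •
      ((B x : RK K a b) ⊗ₜ[K] (B y : RK K a b)) ∈ (KaehlerDifferential.ideal K (RK K a b)) ^ γ := by
    have h1 : ∑ x, ∑ y, algebraMap (PowerSeries F) K (o (x, y)) •
        ((B x : RK K a b) ⊗ₜ[K] (B y : RK K a b)) =
        c • (TensorProduct.map (Lp (RK K a b) n).subtype (Lp (RK K a b) n).subtype) G' := by
      rw [hG', map_sum, Finset.smul_sum, Fintype.sum_prod_type]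
      refine Finset.sum_congr rfl fun x _ => Finset.sum_congr rfl fun y _ => ?_
      rw [ho (x, y), map_smul, TensorProduct.map_tmul, smul_smul]
      rfl
    rw [h1]
    exact Submodule.smul_of_tower_mem _ c hI
  refine ⟨red (fun x => (e x : PowerSeries F[X])) (fun x y => o (x, y)),
    red_ne_zero hli (x₀ := x₀) (y₀ := y₀) h0, degreeOf_red (fun x => ?_) 0,
    degreeOf_red (fun x => ?_) 1, fun i α β hα hβ => ?_, fun c hc α β => ?_⟩
  · simpa using hBd x 0
  · simpa using hBd x 0
  · exact hnode e (fun x => (B x : RK K a b)) hBc (fun x y => o (x, y)) hsum i hα hβ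
  · exact hgen e (fun x => (B x : RK K a b)) hBc (fun x y => o (x, y)) hsum hc α β

end P14

end Pool.Agent.TH549.CK
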