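import Pool.Agent.TH549.CK.Defs

/-! The definitions `lin` and `red` of the statements list (one shared file, so that the pieces
P12, P13, P14, P15, P16 can be imported together). -/

set_option autoImplicit false

namespace Pool.Agent.TH549.CK

open Polynomial

/-- restriction of a polynomial in two variables to the line `(c + α z, d + β z)` -/
noncomputable def lin {F : Type} [Field F] (c d α β : F) : MvPolynomial (Fin 2) F →ₐ[F] F[X] :=
  MvPolynomial.aeval ![C c + C α * X, C d + C β * X]

/-- the reduction of `∑ o x y e x (s) e y (s')` -/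
noncomputable def red {F : Type} [Field F] {r : ℕ} (e : Fin r → PowerSeries F[X])
    (o : Fin r → Fin r → PowerSeries F) : MvPolynomial (Fin 2) F :=
  ∑ x, ∑ y, MvPolynomial.C (PowerSeries.coeff 0 (o x y)) *
    Polynomial.aeval (MvPolynomial.X 0 : MvPolynomial (Fin 2) F) (PowerSeries.coeff 0 (e x)) *
    Polynomial.aeval (MvPolynomial.X 1 : MvPolynomial (Fin 2) F) (PowerSeries.coeff 0 (e y))

end Pool.Agent.TH549.CK
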