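import Pool.Agent.TH549.CK.Defs
import Pool.Agent.TH549.CK.Lin

/-! Nagata's theorem for polynomials in two variables. -/

set_option autoImplicit false

namespace Pool.Agent.TH549.CK

open Polynomial

/-- Nagata's theorem for `g` independent points, in the form of `sum_le_of_Emp` -/
def NagataHyp (g : ℕ) : Prop :=
  ∀ (v : Fin g → Fin 3 → ℂ), (∀ i, v i 0 ≠ 0) →
    AlgebraicIndependent (⊥ : Subfield ℂ) (fun q : Fin g × Fin 2 => v q.1 q.2.succ / v q.1 0) →
    ∀ (d : ℕ) (m : Fin g → ℕ) (P : MvPolynomial (Fin 3) ℂ), P ≠ 0 → P.IsHomogeneous d →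
    (∀ i : Fin g, ∀ s : Fin 3 →₀ ℕ, (∑ j, s j) < m i →
            MvPolynomial.coeff s
              (MvPolynomial.aeval
                (fun j : Fin 3 => (MvPolynomial.X j + MvPolynomial.C (v i j) : MvPolynomial (Fin 3) ℂ))
                P) = 0) →
    ∑ i, (m i : ℝ) ≤ √g * d

namespace P16

/-- homogenisation in degree `d` -/
noncomputable def hz (d : ℕ) (H : MvPolynomial (Fin 2) ℂ) : MvPolynomial (Fin 3) ℂ :=
  ∑ s ∈ H.support, MvPolynomial.C (H.coeff s) * MvPolynomial.X 0 ^ (d - (s 0 + s 1)) *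
    MvPolynomial.X 1 ^ s 0 * MvPolynomial.X 2 ^ s 1

theorem deg_le {d : ℕ} {H : MvPolynomial (Fin 2) ℂ} (hd : H.totalDegree ≤ d) {s : Fin 2 →₀ ℕ}
    (hs : s ∈ H.support) : s 0 + s 1 ≤ d := by
  have h := (MvPolynomial.le_totalDegree hs).trans hd
  rwa [Finsupp.sum_fintype _ _ (fun _ => rfl), Fin.sum_univ_two] at h

theorem hz_homog {d : ℕ} {H : MvPolynomial (Fin 2) ℂ} (hd : H.totalDegree ≤ d) :
    (hz d H).IsHomogeneous d := by
  refine MvPolynomial.IsHomogeneous.sum _ _ _ (fun s hs => ?_)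
  have h := deg_le hd hs
  have h1 : (MvPolynomial.C (H.coeff s) * MvPolynomial.X 0 ^ (d - (s 0 + s 1)) *
      MvPolynomial.X 1 ^ s 0 * MvPolynomial.X 2 ^ s 1 : MvPolynomial (Fin 3) ℂ).IsHomogeneous
      (0 + 1 * (d - (s 0 + s 1)) + 1 * s 0 + 1 * s 1) :=
    (((MvPolynomial.isHomogeneous_C _ _).mul ((MvPolynomial.isHomogeneous_X _ _).pow _)).mul
      ((MvPolynomial.isHomogeneous_X _ _).pow _)).mul ((MvPolynomial.isHomogeneous_X _ _).pow _)
  have h2 : 0 + 1 * (d - (s 0 + s 1)) + 1 * s 0 + 1 * s 1 = d := by omega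
  rwa [h2] at h1

theorem hz_eval {B : Type*} [CommRing B] [Algebra ℂ B] {d : ℕ} {H : MvPolynomial (Fin 2) ℂ}
    (hd : H.totalDegree ≤ d) (u x y : B) :
    MvPolynomial.aeval ![u, u * x, u * y] (hz d H) = u ^ d * MvPolynomial.aeval ![x, y] H := by
  have e1 : MvPolynomial.aeval ![x, y] H =
      ∑ s ∈ H.support, algebraMap ℂ B (H.coeff s) * ∏ i, ![x, y] i ^ s i := by
    rw [MvPolynomial.aeval_def, MvPolynomial.eval₂_eq']
  rw [e1, hz, map_sum, Finset.mul_sum]
  refine Finset.sum_congr rfl (fun s hs => ?_)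
  have h := deg_le hd hs
  obtain ⟨e, he⟩ : ∃ e, d = e + (s 0 + s 1) := ⟨d - (s 0 + s 1), by omega⟩
  have h3 : d - (s 0 + s 1) = e := by omega
  rw [h3, he]
  simp only [map_mul, map_pow, MvPolynomial.aeval_C, MvPolynomial.aeval_X, Fin.prod_univ_two,
    Matrix.cons_val_zero, Matrix.cons_val_one, Matrix.cons_val]
  ring

theorem hz_ne_zero {d : ℕ} {H : MvPolynomial (Fin 2) ℂ} (hd : H.totalDegree ≤ d) (hH : H ≠ 0) :
    hz d H ≠ 0 := by
  intro h0
  have h := hz_eval hd (1 : MvPolynomial (Fin 2) ℂ) (MvPolynomial.X 0) (MvPolynomial.X 1)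
  rw [h0, map_zero, one_pow, one_mul] at h
  have h2 : (![MvPolynomial.X 0, MvPolynomial.X 1] : Fin 2 → MvPolynomial (Fin 2) ℂ) =
      MvPolynomial.X := by
    funext j
    fin_cases j <;> rfl
  rw [h2, MvPolynomial.aeval_X_left, AlgHom.id_apply] at h
  exact hH h.symm

theorem coeff_aeval_line {n : ℕ} (G : MvPolynomial (Fin n) ℂ) (a : Fin n → ℂ) (r : ℕ) :
    (MvPolynomial.aeval (fun j => C (a j) * X : Fin n → ℂ[X]) G).coeff r =
      MvPolynomial.eval a (MvPolynomial.homogeneousComponent r G) := by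
  rw [MvPolynomial.homogeneousComponent_apply, map_sum, MvPolynomial.aeval_def,
    MvPolynomial.eval₂_eq', Polynomial.finsetSum_coeff, Finset.sum_filter]
  refine Finset.sum_congr rfl (fun t _ => ?_)
  have h1 : (∏ i, (C (a i) * X : ℂ[X]) ^ t i) = C (∏ i, a i ^ t i) * X ^ (∑ i, t i) := by
    rw [map_prod, ← Finset.prod_pow_eq_pow_sum, ← Finset.prod_mul_distrib]
    refine Finset.prod_congr rfl (fun i _ => ?_)
    rw [mul_pow, C_pow]
  rw [h1, Polynomial.algebraMap_eq, ← mul_assoc, ← C_mul, coeff_C_mul_X_pow,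
    MvPolynomial.eval_monomial, Finsupp.prod_fintype _ _ (fun _ => pow_zero _)]
  have h2 : Finsupp.degree t = ∑ i, t i := Finsupp.degree_eq_sum t
  rw [h2]
  by_cases h3 : r = ∑ i, t i
  · simp [h3]
  · rw [if_neg h3, if_neg (fun h => h3 h.symm)]

theorem coeff_zero_of_dvd {n k : ℕ} {G : MvPolynomial (Fin n) ℂ}
    (h : ∀ a : Fin n → ℂ, (X : ℂ[X]) ^ k ∣ MvPolynomial.aeval (fun j => C (a j) * X : Fin n → ℂ[X]) G)
    (s : Fin n →₀ ℕ) (hs : ∑ j, s j < k) : G.coeff s = 0 := by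
  have h1 : MvPolynomial.homogeneousComponent (∑ j, s j) G = 0 := by
    apply MvPolynomial.funext
    intro a
    rw [map_zero, ← coeff_aeval_line]
    exact (Polynomial.X_pow_dvd_iff.1 (h a)) _ hs
  have h2 := MvPolynomial.coeff_homogeneousComponent (∑ j, s j) G s
  have h3 : Finsupp.degree s = ∑ i, s i := Finsupp.degree_eq_sum s
  rw [h1, if_pos h3, MvPolynomial.coeff_zero] at h2
  exact h2.symm

theorem dvd_line {d k : ℕ} {H : MvPolynomial (Fin 2) ℂ} (hd : H.totalDegree ≤ d) {p q : ℂ}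
    (hk : ∀ α β : ℂ, (X : ℂ[X]) ^ k ∣ lin p q α β H) (a : Fin 3 → ℂ) :
    (X : ℂ[X]) ^ k ∣ MvPolynomial.aeval
      (fun j => C (a j) * X + C ((![1, p, q] : Fin 3 → ℂ) j) : Fin 3 → ℂ[X]) (hz d H) := by
  set L : ℂ[X] := MvPolynomial.aeval
      (fun j => C (a j) * X + C ((![1, p, q] : Fin 3 → ℂ) j) : Fin 3 → ℂ[X]) (hz d H) with hL
  set ι : ℂ[X] →ₐ[ℂ] PowerSeries ℂ := Polynomial.coeToPowerSeries.algHom ℂ with hι
  have hιC : ∀ c : ℂ, ι (C c) = PowerSeries.C c := by
    intro c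
    rw [hι, Polynomial.coeToPowerSeries.algHom_apply]
    simp
  have hιX : ι X = PowerSeries.X := by
    rw [hι, Polynomial.coeToPowerSeries.algHom_apply]
    simp
  set u : PowerSeries ℂ := 1 + PowerSeries.C (a 0) * PowerSeries.X with hu
  have hu0 : PowerSeries.constantCoeff u ≠ 0 := by
    rw [hu]
    simp
  have huu : u * u⁻¹ = 1 := PowerSeries.mul_inv_cancel u hu0
  set w : PowerSeries ℂ := PowerSeries.X * u⁻¹ with hw
  have huw : u * w = PowerSeries.X := by
    rw [hw, mul_comm, mul_assoc, mul_comm u⁻¹ u, huu, mul_one]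
  set α : ℂ := a 1 - p * a 0 with hα
  set β : ℂ := a 2 - q * a 0 with hβ
  have e1 : ι L = MvPolynomial.aeval ![u, u * (PowerSeries.C p + PowerSeries.C α * w),
      u * (PowerSeries.C q + PowerSeries.C β * w)] (hz d H) := by
    rw [hL, ← AlgHom.comp_apply, MvPolynomial.comp_aeval]
    congr 2
    funext j
    fin_cases j
    · simp [hιC, hιX, hu, add_comm]
    · have : u * (PowerSeries.C p + PowerSeries.C α * w) =
          PowerSeries.C p * u + PowerSeries.C α * (u * w) := by ring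
      simp only [Fin.mk_one, Matrix.cons_val_one, Matrix.cons_val_zero]
      rw [this, huw, map_add, map_mul, hιC, hιC, hιX, hα, hu, map_sub, map_mul]
      ring
    · have : u * (PowerSeries.C q + PowerSeries.C β * w) =
          PowerSeries.C q * u + PowerSeries.C β * (u * w) := by ring
      simp only [Fin.reduceFinMk, Matrix.cons_val]
      rw [this, huw, map_add, map_mul, hιC, hιC, hιX, hβ, hu, map_sub, map_mul]
      ring
  have e2 : MvPolynomial.aeval ![PowerSeries.C p + PowerSeries.C α * w,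
      PowerSeries.C q + PowerSeries.C β * w] H = Polynomial.aeval w (lin p q α β H) := by
    unfold lin
    rw [← AlgHom.comp_apply, MvPolynomial.comp_aeval]
    congr 2
    funext j
    fin_cases j
    · simp
    · simp
  rw [hz_eval hd, e2] at e1
  obtain ⟨Z, hZ⟩ := hk α β
  have e3 : (PowerSeries.X : PowerSeries ℂ) ^ k ∣ ι L := by
    rw [e1, hZ, map_mul, map_pow, aeval_X, hw, mul_pow]
    exact ⟨u ^ d * (u⁻¹ ^ k * aeval (PowerSeries.X * u⁻¹) Z), by ring⟩
  rw [Polynomial.X_pow_dvd_iff]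
  intro r hr
  have e4 := (PowerSeries.X_pow_dvd_iff.1 e3) r hr
  rw [hι, Polynomial.coeToPowerSeries.algHom_apply] at e4
  simpa using e4

end P16

theorem nagata_affine {g : ℕ} (hN : NagataHyp g) (hg : 0 < g) {p q : Fin g → ℂ}
    (hind : AlgebraicIndependent (⊥ : Subfield ℂ) (fun j : Fin g × Fin 2 => ![p j.1, q j.1] j.2))
    {H : MvPolynomial (Fin 2) ℂ} (hH : H ≠ 0) {d k : ℕ} (hd : H.totalDegree ≤ d)
    (hk : ∀ i (α β : ℂ), (X : ℂ[X]) ^ k ∣ lin (p i) (q i) α β H) : √g * k ≤ d := by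
  have hfun : (fun j : Fin g × Fin 2 => (![1, p j.1, q j.1] : Fin 3 → ℂ) j.2.succ /
      (![1, p j.1, q j.1] : Fin 3 → ℂ) 0) = fun j : Fin g × Fin 2 => ![p j.1, q j.1] j.2 := by
    funext j
    obtain ⟨i, j⟩ := j
    fin_cases j <;> simp
  have h1 := hN (fun i => ![1, p i, q i]) (fun i => by simp) (by rw [hfun]; exact hind) d
    (fun _ => k) (P16.hz d H) (P16.hz_ne_zero hd hH) (P16.hz_homog hd) (by
      intro i s hs
      refine P16.coeff_zero_of_dvd (k := k) (fun a => ?_) s hs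
      have h2 := P16.dvd_line hd (hk i) a
      rw [← AlgHom.comp_apply, MvPolynomial.comp_aeval]
      convert h2 using 3
      funext j
      simp)
  rw [Finset.sum_const, Finset.card_univ, Fintype.card_fin, nsmul_eq_mul] at h1
  have h2 : 0 < √(g : ℝ) := Real.sqrt_pos.2 (by exact_mod_cast hg)
  have h3 : √(g : ℝ) * √(g : ℝ) = g := Real.mul_self_sqrt (by positivity)
  have h4 : √(g : ℝ) * (√(g : ℝ) * k) ≤ √(g : ℝ) * d := by
    rw [← mul_assoc, h3]
    exact h1
  exact le_of_mul_le_mul_left h4 h2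

end Pool.Agent.TH549.CK
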