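import Pool.Agent.TH549.CK.Defs

/-! `ℂ` as an algebraic closure of `ℂ((t))`. -/

namespace Pool.Agent.TH549.CK

open Cardinal

namespace P17

theorem card_laurent : #(LaurentSeries ℂ) = 𝔠 := by
  apply le_antisymm
  · have h1 : Function.Injective (fun x : LaurentSeries ℂ => (x.coeff : ℤ → ℂ)) :=
      HahnSeries.coeff_injective
    refine (mk_le_of_injective h1).trans ?_
    rw [← power_def, mk_complex, mk_eq_aleph0 ℤ, continuum_power_aleph0]
  · rw [← mk_complex]
    exact mk_le_of_injective (f := fun z : ℂ => (HahnSeries.C z : LaurentSeries ℂ))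
      HahnSeries.C_injective

instance charZero_laurent : CharZero (LaurentSeries ℂ) :=
  charZero_of_injective_ringHom (f := (HahnSeries.C : ℂ →+* LaurentSeries ℂ))
    HahnSeries.C_injective

theorem card_closure : #(AlgebraicClosure (LaurentSeries ℂ)) = 𝔠 := by
  apply le_antisymm
  · have h := Algebra.IsAlgebraic.cardinalMk_le_max (LaurentSeries ℂ)
      (AlgebraicClosure (LaurentSeries ℂ))
    rw [card_laurent, max_eq_left aleph0_le_continuum] at h
    exact h
  · rw [← card_laurent]
    exact mk_le_of_injective (f := algebraMap (LaurentSeries ℂ) (AlgebraicClosure (LaurentSeries ℂ)))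
      (algebraMap (LaurentSeries ℂ) (AlgebraicClosure (LaurentSeries ℂ))).injective

end P17

open P17 in
theorem exists_alg : ∃ _ : Algebra (LaurentSeries ℂ) ℂ, Algebra.IsAlgebraic (LaurentSeries ℂ) ℂ := by
  have : CharZero (AlgebraicClosure (LaurentSeries ℂ)) :=
    charZero_of_injective_algebraMap
      (algebraMap (LaurentSeries ℂ) (AlgebraicClosure (LaurentSeries ℂ))).injective
  obtain ⟨e⟩ := IsAlgClosed.ringEquiv_of_equiv_of_charZero
    (K := AlgebraicClosure (LaurentSeries ℂ)) (L := ℂ)
    (by rw [card_closure]; exact aleph0_lt_continuum)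
    (by
      have h : #(AlgebraicClosure (LaurentSeries ℂ)) = #ℂ := by rw [card_closure, mk_complex]
      exact Cardinal.eq.1 h)
  letI : Algebra (LaurentSeries ℂ) ℂ :=
    ((e : AlgebraicClosure (LaurentSeries ℂ) →+* ℂ).comp
      (algebraMap (LaurentSeries ℂ) (AlgebraicClosure (LaurentSeries ℂ)))).toAlgebra
  refine ⟨this, ?_⟩
  let e' : AlgebraicClosure (LaurentSeries ℂ) →ₐ[LaurentSeries ℂ] ℂ :=
    { (e : AlgebraicClosure (LaurentSeries ℂ) →+* ℂ) with commutes' := fun _ => rfl }
  refine ⟨fun z => ?_⟩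
  have h := (Algebra.IsAlgebraic.isAlgebraic (R := LaurentSeries ℂ) (e.symm z)).algHom e'
  have h2 : e' (e.symm z) = z := e.apply_symm_apply z
  rwa [h2] at h

end Pool.Agent.TH549.CK
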