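import Pool.Agent.TH549.CK.Defs

/-! Independent points. -/

set_option autoImplicit false

namespace Pool.Agent.TH549.CK

namespace P18

open MvPolynomial

theorem exists_roots (p q : ℂ) : ∃ a b : ℂ, a + b = p ∧ a * b = q := by
  obtain ⟨s, hs⟩ := IsAlgClosed.exists_eq_mul_self (p ^ 2 - 4 * q)
  refine ⟨(p + s) / 2, (p - s) / 2, by ring, ?_⟩
  have h1 : (p + s) / 2 * ((p - s) / 2) = (p ^ 2 - s * s) / 4 := by ring
  rw [h1, ← hs]
  ring

theorem countable_bot : Countable (⊥ : Subfield ℂ) := by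
  rw [Subfield.bot_eq_of_charZero]
  have : Countable (Set.range (algebraMap ℚ ℂ)) := (Set.countable_range _).to_subtype
  exact this

theorem exists_indep (g : ℕ) : ∃ x : Fin g × Fin 2 → ℂ,
    AlgebraicIndependent (⊥ : Subfield ℂ) x := by
  obtain ⟨s, hs⟩ := exists_isTranscendenceBasis (⊥ : Subfield ℂ) ℂ
  have hc := countable_bot
  have h1 : Cardinal.mk ℂ = Cardinal.mk s :=
    IsAlgClosed.cardinal_eq_cardinal_transcendence_basis_of_aleph0_lt' _ hs
      (Cardinal.mk_le_aleph0_iff.2 hc) (by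
        rw [Cardinal.mk_complex]
        exact Cardinal.aleph0_lt_continuum)
  have h2 : Infinite s := by
    rw [Cardinal.infinite_iff, ← h1, Cardinal.mk_complex]
    exact Cardinal.aleph0_le_continuum
  let e : Fin g × Fin 2 ↪ s :=
    ((finProdFinEquiv.toEmbedding).trans Fin.valEmbedding).trans (Infinite.natEmbedding s)
  exact ⟨fun j => e j, hs.1.comp e e.injective⟩

end P18

open P18 MvPolynomial in
theorem exists_points (g : ℕ) : ∃ a b : Fin g → ℂ, Dist a b ∧
    AlgebraicIndependent (⊥ : Subfield ℂ)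
      (fun j : Fin g × Fin 2 => ![a j.1 + b j.1, a j.1 * b j.1] j.2) := by
  obtain ⟨x, hx⟩ := exists_indep g
  choose a b hab hab' using fun i : Fin g => exists_roots (x (i, 0)) (x (i, 1))
  have hfun : (fun j : Fin g × Fin 2 => ![a j.1 + b j.1, a j.1 * b j.1] j.2) = x := by
    funext ⟨i, k⟩
    fin_cases k
    · exact hab i
    · exact hab' i
  have hdisc : ∀ i, x (i, 0) ^ 2 - 4 * x (i, 1) ≠ 0 := by
    intro i h
    have h1 : aeval x ((X (i, 0) ^ 2 - 4 * X (i, 1) : MvPolynomial (Fin g × Fin 2) (⊥ : Subfield ℂ)))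
        = 0 := by
      simpa using h
    have h2 := hx.eq_zero_of_aeval_eq_zero _ h1
    have h3 := congrArg (eval (fun j : Fin g × Fin 2 => if j = (i, 0) then (1 : (⊥ : Subfield ℂ)) else 0)) h2
    simp at h3
  have hres : ∀ i j, i ≠ j → (x (i, 1) - x (j, 1)) ^ 2 -
      x (i, 0) * (x (i, 1) - x (j, 1)) * (x (i, 0) - x (j, 0)) +
      x (i, 1) * (x (i, 0) - x (j, 0)) ^ 2 ≠ 0 := by
    intro i j hij h
    have h1 : aeval x (((X (i, 1) - X (j, 1)) ^ 2 - X (i, 0) * (X (i, 1) - X (j, 1)) *
        (X (i, 0) - X (j, 0)) + X (i, 1) * (X (i, 0) - X (j, 0)) ^ 2 :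
        MvPolynomial (Fin g × Fin 2) (⊥ : Subfield ℂ))) = 0 := by
      simpa using h
    have h2 := hx.eq_zero_of_aeval_eq_zero _ h1
    have h3 := congrArg (eval (fun k : Fin g × Fin 2 => if k = (i, 1) then (1 : (⊥ : Subfield ℂ)) else 0)) h2
    simp [hij.symm] at h3
  have hcommon : ∀ i j, i ≠ j → ∀ z, z ^ 2 - x (i, 0) * z + x (i, 1) = 0 →
      z ^ 2 - x (j, 0) * z + x (j, 1) = 0 → False := by
    intro i j hij z h1 h2
    apply hres i j hij
    have h3 : x (i, 1) - x (j, 1) = (x (i, 0) - x (j, 0)) * z := by linear_combination h1 - h2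
    rw [h3]
    linear_combination (x (i, 0) - x (j, 0)) ^ 2 * h1
  have hra : ∀ i, a i ^ 2 - x (i, 0) * a i + x (i, 1) = 0 := by
    intro i
    rw [← hab i, ← hab' i]
    ring
  have hrb : ∀ i, b i ^ 2 - x (i, 0) * b i + x (i, 1) = 0 := by
    intro i
    rw [← hab i, ← hab' i]
    ring
  have hne : ∀ i, a i ≠ b i := by
    intro i h
    apply hdisc i
    rw [← hab i, ← hab' i, h]
    ring
  refine ⟨a, b, ?_, by rw [hfun]; exact hx⟩
  intro u v huv
  rcases u with i | i <;> rcases v with j | j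
  · by_contra hc
    have hij : i ≠ j := fun h => hc (by rw [h])
    simp only [Sum.elim_inl] at huv
    exact hcommon i j hij (a i) (hra i) (by rw [huv]; exact hra j)
  · exfalso
    simp only [Sum.elim_inl, Sum.elim_inr] at huv
    by_cases hij : i = j
    · subst hij
      exact hne i huv
    · exact hcommon i j hij (a i) (hra i) (by rw [huv]; exact hrb j)
  · exfalso
    simp only [Sum.elim_inl, Sum.elim_inr] at huv
    by_cases hij : i = j
    · subst hij
      exact hne i huv.symm
    · exact hcommon i j hij (b i) (hrb i) (by rw [huv]; exact hra j)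
  · by_contra hc
    have hij : i ≠ j := fun h => hc (by rw [h])
    simp only [Sum.elim_inr] at huv
    exact hcommon i j hij (b i) (hrb i) (by rw [huv]; exact hrb j)

end Pool.Agent.TH549.CK
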