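import Pool.Agent.TH549.CK.P1

/-! CK-7: the ring of functions on the formal Mumford curve is integrally closed. -/

set_option autoImplicit false

namespace Pool.Agent.TH549.CK

open Polynomial

namespace P7

section alg
variable {D S : Type} [CommRing D] [IsDomain D] [IsIntegrallyClosed D] [CommRing S] [IsDomain S]

/-- an element which is integral over `D` and a quotient of two elements of `D` lies in `D` -/
theorem exists_of_integral (θ : D →+* S) (hθ : Function.Injective θ) {y : S} {p : D[X]}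
    (hp : p.Monic) (hy : eval₂ θ y p = 0) {c f : D} (hc : c ≠ 0) (hcf : θ c * y = θ f) :
    ∃ z, θ z = y := by
  let L := FractionRing D
  let E := FractionRing S
  have hSE : Function.Injective (algebraMap S E) := IsFractionRing.injective S E
  have hinj : Function.Injective ((algebraMap S E).comp θ) := hSE.comp hθ
  let κ : L →+* E := IsFractionRing.lift hinj
  have hκ : ∀ d : D, κ (algebraMap D L d) = algebraMap S E (θ d) := fun d =>
    IsFractionRing.lift_algebraMap hinj d
  let x : L := algebraMap D L f / algebraMap D L c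
  have hc' : algebraMap D L c ≠ 0 := fun h0 =>
    hc ((injective_iff_map_eq_zero _).1 (IsFractionRing.injective D L) c h0)
  have hx : κ x = algebraMap S E y := by
    have h1 : κ (algebraMap D L c) ≠ 0 := fun h0 => hc' ((map_eq_zero κ).1 h0)
    rw [map_div₀, div_eq_iff h1, hκ, hκ, ← map_mul, ← hcf, mul_comm]
  have hint : IsIntegral D x := by
    refine ⟨p, hp, ?_⟩
    apply κ.injective
    rw [Polynomial.hom_eval₂, map_zero, hx]
    have h2 : κ.comp (algebraMap D L) = (algebraMap S E).comp θ := RingHom.ext hκ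
    rw [h2, ← Polynomial.hom_eval₂, hy, map_zero]
  obtain ⟨z, hz⟩ := IsIntegrallyClosed.isIntegral_iff.1 hint
  refine ⟨z, hSE ?_⟩
  rw [← hκ, ← hx, hz]

end alg

section swpsec
variable {F : Type} [Field F]

/-- the inclusion of `F[[w]][[t]]` in `F((w))[[t]]` -/
noncomputable def th (F : Type) [Field F] : PowerSeries (PowerSeries F) →+* PowerSeries (LaurentSeries F) :=
  PowerSeries.map (HahnSeries.ofPowerSeries ℤ F)

theorem th_inj : Function.Injective (th F) :=
  PowerSeries.map_injective _ HahnSeries.ofPowerSeries_injective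

theorem exists_th {z : PowerSeries (LaurentSeries F)}
    (hz : ∀ (m : ℕ) (k : ℤ), k < 0 → (PowerSeries.coeff m z).coeff k = 0) : ∃ z', th F z' = z := by
  refine ⟨PowerSeries.mk fun m => PowerSeries.mk fun k => (PowerSeries.coeff m z).coeff k, ?_⟩
  ext m k
  rw [th, PowerSeries.coeff_map, PowerSeries.coeff_mk, PowerSeries.coeff_coe]
  split_ifs with hk
  · exact (hz m k hk).symm
  · rw [PowerSeries.coeff_mk]
    congr 1
    omega

theorem coeff_th (z : PowerSeries (PowerSeries F)) (m : ℕ) (k : ℤ) (hk : k < 0) :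
    (PowerSeries.coeff m (th F z)).coeff k = 0 := by
  rw [th, PowerSeries.coeff_map, PowerSeries.coeff_coe, if_pos hk]

/-- the variable `w` -/
noncomputable def ww (F : Type) [Field F] : PowerSeries (LaurentSeries F) :=
  PowerSeries.C (HahnSeries.single (1 : ℤ) (1 : F))

theorem ww_pow (n : ℕ) : (ww F) ^ n = PowerSeries.C (HahnSeries.single (n : ℤ) (1 : F)) := by
  rw [ww, ← map_pow, HahnSeries.single_pow]
  simp

theorem coeff_ww (n : ℕ) (z : PowerSeries (LaurentSeries F)) (m : ℕ) (k : ℤ) :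
    (PowerSeries.coeff m ((ww F) ^ n * z)).coeff k = (PowerSeries.coeff m z).coeff (k - n) := by
  rw [ww_pow, PowerSeries.coeff_C_mul, HahnSeries.coeff_single_mul, one_mul]

theorem ww_ne_zero : ww F ≠ 0 := by
  intro h
  have h1 := congrArg (fun z => (PowerSeries.coeff 0 z).coeff (1 : ℤ)) h
  simp [ww] at h1

theorem exists_ww : ∃ w', th F w' = ww F := by
  apply exists_th
  intro m k hk
  rw [ww, PowerSeries.coeff_C]
  split_ifs
  · exact HahnSeries.coeff_single_of_ne (by omega)
  · rfl

end swpsec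

section main
variable {F : Type} [Field F] {g : ℕ} {a b : Fin g → F}

theorem bd_iff (hBd : ∀ (n : ℕ) (f : PowerSeries F[X]),
      Bd (QQ a b) n f ↔ ∀ k : ℤ, k < -(n : ℤ) → cinf (QQ a b) f k = 0)
    (n : ℕ) (f : PowerSeries F[X]) :
    Bd (QQ a b) n f ↔ ∃ z, th F z = (ww F) ^ n * jinf (QQ a b) f := by
  rw [hBd]
  constructor
  · intro h
    apply exists_th
    intro m k hk
    rw [coeff_ww]
    have h1 := congrArg (PowerSeries.coeff m) (h (k - n) (by omega))
    rw [cinf, PowerSeries.coeff_mk, map_zero] at h1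
    exact h1
  · rintro ⟨z, hz⟩ k hk
    ext m
    rw [cinf, PowerSeries.coeff_mk, map_zero]
    have h1 := coeff_th z m (k + n) (by omega)
    rw [hz, coeff_ww, add_sub_cancel_right] at h1
    exact h1

theorem jinf_inj (hinj : ∀ f : PowerSeries F[X], (∀ k, cinf (QQ a b) f k = 0) → f = 0) :
    Function.Injective (jinf (QQ a b)) := by
  rw [injective_iff_map_eq_zero]
  intro f hf
  apply hinj
  intro k
  ext m
  rw [cinf, PowerSeries.coeff_mk, hf]
  simp

/-- boundedness at infinity -/
theorem bounded (hinj : ∀ f : PowerSeries F[X], (∀ k, cinf (QQ a b) f k = 0) → f = 0)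
    (hBd : ∀ (n : ℕ) (f : PowerSeries F[X]),
      Bd (QQ a b) n f ↔ ∀ k : ℤ, k < -(n : ℤ) → cinf (QQ a b) f k = 0)
    {p : (MB a b)[X]} (hp : p.Monic) {h c : PowerSeries F[X]}
    (hy : eval₂ (MB a b).subtype h p = 0) (hc : c ≠ 0) {n1 n2 : ℕ} (hb1 : Bd (QQ a b) n1 c)
    (hb2 : Bd (QQ a b) n2 (c * h)) : ∃ n, Bd (QQ a b) n h := by
  have hj := jinf_inj hinj
  obtain ⟨w', hw'⟩ := exists_ww (F := F)
  -- a bound for the coefficients
  have hN : ∃ N : ℕ, ∀ i ∈ Finset.range (p.natDegree + 1),
      Bd (QQ a b) N ((p.coeff i : MB a b) : PowerSeries F[X]) := by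
    have h1 : ∀ i, ∃ n, Bd (QQ a b) n ((p.coeff i : MB a b) : PowerSeries F[X]) :=
      fun i => (mem_MB.1 (p.coeff i).2).2
    choose N hN using h1
    exact ⟨∑ i ∈ Finset.range (p.natDegree + 1), N i, fun i hi => (hN i).mono
      (Finset.single_le_sum (f := N) (fun _ _ => Nat.zero_le _) hi)⟩
  obtain ⟨N, hN⟩ := hN
  refine ⟨N, (bd_iff hBd N h).2 ?_⟩
  set φ : MB a b →+* PowerSeries (LaurentSeries F) := (jinf (QQ a b)).comp (MB a b).subtype with hφ
  have hy1 : eval₂ φ (jinf (QQ a b) h) p = 0 := by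
    rw [hφ, ← Polynomial.hom_eval₂, hy, map_zero]
  -- the scaled polynomial
  have hmon : (p.map φ).Monic := hp.map φ
  have hdeg : (p.map φ).natDegree = p.natDegree := hp.natDegree_map φ
  have hlift : scaleRoots (p.map φ) ((ww F) ^ N) ∈ Polynomial.lifts (th F) := by
    rw [Polynomial.lifts_iff_coeff_lifts]
    intro i
    rw [coeff_scaleRoots, hdeg, coeff_map]
    rcases lt_trichotomy i p.natDegree with hi | hi | hi
    · obtain ⟨z, hz⟩ := (bd_iff hBd N _).1 (hN i (Finset.mem_range.2 (by omega)))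
      refine ⟨z * (w' ^ N) ^ (p.natDegree - i - 1), ?_⟩
      rw [map_mul, hz, map_pow, map_pow, hw']
      have e : p.natDegree - i = (p.natDegree - i - 1) + 1 := by omega
      conv_rhs => rw [e, pow_succ]
      change (ww F) ^ N * jinf (QQ a b) (p.coeff i : PowerSeries F[X]) * _ =
        jinf (QQ a b) (p.coeff i : PowerSeries F[X]) * _
      ring
    · refine ⟨1, ?_⟩
      rw [hi, Nat.sub_self, pow_zero, mul_one, map_one]
      have h1 : p.coeff p.natDegree = 1 := hp
      rw [h1, map_one]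
    · refine ⟨0, ?_⟩
      rw [coeff_eq_zero_of_natDegree_lt hi, map_zero, map_zero, zero_mul]
  obtain ⟨q, hq1, -, hq3⟩ := Polynomial.lifts_and_natDegree_eq_and_monic hlift
    ((monic_scaleRoots_iff _).2 hmon)
  have hy2 : eval₂ (th F) ((ww F) ^ N * jinf (QQ a b) h) q = 0 := by
    rw [← eval_map, hq1, eval, eval₂_map] at *
    have h1 : eval₂ (RingHom.id _) (jinf (QQ a b) h) (p.map φ) = 0 := by
      rw [eval₂_map, RingHom.id_comp]
      exact hy1
    have h2 := scaleRoots_eval₂_eq_zero (s := (ww F) ^ N) (RingHom.id _) h1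
    exact h2
  obtain ⟨c1, hc1⟩ := (bd_iff hBd _ _).1 (hb1.mono (le_max_left n1 n2))
  obtain ⟨f1, hf1⟩ := (bd_iff hBd _ _).1 (hb2.mono (le_max_right n1 n2))
  have hc10 : c1 ≠ 0 := by
    rintro rfl
    rw [map_zero, eq_comm, mul_eq_zero] at hc1
    rcases hc1 with h1 | h1
    · exact pow_ne_zero _ ww_ne_zero h1
    · exact hc ((injective_iff_map_eq_zero _).1 hj c h1)
  refine exists_of_integral (th F) th_inj hq3 hy2 hc10 (f := w' ^ N * f1) ?_
  rw [map_mul, hc1, hf1, map_pow, hw', map_mul]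
  ring

/-- the ring of bounded functions is integrally closed -/
theorem MB_closed (hEv : ∀ i, Function.Injective (Ev (QQ a b) (a i)))
    (hinj : ∀ f : PowerSeries F[X], (∀ k, cinf (QQ a b) f k = 0) → f = 0)
    (hBd : ∀ (n : ℕ) (f : PowerSeries F[X]),
      Bd (QQ a b) n f ↔ ∀ k : ℤ, k < -(n : ℤ) → cinf (QQ a b) f k = 0) :
    IsIntegrallyClosed (MB a b) := by
  rw [isIntegrallyClosed_iff (FractionRing (MB a b))]
  intro x hx
  obtain ⟨p, hp, hpx⟩ := hx
  obtain ⟨f, c, hc, rfl⟩ := IsFractionRing.div_surjective (A := MB a b) x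
  have hc0 : c ≠ 0 := nonZeroDivisors.ne_zero hc
  have hc0' : (c : PowerSeries F[X]) ≠ 0 := fun h0 => hc0 (Subtype.ext h0)
  -- the image in the fraction field of `F[s][[T]]`
  let L := FractionRing (MB a b)
  let E := FractionRing (PowerSeries F[X])
  have hAE : Function.Injective (algebraMap (PowerSeries F[X]) E) :=
    IsFractionRing.injective (PowerSeries F[X]) E
  have hi : Function.Injective ((algebraMap (PowerSeries F[X]) E).comp (MB a b).subtype) :=
    hAE.comp Subtype.val_injective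
  let κ : L →+* E := IsFractionRing.lift hi
  have hκ : ∀ d : MB a b, κ (algebraMap (MB a b) L d) = algebraMap (PowerSeries F[X]) E d := fun d =>
    IsFractionRing.lift_algebraMap hi d
  have hcL : algebraMap (MB a b) L c ≠ 0 := fun h0 =>
    hc0 ((injective_iff_map_eq_zero _).1 (IsFractionRing.injective (MB a b) L) c h0)
  have hcE : algebraMap (PowerSeries F[X]) E c ≠ 0 := fun h0 =>
    hc0' ((injective_iff_map_eq_zero _).1 hAE _ h0)
  have h1 : algebraMap (PowerSeries F[X]) E c *
      κ (algebraMap (MB a b) L f / algebraMap (MB a b) L c) = algebraMap (PowerSeries F[X]) E f := by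
    rw [map_div₀, hκ, hκ, mul_div_cancel₀ _ hcE]
  have h2 : eval₂ (algebraMap (PowerSeries F[X]) E)
      (κ (algebraMap (MB a b) L f / algebraMap (MB a b) L c)) (p.map (MB a b).subtype) = 0 := by
    rw [eval₂_map]
    have h3 : (algebraMap (PowerSeries F[X]) E).comp (MB a b).subtype =
        κ.comp (algebraMap (MB a b) L) := (RingHom.ext hκ).symm
    rw [h3, ← hom_eval₂, hpx, map_zero]
  obtain ⟨h, hh⟩ := exists_of_integral (algebraMap (PowerSeries F[X]) E) hAE (hp.map _) h2 hc0' h1
  have hch : (c : PowerSeries F[X]) * h = f := by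
    apply hAE
    rw [map_mul, hh, h1]
  have hph : eval₂ (MB a b).subtype h p = 0 := by
    apply hAE
    rw [map_zero, hom_eval₂, hh, ← eval₂_map]
    exact h2
  have hmem : h ∈ MB a b := by
    rw [mem_MB]
    constructor
    · rw [mem_MM]
      intro i
      have e1 := mem_MM.1 (mem_MB.1 c.2).1 i
      have e2 := mem_MM.1 (mem_MB.1 f.2).1 i
      rw [← hch, map_mul, map_mul, map_mul, ← e1] at e2
      have e3 : Ev (QQ a b) (a i) (c : PowerSeries F[X]) ≠ 0 := fun h0 =>
        hc0' ((injective_iff_map_eq_zero _).1 (hEv i) _ h0)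
      exact mul_left_cancel₀ e3 e2
    · obtain ⟨n1, hn1⟩ := (mem_MB.1 c.2).2
      obtain ⟨n2, hn2⟩ := (mem_MB.1 f.2).2
      rw [← hch] at hn2
      exact bounded hinj hBd hp hph hc0' hn1 hn2
  refine ⟨⟨h, hmem⟩, ?_⟩
  rw [eq_div_iff hcL, ← map_mul]
  congr 1
  apply Subtype.ext
  rw [← hch, mul_comm]
  rfl

/-- from the functions over `F[[t]]` to the functions over `K` -/
theorem RK_closed (K : Type) [Field K] [Algebra (PowerSeries F) K]
    [IsFractionRing (PowerSeries F) K] (hoh : ∀ o, oh (QQ a b) o ∈ MB a b)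
    (hMB : IsIntegrallyClosed (MB a b)) (χ : MB a b →+* RK K a b) (hinj : Function.Injective χ)
    (h1 : ∀ o : PowerSeries F, χ ⟨oh (QQ a b) o, hoh o⟩ =
      algebraMap K (RK K a b) (algebraMap (PowerSeries F) K o))
    (h2 : ∀ z : RK K a b, ∃ (N : ℕ) (f : MB a b),
      algebraMap K (RK K a b) (algebraMap (PowerSeries F) K (PowerSeries.X ^ N)) * z = χ f) :
    IsIntegrallyClosed (RK K a b) := by
  let t : MB a b := ⟨oh (QQ a b) PowerSeries.X, hoh _⟩
  have ht : ∀ N, χ (t ^ N) =
      algebraMap K (RK K a b) (algebraMap (PowerSeries F) K (PowerSeries.X ^ N)) := by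
    intro N
    rw [map_pow, h1, map_pow, map_pow]
  have hX : ∀ N, algebraMap (PowerSeries F) K (PowerSeries.X ^ N) ≠ 0 := fun N h0 =>
    pow_ne_zero N PowerSeries.X_ne_zero
      ((injective_iff_map_eq_zero _).1 (IsFractionRing.injective (PowerSeries F) K) _ h0)
  let _ : Algebra (MB a b) (RK K a b) := χ.toAlgebra
  have hloc : IsLocalization (Submonoid.powers t) (RK K a b) := by
    rw [isLocalization_iff]
    refine ⟨?_, ?_, ?_⟩
    · rintro ⟨_, N, rfl⟩
      change IsUnit (χ (t ^ N))
      rw [ht]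
      exact (IsUnit.mk0 _ (hX N)).map (algebraMap K (RK K a b))
    · intro z
      obtain ⟨N, f, hf⟩ := h2 z
      refine ⟨(f, ⟨t ^ N, N, rfl⟩), ?_⟩
      change z * χ (t ^ N) = χ f
      rw [ht, mul_comm, hf]
    · intro x y hxy
      exact ⟨1, by rw [hinj hxy]⟩
  have ht0 : t ≠ 0 := by
    intro h0
    have h3 := ht 1
    rw [pow_one, h0, map_zero] at h3
    exact hX 1 ((map_eq_zero (algebraMap K (RK K a b))).1 h3.symm)
  have hle : Submonoid.powers t ≤ nonZeroDivisors (MB a b) :=
    Submonoid.powers_le.2 (mem_nonZeroDivisors_of_ne_zero ht0)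
  exact isIntegrallyClosed_of_isLocalization (R := MB a b) (S := RK K a b) (Submonoid.powers t) hle

end main

end P7

/-- CK-7, from the facts of CK-5 and CK-6 -/
theorem RK_normal_of {F : Type} [Field F] {g : ℕ} {a b : Fin g → F} (K : Type) [Field K]
    [Algebra (PowerSeries F) K] [IsFractionRing (PowerSeries F) K] (h : Dist a b)
    (hinj : ∀ f : PowerSeries F[X], (∀ k, cinf (QQ a b) f k = 0) → f = 0)
    (hBd : ∀ (n : ℕ) (f : PowerSeries F[X]),
      Bd (QQ a b) n f ↔ ∀ k : ℤ, k < -(n : ℤ) → cinf (QQ a b) f k = 0)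
    (hχ : ∃ χ : MB a b →+* RK K a b,
      (∀ (f : MB a b) (k : ℤ), ((χ f : RK K a b) : LaurentSeries K).coeff k =
        algebraMap (PowerSeries F) K (cinf (QQ a b) f k)) ∧
      Function.Injective χ ∧
      (∀ o : PowerSeries F, χ ⟨oh (QQ a b) o, oh_mem h o⟩ =
        algebraMap K (RK K a b) (algebraMap (PowerSeries F) K o)) ∧
      (∀ z : RK K a b, ∃ (N : ℕ) (f : MB a b),
        algebraMap K (RK K a b) (algebraMap (PowerSeries F) K (PowerSeries.X ^ N)) * z = χ f)) :
    IsIntegrallyClosed (RK K a b) := by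
  obtain ⟨χ, -, h1, h2, h3⟩ := hχ
  refine P7.RK_closed K (oh_mem h) (P7.MB_closed (fun i => ?_) hinj hBd) χ h1 h2 h3
  have hi : (QQ a b).eval (a i) = 0 := QQ_eval.2 ⟨i, Or.inl rfl⟩
  exact Ev_injective hi (QQ_simple h hi)

end Pool.Agent.TH549.CK
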