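import Pool.Agent.TH549.CK.Defs

/-!
# CK-8: the dimension of the spaces `Lp` after a base change
-/

set_option autoImplicit false
set_option maxHeartbeats 4000000
set_option synthInstance.maxHeartbeats 400000

namespace Pool.Agent.TH549.CK

namespace P8

variable {K Ω : Type} [Field K] [Field Ω] [Algebra K Ω]

/-- the coefficientwise image -/
noncomputable def io (Ω : Type) [Field Ω] [Algebra K Ω] (f : LaurentSeries K) : LaurentSeries Ω :=
  HahnSeries.map f (algebraMap K Ω)

theorem coeff_io (f : LaurentSeries K) (k : ℤ) :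
    (io Ω f).coeff k = algebraMap K Ω (f.coeff k) := rfl

theorem io_mul (f h : LaurentSeries K) : io Ω (f * h) = io Ω f * io Ω h :=
  HahnSeries.map_mul ((algebraMap K Ω) : K →ₙ+* Ω)

theorem io_one : io Ω (1 : LaurentSeries K) = 1 := by
  ext k
  rw [coeff_io, HahnSeries.coeff_one, HahnSeries.coeff_one]
  split_ifs <;> simp

/-- the generators of `ext R Ω` -/
def gens (R : Subalgebra K (LaurentSeries K)) (Ω : Type) [Field Ω] [Algebra K Ω] :
    Set (LaurentSeries Ω) :=
  {h | ∃ f ∈ R, ∀ k, h.coeff k = algebraMap K Ω (f.coeff k)}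

theorem mem_gens {R : Subalgebra K (LaurentSeries K)} {h : LaurentSeries Ω} :
    h ∈ gens R Ω ↔ ∃ f ∈ R, h = io Ω f := by
  constructor
  · rintro ⟨f, hf, hk⟩
    exact ⟨f, hf, by ext k; rw [hk, coeff_io]⟩
  · rintro ⟨f, hf, rfl⟩
    exact ⟨f, hf, fun k => coeff_io f k⟩

theorem ext_span (R : Subalgebra K (LaurentSeries K)) :
    Subalgebra.toSubmodule (ext R Ω) =
      @Submodule.span Ω (LaurentSeries Ω) _ _ Algebra.toModule (gens R Ω) := by
  apply Algebra.adjoin_eq_span_of_subset
  refine subset_trans ?_ (@Submodule.subset_span Ω (LaurentSeries Ω) _ _ Algebra.toModule _)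
  have h : Submonoid.closure (gens R Ω) ≤
      { carrier := gens R Ω
        mul_mem' := by
          intro x y hx hy
          obtain ⟨f, hf, rfl⟩ := mem_gens.1 hx
          obtain ⟨f', hf', rfl⟩ := mem_gens.1 hy
          exact mem_gens.2 ⟨f * f', mul_mem hf hf', (io_mul f f').symm⟩
        one_mem' := mem_gens.2 ⟨1, one_mem _, io_one.symm⟩ : Submonoid (LaurentSeries Ω) } := by
    rw [Submonoid.closure_le]
    intro x hx
    exact hx
  exact h

theorem coeff_smulK {K : Type} [Field K] (c : K) (x : LaurentSeries K) (k : ℤ) :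
    (@HSMul.hSMul K (LaurentSeries K) (LaurentSeries K)
      (@instHSMul _ _ (Algebra.toSMul)) c x).coeff k = c * x.coeff k := by
  rw [Algebra.smul_def]
  have h2 : algebraMap K (LaurentSeries K) c = HahnSeries.C c := LaurentSeries.algebraMap_apply K c
  rw [h2, HahnSeries.C_mul_eq_smul, HahnSeries.coeff_smul, smul_eq_mul]

theorem coeff_sum {ι : Type} (s : Finset ι) (f : ι → LaurentSeries Ω) (k : ℤ) :
    (∑ i ∈ s, f i).coeff k = ∑ i ∈ s, (f i).coeff k := by
  classical
  induction s using Finset.induction_on with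
  | empty => simp
  | insert a s ha ih => rw [Finset.sum_insert ha, Finset.sum_insert ha, HahnSeries.coeff_add, ih]

theorem smul_coe (R : Subalgebra K (LaurentSeries K)) (c : K) (x : R) (k : ℤ) :
    ((c • x : R) : LaurentSeries K).coeff k = c * (x : LaurentSeries K).coeff k := by
  rw [Subalgebra.coe_smul]
  exact coeff_smulK c _ k

theorem sum_coe (R : Subalgebra K (LaurentSeries K)) {ι : Type} (s : Finset ι) (f : ι → R) (k : ℤ) :
    ((∑ i ∈ s, f i : R) : LaurentSeries K).coeff k =
      ∑ i ∈ s, (f i : LaurentSeries K).coeff k := by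
  rw [AddSubmonoidClass.coe_finsetSum]
  exact coeff_sum (Ω := K) s (fun i => (f i : LaurentSeries K)) k

/-- the coordinates of an element of `ext R Ω` are elements of `R` -/
theorem coords (R : Subalgebra K (LaurentSeries K)) {I : Type} (b : Module.Basis I K Ω)
    {x : LaurentSeries Ω} (hx : x ∈ ext R Ω) :
    ∃ (J : Finset I) (c : I → R), (∀ i, i ∉ J → c i = 0) ∧
      ∀ i k, b.repr (x.coeff k) i = (c i : LaurentSeries K).coeff k := by
  classical
  have hx' : x ∈ @Submodule.span Ω (LaurentSeries Ω) _ _ Algebra.toModule (gens R Ω) := by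
    rw [← ext_span]
    exact hx
  obtain ⟨m, ω, g, hxx⟩ := (@Submodule.mem_span_set' Ω (LaurentSeries Ω) _ _ Algebra.toModule x
    (gens R Ω)).1 hx'
  subst hxx
  have hg : ∀ l, ∃ f : R, (g l : LaurentSeries Ω) = io Ω (f : LaurentSeries K) := by
    intro l
    obtain ⟨f, hf, h⟩ := mem_gens.1 (g l).2
    exact ⟨⟨f, hf⟩, h⟩
  choose f hf using hg
  refine ⟨Finset.univ.biUnion (fun l => (b.repr (ω l)).support),
    fun i => ∑ l, b.repr (ω l) i • f l, ?_, ?_⟩
  · intro i hi
    apply Finset.sum_eq_zero
    intro l _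
    have : b.repr (ω l) i = 0 := by
      by_contra h
      exact hi (Finset.mem_biUnion.2 ⟨l, Finset.mem_univ _, Finsupp.mem_support_iff.2 h⟩)
    rw [this, zero_smul]
  · intro i k
    rw [coeff_sum, map_sum, Finsupp.finsetSum_apply, sum_coe]
    refine Finset.sum_congr rfl fun l _ => ?_
    rw [smul_coe, coeff_smulK, hf, coeff_io, mul_comm (ω l), ← Algebra.smul_def, map_smul,
      Finsupp.smul_apply, smul_eq_mul, mul_comm]

end P8

open P8 in
theorem ext_finrank {K : Type} [Field K] (R : Subalgebra K (LaurentSeries K)) (Ω : Type) [Field Ω]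
    [Algebra K Ω] (n : ℕ) [FiniteDimensional K (Lp R n)] :
    Module.finrank Ω (Lp (ext R Ω) n) = Module.finrank K (Lp R n) := by
  classical
  have : Module.Free K (Lp R n) :=
    @Module.Free.of_divisionRing K (Lp R n) _ (Submodule.addCommGroup _) (Submodule.module _)
  let B := Module.finBasis K (Lp R n)
  let b := Module.Basis.ofVectorSpace K Ω
  have hmem : ∀ f : R, io Ω (f : LaurentSeries K) ∈ ext R Ω := fun f =>
    Algebra.subset_adjoin (mem_gens.2 ⟨f, f.2, rfl⟩)
  let e : Fin (Module.finrank K (Lp R n)) → Lp (ext R Ω) n := fun j =>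
    ⟨⟨io Ω ((B j : R) : LaurentSeries K), hmem _⟩, fun k hk => by
      show (io Ω ((B j : R) : LaurentSeries K)).coeff k = 0
      rw [coeff_io, (B j).2 k hk, map_zero]⟩
  have he : ∀ j k, (((e j : ext R Ω)) : LaurentSeries Ω).coeff k =
      algebraMap K Ω (((B j : R) : LaurentSeries K).coeff k) := fun j k => rfl
  have hsm : ∀ (ω : Ω) (y : Lp (ext R Ω) n) (k : ℤ),
      (((ω • y : Lp (ext R Ω) n) : ext R Ω) : LaurentSeries Ω).coeff k =
        ω * (((y : ext R Ω)) : LaurentSeries Ω).coeff k := by
    intro ω y k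
    rw [Submodule.coe_smul]
    exact smul_coe (ext R Ω) ω _ k
  have hsum : ∀ {ι : Type} (s : Finset ι) (y : ι → Lp (ext R Ω) n) (k : ℤ),
      (((∑ i ∈ s, y i : Lp (ext R Ω) n) : ext R Ω) : LaurentSeries Ω).coeff k =
        ∑ i ∈ s, (((y i : ext R Ω)) : LaurentSeries Ω).coeff k := by
    intro ι s y k
    rw [Submodule.coe_sum]
    exact sum_coe (ext R Ω) s (fun i => ((y i : ext R Ω))) k
  have hli : LinearIndependent Ω e := by
    refine (@Fintype.linearIndependent_iff _ Ω (Lp (ext R Ω) n) _ (Submodule.addCommGroup _)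
      (Submodule.module _) e _).2 ?_
    intro γ hγ j
    have h1 : ∀ k, ∑ j, γ j * algebraMap K Ω (((B j : R) : LaurentSeries K).coeff k) = 0 := by
      intro k
      have h2 := congrArg (fun y : Lp (ext R Ω) n => (((y : ext R Ω)) : LaurentSeries Ω).coeff k) hγ
      simp only [hsum, hsm, he] at h2
      rw [h2]
      rfl
    have h3 : ∀ i, ∑ j, b.repr (γ j) i • B j = 0 := by
      intro i
      apply Subtype.ext
      apply Subtype.ext
      ext k
      rw [Submodule.coe_sum, sum_coe]
      have h4 := congrArg (fun z => b.repr z i) (h1 k)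
      simp only [map_sum, Finsupp.finsetSum_apply, map_zero, Finsupp.zero_apply] at h4
      refine Eq.trans ?_ h4
      refine Finset.sum_congr rfl fun j _ => ?_
      rw [Submodule.coe_smul, smul_coe, mul_comm (γ j), ← Algebra.smul_def, map_smul,
        Finsupp.smul_apply, smul_eq_mul, mul_comm]
    have h5 : b.repr (γ j) = 0 := by
      ext i
      exact (@Fintype.linearIndependent_iff _ K (Lp R n) _ (Submodule.addCommGroup _)
        (Submodule.module _) B _).1 B.linearIndependent _ (h3 i) j
    exact b.repr.map_eq_zero_iff.1 h5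
  have hsp : ⊤ ≤ Submodule.span Ω (Set.range e) := by
    intro x _
    obtain ⟨J, c, hJ, hc⟩ := coords R b (x : ext R Ω).2
    have hcL : ∀ i, c i ∈ Lp R n := by
      intro i k hk
      rw [← hc i k, x.2 k hk, map_zero]
      rfl
    have hx : x = ∑ j, (∑ i ∈ J, B.repr ⟨c i, hcL i⟩ j • b i) • e j := by
      apply Subtype.ext
      apply Subtype.ext
      ext k
      rw [hsum]
      have h1 : (((x : ext R Ω)) : LaurentSeries Ω).coeff k =
          ∑ i ∈ J, (c i : LaurentSeries K).coeff k • b i := by
        rw [← b.linearCombination_repr ((((x : ext R Ω)) : LaurentSeries Ω).coeff k),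
          Finsupp.linearCombination_apply, Finsupp.sum]
        have h2 : (b.repr ((((x : ext R Ω)) : LaurentSeries Ω).coeff k)).support ⊆ J := by
          intro i hi
          by_contra h3
          rw [Finsupp.mem_support_iff] at hi
          apply hi
          rw [hc, hJ i h3]
          rfl
        rw [Finset.sum_subset h2 (by
          intro i _ hi
          rw [Finsupp.notMem_support_iff.1 hi, zero_smul])]
        refine Finset.sum_congr rfl fun i _ => ?_
        rw [hc]
      rw [h1]
      have h4 : ∀ i, (c i : LaurentSeries K).coeff k =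
          ∑ j, B.repr ⟨c i, hcL i⟩ j * ((B j : R) : LaurentSeries K).coeff k := by
        intro i
        have h5 := B.sum_repr ⟨c i, hcL i⟩
        have h6 := congrArg (fun y : Lp R n => ((y : R) : LaurentSeries K).coeff k) h5
        simp only [Submodule.coe_sum] at h6
        rw [sum_coe] at h6
        refine Eq.trans h6.symm ?_
        refine Finset.sum_congr rfl fun j _ => ?_
        rw [Submodule.coe_smul, smul_coe]
      simp only [hsm, he, Finset.sum_mul]
      rw [Finset.sum_comm]
      refine Finset.sum_congr rfl fun i _ => ?_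
      rw [h4 i, Finset.sum_smul]
      refine Finset.sum_congr rfl fun j _ => ?_
      rw [mul_smul, smul_mul_assoc]
      congr 1
      rw [Algebra.smul_def, mul_comm]
    rw [hx]
    exact Submodule.sum_mem _ fun j _ =>
      Submodule.smul_mem _ _ (Submodule.subset_span ⟨j, rfl⟩)
  rw [Module.finrank_eq_card_basis (Module.Basis.mk hli hsp), Fintype.card_fin]

end Pool.Agent.TH549.CK
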