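import Pool.Agent.TH549.CK.P6
import Pool.Agent.TH549.CK.P7
import Pool.Agent.TH549.CK.P8
import Pool.Agent.TH549.CK.P10
import Pool.Agent.TH549.CK.P12
import Pool.Agent.TH549.CK.P13
import Pool.Agent.TH549.CK.P14
import Pool.Agent.TH549.CK.P16
import Pool.Agent.TH549.CK.P17
import Pool.Agent.TH549.CK.P18

/-! Glue. -/

set_option autoImplicit false

namespace Pool.Agent.TH549.CK

open Polynomial TensorProduct

section
variable {F : Type} [Field F] {g : ℕ} {a b : Fin g → F}

theorem RK_normal (K : Type) [Field K] [Algebra (PowerSeries F) K]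
    [IsFractionRing (PowerSeries F) K] (h : Dist a b) : IsIntegrallyClosed (RK K a b) :=
  RK_normal_of K h (fun _ hf => cinf_injective hf) (fun _ _ => Bd_iff_cinf) (exists_chiR K h)

theorem exists_limit (K : Type) [Field K] [Algebra (PowerSeries F) K]
    [IsFractionRing (PowerSeries F) K] (h : Dist a b) {n γ : ℕ} {G : RK K a b ⊗[K] RK K a b}
    (hG0 : G ≠ 0)
    (hL : G ∈ LinearMap.range (TensorProduct.map (Lp (RK K a b) n).subtype (Lp (RK K a b) n).subtype))
    (hI : G ∈ (KaehlerDifferential.ideal K (RK K a b)) ^ γ) :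
    ∃ P : MvPolynomial (Fin 2) F, P ≠ 0 ∧ P.degreeOf 0 ≤ n ∧ P.degreeOf 1 ≤ n ∧
      (∀ i α β, α ≠ 0 → β ≠ 0 → (X : F[X]) ^ γ ∣ lin (a i) (b i) α β P ∧
        (X : F[X]) ^ γ ∣ lin (b i) (a i) α β P) ∧
      (∀ c, (QQ a b).eval c ≠ 0 → ∀ α β, (X : F[X]) ^ γ ∣ lin c c α β P) := by
  obtain ⟨r, e, B, h1, h2, h3, -⟩ := exists_basis_RK K h n
  exact P14.limit_aux K hG0 hL hI ⟨r, e, B, h1, h2, h3⟩
    (fun e E hE o _ hG i _ _ hα hβ => node_dvd_of K h (exists_chiR K h) e E hE o hG i hα hβ)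
    (fun e E hE o _ hG _ hc α β => gen_dvd_of K h (exists_chiR K h) e E hE o hG hc α β)

theorem finite_Lp (K : Type) [Field K] [Algebra (PowerSeries F) K]
    [IsFractionRing (PowerSeries F) K] (h : Dist a b) (n : ℕ) :
    ∃ _ : FiniteDimensional K (Lp (RK K a b) n),
      2 * g ≤ n + 1 → Module.finrank K (Lp (RK K a b) n) = n + 1 - g := by
  obtain ⟨r, e, B, -, -, -, hr⟩ := exists_basis_RK K h n
  refine ⟨Module.Finite.of_basis B, fun hn => ?_⟩
  rw [Module.finrank_eq_card_basis B, Fintype.card_fin]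
  exact hr hn

end

/-- Nagata's theorem for `g` independent points, strict form -/
def NagataStrict (g : ℕ) : Prop :=
  ∀ (v : Fin g → Fin 3 → ℂ), (∀ i, v i 0 ≠ 0) →
    AlgebraicIndependent (⊥ : Subfield ℂ) (fun q : Fin g × Fin 2 => v q.1 q.2.succ / v q.1 0) →
    ∀ (d : ℕ) (m : Fin g → ℕ) (P : MvPolynomial (Fin 3) ℂ), P ≠ 0 → 0 < d → P.IsHomogeneous d →
    (∀ i : Fin g, ∀ s : Fin 3 →₀ ℕ, (∑ j, s j) < m i →
            MvPolynomial.coeff s
              (MvPolynomial.aeval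
                (fun j : Fin 3 => (MvPolynomial.X j + MvPolynomial.C (v i j) : MvPolynomial (Fin 3) ℂ))
                P) = 0) →
    ∑ i, (m i : ℝ) < d * √g

theorem nagata_affine_strict {g : ℕ} (hN : NagataStrict g) (hg : 0 < g) {p q : Fin g → ℂ}
    (hind : AlgebraicIndependent (⊥ : Subfield ℂ) (fun j : Fin g × Fin 2 => ![p j.1, q j.1] j.2))
    {H : MvPolynomial (Fin 2) ℂ} (hH : H ≠ 0) {d k : ℕ} (hd : H.totalDegree ≤ d) (hk0 : 0 < k)
    (hk : ∀ i (α β : ℂ), (X : ℂ[X]) ^ k ∣ lin (p i) (q i) α β H) : √g * k < d := by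
  have h2 : 0 < √(g : ℝ) := Real.sqrt_pos.2 (by exact_mod_cast hg)
  have h3 : √(g : ℝ) * √(g : ℝ) = g := Real.mul_self_sqrt (by positivity)
  have hd0 : 0 < d := by
    rcases Nat.eq_zero_or_pos d with h0 | h0
    · exfalso
      subst h0
      have h4 : H.totalDegree = 0 := by omega
      rw [MvPolynomial.totalDegree_eq_zero_iff_eq_C] at h4
      have h5 := hk ⟨0, hg⟩ 0 0
      rw [h4] at h5
      unfold lin at h5
      rw [MvPolynomial.aeval_C, Polynomial.algebraMap_eq] at h5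
      have h6 : MvPolynomial.coeff 0 H ≠ 0 := by
        intro h7
        rw [h7, map_zero] at h4
        exact hH h4
      have h8 := Polynomial.X_pow_dvd_iff.1 h5 0 hk0
      rw [Polynomial.coeff_C_zero] at h8
      exact h6 h8
    · exact h0
  have hfun : (fun j : Fin g × Fin 2 => (![1, p j.1, q j.1] : Fin 3 → ℂ) j.2.succ /
      (![1, p j.1, q j.1] : Fin 3 → ℂ) 0) = fun j : Fin g × Fin 2 => ![p j.1, q j.1] j.2 := by
    funext j
    obtain ⟨i, j⟩ := j
    fin_cases j <;> simp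
  have h1 := hN (fun i => ![1, p i, q i]) (fun i => by simp) (by rw [hfun]; exact hind) d
    (fun _ => k) (P16.hz d H) (P16.hz_ne_zero hd hH) hd0 (P16.hz_homog hd) (by
      intro i s hs
      refine P16.coeff_zero_of_dvd (k := k) (fun a => ?_) s hs
      have h2 := P16.dvd_line hd (hk i) a
      rw [← AlgHom.comp_apply, MvPolynomial.comp_aeval]
      convert h2 using 3
      funext j
      simp)
  rw [Finset.sum_const, Finset.card_univ, Fintype.card_fin, nsmul_eq_mul] at h1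
  have h4 : √(g : ℝ) * (√(g : ℝ) * k) < √(g : ℝ) * d := by
    rw [← mul_assoc, h3]
    linarith
  exact lt_of_mul_lt_mul_left h4 h2.le

end Pool.Agent.TH549.CK
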