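import Mathlib

/-! Formal Mumford curves: definitions.

`A = F[s][[T]]`, `t = Q(s) T`, `Q = ∏ (s - a i) (s - b i)`.  The expansion of `f = ∑ P_m T ^ m` near a
root `c` of `Q` is obtained by `s = c + u`, `T = v * eps(u)`, `eps = u / Q(c+u)`, so that `t = u v`. -/

namespace Pool.Agent.TH549.CK

open Polynomial Finset

section swap
variable {R : Type} [CommRing R]

/-- exchange of the two variables of a power series in two variables -/
noncomputable def swp : PowerSeries (PowerSeries R) →+* PowerSeries (PowerSeries R) where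
  toFun x := PowerSeries.mk fun k => PowerSeries.mk fun m => PowerSeries.coeff k (PowerSeries.coeff m x)
  map_zero' := by ext; simp
  map_one' := by
    ext k m
    simp only [PowerSeries.coeff_mk, PowerSeries.coeff_one]
    split_ifs <;> simp_all [PowerSeries.coeff_one]
  map_add' x y := by ext; simp
  map_mul' x y := by
    ext k m
    simp only [PowerSeries.coeff_mk, PowerSeries.coeff_mul, map_sum]
    rw [Finset.sum_comm]

@[simp] theorem coeff_coeff_swp (x : PowerSeries (PowerSeries R)) (k m : ℕ) :
    PowerSeries.coeff m (PowerSeries.coeff k (swp x)) = PowerSeries.coeff k (PowerSeries.coeff m x) := by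
  simp [swp]

end swap

section defs
variable {F : Type} [Field F]

/-- product of all `(X - a i) (X - b i)` -/
noncomputable def QQ {g : ℕ} (a b : Fin g → F) : F[X] := ∏ i, ((X - C (a i)) * (X - C (b i)))

/-- Taylor expansion at `c` -/
noncomputable def tay (c : F) : F[X] →+* PowerSeries F :=
  (Polynomial.coeToPowerSeries.ringHom (R := F)).comp (Polynomial.compRingHom (X + C c))

/-- `u / Q (c + u)` for a simple root `c` of `Q` -/
noncomputable def eps (Q : F[X]) (c : F) : PowerSeries F :=
  (PowerSeries.mk fun k => (Q.comp (X + C c)).coeff (k + 1))⁻¹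

/-- expansion of `∑ P_m T ^ m` near `c`; the outer variable is `v`, the inner one `u` -/
noncomputable def Ev (Q : F[X]) (c : F) : PowerSeries F[X] →+* PowerSeries (PowerSeries F) :=
  (PowerSeries.rescale (eps Q c)).comp (PowerSeries.map (tay c))

/-- `t = Q T` -/
noncomputable def tau (Q : F[X]) : PowerSeries F[X] := PowerSeries.C Q * PowerSeries.X

/-- the constants: a power series in `t` as an element of `F[s][[T]]` -/
noncomputable def oh (Q : F[X]) : PowerSeries F →+* PowerSeries F[X] :=
  (PowerSeries.rescale Q).comp (PowerSeries.map Polynomial.C)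

/-- pole of order at most `n` at infinity -/
def Bd (Q : F[X]) (n : ℕ) (f : PowerSeries F[X]) : Prop :=
  ∀ m, (PowerSeries.coeff m f).natDegree ≤ n + m * Q.natDegree

/-- the functions on the formal Mumford curve: the expansions at `a i` and `b i` agree -/
noncomputable def MM {g : ℕ} (a b : Fin g → F) : Subring (PowerSeries F[X]) :=
  ⨅ i, RingHom.eqLocus (Ev (QQ a b) (a i)) (swp.comp (Ev (QQ a b) (b i)))

theorem mem_MM {g : ℕ} {a b : Fin g → F} {f : PowerSeries F[X]} :
    f ∈ MM a b ↔ ∀ i, Ev (QQ a b) (a i) f = swp (Ev (QQ a b) (b i) f) := by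
  simp [MM, Subring.mem_iInf, RingHom.mem_eqLocus]

theorem Bd.mul {Q : F[X]} {n m : ℕ} {f h : PowerSeries F[X]} (hf : Bd Q n f) (hh : Bd Q m h) :
    Bd Q (n + m) (f * h) := by
  intro k
  rw [PowerSeries.coeff_mul]
  refine Polynomial.natDegree_sum_le_of_forall_le _ _ ?_
  rintro ⟨i, j⟩ hij
  have hij := Finset.HasAntidiagonal.mem_antidiagonal.1 hij
  simp only at hij ⊢
  refine (Polynomial.natDegree_mul_le).trans ?_
  have h1 := hf i
  have h2 := hh j
  have : k * Q.natDegree = i * Q.natDegree + j * Q.natDegree := by rw [← hij, add_mul]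
  omega

theorem Bd.add {Q : F[X]} {n : ℕ} {f h : PowerSeries F[X]} (hf : Bd Q n f) (hh : Bd Q n h) :
    Bd Q n (f + h) := by
  intro k
  rw [map_add]
  exact (Polynomial.natDegree_add_le _ _).trans (max_le (hf k) (hh k))

theorem Bd.mono {Q : F[X]} {n m : ℕ} {f : PowerSeries F[X]} (hf : Bd Q n f) (h : n ≤ m) : Bd Q m f :=
  fun k => (hf k).trans (by omega)

theorem Bd.neg {Q : F[X]} {n : ℕ} {f : PowerSeries F[X]} (hf : Bd Q n f) : Bd Q n (-f) := by
  intro k
  rw [map_neg, Polynomial.natDegree_neg]
  exact hf k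

theorem Bd.zero {Q : F[X]} {n : ℕ} : Bd Q n (0 : PowerSeries F[X]) := by
  intro k; simp

theorem Bd.one {Q : F[X]} {n : ℕ} : Bd Q n (1 : PowerSeries F[X]) := by
  intro k
  rw [PowerSeries.coeff_one]
  split_ifs <;> simp

theorem Bd.oh {Q : F[X]} (o : PowerSeries F) : Bd Q 0 (oh Q o) := by
  intro k
  simp only [CK.oh, RingHom.comp_apply, PowerSeries.coeff_rescale, PowerSeries.coeff_map]
  refine (Polynomial.natDegree_mul_le).trans ?_
  have := Polynomial.natDegree_pow_le (p := Q) (n := k)
  simp

/-- the bounded functions on the formal Mumford curve -/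
noncomputable def MB {g : ℕ} (a b : Fin g → F) : Subring (PowerSeries F[X]) where
  carrier := {f | f ∈ MM a b ∧ ∃ n, Bd (QQ a b) n f}
  mul_mem' := fun {x y} hx hy => ⟨mul_mem hx.1 hy.1, by
    obtain ⟨n, hn⟩ := hx.2
    obtain ⟨m, hm⟩ := hy.2
    exact ⟨n + m, hn.mul hm⟩⟩
  one_mem' := ⟨one_mem _, 0, Bd.one⟩
  add_mem' := fun {x y} hx hy => ⟨add_mem hx.1 hy.1, by
    obtain ⟨n, hn⟩ := hx.2
    obtain ⟨m, hm⟩ := hy.2
    exact ⟨n + m, (hn.mono (by omega)).add (hm.mono (by omega))⟩⟩
  zero_mem' := ⟨zero_mem _, 0, Bd.zero⟩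
  neg_mem' := fun {x} hx => ⟨neg_mem hx.1, by
    obtain ⟨n, hn⟩ := hx.2
    exact ⟨n, hn.neg⟩⟩

theorem mem_MB {g : ℕ} {a b : Fin g → F} {f : PowerSeries F[X]} :
    f ∈ MB a b ↔ f ∈ MM a b ∧ ∃ n, Bd (QQ a b) n f := Iff.rfl

/-- all the points `a i`, `b i` are different -/
def Dist {g : ℕ} (a b : Fin g → F) : Prop := Function.Injective (Sum.elim a b)

/-! expansion at infinity -/

/-- expansion of a polynomial at infinity, `s = 1 / w` -/
noncomputable def pinf : F[X] →+* LaurentSeries F :=
  (Polynomial.aeval (HahnSeries.single (-1 : ℤ) (1 : F) : LaurentSeries F)).toRingHom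

/-- `f = ∑ P_m T ^ m = ∑ (P_m / Q ^ m) t ^ m` expanded at infinity -/
noncomputable def jinf (Q : F[X]) : PowerSeries F[X] →+* PowerSeries (LaurentSeries F) :=
  (PowerSeries.rescale (pinf Q)⁻¹).comp (PowerSeries.map pinf)

/-- the coefficient of `w ^ k` in the expansion at infinity, a power series in `t` -/
noncomputable def cinf (Q : F[X]) (f : PowerSeries F[X]) (k : ℤ) : PowerSeries F :=
  PowerSeries.mk fun m => (PowerSeries.coeff m (jinf Q f)).coeff k

end defs

section curves
variable {K : Type} [Field K]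

/-- functions with a pole of order at most `n` at the point `w = 0` -/
def Lp (R : Subalgebra K (LaurentSeries K)) (n : ℕ) : Submodule K R where
  carrier := {f | ∀ k : ℤ, k < -(n : ℤ) → (f : LaurentSeries K).coeff k = 0}
  add_mem' := fun {x y} hx hy k hk => by
    have h1 := hx k hk
    have h2 := hy k hk
    simp [h1, h2]
  zero_mem' := fun k hk => by simp
  smul_mem' := fun c x hx k hk => by
    have h1 := hx k hk
    rw [Subalgebra.coe_smul, Algebra.smul_def]
    have h2 : algebraMap K (LaurentSeries K) c = HahnSeries.C c := LaurentSeries.algebraMap_apply K c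
    rw [h2, HahnSeries.C_mul_eq_smul, HahnSeries.coeff_smul, h1, smul_zero]

theorem mem_Lp {R : Subalgebra K (LaurentSeries K)} {n : ℕ} {f : R} :
    f ∈ Lp R n ↔ ∀ k : ℤ, k < -(n : ℤ) → (f : LaurentSeries K).coeff k = 0 := Iff.rfl

open TensorProduct in
/-- every nonzero function on the square of the affine curve with poles of order at most `n`
along the two curves at infinity which vanishes to order `γ` along the diagonal satisfies
`c * γ ≤ n` -/
def DiagBound (R : Subalgebra K (LaurentSeries K)) (c : ℝ) : Prop :=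
  ∀ (n γ : ℕ) (G : R ⊗[K] R), G ≠ 0 →
    G ∈ LinearMap.range (TensorProduct.map (Lp R n).subtype (Lp R n).subtype) →
    G ∈ (KaehlerDifferential.ideal K R) ^ γ → c * γ ≤ n

/-- smooth pointed curve of genus `g` -/
structure IsSmoothCurve (R : Subalgebra K (LaurentSeries K)) (g : ℕ) : Prop where
  normal : IsIntegrallyClosed R
  genus : ∀ n : ℕ, 2 * g ≤ n + 1 → Module.finrank K (Lp R n) = n + 1 - g

end curves

section RK
variable {F : Type} [Field F]

/-- the coordinate ring of the Mumford curve, over the fraction field `K` of `F[[t]]` -/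
noncomputable def RK (K : Type) [Field K] [Algebra (PowerSeries F) K] {g : ℕ} (a b : Fin g → F) :
    Subalgebra K (LaurentSeries K) :=
  Algebra.adjoin K {h | ∃ f ∈ MB a b, ∀ k, h.coeff k = algebraMap (PowerSeries F) K (cinf (QQ a b) f k)}

end RK

section basechange
variable {K Ω : Type} [Field K] [Field Ω] [Algebra K Ω]

/-- extension of scalars -/
noncomputable def ext (R : Subalgebra K (LaurentSeries K)) (Ω : Type) [Field Ω] [Algebra K Ω] :
    Subalgebra Ω (LaurentSeries Ω) :=
  Algebra.adjoin Ω {h | ∃ f ∈ R, ∀ k, h.coeff k = algebraMap K Ω (f.coeff k)}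

end basechange

end Pool.Agent.TH549.CK
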