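import Pool.Agent.TH549.CK.Defs

/-! Definitions for the extension: order along the diagonal by divided derivatives, families. -/

set_option autoImplicit false

namespace Pool.Agent.TH549.CK

open TensorProduct

section
variable {K : Type} [Field K]

theorem coe_smul' (R : Subalgebra K (LaurentSeries K)) (c : K) (f : R) :
    ((c • f : R) : LaurentSeries K) = HahnSeries.C c * (f : LaurentSeries K) := by
  rw [Subalgebra.coe_smul, Algebra.smul_def, LaurentSeries.algebraMap_apply]

/-- `f ⊗ h ↦ (1/j!) (d/dw)^j f * h`: the `j`-th coefficient of the expansion of a function on the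
square of the curve along the diagonal -/
noncomputable def sj (R : Subalgebra K (LaurentSeries K)) (j : ℕ) : R ⊗[K] R →ₗ[K] LaurentSeries K :=
  TensorProduct.lift (LinearMap.mk₂ K
    (fun f h : R => LaurentSeries.hasseDeriv K j (f : LaurentSeries K) * (h : LaurentSeries K))
    (fun f f' h => by rw [Subalgebra.coe_add, map_add, add_mul])
    (fun c f h => by
      rw [coe_smul', HahnSeries.C_mul_eq_smul, map_smul, ← HahnSeries.C_mul_eq_smul, mul_assoc,
        HahnSeries.C_mul_eq_smul])
    (fun f h h' => by rw [Subalgebra.coe_add, mul_add])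
    (fun c f h => by
      rw [coe_smul', ← HahnSeries.C_mul_eq_smul]; ring))

theorem sj_tmul (R : Subalgebra K (LaurentSeries K)) (j : ℕ) (f h : R) :
    sj R j (f ⊗ₜ h) = LaurentSeries.hasseDeriv K j (f : LaurentSeries K) * (h : LaurentSeries K) :=
  rfl

/-- `G` vanishes to order at least `γ` along the diagonal -/
def FV (R : Subalgebra K (LaurentSeries K)) (γ : ℕ) (G : R ⊗[K] R) : Prop :=
  ∀ j < γ, sj R j G = 0

/-- the inequality for the classes `n (F₁ + F₂) - γ Δ` -/
def DiagBoundF (R : Subalgebra K (LaurentSeries K)) (c : ℝ) : Prop :=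
  ∀ (n γ : ℕ) (G : R ⊗[K] R), 0 < γ → G ≠ 0 →
    G ∈ LinearMap.range (TensorProduct.map (Lp R n).subtype (Lp R n).subtype) →
    FV R γ G → c * γ < n

/-- the inequality for all line bundles `A ⊠ A (-γ Δ)`, `A = O (n ∞ - D)`, `D` the divisor of the
ideal `J` -/
def DiagBoundJ (R : Subalgebra K (LaurentSeries K)) (c : ℝ) : Prop :=
  ∀ (J : Ideal R) (n γ : ℕ) (G : R ⊗[K] R), J ≠ ⊥ → G ≠ 0 →
    G ∈ LinearMap.range (TensorProduct.map (Lp R n ⊓ J.restrictScalars K).subtype
      (Lp R n ⊓ J.restrictScalars K).subtype) →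
    FV R γ G → c * γ + Module.finrank K (R ⧸ J) ≤ n

/-- `w`-expansions at the point at infinity depending algebraically on a point of `Spec S` -/
structure IsFamily (K S : Type) [Field K] [CommRing S] [Algebra K S] (g : ℕ)
    (R : (S →ₐ[K] K) → Subalgebra K (LaurentSeries K)) : Prop where
  basis : ∀ n : ℕ, 2 * g ≤ n + 1 → ∃ e : Fin (n + 1 - g) → LaurentSeries S, ∀ φ : S →ₐ[K] K,
    ∃ B : Module.Basis (Fin (n + 1 - g)) K (Lp (R φ) n),
      ∀ i k, ((B i : R φ) : LaurentSeries K).coeff k = φ ((e i).coeff k)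

end

end Pool.Agent.TH549.CK
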