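import Pool.Agent.TH549.CK.Defs2

/-! CK-23: the very general member of a family. -/

set_option autoImplicit false

namespace Pool.Agent.TH549.CK

open TensorProduct

variable {K : Type} [Field K]

namespace P23

section lin

variable {V : Type} [AddCommGroup V] [Module K V]

theorem mem_of {cf : ℤ → V →ₗ[K] K} (hcf : ∀ f, (∀ k, cf k f = 0) → f = 0)
    {ι : Type} [Fintype ι] {D H : ι → V} (hD : LinearIndependent K D) {I : Set ℤ}
    (h : ∀ k, ∀ l ∈ I, ∑ z, cf l (H z) * cf k (D z) = 0) (z : ι) : ∀ l ∈ I, cf l (H z) = 0 := by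
  intro l hl
  have h1 : ∑ z, cf l (H z) • D z = 0 := by
    apply hcf
    intro k
    rw [map_sum, ← h k l hl]
    exact Finset.sum_congr rfl fun z _ => by rw [map_smul, smul_eq_mul]
  exact Fintype.linearIndependent_iff.mp hD _ h1 z

theorem mem_range {cf : ℤ → V →ₗ[K] K} (hcf : ∀ f, (∀ k, cf k f = 0) → f = 0)
    {L M : Submodule K V} (hLM : L ≤ M) {I : Set ℤ} (hL : ∀ f, f ∈ L ↔ ∀ k ∈ I, cf k f = 0)
    {ι : Type} [Fintype ι] (B : Module.Basis ι K M) (C : ι × ι → K)
    (h : ∀ k l : ℤ, (k ∈ I ∨ l ∈ I) →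
      ∑ p, C p * (cf k (B p.1 : V) * cf l (B p.2 : V)) = 0) :
    ∑ p, C p • ((B p.1 : V) ⊗ₜ[K] (B p.2 : V)) ∈
      LinearMap.range (TensorProduct.map L.subtype L.subtype) := by
  classical
  have : Module.Finite K M := Module.Finite.of_basis B
  have : Module.Finite K L :=
    Module.Finite.of_injective (Submodule.inclusion hLM) (Submodule.inclusion_injective _)
  have hB : LinearIndependent K fun y => (B y : V) :=
    B.linearIndependent.map' M.subtype (Submodule.ker_subtype _)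
  have hF : ∀ y, (∑ x, C (x, y) • (B x : V)) ∈ L := by
    intro y
    rw [hL]
    refine mem_of hcf (H := fun y => ∑ x, C (x, y) • (B x : V)) hB (fun l k hk => ?_) y
    rw [← h k l (Or.inl hk), Fintype.sum_prod_type_right]
    refine Finset.sum_congr rfl fun y _ => ?_
    rw [map_sum, Finset.sum_mul]
    refine Finset.sum_congr rfl fun x _ => ?_
    rw [map_smul, smul_eq_mul, mul_assoc]
  let D := Module.finBasis K L
  have hD : LinearIndependent K fun z => (D z : V) :=
    D.linearIndependent.map' L.subtype (Submodule.ker_subtype _)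
  have hrep : ∀ y, ∑ x, C (x, y) • (B x : V) = ∑ z, D.repr ⟨_, hF y⟩ z • (D z : V) := by
    intro y
    have h1 := congrArg L.subtype (D.sum_repr ⟨_, hF y⟩)
    rw [map_sum] at h1
    simp only [map_smul] at h1
    exact h1.symm
  have hH : ∀ z, (∑ y, D.repr ⟨_, hF y⟩ z • (B y : V)) ∈ L := by
    intro z
    rw [hL]
    refine mem_of hcf (H := fun z => ∑ y, D.repr ⟨_, hF y⟩ z • (B y : V)) hD
      (fun k l hl => ?_) z
    rw [← h k l (Or.inr hl), Fintype.sum_prod_type_right]
    have h2 : ∀ y, ∑ x, C (x, y) * (cf k (B x : V) * cf l (B y : V)) =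
        ∑ z, D.repr ⟨_, hF y⟩ z * (cf k (D z : V) * cf l (B y : V)) := by
      intro y
      have h3 := congrArg (fun f => cf k f * cf l (B y : V)) (hrep y)
      simp only [map_sum, map_smul, smul_eq_mul, Finset.sum_mul, mul_assoc] at h3
      exact h3
    rw [Finset.sum_congr rfl fun y _ => h2 y, Finset.sum_comm]
    refine Finset.sum_congr rfl fun z _ => ?_
    rw [map_sum, Finset.sum_mul]
    refine Finset.sum_congr rfl fun y _ => ?_
    rw [map_smul, smul_eq_mul]
    ring
  have hG : ∑ p, C p • ((B p.1 : V) ⊗ₜ[K] (B p.2 : V)) =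
      ∑ z, (D z : V) ⊗ₜ[K] (∑ y, D.repr ⟨_, hF y⟩ z • (B y : V)) := by
    rw [Fintype.sum_prod_type_right]
    have h2 : ∀ y, ∑ x, C (x, y) • ((B x : V) ⊗ₜ[K] (B y : V)) =
        ∑ z, (D z : V) ⊗ₜ[K] (D.repr ⟨_, hF y⟩ z • (B y : V)) := by
      intro y
      have h3 := congrArg (fun f : V => f ⊗ₜ[K] (B y : V)) (hrep y)
      simp only [TensorProduct.sum_tmul, TensorProduct.smul_tmul'] at h3 ⊢
      rw [h3]
      exact Finset.sum_congr rfl fun z _ => by rw [TensorProduct.smul_tmul]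
    rw [Finset.sum_congr rfl fun y _ => h2 y, Finset.sum_comm]
    exact Finset.sum_congr rfl fun z _ => (TensorProduct.tmul_sum _ _ _).symm
  rw [hG]
  refine Submodule.sum_mem _ fun z _ => ⟨D z ⊗ₜ[K] ⟨_, hH z⟩, ?_⟩
  rw [TensorProduct.map_tmul]
  rfl

theorem cc_range {cf : ℤ → V →ₗ[K] K} {L : Submodule K V} {I : Set ℤ}
    (hL : ∀ f, f ∈ L ↔ ∀ k ∈ I, cf k f = 0) {k l : ℤ} (hkl : k ∈ I ∨ l ∈ I) {G : V ⊗[K] V}
    (hG : G ∈ LinearMap.range (TensorProduct.map L.subtype L.subtype)) :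
    (LinearMap.mul' K K ∘ₗ TensorProduct.map (cf k) (cf l)) G = 0 := by
  obtain ⟨u, rfl⟩ := hG
  induction u using TensorProduct.induction_on with
  | zero => rw [map_zero, map_zero]
  | tmul f h =>
    rw [TensorProduct.map_tmul, LinearMap.comp_apply, TensorProduct.map_tmul,
      LinearMap.mul'_apply]
    rcases hkl with h1 | h1
    · rw [show cf k (L.subtype f) = 0 from (hL _).mp f.2 k h1, zero_mul]
    · rw [show cf l (L.subtype h) = 0 from (hL _).mp h.2 l h1, mul_zero]
  | add u v hu hv => rw [map_add, map_add, hu, hv, add_zero]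

theorem range_mono {L M : Submodule K V} (h : L ≤ M) :
    LinearMap.range (TensorProduct.map L.subtype L.subtype) ≤
      LinearMap.range (TensorProduct.map M.subtype M.subtype) := by
  rintro _ ⟨u, rfl⟩
  refine ⟨TensorProduct.map (Submodule.inclusion h) (Submodule.inclusion h) u, ?_⟩
  rw [← LinearMap.comp_apply, ← TensorProduct.map_comp, Submodule.subtype_comp_inclusion]

theorem exists_coords {M : Submodule K V} {ι : Type} [Fintype ι]
    (B : Module.Basis ι K M) {G : V ⊗[K] V}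
    (hG : G ∈ LinearMap.range (TensorProduct.map M.subtype M.subtype)) :
    ∃ C : ι × ι → K, G = ∑ p, C p • ((B p.1 : V) ⊗ₜ[K] (B p.2 : V)) := by
  obtain ⟨u, rfl⟩ := hG
  refine ⟨(B.tensorProduct B).repr u, ?_⟩
  conv_lhs => rw [← (B.tensorProduct B).sum_repr u]
  rw [map_sum]
  refine Finset.sum_congr rfl fun p _ => ?_
  rw [map_smul, show p = (p.1, p.2) from rfl, Module.Basis.tensorProduct_apply,
    TensorProduct.map_tmul]
  rfl

theorem coords_zero {M : Submodule K V} {ι : Type} [Fintype ι]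
    (B : Module.Basis ι K M) {C : ι × ι → K}
    (hC : ∑ p, C p • ((B p.1 : V) ⊗ₜ[K] (B p.2 : V)) = 0) : C = 0 := by
  have hinj : Function.Injective (TensorProduct.map M.subtype M.subtype) :=
    TensorProduct.map_injective_of_flat_flat _ _ (Submodule.injective_subtype _)
      (Submodule.injective_subtype _)
  have h1 : ∑ p, C p • (B.tensorProduct B) p = 0 := by
    apply hinj
    rw [map_sum, map_zero, ← hC]
    refine Finset.sum_congr rfl fun p _ => ?_
    rw [map_smul, show p = (p.1, p.2) from rfl, Module.Basis.tensorProduct_apply,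
      TensorProduct.map_tmul]
    rfl
  funext p
  exact Fintype.linearIndependent_iff.mp (B.tensorProduct B).linearIndependent C h1 p

end lin

/-- the coefficients of the products of Laurent series with bounded poles -/
theorem coeff_mul_bd {f h : LaurentSeries K} {A B : ℤ}
    (hf : ∀ a < -A, f.coeff a = 0) (hh : ∀ b < -B, h.coeff b = 0) (k : ℤ) :
    (f * h).coeff k = ∑ a ∈ Finset.Icc (-A) (k + B), f.coeff a * h.coeff (k - a) := by
  rw [HahnSeries.coeff_mul]
  refine Finset.sum_bij_ne_zero (fun p _ _ => p.1) ?_ ?_ ?_ ?_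
  · intro p hp hne
    rw [Finset.mem_antidiagonal] at hp
    rw [Finset.mem_Icc]
    constructor
    · by_contra hc
      exact left_ne_zero_of_mul hne (hf _ (not_le.mp hc))
    · by_contra hc
      exact right_ne_zero_of_mul hne (hh _ (by omega))
  · intro p hp _ p' hp' _ heq
    rw [Finset.mem_antidiagonal] at hp hp'
    exact Prod.ext heq (by omega)
  · intro a _ hne
    refine ⟨(a, k - a), ?_, hne, rfl⟩
    rw [Finset.mem_antidiagonal]
    exact ⟨left_ne_zero_of_mul hne, right_ne_zero_of_mul hne, by simp⟩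
  · intro p hp _
    rw [Finset.mem_antidiagonal] at hp
    have h1 : k - p.1 = p.2 := by omega
    rw [h1]

theorem minor {S κ ι : Type} [CommRing S] [Fintype κ] [DecidableEq κ]
    (M : ι → κ → S) (φ₀ : S →+* K)
    (h : ∀ C : κ → K, (∀ i, ∑ j, C j * φ₀ (M i j) = 0) → C = 0) :
    ∃ s : S, φ₀ s ≠ 0 ∧ ∀ φ : S →+* K, φ s ≠ 0 →
      ∀ C : κ → K, (∀ i, ∑ j, C j * φ (M i j) = 0) → C = 0 := by
  classical
  obtain ⟨v, hv⟩ : ∃ v : ι → κ → K, v = fun i j => φ₀ (M i j) := ⟨_, rfl⟩
  have hspan : Submodule.span K (Set.range v) = ⊤ := by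
    by_contra hne
    obtain ⟨f, hf, hle⟩ := Submodule.exists_le_ker_of_lt_top _ (lt_top_iff_ne_top.mpr hne)
    apply hf
    have hfv : ∀ w : κ → K, f w = ∑ j, f (Pi.single j 1) * w j := by
      intro w
      conv_lhs => rw [pi_eq_sum_univ' w, map_sum]
      exact Finset.sum_congr rfl fun j _ => by rw [map_smul, smul_eq_mul, mul_comm]
    have h1 := h (fun j => f (Pi.single j 1)) (fun i => by
      have h2 : f (v i) = 0 := hle (Submodule.subset_span ⟨i, rfl⟩)
      rw [hfv, hv] at h2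
      exact h2)
    apply LinearMap.ext
    intro w
    rw [hfv]
    refine Finset.sum_eq_zero fun j _ => ?_
    rw [show f (Pi.single j 1) = 0 from congrFun h1 j, zero_mul]
  obtain ⟨f, hf1, hf2, hf3⟩ := Submodule.exists_fun_fin_finrank_span_eq K (Set.range v)
  have hcard : Fintype.card κ = Module.finrank K (Submodule.span K (Set.range v)) := by
    rw [hspan, finrank_top, Module.finrank_fintype_fun_eq_card]
  choose i₀ hi₀ using hf1
  have e : κ ≃ Fin (Module.finrank K (Submodule.span K (Set.range v))) :=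
    Fintype.equivFinOfCardEq hcard
  refine ⟨(Matrix.of fun a b => M (i₀ (e a)) b).det, ?_, fun φ hφ C hC => ?_⟩
  · rw [RingHom.map_det]
    have h1 : LinearIndependent K (φ₀.mapMatrix (Matrix.of fun a b => M (i₀ (e a)) b)).row := by
      have h2 : (φ₀.mapMatrix (Matrix.of fun a b => M (i₀ (e a)) b)).row = f ∘ e := by
        funext a
        have h3 : f (e a) = fun j => φ₀ (M (i₀ (e a)) j) := by
          have h4 := hi₀ (e a)
          have h5 : v (i₀ (e a)) = fun j => φ₀ (M (i₀ (e a)) j) := congrFun hv _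
          rw [← h4, h5]
        rw [Function.comp_apply, h3]
        rfl
      rw [h2]
      exact hf3.comp e e.injective
    rw [Matrix.linearIndependent_rows_iff_isUnit, Matrix.isUnit_iff_isUnit_det] at h1
    exact h1.ne_zero
  · rw [RingHom.map_det] at hφ
    apply Matrix.eq_zero_of_mulVec_eq_zero hφ
    funext a
    rw [Matrix.mulVec, dotProduct, Pi.zero_apply, ← hC (i₀ (e a))]
    refine Finset.sum_congr rfl fun b _ => ?_
    rw [mul_comm]
    rfl

/-- the coefficient functional -/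
noncomputable def cf (R : Subalgebra K (LaurentSeries K)) (k : ℤ) : R →ₗ[K] K where
  toFun f := (f : LaurentSeries K).coeff k
  map_add' f h := by simp
  map_smul' c f := by
    rw [coe_smul', HahnSeries.C_mul_eq_smul, HahnSeries.coeff_smul]
    rfl

theorem cf_apply (R : Subalgebra K (LaurentSeries K)) (k : ℤ) (f : R) :
    cf R k f = (f : LaurentSeries K).coeff k := rfl

theorem cf_ext {R : Subalgebra K (LaurentSeries K)} (f : R) (H : ∀ k, cf R k f = 0) :
    f = 0 := Subtype.ext (HahnSeries.ext (funext fun k => H k))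

theorem Lp_mono {R : Subalgebra K (LaurentSeries K)} {n N : ℕ} (h : n ≤ N) : Lp R n ≤ Lp R N :=
  fun f hf k hk => hf k (by omega)

theorem mem_Lp' (R : Subalgebra K (LaurentSeries K)) (n : ℕ) (f : R) :
    f ∈ Lp R n ↔ ∀ k ∈ {k : ℤ | k < -(n : ℤ)}, cf R k f = 0 := Iff.rfl

/-- the coefficients of the linear equations -/
noncomputable def eqM {S : Type} [CommRing S] {r : ℕ} (e : Fin r → LaurentSeries S) (N n γ : ℕ) :
    (ℕ × ℤ) ⊕ (ℤ × ℤ) → Fin r × Fin r → S
  | Sum.inl i, p => if i.1 < γ then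
      ∑ a ∈ Finset.Icc (-((N : ℤ) + i.1)) (i.2 + N),
        Ring.choose (a + (i.1 : ℤ)) i.1 • (e p.1).coeff (a + i.1) * (e p.2).coeff (i.2 - a) else 0
  | Sum.inr i, p => if i.1 < -(n : ℤ) ∨ i.2 < -(n : ℤ) then
      (e p.1).coeff i.1 * (e p.2).coeff i.2 else 0

theorem coeff_sum' {ι : Type} (s : Finset ι) (f : ι → LaurentSeries K) (k : ℤ) :
    (∑ i ∈ s, f i).coeff k = ∑ i ∈ s, (f i).coeff k := by
  classical
  induction s using Finset.induction_on with
  | empty => simp
  | insert a s ha ih => rw [Finset.sum_insert ha, Finset.sum_insert ha, HahnSeries.coeff_add, ih]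

theorem sj_sum (R : Subalgebra K (LaurentSeries K)) (j : ℕ) {ι : Type} [Fintype ι]
    (C : ι → K) (f h : ι → R) (k : ℤ) :
    (sj R j (∑ p, C p • (f p ⊗ₜ[K] h p))).coeff k =
      ∑ p, C p * (LaurentSeries.hasseDeriv K j (f p : LaurentSeries K) *
        (h p : LaurentSeries K)).coeff k := by
  rw [map_sum, coeff_sum']
  refine Finset.sum_congr rfl fun p _ => ?_
  rw [map_smul, HahnSeries.coeff_smul, smul_eq_mul, sj_tmul]

theorem eqs {S : Type} [CommRing S] [Algebra K S] {r : ℕ} (e : Fin r → LaurentSeries S)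
    (N n γ : ℕ) (φ : S →ₐ[K] K) {R : Subalgebra K (LaurentSeries K)}
    (b : Fin r → R) (hbN : ∀ i, ∀ k < -(N : ℤ), ((b i : R) : LaurentSeries K).coeff k = 0)
    (hb : ∀ i k, ((b i : R) : LaurentSeries K).coeff k = φ ((e i).coeff k))
    (C : Fin r × Fin r → K) :
    (∀ i, ∑ p, C p * φ (eqM e N n γ i p) = 0) ↔
      (FV R γ (∑ p, C p • (b p.1 ⊗ₜ[K] b p.2)) ∧
        ∀ k l : ℤ, (k < -(n : ℤ) ∨ l < -(n : ℤ)) →
          ∑ p, C p * (cf R k (b p.1) * cf R l (b p.2)) = 0) := by
  have h1 : ∀ (j : ℕ) (k : ℤ), j < γ → ∀ p : Fin r × Fin r, φ (eqM e N n γ (Sum.inl (j, k)) p) =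
      (LaurentSeries.hasseDeriv K j (b p.1 : LaurentSeries K) *
        (b p.2 : LaurentSeries K)).coeff k := by
    intro j k hj p
    have hh : ∀ a < -((N : ℤ) + j),
        (LaurentSeries.hasseDeriv K j (b p.1 : LaurentSeries K)).coeff a = 0 := by
      intro a ha
      rw [LaurentSeries.hasseDeriv_coeff, hbN p.1 _ (by omega), smul_zero]
    rw [coeff_mul_bd hh (hbN p.2) k]
    simp only [eqM, if_pos hj, map_sum, map_mul, map_zsmul]
    refine Finset.sum_congr rfl fun a _ => ?_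
    rw [LaurentSeries.hasseDeriv_coeff, hb, hb]
  constructor
  · intro h
    constructor
    · intro j hj
      apply HahnSeries.ext
      funext k
      rw [sj_sum]
      have h2 := h (Sum.inl (j, k))
      simp only [h1 j k hj] at h2
      exact h2
    · intro k l hkl
      have h2 := h (Sum.inr (k, l))
      simp only [eqM, if_pos hkl, map_mul, ← hb] at h2
      exact h2
  · rintro ⟨h2, h3⟩ (⟨j, k⟩ | ⟨k, l⟩)
    · by_cases hj : j < γ
      · have h4 := congrArg (fun f : LaurentSeries K => f.coeff k) (h2 j hj)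
        simp only [sj_sum] at h4
        simp only [h1 j k hj]
        exact h4
      · simp only [eqM, if_neg hj, map_zero, mul_zero, Finset.sum_const_zero]
    · by_cases hkl : k < -(n : ℤ) ∨ l < -(n : ℤ)
      · simp only [eqM, if_pos hkl, map_mul, ← hb]
        exact h3 k l hkl
      · simp only [eqM, if_neg hkl, map_zero, mul_zero, Finset.sum_const_zero]

theorem key {S : Type} [CommRing S] [Algebra K S] {g : ℕ}
    {R : (S →ₐ[K] K) → Subalgebra K (LaurentSeries K)} (hR : IsFamily K S g R) {c : ℝ}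
    (φ₀ : S →ₐ[K] K) (h0 : DiagBoundF (R φ₀) c) (n γ : ℕ) (hγ : 0 < γ) (hc : ¬ c * γ < n) :
    ∃ s : S, φ₀ s ≠ 0 ∧ ∀ φ : S →ₐ[K] K, φ s ≠ 0 → ∀ G : R φ ⊗[K] R φ,
      G ∈ LinearMap.range (TensorProduct.map (Lp (R φ) n).subtype (Lp (R φ) n).subtype) →
      FV (R φ) γ G → G = 0 := by
  obtain ⟨N, hN⟩ : ∃ N : ℕ, N = max n (2 * g) := ⟨_, rfl⟩
  have hnN : n ≤ N := by omega
  obtain ⟨e, he⟩ := hR.basis N (by omega)
  obtain ⟨s, hs0, hs⟩ := minor (K := K) (eqM e N n γ) (φ₀ : S →+* K) (by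
    obtain ⟨B, hB⟩ := he φ₀
    intro C hC
    obtain ⟨h1, h2⟩ := (eqs e N n γ φ₀ (fun i => (B i : R φ₀)) (fun i => (B i).2) hB C).mp hC
    have h3 := mem_range (cf := cf (R φ₀)) cf_ext (Lp_mono hnN) (mem_Lp' (R φ₀) n) B C h2
    apply coords_zero B
    by_contra hne
    exact hc (h0 n γ _ hγ hne h3 h1))
  refine ⟨s, hs0, fun φ hφ G hG hFV => ?_⟩
  obtain ⟨B, hB⟩ := he φ
  obtain ⟨C, rfl⟩ := exists_coords B (range_mono (Lp_mono hnN) hG)
  have h1 : C = 0 := by
    apply hs (φ : S →+* K) hφ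
    refine (eqs e N n γ φ (fun i => (B i : R φ)) (fun i => (B i).2) hB C).mpr ⟨hFV, ?_⟩
    intro k l hkl
    have h2 := cc_range (cf := cf (R φ)) (mem_Lp' (R φ) n) (k := k) (l := l) hkl hG
    rw [map_sum] at h2
    rw [← h2]
    refine Finset.sum_congr rfl fun p _ => ?_
    rw [map_smul, LinearMap.comp_apply, TensorProduct.map_tmul, LinearMap.mul'_apply,
      smul_eq_mul]
  rw [h1]
  exact Finset.sum_eq_zero fun p _ => by rw [Pi.zero_apply, zero_smul]

end P23

theorem family_general {S : Type} [CommRing S] [IsDomain S] [Algebra K S] {g : ℕ}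
    {R : (S →ₐ[K] K) → Subalgebra K (LaurentSeries K)} (hR : IsFamily K S g R) {c : ℝ}
    (φ₀ : S →ₐ[K] K) (h0 : DiagBoundF (R φ₀) c) :
    ∃ s : ℕ → S, (∀ j, s j ≠ 0) ∧ ∀ φ : S →ₐ[K] K, (∀ j, φ (s j) ≠ 0) → DiagBoundF (R φ) c := by
  have key2 : ∀ j : ℕ, ∃ s : S, s ≠ 0 ∧ ∀ φ : S →ₐ[K] K, φ s ≠ 0 →
      ∀ G : R φ ⊗[K] R φ, 0 < (Nat.unpair j).2 → G ≠ 0 →
      G ∈ LinearMap.range (TensorProduct.map (Lp (R φ) (Nat.unpair j).1).subtype
        (Lp (R φ) (Nat.unpair j).1).subtype) →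
      FV (R φ) (Nat.unpair j).2 G → c * (Nat.unpair j).2 < (Nat.unpair j).1 := by
    intro j
    by_cases h : 0 < (Nat.unpair j).2 ∧ ¬ c * (Nat.unpair j).2 < (Nat.unpair j).1
    · obtain ⟨s, hs0, hs⟩ := P23.key hR φ₀ h0 (Nat.unpair j).1 (Nat.unpair j).2 h.1 h.2
      refine ⟨s, ?_, fun φ hφ G _ hG hGr hFV => ?_⟩
      · rintro rfl
        exact hs0 (map_zero _)
      · exact absurd (hs φ hφ G hGr hFV) hG
    · refine ⟨1, one_ne_zero, fun φ _ G hγ _ _ _ => ?_⟩
      by_contra hc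
      exact h ⟨hγ, hc⟩
  choose s hs1 hs2 using key2
  refine ⟨s, hs1, fun φ hφ n γ G hγ hG hGr hFV => ?_⟩
  have h1 := hs2 (Nat.pair n γ) φ (hφ _) G
  rw [Nat.unpair_pair] at h1
  exact h1 hγ hG hGr hFV

end Pool.Agent.TH549.CK
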