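import Pool.Agent.TH549.CK.Main
import Pool.Agent.TH549.CK.P22
import Pool.Agent.TH549.CK.P23
import Pool.Agent.TH549.CK.P25
import Pool.Agent.TH549.CK.P26

/-! The final theorem, from the pieces. -/

set_option autoImplicit false

namespace Pool.Agent.TH549.CK

open TensorProduct

theorem diagBoundF_of {K : Type} [Field K] [IsAlgClosed K] [CharZero K]
    {R : Subalgebra K (LaurentSeries K)} [IsDedekindDomain R] [Algebra.FiniteType K R] {c : ℝ}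
    (h : DiagProp R (fun n γ => 0 < γ → c * γ < n)) : DiagBoundF R c := by
  intro n γ G hγ hG hL hFV
  exact h n γ G hG hL (mem_of_FV hFV) hγ

theorem Lp_le {K : Type} [Field K] (R : Subalgebra K (LaurentSeries K)) {n m : ℕ} (h : n ≤ m) :
    Lp R n ≤ Lp R m := by
  intro x hx k hk
  exact hx k (by omega)

/-- members of a family have the right dimensions -/
theorem IsFamily.genus {K S : Type} [Field K] [CommRing S] [Algebra K S] {g : ℕ}
    {R : (S →ₐ[K] K) → Subalgebra K (LaurentSeries K)} (h : IsFamily K S g R) (φ : S →ₐ[K] K)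
    (n : ℕ) (hn : 2 * g ≤ n + 1) : Module.finrank K (Lp (R φ) n) = n + 1 - g := by
  obtain ⟨e, he⟩ := h.basis n hn
  obtain ⟨B, -⟩ := he φ
  rw [Module.finrank_eq_card_basis B, Fintype.card_fin]

theorem final {g : ℕ} (hN : NagataStrict g) (hg : 0 < g) :
    ∃ R₀ : Subalgebra ℂ (LaurentSeries ℂ), IsDedekindDomain R₀ ∧ Algebra.FiniteType ℂ R₀ ∧
      (∀ n : ℕ, 2 * g ≤ n + 1 → Module.finrank ℂ (Lp R₀ n) = n + 1 - g) ∧
      DiagBoundF R₀ (1 + √g) ∧ DiagBoundJ R₀ (1 + √g) ∧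
      ∀ (S : Type) [CommRing S] [IsDomain S] [Algebra ℂ S]
        (R : (S →ₐ[ℂ] ℂ) → Subalgebra ℂ (LaurentSeries ℂ)), IsFamily ℂ S g R →
        (∃ φ₀, R φ₀ = R₀) →
        ∃ s : ℕ → S, (∀ j, s j ≠ 0) ∧ ∀ φ : S →ₐ[ℂ] ℂ, (∀ j, φ (s j) ≠ 0) →
          DiagBoundF (R φ) (1 + √g) ∧ (IsIntegrallyClosed (R φ) → DiagBoundJ (R φ) (1 + √g)) := by
  obtain ⟨R₀, h1, h2⟩ := main hN hg
  obtain ⟨h3, h4⟩ := dedekind_of_smooth h1
  have h5 : DiagBoundF R₀ (1 + √g) := diagBoundF_of h2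
  refine ⟨R₀, h3, h4, h1.genus, h5, all_line_bundles h1.genus h5, ?_⟩
  rintro S _ _ _ R hR ⟨φ₀, hφ₀⟩
  obtain ⟨s, hs, hs'⟩ := family_general hR (c := 1 + √g) φ₀ (by rw [hφ₀]; exact h5)
  refine ⟨s, hs, fun φ hφ => ⟨hs' φ hφ, fun hi => ?_⟩⟩
  obtain ⟨h6, -⟩ := dedekind_of_smooth (R := R φ) (g := g) ⟨hi, hR.genus φ⟩
  exact all_line_bundles (g := g) (hR.genus φ) (hs' φ hφ)

end Pool.Agent.TH549.CK
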