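import Pool.Agent.TH549.CK.P10

/-! `ext_diagBound` for an arbitrary conclusion (copy of the proof of helper124). -/

set_option autoImplicit false

namespace Pool.Agent.TH549.CK

open TensorProduct

/-- every class `(n, γ)` with a nonzero section satisfies `P` -/
def DiagProp {K : Type} [Field K] (R : Subalgebra K (LaurentSeries K)) (P : ℕ → ℕ → Prop) : Prop :=
  ∀ (n γ : ℕ) (G : R ⊗[K] R), G ≠ 0 →
    G ∈ LinearMap.range (TensorProduct.map (Lp R n).subtype (Lp R n).subtype) →
    G ∈ (KaehlerDifferential.ideal K R) ^ γ → P n γ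

theorem ext_diagProp {K : Type} [Field K] {R : Subalgebra K (LaurentSeries K)} (Ω : Type)
    [Field Ω] [Algebra K Ω] {P : ℕ → ℕ → Prop} (h : DiagProp R P) : DiagProp (ext R Ω) P := by
  intro n γ G hG0 hL hI
  let _ : Algebra K (ext R Ω) := P10.algK R Ω
  have : IsScalarTower K Ω (ext R Ω) := IsScalarTower.of_algebraMap_eq (fun _ => rfl)
  let ι : R →ₐ[K] ext R Ω :=
    { toFun := fun f => ⟨P10.mapL K Ω (f : LaurentSeries K), P10.mapL_mem R f⟩
      map_one' := Subtype.ext (map_one (P10.mapL K Ω))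
      map_mul' := fun x y => Subtype.ext (map_mul (P10.mapL K Ω) _ _)
      map_zero' := Subtype.ext (map_zero (P10.mapL K Ω))
      map_add' := fun x y => Subtype.ext (map_add (P10.mapL K Ω) _ _)
      commutes' := fun k => by
        apply Subtype.ext
        change P10.mapL K Ω (algebraMap K (LaurentSeries K) k) =
          algebraMap Ω (LaurentSeries Ω) (algebraMap K Ω k)
        rw [LaurentSeries.algebraMap_apply, LaurentSeries.algebraMap_apply]
        exact HahnSeries.map_C k (algebraMap K Ω) }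
  have hι : Submodule.span Ω (Set.range ι) = ⊤ := by
    rw [eq_top_iff]
    rintro ⟨x, hx⟩ -
    have hmul : ∀ x y : ext R Ω, x ∈ Submodule.span Ω (Set.range ι) →
        y ∈ Submodule.span Ω (Set.range ι) → x * y ∈ Submodule.span Ω (Set.range ι) := by
      intro x y hx hy
      have h1 := Submodule.mul_mem_mul hx hy
      rw [Submodule.span_mul_span] at h1
      refine Submodule.span_mono ?_ h1
      rintro _ ⟨_, ⟨a, rfl⟩, _, ⟨b, rfl⟩, rfl⟩
      exact ⟨a * b, map_mul ι a b⟩
    unfold ext at hx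
    induction hx using Algebra.adjoin_induction with
    | mem x hx =>
      obtain ⟨f, hf, hfx⟩ := hx
      refine Submodule.subset_span ⟨⟨f, hf⟩, ?_⟩
      apply Subtype.ext
      ext k
      exact (hfx k).symm
    | algebraMap r =>
      have h1 : (⟨algebraMap Ω (LaurentSeries Ω) r, Subalgebra.algebraMap_mem _ r⟩ : ext R Ω) =
          r • ι 1 := by
        rw [map_one, ← Algebra.algebraMap_eq_smul_one]
        rfl
      have h2 : r • ι 1 ∈ Submodule.span Ω (Set.range ι) :=
        Submodule.smul_mem _ _ (Submodule.subset_span ⟨1, rfl⟩)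
      rw [← h1] at h2
      exact h2
    | add x y hx hy h1 h2 => exact add_mem h1 h2
    | mul x y hx hy h1 h2 => exact hmul ⟨x, hx⟩ ⟨y, hy⟩ h1 h2
  have hc : ∀ k f, P10.cfl (ext R Ω) k (ι f) = algebraMap K Ω (P10.cfl R k f) := fun k f => rfl
  have hP : Lp (ext R Ω) n ≤ Submodule.span Ω (ι '' (Lp R n : Set R)) := by
    intro x hx
    exact P10.pole_le ι hι (P10.cfl R) (P10.cfl (ext R Ω)) hc {k : ℤ | k < -(n : ℤ)} hx
  obtain ⟨g, hg0, hgL, hgI⟩ := P10.descent ι (P10.cfl R) (P10.cfl (ext R Ω)) hc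
    (P10.cfl_inj R) (P10.cfl_inj (ext R Ω))
    (LinearMap.range (TensorProduct.map (Lp R n).subtype (Lp R n).subtype))
    (((KaehlerDifferential.ideal K R) ^ γ).restrictScalars K) hG0
    (P10.range_le ι (Lp R n) (Lp (ext R Ω) n) hP hL)
    (P10.ideal_le ι hι γ hI)
  exact h n γ g hg0 hgL hgI

end Pool.Agent.TH549.CK
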