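import Pool.Agent.TH549.CK.Lin

/-! Formal Mumford curves, CK-15: from the square of the line to the plane. -/

set_option autoImplicit false

namespace Pool.Agent.TH549.CK

open Polynomial

namespace P15

variable {F : Type} [Field F]

lemma ahext {A : Type} [CommRing A] [Algebra F A] {f g : MvPolynomial (Fin 2) F →ₐ[F] A}
    (h0 : f (MvPolynomial.X 0) = g (MvPolynomial.X 0))
    (h1 : f (MvPolynomial.X 1) = g (MvPolynomial.X 1)) : f = g := by
  apply MvPolynomial.algHom_ext
  intro i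
  fin_cases i
  · exact h0
  · exact h1

lemma lin_X0 (c d α β : F) : lin c d α β (MvPolynomial.X 0) = C c + C α * X := by
  unfold lin
  rw [MvPolynomial.aeval_X]
  rfl

lemma lin_X1 (c d α β : F) : lin c d α β (MvPolynomial.X 1) = C d + C β * X := by
  unfold lin
  rw [MvPolynomial.aeval_X]
  rfl

/-- restriction to the diagonal -/
noncomputable def dg (F : Type) [Field F] : MvPolynomial (Fin 2) F →ₐ[F] F[X] :=
  MvPolynomial.aeval ![X, X]

lemma dg_X (i : Fin 2) : dg F (MvPolynomial.X i) = X := by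
  unfold dg
  rw [MvPolynomial.aeval_X]
  fin_cases i <;> rfl

lemma dvd_of_dg {P : MvPolynomial (Fin 2) F} (h : dg F P = 0) :
    (MvPolynomial.X 0 - MvPolynomial.X 1 : MvPolynomial (Fin 2) F) ∣ P := by
  have key : Ideal.Quotient.mkₐ F
      (Ideal.span {(MvPolynomial.X 0 - MvPolynomial.X 1 : MvPolynomial (Fin 2) F)}) =
      ((Ideal.Quotient.mkₐ F
      (Ideal.span {(MvPolynomial.X 0 - MvPolynomial.X 1 : MvPolynomial (Fin 2) F)})).comp
        (Polynomial.aeval (MvPolynomial.X 0 : MvPolynomial (Fin 2) F))).comp (dg F) := by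
    apply ahext
    · rw [AlgHom.comp_apply, AlgHom.comp_apply, dg_X, Polynomial.aeval_X]
    · rw [AlgHom.comp_apply, AlgHom.comp_apply, dg_X, Polynomial.aeval_X, Ideal.Quotient.mkₐ_eq_mk]
      refine Ideal.Quotient.eq.2 ?_
      rw [Ideal.mem_span_singleton]
      exact ⟨-1, by ring⟩
  have h1 : Ideal.Quotient.mkₐ F
      (Ideal.span {(MvPolynomial.X 0 - MvPolynomial.X 1 : MvPolynomial (Fin 2) F)}) P = 0 := by
    rw [key, AlgHom.comp_apply, h, map_zero]
  rw [Ideal.Quotient.mkₐ_eq_mk, Ideal.Quotient.eq_zero_iff_mem, Ideal.mem_span_singleton] at h1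
  exact h1

lemma dg_eval (c α β : F) (P : MvPolynomial (Fin 2) F) :
    (dg F P).eval c = (lin c c α β P).eval 0 := by
  have key : (Polynomial.aeval c : F[X] →ₐ[F] F).comp (dg F) =
      (Polynomial.aeval (0 : F) : F[X] →ₐ[F] F).comp (lin c c α β) := by
    apply ahext
    · rw [AlgHom.comp_apply, AlgHom.comp_apply, dg_X, lin_X0]
      simp
    · rw [AlgHom.comp_apply, AlgHom.comp_apply, dg_X, lin_X1]
      simp
  have h := DFunLike.congr_fun key P
  rw [AlgHom.comp_apply, AlgHom.comp_apply] at h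
  simpa [Polynomial.coe_aeval_eq_eval] using h

lemma lin_diag (c d α β : F) :
    lin c d α β (MvPolynomial.X 0 - MvPolynomial.X 1) = C (c - d) + C (α - β) * X := by
  rw [map_sub, lin_X0, lin_X1, C_sub, C_sub]
  ring

lemma exists_pow {S : Set F} (hS : S.Infinite) : ∀ (γ : ℕ) (P : MvPolynomial (Fin 2) F),
    (∀ c ∈ S, ∀ α β, α ≠ β → (X : F[X]) ^ γ ∣ lin c c α β P) →
    ∃ G, P = (MvPolynomial.X 0 - MvPolynomial.X 1) ^ γ * G := by
  intro γ
  induction γ with
  | zero => exact fun P _ => ⟨P, by rw [pow_zero, one_mul]⟩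
  | succ γ ih =>
    intro P h
    have h0 : dg F P = 0 := by
      refine Polynomial.eq_zero_of_infinite_isRoot _ (hS.mono fun c hc => ?_)
      show (dg F P).eval c = 0
      obtain ⟨w, hw⟩ := h c hc 1 0 one_ne_zero
      rw [dg_eval c 1 0, hw, eval_mul, eval_pow, eval_X, zero_pow (Nat.succ_ne_zero γ), zero_mul]
    obtain ⟨P', hP'⟩ := dvd_of_dg h0
    have h1 : ∀ c ∈ S, ∀ α β, α ≠ β → (X : F[X]) ^ γ ∣ lin c c α β P' := by
      intro c hc α β hab
      have h2 := h c hc α β hab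
      rw [hP', map_mul, lin_diag, sub_self, C_0, zero_add, pow_succ] at h2
      have e : C (α - β) * X * lin c c α β P' = (C (α - β) * lin c c α β P') * X := by ring
      rw [e] at h2
      have h3 := (mul_dvd_mul_iff_right (X_ne_zero (R := F))).1 h2
      have hu : IsUnit (C (α - β) : F[X]) := isUnit_C.2 (sub_ne_zero.2 hab).isUnit
      exact (hu.dvd_mul_left).1 h3
    obtain ⟨G, hG⟩ := ih P' h1
    exact ⟨G, by rw [hP', hG]; ring⟩

lemma diag_ne : (MvPolynomial.X 0 - MvPolynomial.X 1 : MvPolynomial (Fin 2) F) ≠ 0 := by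
  intro h
  have h1 := congrArg (lin (0 : F) 0 1 0) h
  rw [lin_diag, map_zero, sub_self, C_0, zero_add, sub_zero, C_1, one_mul] at h1
  exact X_ne_zero h1

lemma degreeOf_diag (i : Fin 2) :
    1 ≤ (MvPolynomial.X 0 - MvPolynomial.X 1 : MvPolynomial (Fin 2) F).degreeOf i := by
  have h : Finsupp.single i 1 ∈
      (MvPolynomial.X 0 - MvPolynomial.X 1 : MvPolynomial (Fin 2) F).support := by
    rw [MvPolynomial.mem_support_iff, MvPolynomial.coeff_sub, MvPolynomial.coeff_X,
      MvPolynomial.coeff_X]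
    fin_cases i
    · simp [Finsupp.single_left_inj]
    · simp [Finsupp.single_left_inj]
  have h1 := MvPolynomial.monomial_le_degreeOf i h
  rwa [Finsupp.single_eq_same] at h1

/-- exchange of the variables -/
noncomputable def sw (F : Type) [Field F] : MvPolynomial (Fin 2) F →ₐ[F] MvPolynomial (Fin 2) F :=
  MvPolynomial.rename (Equiv.swap (0 : Fin 2) 1)

lemma sw_X0 : sw F (MvPolynomial.X 0) = MvPolynomial.X 1 := by
  unfold sw
  rw [MvPolynomial.rename_X, Equiv.swap_apply_left]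

lemma sw_X1 : sw F (MvPolynomial.X 1) = MvPolynomial.X 0 := by
  unfold sw
  rw [MvPolynomial.rename_X, Equiv.swap_apply_right]

lemma lin_sw (c d α β : F) (G : MvPolynomial (Fin 2) F) :
    lin c d α β (sw F G) = lin d c β α G := by
  have key : (lin c d α β).comp (sw F) = lin d c β α := by
    apply ahext
    · rw [AlgHom.comp_apply, sw_X0, lin_X1, lin_X0]
    · rw [AlgHom.comp_apply, sw_X1, lin_X1, lin_X0]
  exact DFunLike.congr_fun key G

lemma sw_sw (G : MvPolynomial (Fin 2) F) : sw F (sw F G) = G := by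
  have key : (sw F).comp (sw F) = AlgHom.id F _ := by
    apply ahext
    · rw [AlgHom.comp_apply, sw_X0, sw_X1, AlgHom.id_apply]
    · rw [AlgHom.comp_apply, sw_X1, sw_X0, AlgHom.id_apply]
  exact DFunLike.congr_fun key G

/-- elementary symmetric functions -/
noncomputable def Es (F : Type) [Field F] : MvPolynomial (Fin 2) F →ₐ[F] MvPolynomial (Fin 2) F :=
  MvPolynomial.aeval ![MvPolynomial.X 0 + MvPolynomial.X 1, MvPolynomial.X 0 * MvPolynomial.X 1]

lemma Es_X0 : Es F (MvPolynomial.X 0) = MvPolynomial.X 0 + MvPolynomial.X 1 := by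
  unfold Es
  rw [MvPolynomial.aeval_X]
  rfl

lemma Es_X1 : Es F (MvPolynomial.X 1) = MvPolynomial.X 0 * MvPolynomial.X 1 := by
  unfold Es
  rw [MvPolynomial.aeval_X]
  rfl

lemma pow_sum (k : ℕ) :
    (∃ Q : MvPolynomial (Fin 2) F,
      Es F Q = MvPolynomial.X 0 ^ k + MvPolynomial.X 1 ^ k ∧ Q.totalDegree ≤ k) ∧
    ∃ Q : MvPolynomial (Fin 2) F,
      Es F Q = MvPolynomial.X 0 ^ (k + 1) + MvPolynomial.X 1 ^ (k + 1) ∧
        Q.totalDegree ≤ k + 1 := by
  induction k with
  | zero =>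
    refine ⟨⟨MvPolynomial.C 2, ?_, ?_⟩, ⟨MvPolynomial.X 0, ?_, ?_⟩⟩
    · rw [pow_zero, pow_zero]
      have : (MvPolynomial.C 2 : MvPolynomial (Fin 2) F) = 1 + 1 := by
        have h2 : (2 : F) = 1 + 1 := one_add_one_eq_two.symm
        rw [h2, MvPolynomial.C_add, MvPolynomial.C_1]
      rw [this, map_add, map_one]
    · rw [MvPolynomial.totalDegree_C]
    · rw [Es_X0, zero_add, pow_one, pow_one]
    · rw [MvPolynomial.totalDegree_X]
  | succ k ih =>
    obtain ⟨⟨Q, hQ, hQd⟩, Q', hQ', hQd'⟩ := ih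
    refine ⟨⟨Q', hQ', hQd'⟩,
      ⟨MvPolynomial.X 0 * Q' - MvPolynomial.X 1 * Q, ?_, ?_⟩⟩
    · rw [map_sub, map_mul, map_mul, hQ, hQ', Es_X0, Es_X1]
      ring
    · refine (MvPolynomial.totalDegree_sub _ _).trans (max_le ?_ ?_)
      · refine (MvPolynomial.totalDegree_mul _ _).trans ?_
        rw [MvPolynomial.totalDegree_X]
        omega
      · refine (MvPolynomial.totalDegree_mul _ _).trans ?_
        rw [MvPolynomial.totalDegree_X]
        omega

lemma mon_sum_le {N i j : ℕ} (hij : i ≤ j) (hj : j ≤ N) :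
    ∃ Q : MvPolynomial (Fin 2) F,
      Es F Q = MvPolynomial.X 0 ^ i * MvPolynomial.X 1 ^ j +
        MvPolynomial.X 0 ^ j * MvPolynomial.X 1 ^ i ∧ Q.totalDegree ≤ N := by
  obtain ⟨⟨Q, hQ, hQd⟩, -⟩ := pow_sum (F := F) (j - i)
  refine ⟨MvPolynomial.X 1 ^ i * Q, ?_, ?_⟩
  · obtain ⟨k, rfl⟩ := Nat.exists_eq_add_of_le hij
    rw [Nat.add_sub_cancel_left] at hQ
    rw [map_mul, map_pow, hQ, Es_X1]
    ring
  · refine (MvPolynomial.totalDegree_mul _ _).trans ?_
    have h1 := MvPolynomial.totalDegree_pow (MvPolynomial.X 1 : MvPolynomial (Fin 2) F) i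
    rw [MvPolynomial.totalDegree_X, mul_one] at h1
    omega

lemma mon_sum {N i j : ℕ} (hi : i ≤ N) (hj : j ≤ N) :
    ∃ Q : MvPolynomial (Fin 2) F,
      Es F Q = MvPolynomial.X 0 ^ i * MvPolynomial.X 1 ^ j +
        MvPolynomial.X 0 ^ j * MvPolynomial.X 1 ^ i ∧ Q.totalDegree ≤ N := by
  rcases le_total i j with h | h
  · exact mon_sum_le h hj
  · obtain ⟨Q, hQ, hQd⟩ := mon_sum_le (F := F) h hi
    exact ⟨Q, by rw [hQ]; ring, hQd⟩

lemma mon_eq (m : Fin 2 →₀ ℕ) (c : F) : MvPolynomial.monomial m c =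
    MvPolynomial.C c * (MvPolynomial.X 0 ^ m 0 * MvPolynomial.X 1 ^ m 1) := by
  rw [MvPolynomial.monomial_eq, Finsupp.prod_fintype _ _ (fun i => pow_zero _), Fin.prod_univ_two]

lemma sw_mon (m : Fin 2 →₀ ℕ) (c : F) : sw F (MvPolynomial.monomial m c) =
    MvPolynomial.C c * (MvPolynomial.X 0 ^ m 1 * MvPolynomial.X 1 ^ m 0) := by
  rw [mon_eq, map_mul, map_mul, map_pow, map_pow, sw_X0, sw_X1]
  have : sw F (MvPolynomial.C c) = MvPolynomial.C c := AlgHom.commutes _ _
  rw [this]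
  ring

lemma exists_sym [CharZero F] {S : MvPolynomial (Fin 2) F} (hS : sw F S = S) {N : ℕ}
    (h0 : S.degreeOf 0 ≤ N) (h1 : S.degreeOf 1 ≤ N) :
    ∃ H : MvPolynomial (Fin 2) F, Es F H = S ∧ H.totalDegree ≤ N := by
  have hm : ∀ m ∈ S.support, ∃ Q : MvPolynomial (Fin 2) F,
      Es F Q = MvPolynomial.X 0 ^ m 0 * MvPolynomial.X 1 ^ m 1 +
        MvPolynomial.X 0 ^ m 1 * MvPolynomial.X 1 ^ m 0 ∧ Q.totalDegree ≤ N := fun m hm =>
    mon_sum ((MvPolynomial.monomial_le_degreeOf 0 hm).trans h0)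
      ((MvPolynomial.monomial_le_degreeOf 1 hm).trans h1)
  choose! Q hQ hQd using hm
  refine ⟨(1 / 2 : F) • ∑ m ∈ S.support, S.coeff m • Q m, ?_, ?_⟩
  · have e : Es F (∑ m ∈ S.support, S.coeff m • Q m) = S + sw F S := by
      conv_rhs => rw [MvPolynomial.as_sum S]
      rw [map_sum, map_sum, ← Finset.sum_add_distrib]
      refine Finset.sum_congr rfl fun m hm => ?_
      rw [map_smul, hQ m hm, sw_mon, mon_eq, MvPolynomial.smul_eq_C_mul]
      ring
    rw [map_smul, e, hS, ← two_smul F S, smul_smul]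
    norm_num
  · rw [← MvPolynomial.mem_restrictTotalDegree]
    refine Submodule.smul_mem _ _ (Submodule.sum_mem _ fun m hm => Submodule.smul_mem _ _ ?_)
    rw [MvPolynomial.mem_restrictTotalDegree]
    exact hQd m hm

/-- translation -/
noncomputable def tr (c d : F) : MvPolynomial (Fin 2) F →ₐ[F] MvPolynomial (Fin 2) F :=
  MvPolynomial.aeval ![MvPolynomial.X 0 + MvPolynomial.C c, MvPolynomial.X 1 + MvPolynomial.C d]

/-- evaluation at `X * A`, `X * B` -/
noncomputable def sc (A B : F[X]) : MvPolynomial (Fin 2) F →ₐ[F] F[X] :=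
  MvPolynomial.aeval ![X * A, X * B]

lemma tr_X0 (c d : F) : tr c d (MvPolynomial.X 0) = MvPolynomial.X 0 + MvPolynomial.C c := by
  unfold tr
  rw [MvPolynomial.aeval_X]
  rfl

lemma tr_X1 (c d : F) : tr c d (MvPolynomial.X 1) = MvPolynomial.X 1 + MvPolynomial.C d := by
  unfold tr
  rw [MvPolynomial.aeval_X]
  rfl

lemma sc_X0 (A B : F[X]) : sc A B (MvPolynomial.X 0) = X * A := by
  unfold sc
  rw [MvPolynomial.aeval_X]
  rfl

lemma sc_X1 (A B : F[X]) : sc A B (MvPolynomial.X 1) = X * B := by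
  unfold sc
  rw [MvPolynomial.aeval_X]
  rfl

lemma sc_C (A B : F[X]) (c : F) : sc A B (MvPolynomial.C c) = C c := AlgHom.commutes _ _

lemma lin_tr (c d α β : F) (H : MvPolynomial (Fin 2) F) :
    lin c d α β H = sc (C α) (C β) (tr c d H) := by
  have key : lin c d α β = (sc (C α) (C β)).comp (tr c d) := by
    apply ahext
    · rw [AlgHom.comp_apply, tr_X0, map_add, sc_X0, lin_X0, sc_C]
      ring
    · rw [AlgHom.comp_apply, tr_X1, map_add, sc_X1, lin_X1, sc_C]
      ring
  exact DFunLike.congr_fun key H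

lemma lin_Es (p q α β : F) (H : MvPolynomial (Fin 2) F) :
    lin p q α β (Es F H) =
      sc (C (α + β)) (C (q * α + p * β) + C (α * β) * X) (tr (p + q) (p * q) H) := by
  have key : (lin p q α β).comp (Es F) =
      (sc (C (α + β)) (C (q * α + p * β) + C (α * β) * X)).comp (tr (p + q) (p * q)) := by
    apply ahext
    · rw [AlgHom.comp_apply, AlgHom.comp_apply, tr_X0, map_add, sc_X0, Es_X0, map_add, lin_X0,
        lin_X1, sc_C, C_add, C_add]
      ring
    · rw [AlgHom.comp_apply, AlgHom.comp_apply, tr_X1, map_add, sc_X1, Es_X1, map_mul, lin_X0,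
        lin_X1, sc_C, C_add, C_mul, C_mul, C_mul, C_mul]
      ring
  exact DFunLike.congr_fun key H

lemma sc_mon (A B : F[X]) (m : Fin 2 →₀ ℕ) (c : F) : sc A B (MvPolynomial.monomial m c) =
    X ^ (m 0 + m 1) * (C c * (A ^ m 0 * B ^ m 1)) := by
  rw [mon_eq, map_mul, map_mul, map_pow, map_pow, sc_X0, sc_X1, sc_C, mul_pow, mul_pow, pow_add]
  ring

lemma sc_dvd (A B : F[X]) {M : ℕ} {H : MvPolynomial (Fin 2) F}
    (h : ∀ m ∈ H.support, M ≤ m 0 + m 1) : (X : F[X]) ^ M ∣ sc A B H := by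
  rw [MvPolynomial.as_sum H, map_sum]
  refine Finset.dvd_sum fun m hm => ?_
  rw [sc_mon]
  exact Dvd.dvd.mul_right (pow_dvd_pow _ (h m hm)) _

lemma coeff_sc (A B : F[X]) {j : ℕ} {H : MvPolynomial (Fin 2) F}
    (h : ∀ m ∈ H.support, j ≤ m 0 + m 1) :
    (sc A B H).coeff j = MvPolynomial.eval ![A.coeff 0, B.coeff 0]
      (∑ m ∈ H.support, if m 0 + m 1 = j then MvPolynomial.monomial m (H.coeff m) else 0) := by
  conv_lhs => rw [MvPolynomial.as_sum H]
  rw [map_sum, map_sum, Polynomial.finsetSum_coeff]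
  refine Finset.sum_congr rfl fun m hm => ?_
  rw [sc_mon]
  split_ifs with hj
  · have h2 : (X ^ (m 0 + m 1) * (C (H.coeff m) * (A ^ m 0 * B ^ m 1))).coeff j =
        (C (H.coeff m) * (A ^ m 0 * B ^ m 1)).coeff 0 := by
      have := Polynomial.coeff_X_pow_mul (C (H.coeff m) * (A ^ m 0 * B ^ m 1)) (m 0 + m 1) 0
      rw [zero_add] at this
      rw [← this, hj]
    rw [h2, mon_eq, map_mul, map_mul, map_pow, map_pow, MvPolynomial.eval_X, MvPolynomial.eval_X,
      MvPolynomial.eval_C, Polynomial.mul_coeff_zero, Polynomial.mul_coeff_zero,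
      Polynomial.coeff_C_zero, Polynomial.coeff_zero_eq_eval_zero, Polynomial.coeff_zero_eq_eval_zero,
      Polynomial.eval_pow, Polynomial.eval_pow, Polynomial.coeff_zero_eq_eval_zero,
      Polynomial.coeff_zero_eq_eval_zero]
    rfl
  · have h3 := h m hm
    rw [Polynomial.coeff_X_pow_mul', if_neg (by omega)]
    exact (map_zero _).symm

lemma form_zero [CharZero F] {p q : F} (hpq : p ≠ q) {Q : MvPolynomial (Fin 2) F}
    (h : ∀ α β : F, α ≠ 0 → β ≠ 0 → MvPolynomial.eval ![α + β, q * α + p * β] Q = 0) : Q = 0 := by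
  have hl1 : (MvPolynomial.X 1 - MvPolynomial.C p * MvPolynomial.X 0 : MvPolynomial (Fin 2) F) ≠
      0 := by
    intro h1
    have h2 := congrArg (MvPolynomial.eval ![0, 1]) h1
    simp at h2
  have hl2 : (MvPolynomial.C q * MvPolynomial.X 0 - MvPolynomial.X 1 : MvPolynomial (Fin 2) F) ≠
      0 := by
    intro h1
    have h2 := congrArg (MvPolynomial.eval ![0, 1]) h1
    simp at h2
  have hprod : Q * ((MvPolynomial.X 1 - MvPolynomial.C p * MvPolynomial.X 0) *
      (MvPolynomial.C q * MvPolynomial.X 0 - MvPolynomial.X 1)) = 0 := by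
    apply MvPolynomial.funext
    intro x
    rw [map_mul, map_mul, map_sub, map_sub, map_mul, map_mul, MvPolynomial.eval_X,
      MvPolynomial.eval_X, MvPolynomial.eval_C, MvPolynomial.eval_C, map_zero]
    have hd : q - p ≠ 0 := sub_ne_zero.2 hpq.symm
    by_cases ha : x 1 - p * x 0 = 0
    · rw [ha, zero_mul, mul_zero]
    · by_cases hb : q * x 0 - x 1 = 0
      · rw [hb, mul_zero, mul_zero]
      · have h1 := h ((x 1 - p * x 0) / (q - p)) ((q * x 0 - x 1) / (q - p))
          (div_ne_zero ha hd) (div_ne_zero hb hd)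
        have e0 : (x 1 - p * x 0) / (q - p) + (q * x 0 - x 1) / (q - p) = x 0 := by
          field_simp
          ring
        have e1 : q * ((x 1 - p * x 0) / (q - p)) + p * ((q * x 0 - x 1) / (q - p)) = x 1 := by
          field_simp
          ring
        rw [e0, e1] at h1
        have e2 : (![x 0, x 1] : Fin 2 → F) = x := by
          funext i
          fin_cases i <;> rfl
        rw [e2] at h1
        rw [h1, zero_mul]
  rcases mul_eq_zero.1 hprod with h1 | h1
  · exact h1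
  · rcases mul_eq_zero.1 h1 with h2 | h2
    · exact absurd h2 hl1
    · exact absurd h2 hl2

lemma supp [CharZero F] {p q : F} (hpq : p ≠ q) {M : ℕ} {H : MvPolynomial (Fin 2) F}
    (h : ∀ α β : F, α ≠ 0 → β ≠ 0 →
      (X : F[X]) ^ M ∣ sc (C (α + β)) (C (q * α + p * β) + C (α * β) * X) H) :
    ∀ j, j ≤ M → ∀ m ∈ H.support, j ≤ m 0 + m 1 := by
  intro j
  induction j with
  | zero => exact fun _ m _ => Nat.zero_le _
  | succ j ih =>
    intro hj m hm
    have ih' := ih (by omega)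
    have hz : (∑ m ∈ H.support,
        if m 0 + m 1 = j then MvPolynomial.monomial m (H.coeff m) else 0) = 0 := by
      refine form_zero hpq fun α β hα hβ => ?_
      have h1 := coeff_sc (C (α + β)) (C (q * α + p * β) + C (α * β) * X) ih'
      have h2 : (C (α + β) : F[X]).coeff 0 = α + β := Polynomial.coeff_C_zero
      have h3 : (C (q * α + p * β) + C (α * β) * X : F[X]).coeff 0 = q * α + p * β := by simp
      rw [h2, h3] at h1
      rw [← h1]
      exact Polynomial.X_pow_dvd_iff.1 (h α β hα hβ) j (by omega)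
    by_contra hcon
    have hmj : m 0 + m 1 = j := by
      have := ih' m hm
      omega
    have h4 := congrArg (MvPolynomial.coeff m) hz
    rw [MvPolynomial.coeff_sum, Finset.sum_eq_single m, if_pos hmj, MvPolynomial.coeff_monomial,
      if_pos rfl, MvPolynomial.coeff_zero] at h4
    · exact MvPolynomial.mem_support_iff.1 hm h4
    · intro m' _ hne
      split_ifs
      · rw [MvPolynomial.coeff_monomial, if_neg hne]
      · rw [MvPolynomial.coeff_zero]
    · intro h5
      exact absurd hm h5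

lemma QQ_ne {g : ℕ} (a b : Fin g → F) : QQ a b ≠ 0 := by
  unfold QQ
  exact Finset.prod_ne_zero_iff.2 fun i _ => mul_ne_zero (X_sub_C_ne_zero _) (X_sub_C_ne_zero _)

end P15

open P15

variable {F : Type} [Field F] {g : ℕ} {a b : Fin g → F}

theorem exists_plane [CharZero F] (h : Dist a b) {n γ : ℕ} {P : MvPolynomial (Fin 2) F} (hP : P ≠ 0)
    (h0 : P.degreeOf 0 ≤ n) (h1 : P.degreeOf 1 ≤ n)
    (hn : ∀ i α β, α ≠ 0 → β ≠ 0 → (X : F[X]) ^ γ ∣ lin (a i) (b i) α β P ∧
        (X : F[X]) ^ γ ∣ lin (b i) (a i) α β P)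
    (hg : ∀ c, (QQ a b).eval c ≠ 0 → ∀ α β, (X : F[X]) ^ γ ∣ lin c c α β P) :
    γ ≤ n ∧ ∃ H : MvPolynomial (Fin 2) F, H ≠ 0 ∧ H.totalDegree ≤ 2 * (n - γ) ∧
      ∀ i (α β : F), (X : F[X]) ^ (2 * γ) ∣ lin (a i + b i) (a i * b i) α β H := by
  have hab : ∀ i, a i ≠ b i := by
    intro i hi
    have h2 : Sum.elim a b (Sum.inl i) = Sum.elim a b (Sum.inr i) := hi
    exact absurd (h h2) (by simp)
  have hinf : {c : F | (QQ a b).eval c ≠ 0}.Infinite := by
    have h2 : {x : F | IsRoot (QQ a b) x}.Finite := by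
      by_contra h3
      exact QQ_ne a b (Polynomial.eq_zero_of_infinite_isRoot _ h3)
    have h3 := h2.infinite_compl
    exact h3.mono fun c hc => hc
  obtain ⟨G, hG⟩ := exists_pow hinf γ P fun c hc α β _ => hg c hc α β
  have hG0 : G ≠ 0 := by
    rintro rfl
    exact hP (by rw [hG, mul_zero])
  have hdeg : ∀ i : Fin 2, γ + G.degreeOf i ≤ P.degreeOf i := by
    intro i
    rw [hG, MvPolynomial.degreeOf_mul_eq (pow_ne_zero _ diag_ne) hG0,
      MvPolynomial.degreeOf_pow_eq _ _ _ diag_ne]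
    have := Nat.mul_le_mul_left γ (degreeOf_diag (F := F) i)
    omega
  have hd0 := hdeg 0
  have hd1 := hdeg 1
  have hγ : γ ≤ n := by omega
  refine ⟨hγ, ?_⟩
  -- the quotient at the nodes
  have hnode : ∀ c d : F, c ≠ d → ∀ α β, (X : F[X]) ^ γ ∣ lin c d α β P →
      (X : F[X]) ^ γ ∣ lin c d α β G := by
    intro c d hcd α β hx
    rw [hG, map_mul, map_pow, lin_diag] at hx
    have hcop : IsCoprime (X : F[X]) (C (c - d) + C (α - β) * X) := by
      refine ⟨-(C ((c - d)⁻¹ * (α - β))), C (c - d)⁻¹, ?_⟩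
      have e : (C (c - d)⁻¹ * C (c - d) : F[X]) = 1 := by
        rw [← C_mul, inv_mul_cancel₀ (sub_ne_zero.2 hcd), C_1]
      rw [C_mul]
      linear_combination e
    exact (hcop.pow).dvd_of_dvd_mul_left hx
  set S : MvPolynomial (Fin 2) F := G * sw F G with hS
  have hswG : sw F G ≠ 0 := by
    intro h2
    have h3 := sw_sw G
    rw [h2, map_zero] at h3
    exact hG0 h3.symm
  have hS0 : S ≠ 0 := mul_ne_zero hG0 hswG
  have hsym : sw F S = S := by rw [hS, map_mul, sw_sw, mul_comm]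
  have e01 : (sw F G).degreeOf 0 = G.degreeOf 1 := by
    have h2 := MvPolynomial.degreeOf_rename_of_injective (p := G)
      (Equiv.injective (Equiv.swap (0 : Fin 2) 1)) 1
    rw [Equiv.swap_apply_right] at h2
    exact h2
  have e10 : (sw F G).degreeOf 1 = G.degreeOf 0 := by
    have h2 := MvPolynomial.degreeOf_rename_of_injective (p := G)
      (Equiv.injective (Equiv.swap (0 : Fin 2) 1)) 0
    rw [Equiv.swap_apply_left] at h2
    exact h2
  obtain ⟨H, hH, hHd⟩ := exists_sym hsym (N := 2 * (n - γ))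
    (by rw [hS, MvPolynomial.degreeOf_mul_eq hG0 hswG, e01]; omega)
    (by rw [hS, MvPolynomial.degreeOf_mul_eq hG0 hswG, e10]; omega)
  refine ⟨H, ?_, hHd, fun i α β => ?_⟩
  · rintro rfl
    rw [map_zero] at hH
    exact hS0 hH.symm
  · rw [lin_tr]
    refine sc_dvd _ _ ?_
    refine supp (hab i) (M := 2 * γ) (fun α β hα hβ => ?_) (2 * γ) le_rfl
    rw [← lin_Es, hH, hS, map_mul, lin_sw, two_mul, pow_add]
    exact mul_dvd_mul (hnode _ _ (hab i) _ _ (hn i α β hα hβ).1)
      (hnode _ _ (hab i).symm _ _ (hn i β α hβ hα).2)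

end Pool.Agent.TH549.CK
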