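import Pool.Agent.TH549.CK.Asm
import Pool.Agent.TH549.CK.P10s
import Pool.Agent.TH549.CK.P15
import Pool.Agent.TH620.CK.P9b

/-! The existence theorem. -/

set_option autoImplicit false

namespace Pool.Agent.TH549.CK

open Polynomial TensorProduct

theorem RK_diagProp {g : ℕ} (hN : NagataStrict g) (hg : 0 < g) (K : Type) [Field K]
    [Algebra (PowerSeries ℂ) K] [IsFractionRing (PowerSeries ℂ) K] {a b : Fin g → ℂ} (h : Dist a b)
    (hind : AlgebraicIndependent (⊥ : Subfield ℂ)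
      (fun j : Fin g × Fin 2 => ![a j.1 + b j.1, a j.1 * b j.1] j.2)) :
    DiagProp (RK K a b) (fun n γ => 0 < γ → (1 + √g) * γ < n) := by
  intro n γ G hG0 hL hI hγ0
  obtain ⟨P, hP, h0, h1, hn, hc⟩ := exists_limit K h hG0 hL hI
  obtain ⟨hγ, H, hH, hd, hk⟩ := exists_plane h hP h0 h1 hn hc
  have h3 : √g * ((2 * γ : ℕ) : ℝ) < ((2 * (n - γ) : ℕ) : ℝ) :=
    nagata_affine_strict hN hg (p := fun i => a i + b i) (q := fun i => a i * b i) hind hH hd
      (by omega) (fun i α β => hk i α β)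
  rw [Nat.cast_mul, Nat.cast_mul, Nat.cast_sub hγ, Nat.cast_ofNat] at h3
  linarith

theorem main_aux {g : ℕ} (hN : NagataStrict g) (hg : 0 < g) (K : Type) [Field K]
    [Algebra (PowerSeries ℂ) K] [IsFractionRing (PowerSeries ℂ) K] [Algebra K ℂ]
    [Algebra.IsAlgebraic K ℂ] [CharZero K] : ∃ R : Subalgebra ℂ (LaurentSeries ℂ),
    IsSmoothCurve R g ∧ DiagProp R (fun n γ => 0 < γ → (1 + √g) * γ < n) := by
  obtain ⟨a, b, h, hind⟩ := exists_points g
  refine ⟨ext (RK K a b) ℂ, ⟨?_, ?_⟩, ?_⟩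
  · exact ext_normal (RK_normal K h)
  · intro n hn
    obtain ⟨i, hi⟩ := finite_Lp K h n
    rw [ext_finrank]
    exact hi hn
  · exact ext_diagProp ℂ (RK_diagProp hN hg K h hind)

theorem main {g : ℕ} (hN : NagataStrict g) (hg : 0 < g) : ∃ R : Subalgebra ℂ (LaurentSeries ℂ),
    IsSmoothCurve R g ∧ DiagProp R (fun n γ => 0 < γ → (1 + √g) * γ < n) := by
  obtain ⟨_, _⟩ := exists_alg
  have : CharZero (LaurentSeries ℂ) :=
    charZero_of_injective_algebraMap (algebraMap ℂ (LaurentSeries ℂ)).injective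
  exact main_aux hN hg (LaurentSeries ℂ)

end Pool.Agent.TH549.CK
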