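import Pool.Agent.TH549.CK.P6
import Pool.Agent.TH549.CK.P12
import Pool.Agent.TH549.CK.P13
import Pool.Agent.TH549.CK.P14

/-! CK-14: the limit of a function on the square of the Mumford curve, glued (helper952). -/

set_option autoImplicit false

namespace Pool.Agent.TH549.CK

open Polynomial TensorProduct

variable {F : Type} [Field F] {g : ℕ} {a b : Fin g → F}

theorem exists_limit (K : Type) [Field K] [Algebra (PowerSeries F) K]
    [IsFractionRing (PowerSeries F) K] (h : Dist a b) {n γ : ℕ} {G : RK K a b ⊗[K] RK K a b}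
    (hG0 : G ≠ 0)
    (hL : G ∈ LinearMap.range (TensorProduct.map (Lp (RK K a b) n).subtype (Lp (RK K a b) n).subtype))
    (hI : G ∈ (KaehlerDifferential.ideal K (RK K a b)) ^ γ) :
    ∃ P : MvPolynomial (Fin 2) F, P ≠ 0 ∧ P.degreeOf 0 ≤ n ∧ P.degreeOf 1 ≤ n ∧
      (∀ i α β, α ≠ 0 → β ≠ 0 → (X : F[X]) ^ γ ∣ lin (a i) (b i) α β P ∧
        (X : F[X]) ^ γ ∣ lin (b i) (a i) α β P) ∧
      (∀ c, (QQ a b).eval c ≠ 0 → ∀ α β, (X : F[X]) ^ γ ∣ lin c c α β P) := by
  obtain ⟨r, e, B, h1, h2, h3, -⟩ := exists_basis_RK K h n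
  have hχ := exists_chiR K h
  exact P14.limit_aux K hG0 hL hI ⟨r, e, B, h1, h2, h3⟩
    (fun e E hE o _ hG i _ _ hα hβ => node_dvd_of K h hχ e E hE o hG i hα hβ)
    (fun e E hE o _ hG _ hc α β => gen_dvd_of K h hχ e E hE o hG hc α β)

end Pool.Agent.TH549.CK
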