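import Pool.Agent.TH549.CK.Defs

/-!
# Functions on the formal Mumford curve with given reduction
-/

set_option autoImplicit false
set_option maxHeartbeats 4000000
set_option synthInstance.maxHeartbeats 400000

namespace Pool.Agent.TH549.CK

open Polynomial

namespace P2

/-! ### Taylor expansions and the Chinese remainder theorem -/

section
variable {F : Type} [Field F]

theorem tay_X_sub_C (c : F) : tay c (X - C c) = PowerSeries.X := by
  simp [tay, Polynomial.compRingHom, Polynomial.coe_X]

theorem constantCoeff_tay (c : F) (p : F[X]) :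
    PowerSeries.constantCoeff (tay c p) = p.eval c := by
  rw [← PowerSeries.coeff_zero_eq_constantCoeff_apply]
  show PowerSeries.coeff 0 ((p.comp (X + C c) : F[X]) : PowerSeries F) = _
  rw [Polynomial.coeff_coe, Polynomial.coeff_zero_eq_eval_zero, Polynomial.eval_comp]
  simp

/-- every power series agrees with the Taylor expansion of a polynomial up to a given order -/
theorem exists_tay_one (c : F) (s : PowerSeries F) (m : ℕ) :
    ∃ p : F[X], PowerSeries.X ^ m ∣ tay c p - s := by
  refine ⟨(PowerSeries.trunc m s).comp (X - C c), ?_⟩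
  rw [PowerSeries.X_pow_dvd_iff]
  intro k hk
  have h : tay c ((PowerSeries.trunc m s).comp (X - C c)) =
      ((PowerSeries.trunc m s : F[X]) : PowerSeries F) := by
    show ((((PowerSeries.trunc m s).comp (X - C c)).comp (X + C c) : F[X]) : PowerSeries F) = _
    rw [Polynomial.comp_assoc]
    simp
  rw [h, map_sub, Polynomial.coeff_coe, PowerSeries.coeff_trunc, if_pos hk, sub_self]

theorem exists_tay {ι : Type} [Finite ι] {c : ι → F} (hc : Function.Injective c)
    (s : ι → PowerSeries F) (m : ℕ) :
    ∃ p : F[X], ∀ j, PowerSeries.X ^ m ∣ tay (c j) p - s j := by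
  choose x hx using fun j => exists_tay_one (c j) (s j) m
  have hcop : Pairwise (Function.onFun IsCoprime
      (fun j => Ideal.span {(X - C (c j)) ^ m} : ι → Ideal F[X])) := by
    intro i j hij
    show IsCoprime (Ideal.span {(X - C (c i)) ^ m}) (Ideal.span {(X - C (c j)) ^ m})
    rw [Ideal.isCoprime_span_singleton_iff]
    exact (pairwise_coprime_X_sub_C hc hij).pow
  obtain ⟨r, hr⟩ := Ideal.exists_forall_sub_mem_ideal hcop x
  refine ⟨r, fun j => ?_⟩
  obtain ⟨w, hw⟩ := Ideal.mem_span_singleton.1 (hr j)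
  have h1 : tay (c j) (r - x j) = PowerSeries.X ^ m * tay (c j) w := by
    rw [hw, map_mul, map_pow, tay_X_sub_C]
  have h2 : tay (c j) r - s j = tay (c j) (r - x j) + (tay (c j) (x j) - s j) := by
    rw [map_sub]; ring
  rw [h2, h1]
  exact dvd_add (Dvd.intro _ rfl) (hx j)

end

/-! ### the polynomial `Q` -/

section
variable {F : Type} [Field F] {g : ℕ} {a b : Fin g → F}

theorem QQ_eq (a b : Fin g → F) : QQ a b = ∏ j, (X - C (Sum.elim a b j)) := by
  rw [QQ, Finset.prod_mul_distrib, Fintype.prod_sum_type]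
  rfl

theorem QQ_monic (a b : Fin g → F) : (QQ a b).Monic := by
  rw [QQ_eq]
  exact monic_prod_of_monic _ _ fun i _ => monic_X_sub_C _

theorem QQ_natDegree (a b : Fin g → F) : (QQ a b).natDegree = 2 * g := by
  rw [QQ_eq, natDegree_prod_of_monic _ _ fun i _ => monic_X_sub_C _]
  simp [two_mul]

theorem QQ_eval (j : Fin g ⊕ Fin g) : (QQ a b).eval (Sum.elim a b j) = 0 := by
  rw [QQ_eq, eval_prod]
  exact Finset.prod_eq_zero (Finset.mem_univ j) (by simp)

theorem eps_unit (h : Dist a b) (j : Fin g ⊕ Fin g) :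
    PowerSeries.constantCoeff (eps (QQ a b) (Sum.elim a b j)) ≠ 0 := by
  rw [eps, PowerSeries.constantCoeff_inv, ← PowerSeries.coeff_zero_eq_constantCoeff_apply,
    PowerSeries.coeff_mk]
  refine inv_ne_zero ?_
  have h1 : QQ a b = (X - C (Sum.elim a b j)) *
      ∏ i ∈ Finset.univ.erase j, (X - C (Sum.elim a b i)) := by
    rw [QQ_eq]
    exact (Finset.mul_prod_erase Finset.univ (fun i => X - C (Sum.elim a b i))
      (Finset.mem_univ j)).symm
  have h2 : (QQ a b).comp (X + C (Sum.elim a b j)) =
      X * (∏ i ∈ Finset.univ.erase j, (X - C (Sum.elim a b i))).comp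
        (X + C (Sum.elim a b j)) := by
    rw [h1, mul_comp]
    simp
  rw [h2, Polynomial.coeff_X_mul, Polynomial.coeff_zero_eq_eval_zero, eval_comp, eval_prod,
    Finset.prod_ne_zero_iff]
  intro i hi
  have hij : i ≠ j := Finset.ne_of_mem_erase hi
  have : Sum.elim a b j - Sum.elim a b i ≠ 0 :=
    sub_ne_zero.2 fun e => hij (h e.symm)
  simpa using this

theorem coeff_Ev (Q : F[X]) (c : F) (f : PowerSeries F[X]) (m : ℕ) :
    PowerSeries.coeff m (Ev Q c f) = eps Q c ^ m * tay c (PowerSeries.coeff m f) := by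
  simp [Ev, PowerSeries.coeff_rescale, PowerSeries.coeff_map]

/-- polynomials of bounded degree with given expansions at all `a i`, `b i` -/
theorem exists_step (h : Dist a b) {n : ℕ} (hn : 2 * g ≤ n + 1) (m : ℕ)
    (t : Fin g ⊕ Fin g → ℕ → F) :
    ∃ x : F[X], x.natDegree ≤ n + m * (QQ a b).natDegree ∧ ∀ j, ∀ k ≤ m,
      PowerSeries.coeff k (eps (QQ a b) (Sum.elim a b j) ^ m * tay (Sum.elim a b j) x) = t j k := by
  obtain ⟨p, hp⟩ := exists_tay (c := Sum.elim a b) h
    (fun j => (eps (QQ a b) (Sum.elim a b j) ^ m)⁻¹ * PowerSeries.mk (t j)) (m + 1)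
  have hmon : ((QQ a b) ^ (m + 1)).Monic := (QQ_monic a b).pow _
  refine ⟨p %ₘ (QQ a b) ^ (m + 1), ?_, ?_⟩
  · have h1 := Polynomial.degree_modByMonic_lt p hmon
    by_cases h0 : p %ₘ (QQ a b) ^ (m + 1) = 0
    · rw [h0, natDegree_zero]; exact Nat.zero_le _
    · have h2 := (Polynomial.natDegree_lt_natDegree h0 h1)
      rw [(QQ_monic a b).natDegree_pow, QQ_natDegree] at h2
      rw [QQ_natDegree]
      have h3 : (m + 1) * (2 * g) = m * (2 * g) + 2 * g := by ring
      omega
  · intro j k hk
    set c := Sum.elim a b j with hc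
    have hu : PowerSeries.constantCoeff (eps (QQ a b) c ^ m) ≠ 0 := by
      rw [map_pow]; exact pow_ne_zero _ (eps_unit h j)
    have hQ : PowerSeries.X ^ (m + 1) ∣ tay c ((QQ a b) ^ (m + 1)) := by
      rw [map_pow]
      refine pow_dvd_pow_of_dvd ?_ _
      rw [PowerSeries.X_dvd_iff, constantCoeff_tay]
      exact QQ_eval j
    have hx : tay c (p %ₘ (QQ a b) ^ (m + 1)) =
        tay c p - tay c ((QQ a b) ^ (m + 1)) * tay c (p /ₘ (QQ a b) ^ (m + 1)) := by
      rw [← map_mul, ← map_sub]
      congr 1
      exact eq_sub_of_add_eq (modByMonic_add_div p _)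
    have hd : PowerSeries.X ^ (m + 1) ∣
        eps (QQ a b) c ^ m * tay c (p %ₘ (QQ a b) ^ (m + 1)) - PowerSeries.mk (t j) := by
      have h1 : eps (QQ a b) c ^ m * ((eps (QQ a b) c ^ m)⁻¹ * PowerSeries.mk (t j)) =
          PowerSeries.mk (t j) := by
        rw [← mul_assoc, PowerSeries.mul_inv_cancel _ hu, one_mul]
      have h2 : eps (QQ a b) c ^ m * tay c (p %ₘ (QQ a b) ^ (m + 1)) - PowerSeries.mk (t j) =
          eps (QQ a b) c ^ m * (tay c p - (eps (QQ a b) c ^ m)⁻¹ * PowerSeries.mk (t j)) -
          eps (QQ a b) c ^ m * (tay c ((QQ a b) ^ (m + 1)) *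
            tay c (p /ₘ (QQ a b) ^ (m + 1))) := by
        rw [hx, mul_sub, mul_sub, h1]
        ring
      rw [h2]
      exact dvd_sub (Dvd.dvd.mul_left (hp j) _) (Dvd.dvd.mul_left (Dvd.dvd.mul_right hQ _) _)
    have h4 := PowerSeries.X_pow_dvd_iff.1 hd k (Nat.lt_succ_of_le hk)
    rw [map_sub, PowerSeries.coeff_mk, sub_eq_zero] at h4
    exact h4

end

/-! ### recursion -/

/-- a sequence given by strong recursion -/
noncomputable def rec' {α : Type} (d : α) (step : ℕ → (ℕ → α) → α) : ℕ → α
  | m => step m (fun k => if _ : k < m then rec' d step k else d)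
decreasing_by assumption

theorem exists_seq {α : Type} (d : α) (step : ℕ → (ℕ → α) → α) :
    ∃ s : ℕ → α, ∀ m, s m = step m (fun k => if k < m then s k else d) := by
  refine ⟨rec' d step, fun m => ?_⟩
  rw [rec']
  simp only [dite_eq_ite]

end P2

section
variable {F : Type} [Field F] {g : ℕ} {a b : Fin g → F}

open P2 in
theorem exists_lift (h : Dist a b) {n : ℕ} (hn : 2 * g ≤ n + 1) {P : F[X]} (hP : P.natDegree ≤ n)
    (hab : ∀ i, P.eval (a i) = P.eval (b i)) :
    ∃ f ∈ MM a b, Bd (QQ a b) n f ∧ PowerSeries.coeff 0 f = P := by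
  -- the expansions at the points `c j`
  let E : Fin g ⊕ Fin g → ℕ → ℕ → F[X] → F := fun j k m x =>
    PowerSeries.coeff k (eps (QQ a b) (Sum.elim a b j) ^ m * tay (Sum.elim a b j) x)
  choose next hnext1 hnext2 using fun (m : ℕ) (prev : ℕ → F[X]) =>
    exists_step h hn m (fun j k => if k < m then E j.swap m k (prev k) else 0)
  obtain ⟨s, hs⟩ := exists_seq (0 : F[X]) (fun m prev => if m = 0 then P else next m prev)
  have hs0 : s 0 = P := by rw [hs 0]; simp
  have hsd : ∀ m, (s m).natDegree ≤ n + m * (QQ a b).natDegree := by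
    intro m
    by_cases hm : m = 0
    · subst hm
      rw [hs0]
      omega
    · rw [hs m]
      simp only [hm, if_false]
      exact hnext1 m _
  have hlt : ∀ j m k, k < m → E j k m (s m) = E j.swap m k (s k) := by
    intro j m k hk
    have hm : m ≠ 0 := by omega
    have h1 := hnext2 m (fun k => if k < m then s k else 0) j k hk.le
    have h2 : s m = next m (fun k => if k < m then s k else 0) := by
      rw [hs m]; simp only [hm, if_false]
    rw [← h2] at h1
    simp only [hk, if_true] at h1
    exact h1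
  have hdiag : ∀ j m, m ≠ 0 → E j m m (s m) = 0 := by
    intro j m hm
    have h1 := hnext2 m (fun k => if k < m then s k else 0) j m le_rfl
    have h2 : s m = next m (fun k => if k < m then s k else 0) := by
      rw [hs m]; simp only [hm, if_false]
    rw [← h2] at h1
    simp only [lt_irrefl, if_false] at h1
    exact h1
  have hall : ∀ j m k, E j k m (s m) = E j.swap m k (s k) := by
    intro j m k
    rcases lt_trichotomy k m with hk | hk | hk
    · exact hlt j m k hk
    · subst hk
      by_cases hm : k = 0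
      · subst hm
        have h0 : ∀ j, E j 0 0 (s 0) = P.eval (Sum.elim a b j) := by
          intro j
          show PowerSeries.coeff 0 (eps (QQ a b) (Sum.elim a b j) ^ 0 *
            tay (Sum.elim a b j) (s 0)) = _
          rw [pow_zero, one_mul, PowerSeries.coeff_zero_eq_constantCoeff_apply, constantCoeff_tay,
            hs0]
        rw [h0, h0]
        rcases j with i | i
        · exact hab i
        · exact (hab i).symm
      · rw [hdiag j k hm, hdiag j.swap k hm]
    · have := hlt j.swap k m hk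
      rw [Sum.swap_swap] at this
      exact this.symm
  refine ⟨PowerSeries.mk s, ?_, ?_, ?_⟩
  · rw [mem_MM]
    intro i
    ext m k
    rw [coeff_coeff_swp, P2.coeff_Ev, P2.coeff_Ev, PowerSeries.coeff_mk, PowerSeries.coeff_mk]
    exact hall (Sum.inl i) m k
  · intro m
    rw [PowerSeries.coeff_mk]
    exact hsd m
  · rw [PowerSeries.coeff_mk, hs0]

end

end Pool.Agent.TH549.CK
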