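import Pool.Agent.TH549.CK.Defs

/-! CK-3: division by `t`. -/

set_option autoImplicit false

namespace Pool.Agent.TH549.CK

open Polynomial

variable {F : Type} [Field F] {g : ℕ} {a b : Fin g → F}

namespace P3

theorem QQ_eq (a b : Fin g → F) : QQ a b = ∏ x : Fin g ⊕ Fin g, (X - C (Sum.elim a b x)) := by
  rw [Fintype.prod_sum_type]
  simp only [Sum.elim_inl, Sum.elim_inr]
  rw [← Finset.prod_mul_distrib]
  rfl

theorem QQ_ne_zero (a b : Fin g → F) : QQ a b ≠ 0 := by
  rw [QQ_eq]
  exact Finset.prod_ne_zero_iff.2 fun x _ => X_sub_C_ne_zero _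

theorem QQ_a (i : Fin g) : (QQ a b).eval (a i) = 0 := by
  rw [QQ_eq, eval_prod]
  exact Finset.prod_eq_zero (Finset.mem_univ (Sum.inl i)) (by simp)

theorem QQ_b (i : Fin g) : (QQ a b).eval (b i) = 0 := by
  rw [QQ_eq, eval_prod]
  exact Finset.prod_eq_zero (Finset.mem_univ (Sum.inr i)) (by simp)

theorem QQ_der (h : Dist a b) {c : F} (hc : (QQ a b).eval c = 0) :
    (QQ a b).derivative.eval c ≠ 0 := by
  have hs : (QQ a b).Separable := by
    rw [QQ_eq]
    exact separable_prod_X_sub_C_iff.2 h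
  have := hs.aeval_derivative_ne_zero (x := c) (by simpa using hc)
  simpa using this

theorem QQ_dvd (h : Dist a b) {P : F[X]} (ha : ∀ i, P.eval (a i) = 0) (hb : ∀ i, P.eval (b i) = 0) :
    QQ a b ∣ P := by
  rw [QQ_eq]
  refine Finset.prod_dvd_of_coprime (fun x _ y _ hxy => pairwise_coprime_X_sub_C h hxy) ?_
  rintro (i | i) _
  · exact dvd_iff_isRoot.2 (ha i)
  · exact dvd_iff_isRoot.2 (hb i)

/-- the power series whose inverse is `eps` -/
noncomputable def den (Q : F[X]) (c : F) : PowerSeries F :=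
  PowerSeries.mk fun k => (Q.comp (X + C c)).coeff (k + 1)

theorem den_zero (Q : F[X]) (c : F) : PowerSeries.constantCoeff (den Q c) = Q.derivative.eval c := by
  rw [← PowerSeries.coeff_zero_eq_constantCoeff_apply, den, PowerSeries.coeff_mk]
  have := taylor_coeff_one c Q
  rw [taylor_apply] at this
  simpa using this

theorem tay_eq {Q : F[X]} {c : F} (hc : Q.eval c = 0) : tay c Q = PowerSeries.X * den Q c := by
  ext k
  have e1 : PowerSeries.coeff k (tay c Q) = (Q.comp (X + C c)).coeff k := by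
    simp [tay]
  rw [e1]
  rcases k with _ | k
  · have := taylor_coeff_zero c Q
    rw [taylor_apply, hc] at this
    rw [this, PowerSeries.coeff_zero_X_mul]
  · rw [mul_comm, PowerSeries.coeff_succ_mul_X, den, PowerSeries.coeff_mk]

theorem tay_const (c : F) (P : F[X]) : PowerSeries.constantCoeff (tay c P) = P.eval c := by
  rw [← PowerSeries.coeff_zero_eq_constantCoeff_apply]
  have := taylor_coeff_zero c P
  rw [taylor_apply] at this
  simpa [tay] using this

theorem eps_eq (Q : F[X]) (c : F) : eps Q c = (den Q c)⁻¹ := rfl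

theorem den_ne (h : Dist a b) {c : F} (hc : (QQ a b).eval c = 0) :
    PowerSeries.constantCoeff (den (QQ a b) c) ≠ 0 := by
  rw [den_zero]
  exact QQ_der h hc

theorem eps_const_ne (h : Dist a b) {c : F} (hc : (QQ a b).eval c = 0) :
    PowerSeries.constantCoeff (eps (QQ a b) c) ≠ 0 := by
  intro h0
  have h1 := PowerSeries.mul_inv_cancel _ (den_ne h hc)
  have h2 := congrArg PowerSeries.constantCoeff h1
  rw [← eps_eq, map_mul, h0, mul_zero, map_one] at h2
  exact zero_ne_one h2

theorem tay_mul_eps (h : Dist a b) {c : F} (hc : (QQ a b).eval c = 0) :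
    tay c (QQ a b) * eps (QQ a b) c = PowerSeries.X := by
  rw [tay_eq hc, eps_eq, mul_assoc, PowerSeries.mul_inv_cancel _ (den_ne h hc), mul_one]

theorem co_Ev (Q : F[X]) (c : F) (f : PowerSeries F[X]) (m : ℕ) :
    PowerSeries.coeff m (Ev Q c f) = eps Q c ^ m * tay c (PowerSeries.coeff m f) := by
  simp [Ev, PowerSeries.coeff_rescale]

theorem ev_tau (h : Dist a b) {c : F} (hc : (QQ a b).eval c = 0) :
    Ev (QQ a b) c (tau (QQ a b)) = PowerSeries.C (PowerSeries.X : PowerSeries F) * PowerSeries.X := by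
  refine PowerSeries.ext fun m => ?_
  rw [co_Ev, tau, PowerSeries.coeff_C_mul, PowerSeries.coeff_C_mul, PowerSeries.coeff_X,
    PowerSeries.coeff_X]
  by_cases hm : m = 1
  · subst hm
    rw [if_pos rfl, if_pos rfl, mul_one, mul_one, pow_one, mul_comm, tay_mul_eps h hc]
  · rw [if_neg hm, if_neg hm, mul_zero, mul_zero, map_zero, mul_zero]

theorem swp_tau : swp (PowerSeries.C (PowerSeries.X : PowerSeries F) * PowerSeries.X) =
    PowerSeries.C (PowerSeries.X : PowerSeries F) * PowerSeries.X := by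
  refine PowerSeries.ext fun k => PowerSeries.ext fun m => ?_
  rw [coeff_coeff_swp, PowerSeries.coeff_C_mul, PowerSeries.coeff_C_mul, PowerSeries.coeff_X,
    PowerSeries.coeff_X]
  by_cases hm : m = 1
  · by_cases hk : k = 1
    · subst hm; subst hk; simp
    · rw [if_pos hm, if_neg hk, mul_one, mul_zero, map_zero, PowerSeries.coeff_X, if_neg hk]
  · by_cases hk : k = 1
    · rw [if_neg hm, if_pos hk, mul_one, mul_zero, map_zero, PowerSeries.coeff_X, if_neg hm]
    · rw [if_neg hm, if_neg hk, mul_zero, map_zero, map_zero]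

theorem CXX_ne : PowerSeries.C (PowerSeries.X : PowerSeries F) * PowerSeries.X ≠
    (0 : PowerSeries (PowerSeries F)) := by
  intro h0
  have := congrArg (PowerSeries.coeff 1) h0
  rw [PowerSeries.coeff_C_mul, PowerSeries.coeff_one_X, mul_one, map_zero] at this
  exact PowerSeries.X_ne_zero this

/-- the coefficients vanish at the points `a i` -/
theorem eval_a (h : Dist a b) {f : PowerSeries F[X]} (hf : f ∈ MM a b)
    (h0 : PowerSeries.coeff 0 f = 0) (m : ℕ) (i : Fin g) :
    (PowerSeries.coeff m f).eval (a i) = 0 := by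
  have h1 := mem_MM.1 hf i
  have h2 := congrArg (PowerSeries.coeff 0) (congrArg (PowerSeries.coeff m) h1)
  rw [coeff_coeff_swp, co_Ev, co_Ev, h0, map_zero, mul_zero, map_zero,
    PowerSeries.coeff_zero_eq_constantCoeff_apply, map_mul, map_pow, tay_const] at h2
  exact (mul_eq_zero.1 h2).resolve_left (pow_ne_zero _ (eps_const_ne h (QQ_a i)))

/-- the coefficients vanish at the points `b i` -/
theorem eval_b (h : Dist a b) {f : PowerSeries F[X]} (hf : f ∈ MM a b)
    (h0 : PowerSeries.coeff 0 f = 0) (m : ℕ) (i : Fin g) :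
    (PowerSeries.coeff m f).eval (b i) = 0 := by
  have h1 := mem_MM.1 hf i
  have h2 := congrArg (PowerSeries.coeff m) (congrArg (PowerSeries.coeff 0) h1)
  rw [coeff_coeff_swp, co_Ev, co_Ev, h0, map_zero, mul_zero, map_zero,
    PowerSeries.coeff_zero_eq_constantCoeff_apply, map_mul, map_pow, tay_const] at h2
  exact (mul_eq_zero.1 h2.symm).resolve_left (pow_ne_zero _ (eps_const_ne h (QQ_b i)))

end P3

theorem exists_div_tau (h : Dist a b) {n : ℕ} {f : PowerSeries F[X]} (hf : f ∈ MM a b)
    (hb : Bd (QQ a b) n f) (h0 : PowerSeries.coeff 0 f = 0) :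
    ∃ f' ∈ MM a b, Bd (QQ a b) n f' ∧ f = tau (QQ a b) * f' := by
  have hd : ∀ m, ∃ P : F[X], PowerSeries.coeff m f = QQ a b * P := fun m =>
    P3.QQ_dvd h (fun i => P3.eval_a h hf h0 m i) fun i => P3.eval_b h hf h0 m i
  choose P hP using hd
  have hfe : f = tau (QQ a b) * PowerSeries.mk fun m => P (m + 1) := by
    refine PowerSeries.ext fun m => ?_
    rw [tau, mul_assoc, PowerSeries.coeff_C_mul]
    rcases m with _ | m
    · rw [PowerSeries.coeff_zero_X_mul, mul_zero, h0]
    · rw [mul_comm PowerSeries.X, PowerSeries.coeff_succ_mul_X, PowerSeries.coeff_mk, hP]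
  refine ⟨PowerSeries.mk fun m => P (m + 1), mem_MM.2 fun i => ?_, fun m => ?_, hfe⟩
  · have h1 := mem_MM.1 hf i
    rw [hfe, map_mul, map_mul, map_mul, P3.ev_tau h (P3.QQ_a i), P3.ev_tau h (P3.QQ_b i),
      P3.swp_tau] at h1
    exact mul_left_cancel₀ P3.CXX_ne h1
  · rw [PowerSeries.coeff_mk]
    by_cases hz : P (m + 1) = 0
    · rw [hz, natDegree_zero]
      exact Nat.zero_le _
    · have h1 := hb (m + 1)
      rw [hP, natDegree_mul (P3.QQ_ne_zero a b) hz, add_mul, one_mul] at h1
      omega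

end Pool.Agent.TH549.CK
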