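import Pool.Agent.TH549.CK.Defs
import Pool.Agent.TH549.CK.P1
import Pool.Agent.TH549.CK.P2
import Pool.Agent.TH549.CK.P3

/-! The lattice of the functions with a pole of order at most n. -/

set_option autoImplicit false

namespace Pool.Agent.TH549.CK

open Polynomial TensorProduct
variable {F : Type} [Field F] {g : ℕ} {a b : Fin g → F}

namespace P4

theorem coeff0_mul {R : Type} [CommRing R] (f k : PowerSeries R) :
    PowerSeries.coeff 0 (f * k) = PowerSeries.coeff 0 f * PowerSeries.coeff 0 k := by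
  rw [PowerSeries.coeff_zero_eq_constantCoeff_apply, PowerSeries.coeff_zero_eq_constantCoeff_apply,
    PowerSeries.coeff_zero_eq_constantCoeff_apply, map_mul]

theorem coeff_zero_oh_C (Q : F[X]) (c : F) :
    PowerSeries.coeff 0 (oh Q (PowerSeries.C c)) = C c := by
  rw [coeff_oh, pow_zero, one_mul, PowerSeries.coeff_zero_C]

/-- the constant coefficients of the functions with pole at most `n` -/
noncomputable def V (h : Dist a b) (n : ℕ) : Submodule F F[X] where
  carrier := {P | ∃ f ∈ MM a b, Bd (QQ a b) n f ∧ PowerSeries.coeff 0 f = P}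
  add_mem' := by
    rintro P P' ⟨f, hf, hb, rfl⟩ ⟨f', hf', hb', rfl⟩
    exact ⟨f + f', add_mem hf hf', hb.add hb', map_add _ _ _⟩
  zero_mem' := ⟨0, zero_mem _, Bd.zero, map_zero _⟩
  smul_mem' := by
    rintro c P ⟨f, hf, hb, rfl⟩
    refine ⟨oh (QQ a b) (PowerSeries.C c) * f, mul_mem (oh_mem h _).1 hf, ?_, ?_⟩
    · have := (Bd.oh (Q := QQ a b) (PowerSeries.C c)).mul hb
      rwa [zero_add] at this
    · rw [coeff0_mul, coeff_zero_oh_C, Polynomial.smul_eq_C_mul]

theorem mem_V {h : Dist a b} {n : ℕ} {P : F[X]} :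
    P ∈ V h n ↔ ∃ f ∈ MM a b, Bd (QQ a b) n f ∧ PowerSeries.coeff 0 f = P := Iff.rfl

theorem V_le (h : Dist a b) (n : ℕ) : V h n ≤ degreeLT F (n + 1) := by
  rintro P ⟨f, -, hb, rfl⟩
  have h1 := hb 0
  rw [zero_mul, add_zero] at h1
  rw [Polynomial.mem_degreeLT]
  exact lt_of_le_of_lt Polynomial.degree_le_natDegree (by exact_mod_cast Nat.lt_succ_of_le h1)

theorem finV (h : Dist a b) (n : ℕ) : Module.Finite F (V h n) :=
  Submodule.finiteDimensional_of_le (V_le h n)

theorem eval_eq {h : Dist a b} {n : ℕ} {P : F[X]} (hP : P ∈ V h n) (i : Fin g) :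
    P.eval (a i) = P.eval (b i) := by
  obtain ⟨f, hf, hb, rfl⟩ := hP
  have h1 := (mem_MM.1 hf) i
  have h2 := congrArg (fun x => PowerSeries.coeff 0 (PowerSeries.coeff 0 x)) h1
  simp only [coeff_coeff_swp, coeff_Ev, pow_zero, one_mul] at h2
  have h3 : ∀ c : F, PowerSeries.coeff 0 (tay c (PowerSeries.coeff 0 f)) =
      (PowerSeries.coeff 0 f).eval c := by
    intro c
    unfold tay
    rw [RingHom.comp_apply, Polynomial.coeToPowerSeries.ringHom_apply, Polynomial.coeff_coe,
      Polynomial.coe_compRingHom_apply, Polynomial.coeff_zero_eq_eval_zero, Polynomial.eval_comp]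
    simp
  rw [h3, h3] at h2
  exact h2

/-- the differences of the values -/
noncomputable def L (a b : Fin g → F) (n : ℕ) : degreeLT F (n + 1) →ₗ[F] (Fin g → F) :=
  LinearMap.pi fun i => ((Polynomial.leval (a i)) - (Polynomial.leval (b i))).comp
    (degreeLT F (n + 1)).subtype

theorem L_apply (n : ℕ) (P : degreeLT F (n + 1)) (i : Fin g) :
    L a b n P i = (P : F[X]).eval (a i) - (P : F[X]).eval (b i) := rfl

theorem L_surj (h : Dist a b) {n : ℕ} (hn : 2 * g ≤ n + 1) : Function.Surjective (L a b n) := by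
  classical
  intro y
  obtain ⟨P, hP⟩ : ∃ P : F[X], P = Lagrange.interpolate (Finset.univ : Finset (Fin g ⊕ Fin g))
      (Sum.elim a b) (Sum.elim y 0) := ⟨_, rfl⟩
  have hinj : Set.InjOn (Sum.elim a b) ((Finset.univ : Finset (Fin g ⊕ Fin g)) : Set _) :=
    fun _ _ _ _ hxy => h hxy
  have hdeg : P.degree < (n + 1 : ℕ) := by
    rw [hP]
    refine (Lagrange.degree_interpolate_lt _ hinj).trans_le ?_
    rw [Finset.card_univ, Fintype.card_sum, Fintype.card_fin]
    exact_mod_cast (by omega : g + g ≤ n + 1)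
  refine ⟨⟨P, Polynomial.mem_degreeLT.2 (by exact_mod_cast hdeg)⟩, ?_⟩
  ext i
  rw [L_apply]
  have h1 : P.eval (a i) = y i := by
    rw [hP]
    exact Lagrange.eval_interpolate_at_node (s := Finset.univ) (v := Sum.elim a b)
      (r := Sum.elim y 0) hinj (i := Sum.inl i) (Finset.mem_univ _)
  have h2 : P.eval (b i) = 0 := by
    rw [hP]
    exact Lagrange.eval_interpolate_at_node (s := Finset.univ) (v := Sum.elim a b)
      (r := Sum.elim y 0) hinj (i := Sum.inr i) (Finset.mem_univ _)
  show P.eval (a i) - P.eval (b i) = y i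
  rw [h1, h2, sub_zero]

theorem V_eq (h : Dist a b) {n : ℕ} (hn : 2 * g ≤ n + 1) :
    V h n = (LinearMap.ker (L a b n)).map (degreeLT F (n + 1)).subtype := by
  ext P
  rw [Submodule.mem_map]
  constructor
  · intro hP
    refine ⟨⟨P, V_le h n hP⟩, ?_, rfl⟩
    rw [LinearMap.mem_ker]
    ext i
    rw [L_apply]
    show P.eval (a i) - P.eval (b i) = 0
    rw [eval_eq hP i, sub_self]
  · rintro ⟨P', hP', rfl⟩
    rw [LinearMap.mem_ker] at hP'
    refine exists_lift h hn ?_ ?_
    · have h1 := Polynomial.mem_degreeLT.1 P'.2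
      show (P' : F[X]).natDegree ≤ n
      by_cases h0 : (P' : F[X]) = 0
      · rw [h0, Polynomial.natDegree_zero]
        exact Nat.zero_le _
      · exact Nat.lt_succ_iff.1 ((Polynomial.natDegree_lt_iff_degree_lt h0).2 h1)
    · intro i
      have h2 := congrFun hP' i
      rw [L_apply] at h2
      exact sub_eq_zero.1 h2

theorem finrank_V (h : Dist a b) {n : ℕ} (hn : 2 * g ≤ n + 1) :
    Module.finrank F (V h n) = n + 1 - g := by
  rw [V_eq h hn, Submodule.finrank_map_subtype_eq]
  have h1 := LinearMap.finrank_range_add_finrank_ker (L a b n)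
  rw [LinearMap.range_eq_top.2 (L_surj h hn), finrank_top, Module.finrank_fin_fun] at h1
  have h2 : Module.finrank F (degreeLT F (n + 1)) = n + 1 := by
    rw [(Polynomial.degreeLTEquiv F (n + 1)).finrank_eq, Module.finrank_fin_fun]
  omega

end P4

open P4

theorem exists_basis (h : Dist a b) (n : ℕ) : ∃ (r : ℕ) (e : Fin r → PowerSeries F[X]),
    (∀ x, e x ∈ MM a b ∧ Bd (QQ a b) n (e x)) ∧
    LinearIndependent F (fun x => PowerSeries.coeff 0 (e x)) ∧
    (∀ f ∈ MM a b, Bd (QQ a b) n f →
      ∃ o : Fin r → PowerSeries F, f = ∑ x, oh (QQ a b) (o x) * e x) ∧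
    (2 * g ≤ n + 1 → r = n + 1 - g) := by
  classical
  have := finV h n
  obtain ⟨r, hr⟩ : ∃ r, Module.finrank F (V h n) = r := ⟨_, rfl⟩
  let B : Module.Basis (Fin r) F (V h n) := Module.finBasisOfFinrankEq F (V h n) hr
  choose e he hb hc using fun x : Fin r => mem_V.1 (B x).2
  have hc' : (fun x => PowerSeries.coeff 0 (e x)) = fun x => ((B x : V h n) : F[X]) := funext hc
  refine ⟨r, e, fun x => ⟨he x, hb x⟩, ?_, ?_, fun hn => ?_⟩
  · rw [hc']
    exact B.linearIndependent.map' (V h n).subtype (Submodule.ker_subtype _)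
  · -- one step of the division
    have hstep : ∀ f : {f : PowerSeries F[X] // f ∈ MM a b ∧ Bd (QQ a b) n f},
        ∃ (c : Fin r → F) (f' : {f : PowerSeries F[X] // f ∈ MM a b ∧ Bd (QQ a b) n f}),
          (f : PowerSeries F[X]) = ∑ x, oh (QQ a b) (PowerSeries.C (c x)) * e x +
            tau (QQ a b) * (f' : PowerSeries F[X]) := by
      rintro ⟨f, hf, hfb⟩
      have hfV : PowerSeries.coeff 0 f ∈ V h n := ⟨f, hf, hfb, rfl⟩
      obtain ⟨c, hcc⟩ : ∃ c : Fin r → F, c = fun x => B.repr ⟨_, hfV⟩ x := ⟨_, rfl⟩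
      have h1 : PowerSeries.coeff 0 f = ∑ x, C (c x) * PowerSeries.coeff 0 (e x) := by
        have h2 := B.sum_repr ⟨_, hfV⟩
        have h3 := congrArg (fun v : V h n => (v : F[X])) h2
        simp only [Submodule.coe_sum, Submodule.coe_smul] at h3
        rw [← h3]
        refine Finset.sum_congr rfl fun x _ => ?_
        rw [hc x, Polynomial.smul_eq_C_mul, hcc]
      have hmem : f - ∑ x, oh (QQ a b) (PowerSeries.C (c x)) * e x ∈ MM a b :=
        sub_mem hf (sum_mem fun x _ => mul_mem (oh_mem h _).1 (he x))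
      have hsum : Bd (QQ a b) n (∑ x, oh (QQ a b) (PowerSeries.C (c x)) * e x) := by
        have : ∀ s : Finset (Fin r), Bd (QQ a b) n
            (∑ x ∈ s, oh (QQ a b) (PowerSeries.C (c x)) * e x) := by
          intro s
          induction s using Finset.induction_on with
          | empty => rw [Finset.sum_empty]; exact Bd.zero
          | insert x s hx ih =>
            rw [Finset.sum_insert hx]
            have h4 := (Bd.oh (Q := QQ a b) (PowerSeries.C (c x))).mul (hb x)
            rw [zero_add] at h4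
            exact h4.add ih
        exact this _
      have hbd : Bd (QQ a b) n (f - ∑ x, oh (QQ a b) (PowerSeries.C (c x)) * e x) := by
        rw [sub_eq_add_neg]
        exact hfb.add hsum.neg
      have h0 : PowerSeries.coeff 0 (f - ∑ x, oh (QQ a b) (PowerSeries.C (c x)) * e x) = 0 := by
        rw [map_sub, map_sum, h1, sub_eq_zero]
        refine Finset.sum_congr rfl fun x _ => ?_
        rw [coeff0_mul, coeff_zero_oh_C]
      obtain ⟨f', hf', hb', hff⟩ := exists_div_tau h hmem hbd h0
      refine ⟨c, ⟨f', hf', hb'⟩, ?_⟩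
      show f = _ + tau (QQ a b) * f'
      rw [← hff]
      ring
    choose c nxt hs using hstep
    intro f hf hfb
    obtain ⟨o, ho⟩ : ∃ o : {f : PowerSeries F[X] // f ∈ MM a b ∧ Bd (QQ a b) n f} → Fin r →
        PowerSeries F, ∀ f x, o f x = PowerSeries.mk fun k => c (nxt^[k] f) x :=
      ⟨_, fun _ _ => rfl⟩
    have ho1 : ∀ f x, o f x = PowerSeries.C (c f x) + PowerSeries.X * o (nxt f) x := by
      intro f x
      rw [ho, ho]
      ext k
      rcases k with _ | k
      · simp
      · rw [PowerSeries.coeff_mk, map_add, PowerSeries.coeff_succ_X_mul, PowerSeries.coeff_mk,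
          PowerSeries.coeff_C, if_neg (Nat.succ_ne_zero k), zero_add, Function.iterate_succ_apply]
    have hD : ∀ f : {f : PowerSeries F[X] // f ∈ MM a b ∧ Bd (QQ a b) n f},
        (f : PowerSeries F[X]) - ∑ x, oh (QQ a b) (o f x) * e x =
          tau (QQ a b) * ((nxt f : PowerSeries F[X]) - ∑ x, oh (QQ a b) (o (nxt f) x) * e x) := by
      intro f
      have h5 : ∑ x, oh (QQ a b) (o f x) * e x =
          ∑ x, oh (QQ a b) (PowerSeries.C (c f x)) * e x +
            tau (QQ a b) * ∑ x, oh (QQ a b) (o (nxt f) x) * e x := by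
        rw [Finset.mul_sum, ← Finset.sum_add_distrib]
        refine Finset.sum_congr rfl fun x _ => ?_
        rw [ho1 f x, map_add, map_mul, oh_X]
        ring
      rw [h5]
      nth_rewrite 1 [hs f]
      ring
    have hdvd : ∀ (k : ℕ) (f : {f : PowerSeries F[X] // f ∈ MM a b ∧ Bd (QQ a b) n f}),
        (PowerSeries.X : PowerSeries F[X]) ^ k ∣
          (f : PowerSeries F[X]) - ∑ x, oh (QQ a b) (o f x) * e x := by
      intro k
      induction k with
      | zero => intro f; rw [pow_zero]; exact one_dvd _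
      | succ k ih =>
        intro f
        rw [hD f, pow_succ']
        refine mul_dvd_mul ?_ (ih (nxt f))
        unfold tau
        exact Dvd.intro_left _ rfl
    refine ⟨o ⟨f, hf, hfb⟩, ?_⟩
    rw [← sub_eq_zero]
    ext1 m
    rw [map_zero]
    exact (PowerSeries.X_pow_dvd_iff.1 (hdvd (m + 1) ⟨f, hf, hfb⟩)) m (Nat.lt_succ_self m)
  · rw [← hr]
    exact finrank_V h hn

end Pool.Agent.TH549.CK
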