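import Pool.Agent.TH549.CK.Defs

/-!
# The expansion at infinity (CK-5, job 4623, helper692)
-/

set_option autoImplicit false

namespace Pool.Agent.TH549.CK

open Polynomial TensorProduct

namespace P5

variable {F : Type} [Field F]

lemma pinf_coeff (P : F[X]) (k : ℤ) :
    (pinf P).coeff k = if k ≤ 0 then P.coeff k.natAbs else 0 := by
  induction P using Polynomial.induction_on' with
  | add p q hp hq =>
    rw [map_add, HahnSeries.coeff_add, hp, hq, Polynomial.coeff_add]
    split_ifs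
    · rfl
    · rw [add_zero]
  | monomial n r =>
    have e : pinf (monomial n r) = (HahnSeries.single (-(n : ℤ)) r : LaurentSeries F) := by
      unfold pinf
      show Polynomial.aeval (HahnSeries.single (-1 : ℤ) (1 : F) : LaurentSeries F)
        (monomial n r) = _
      rw [aeval_monomial, LaurentSeries.algebraMap_apply, HahnSeries.single_pow, one_pow,
        HahnSeries.C_apply, HahnSeries.single_mul_single, zero_add, mul_one]
      congr 1
      simp
    rw [e, HahnSeries.coeff_single, Polynomial.coeff_monomial]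
    by_cases h : k ≤ 0
    · rw [if_pos h]
      by_cases h2 : k = -(n : ℤ)
      · rw [if_pos h2, if_pos (by omega)]
      · rw [if_neg h2, if_neg (by omega)]
    · rw [if_neg h, if_neg (by omega)]

lemma pinf_ne {P : F[X]} (hP : P ≠ 0) : pinf P ≠ 0 := by
  intro h
  apply hP
  ext n
  have h1 := pinf_coeff P (-(n : ℤ))
  rw [h, if_pos (by omega), Int.natAbs_neg, Int.natAbs_natCast] at h1
  rw [← h1]
  rfl

lemma order_pinf {P : F[X]} (hP : P ≠ 0) : (pinf P).order = -(P.natDegree : ℤ) := by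
  apply le_antisymm
  · apply HahnSeries.order_le_of_coeff_ne_zero
    rw [pinf_coeff, if_pos (by omega), Int.natAbs_neg, Int.natAbs_natCast]
    exact Polynomial.leadingCoeff_ne_zero.2 hP
  · rw [HahnSeries.le_order_iff_forall (pinf_ne hP)]
    intro j hj
    rw [pinf_coeff, if_pos (by omega)]
    exact Polynomial.coeff_eq_zero_of_natDegree_lt (by omega)

lemma coeff_jinf (Q : F[X]) (f : PowerSeries F[X]) (m : ℕ) :
    PowerSeries.coeff m (jinf Q f) = (pinf Q)⁻¹ ^ m * pinf (PowerSeries.coeff m f) := by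
  unfold jinf
  rw [RingHom.comp_apply, PowerSeries.coeff_rescale, PowerSeries.coeff_map]

lemma coeff_cinf (Q : F[X]) (f : PowerSeries F[X]) (k : ℤ) (m : ℕ) :
    PowerSeries.coeff m (cinf Q f k) = (PowerSeries.coeff m (jinf Q f)).coeff k := by
  unfold cinf
  rw [PowerSeries.coeff_mk]

lemma order_j {Q P : F[X]} (hQ : Q ≠ 0) (hP : P ≠ 0) (m : ℕ) :
    ((pinf Q)⁻¹ ^ m * pinf P ≠ 0) ∧
      ((pinf Q)⁻¹ ^ m * pinf P).order = m * (Q.natDegree : ℤ) - P.natDegree := by
  have h1 : pinf Q ≠ 0 := pinf_ne hQ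
  have h2 : (pinf Q)⁻¹ ≠ 0 := inv_ne_zero h1
  have h3 : ((pinf Q)⁻¹).order = (Q.natDegree : ℤ) := by
    have h4 : (pinf Q)⁻¹ * pinf Q = 1 := inv_mul_cancel₀ h1
    have h5 := congrArg HahnSeries.order h4
    rw [HahnSeries.order_mul h2 h1, HahnSeries.order_one, order_pinf hQ] at h5
    omega
  refine ⟨mul_ne_zero (pow_ne_zero _ h2) (pinf_ne hP), ?_⟩
  rw [HahnSeries.order_mul (pow_ne_zero _ h2) (pinf_ne hP), HahnSeries.order_pow, h3, order_pinf hP,
    nsmul_eq_mul]
  ring

lemma QQ_ne {g : ℕ} (a b : Fin g → F) : QQ a b ≠ 0 := by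
  unfold QQ
  rw [Finset.prod_ne_zero_iff]
  intro i _
  exact mul_ne_zero (X_sub_C_ne_zero _) (X_sub_C_ne_zero _)

lemma bd_iff {Q : F[X]} (hQ : Q ≠ 0) {n : ℕ} {f : PowerSeries F[X]} :
    Bd Q n f ↔ ∀ m (k : ℤ), k < -(n : ℤ) → (PowerSeries.coeff m (jinf Q f)).coeff k = 0 := by
  constructor
  · intro h m k hk
    rw [coeff_jinf]
    by_cases h0 : PowerSeries.coeff m f = 0
    · rw [h0, map_zero, mul_zero]
      rfl
    · apply HahnSeries.coeff_eq_zero_of_lt_order
      rw [(order_j hQ h0 m).2]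
      have h1 := h m
      have h2 : ((PowerSeries.coeff m f).natDegree : ℤ) ≤ n + m * Q.natDegree := by
        exact_mod_cast h1
      linarith
  · intro h m
    by_cases h0 : PowerSeries.coeff m f = 0
    · rw [h0, natDegree_zero]
      exact Nat.zero_le _
    · obtain ⟨h1, h2⟩ := order_j hQ h0 m
      have h3 : -(n : ℤ) ≤ ((pinf Q)⁻¹ ^ m * pinf (PowerSeries.coeff m f)).order := by
        rw [HahnSeries.le_order_iff_forall h1]
        intro j hj
        rw [← coeff_jinf]
        exact h m j hj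
      rw [h2] at h3
      have h4 : ((PowerSeries.coeff m f).natDegree : ℤ) ≤ n + m * Q.natDegree := by linarith
      exact_mod_cast h4

/-- products of series with bounded poles -/
lemma coeff_mul_bd {R : Type} [CommRing R] {x y : LaurentSeries R} {n m : ℤ}
    (hx : ∀ k < -n, x.coeff k = 0) (hy : ∀ k < -m, y.coeff k = 0) (k : ℤ) :
    (x * y).coeff k = ∑ i ∈ Finset.Icc (-n) (k + m), x.coeff i * y.coeff (k - i) := by
  rw [HahnSeries.coeff_mul]
  have hx' : ∀ i, x.coeff i ≠ 0 → -n ≤ i := fun i hi => by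
    by_contra h
    exact hi (hx i (not_le.1 h))
  have hy' : ∀ i, y.coeff i ≠ 0 → -m ≤ i := fun i hi => by
    by_contra h
    exact hi (hy i (not_le.1 h))
  apply Finset.sum_of_injOn (e := Prod.fst)
  · rintro ⟨i, j⟩ hij ⟨i', j'⟩ hij' h
    rw [Finset.mem_coe, Finset.mem_antidiagonal] at hij hij'
    simp only at h hij hij'
    subst h
    have : j = j' := by linarith [hij.2.2, hij'.2.2]
    rw [this]
  · rintro ⟨i, j⟩ hij
    rw [Finset.mem_coe, Finset.mem_antidiagonal] at hij
    rw [Finset.mem_coe, Finset.mem_Icc]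
    obtain ⟨h1, h2, h3⟩ := hij
    simp only at h1 h2 h3 ⊢
    have h4 := hx' i h1
    have h5 := hy' j h2
    constructor <;> linarith
  · intro i _ hi2
    by_contra h
    apply hi2
    refine ⟨(i, k - i), ?_, rfl⟩
    rw [Finset.mem_coe, Finset.mem_antidiagonal]
    exact ⟨left_ne_zero_of_mul h, right_ne_zero_of_mul h, by ring⟩
  · rintro ⟨i, j⟩ hij
    rw [Finset.mem_antidiagonal] at hij
    obtain ⟨_, _, h3⟩ := hij
    simp only at h3 ⊢
    have : k - i = j := by linarith
    rw [this]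

lemma cinf_mul {Q : F[X]} (hQ : Q ≠ 0) {n m : ℕ} {f h : PowerSeries F[X]} (hf : Bd Q n f)
    (hh : Bd Q m h) (k : ℤ) :
    cinf Q (f * h) k = ∑ i ∈ Finset.Icc (-(n : ℤ)) (k + m), cinf Q f i * cinf Q h (k - i) := by
  ext j
  rw [coeff_cinf, map_mul, PowerSeries.coeff_mul, HahnSeries.coeff_sum, map_sum]
  simp only [PowerSeries.coeff_mul, coeff_cinf]
  rw [Finset.sum_comm]
  apply Finset.sum_congr rfl
  intro p _
  exact coeff_mul_bd (fun k hk => (bd_iff hQ).1 hf p.1 k hk)
    (fun k hk => (bd_iff hQ).1 hh p.2 k hk) k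

end P5

variable {F : Type} [Field F] {g : ℕ} {a b : Fin g → F}

theorem cinf_injective {f : PowerSeries F[X]} (hf : ∀ k, cinf (QQ a b) f k = 0) : f = 0 := by
  ext1 m
  rw [map_zero]
  by_contra h0
  apply (P5.order_j (P5.QQ_ne a b) h0 m).1
  ext k
  have h1 := congrArg (PowerSeries.coeff m) (hf k)
  rw [P5.coeff_cinf, P5.coeff_jinf, map_zero] at h1
  rw [h1]
  rfl

theorem Bd_iff_cinf {n : ℕ} {f : PowerSeries F[X]} :
    Bd (QQ a b) n f ↔ ∀ k : ℤ, k < -(n : ℤ) → cinf (QQ a b) f k = 0 := by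
  rw [P5.bd_iff (P5.QQ_ne a b)]
  constructor
  · intro h k hk
    ext m
    rw [P5.coeff_cinf, h m k hk, map_zero]
  · intro h m k hk
    have h1 := congrArg (PowerSeries.coeff m) (h k hk)
    rw [P5.coeff_cinf, map_zero] at h1
    exact h1

theorem cinf_oh (o : PowerSeries F) (k : ℤ) :
    cinf (QQ a b) (oh (QQ a b) o) k = if k = 0 then o else 0 := by
  ext m
  rw [P5.coeff_cinf, P5.coeff_jinf]
  have h1 : PowerSeries.coeff m (oh (QQ a b) o) = (QQ a b) ^ m * C (PowerSeries.coeff m o) := by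
    unfold oh
    rw [RingHom.comp_apply, PowerSeries.coeff_rescale, PowerSeries.coeff_map]
  rw [h1, map_mul, map_pow, ← mul_assoc, ← mul_pow, inv_mul_cancel₀ (P5.pinf_ne (P5.QQ_ne a b)),
    one_pow, one_mul, P5.pinf_coeff]
  by_cases hk : k = 0
  · rw [if_pos hk, hk, if_pos le_rfl, Int.natAbs_zero, coeff_C_zero]
  · rw [if_neg hk, map_zero]
    split_ifs with h
    · exact coeff_C_ne_zero (by omega)
    · rfl

theorem exists_chi (K : Type) [Field K] [Algebra (PowerSeries F) K] (a b : Fin g → F) :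
    ∃ χ : MB a b →+* LaurentSeries K, ∀ (f : MB a b) (k : ℤ),
      (χ f).coeff k = algebraMap (PowerSeries F) K (cinf (QQ a b) f k) := by
  have hbd : ∀ f : MB a b, BddBelow (Function.support fun k : ℤ =>
      algebraMap (PowerSeries F) K (cinf (QQ a b) f k)) := by
    intro f
    obtain ⟨n, hn⟩ := f.2.2
    refine ⟨-(n : ℤ), fun k hk => ?_⟩
    by_contra h
    apply hk
    simp only
    rw [Bd_iff_cinf.1 hn k (not_le.1 h), map_zero]
  set χ : MB a b → LaurentSeries K := fun f => HahnSeries.ofSuppBddBelow _ (hbd f) with hχ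
  have hc : ∀ (f : MB a b) (k : ℤ), (χ f).coeff k =
      algebraMap (PowerSeries F) K (cinf (QQ a b) f k) := by
    intro f k
    simp only [hχ]
    rw [HahnSeries.coeff_ofSuppBddBelow]
  refine ⟨{ toFun := χ, map_one' := ?_, map_mul' := ?_, map_zero' := ?_, map_add' := ?_ }, hc⟩
  · ext k
    rw [hc, HahnSeries.coeff_one]
    have h1 := cinf_oh (a := a) (b := b) (1 : PowerSeries F) k
    rw [map_one] at h1
    have h2 : ((1 : MB a b) : PowerSeries F[X]) = 1 := rfl
    rw [h2, h1]
    split_ifs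
    · rw [map_one]
    · rw [map_zero]
  · intro f h
    obtain ⟨n, hn⟩ := f.2.2
    obtain ⟨m, hm⟩ := h.2.2
    ext k
    have h1 : ∀ j < -(n : ℤ), (χ f).coeff j = 0 := by
      intro j hj
      rw [hc, Bd_iff_cinf.1 hn j hj, map_zero]
    have h2 : ∀ j < -(m : ℤ), (χ h).coeff j = 0 := by
      intro j hj
      rw [hc, Bd_iff_cinf.1 hm j hj, map_zero]
    rw [P5.coeff_mul_bd h1 h2, hc]
    have h3 : ((f * h : MB a b) : PowerSeries F[X]) = f * h := rfl
    rw [h3, P5.cinf_mul (P5.QQ_ne a b) hn hm, map_sum]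
    apply Finset.sum_congr rfl
    intro i _
    rw [map_mul, hc, hc]
  · ext k
    rw [hc]
    have h2 : ((0 : MB a b) : PowerSeries F[X]) = 0 := rfl
    have h1 : cinf (QQ a b) (0 : PowerSeries F[X]) k = 0 := by
      ext m
      rw [P5.coeff_cinf, map_zero, map_zero, map_zero]
      rfl
    rw [h2, h1, map_zero]
    rfl
  · intro f h
    ext k
    rw [HahnSeries.coeff_add, hc, hc, hc, ← map_add]
    congr 1
    ext m
    have h3 : ((f + h : MB a b) : PowerSeries F[X]) = f + h := rfl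
    rw [map_add, P5.coeff_cinf, P5.coeff_cinf, P5.coeff_cinf, h3, map_add, map_add,
      HahnSeries.coeff_add]

end Pool.Agent.TH549.CK
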