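import Pool.Agent.TH549.CK.P1
import Pool.Agent.TH549.CK.P4
import Pool.Agent.TH549.CK.P5

/-! CK-6: the coordinate ring over the fraction field `K` of `F[[t]]` and a `K`-basis of `Lp`. -/

namespace Pool.Agent.TH549.CK

set_option maxHeartbeats 4000000
set_option synthInstance.maxHeartbeats 400000

open Polynomial

variable {F : Type} [Field F] {g : ℕ} {a b : Fin g → F}

namespace P6

theorem coeff_oh' (Q : F[X]) (o : PowerSeries F) (m : ℕ) :
    PowerSeries.coeff m (oh Q o) = Q ^ m * C (PowerSeries.coeff m o) := by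
  simp [oh, PowerSeries.coeff_rescale, PowerSeries.coeff_map]

theorem QQ_ne_zero (a b : Fin g → F) : QQ a b ≠ 0 := by
  unfold QQ
  rw [Finset.prod_ne_zero_iff]
  intro i _
  exact mul_ne_zero (X_sub_C_ne_zero _) (X_sub_C_ne_zero _)

/-- every element of the fraction field of `F[[X]]` is `o / X ^ N` -/
theorem exists_X_pow_mul (K : Type) [Field K] [Algebra (PowerSeries F) K]
    [IsFractionRing (PowerSeries F) K] (r : K) : ∃ (N : ℕ) (o : PowerSeries F),
      algebraMap (PowerSeries F) K (PowerSeries.X ^ N) * r = algebraMap (PowerSeries F) K o := by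
  obtain ⟨x, y, hy, rfl⟩ := IsFractionRing.div_surjective (A := PowerSeries F) r
  have hy0 : y ≠ 0 := nonZeroDivisors.ne_zero hy
  obtain ⟨N, u, hu⟩ := IsDiscreteValuationRing.associated_pow_irreducible hy0
    (PowerSeries.X_prime (R := F)).irreducible
  refine ⟨N, u * x, ?_⟩
  have hy1 : algebraMap (PowerSeries F) K y ≠ 0 := by
    rw [Ne, FaithfulSMul.algebraMap_eq_zero_iff]
    exact hy0
  rw [← hu, map_mul, map_mul]
  field_simp

theorem algebraMap_RK_coeff (K : Type) [Field K] (R : Subalgebra K (LaurentSeries K)) (c : K) (k : ℤ) :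
    ((algebraMap K R c : R) : LaurentSeries K).coeff k = if k = 0 then c else 0 := by
  have h2 : ((algebraMap K R c : R) : LaurentSeries K) = HahnSeries.C c := by
    rw [Subalgebra.coe_algebraMap]
    exact LaurentSeries.algebraMap_apply K c
  rw [h2]
  by_cases hk : k = 0
  · subst hk
    rw [if_pos rfl]
    simp
  · rw [if_neg hk]
    simp [HahnSeries.C_apply, hk]

theorem smul_coeff (K : Type) [Field K] (R : Subalgebra K (LaurentSeries K)) (c : K) (z : R) (k : ℤ) :
    ((algebraMap K R c * z : R) : LaurentSeries K).coeff k = c * (z : LaurentSeries K).coeff k := by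
  have h2 : ((algebraMap K R c * z : R) : LaurentSeries K) = HahnSeries.C c * (z : LaurentSeries K) := by
    rw [Subalgebra.coe_mul, Subalgebra.coe_algebraMap]
    congr 1
    exact LaurentSeries.algebraMap_apply K c
  rw [h2, HahnSeries.C_mul_eq_smul, HahnSeries.coeff_smul, smul_eq_mul]

/-- independence over the constants -/
theorem oh_indep {r : ℕ} {e : Fin r → PowerSeries F[X]}
    (he : LinearIndependent F (fun x => PowerSeries.coeff 0 (e x)))
    {o : Fin r → PowerSeries F} (ho : ∑ x, oh (QQ a b) (o x) * e x = 0) (x : Fin r) : o x = 0 := by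
  have key : ∀ m : ℕ, ∀ x, PowerSeries.coeff m (o x) = 0 := by
    intro m
    induction m using Nat.strong_induction_on with
    | _ m ih =>
      have h1 : PowerSeries.coeff m (∑ x, oh (QQ a b) (o x) * e x) = 0 := by rw [ho, map_zero]
      rw [map_sum] at h1
      have h2 : ∀ x, PowerSeries.coeff m (oh (QQ a b) (o x) * e x) =
          QQ a b ^ m * (PowerSeries.coeff m (o x) • PowerSeries.coeff 0 (e x)) := by
        intro x
        rw [PowerSeries.coeff_mul, Finset.sum_eq_single (m, 0)]
        · rw [coeff_oh', Polynomial.smul_eq_C_mul]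
          ring
        · rintro ⟨i, j⟩ hij hne
          have hij := Finset.HasAntidiagonal.mem_antidiagonal.1 hij
          simp only at hij ⊢
          have hi : i < m := by
            by_contra hcon
            apply hne
            have h3 : i = m := by omega
            have h4 : j = 0 := by omega
            rw [h3, h4]
          rw [coeff_oh', ih i hi x]
          simp
        · intro hcon
          exact absurd (Finset.HasAntidiagonal.mem_antidiagonal.2 (by simp)) hcon
      rw [Finset.sum_congr rfl (fun x _ => h2 x), ← Finset.mul_sum] at h1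
      have h3 := (mul_eq_zero.1 h1).resolve_left (pow_ne_zero _ (QQ_ne_zero a b))
      exact Fintype.linearIndependent_iff.1 he _ h3
  ext m
  rw [key m x, map_zero]

/-- independence in `Lp` from independence in the ring -/
theorem li_Lp {K : Type} [Field K] {R : Subalgebra K (LaurentSeries K)} {n r : ℕ} (v : Fin r → Lp R n)
    (H : ∀ c : Fin r → K, ∑ x, c x • (v x : R) = 0 → ∀ i, c i = 0) : LinearIndependent K v := by
  rw [Fintype.linearIndependent_iffₛ]
  intro c d hcd i
  have h1 : ∑ x, c x • (v x : R) = ∑ x, d x • (v x : R) := by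
    have h2 := congrArg (fun z : Lp R n => (z : R)) hcd
    simpa using h2
  have h3 := H (fun x => c x - d x) (by
    simp only [sub_smul]
    rw [Finset.sum_sub_distrib, h1, sub_self]) i
  exact sub_eq_zero.1 h3

end P6

open P6

/-- a ring homomorphism `MB → RK` -/
theorem exists_chiR (K : Type) [Field K] [Algebra (PowerSeries F) K]
    [IsFractionRing (PowerSeries F) K] (h : Dist a b) : ∃ χ : MB a b →+* RK K a b,
    (∀ (f : MB a b) (k : ℤ), ((χ f : RK K a b) : LaurentSeries K).coeff k =
      algebraMap (PowerSeries F) K (cinf (QQ a b) f k)) ∧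
    Function.Injective χ ∧
    (∀ o : PowerSeries F, χ ⟨oh (QQ a b) o, oh_mem h o⟩ =
      algebraMap K (RK K a b) (algebraMap (PowerSeries F) K o)) ∧
    (∀ z : RK K a b, ∃ (N : ℕ) (f : MB a b),
      algebraMap K (RK K a b) (algebraMap (PowerSeries F) K (PowerSeries.X ^ N)) * z = χ f) := by
  obtain ⟨χ, hχ⟩ := exists_chi K a b
  have hmem : ∀ f : MB a b, χ f ∈ RK K a b := fun f =>
    Algebra.subset_adjoin ⟨f, f.2, fun k => hχ f k⟩
  set χ' : MB a b →+* RK K a b := χ.codRestrict (RK K a b) hmem with hχ'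
  have hc : ∀ f : MB a b, ((χ' f : RK K a b) : LaurentSeries K) = χ f := fun f => rfl
  have h1 : ∀ (f : MB a b) (k : ℤ), ((χ' f : RK K a b) : LaurentSeries K).coeff k =
      algebraMap (PowerSeries F) K (cinf (QQ a b) f k) := fun f k => by rw [hc, hχ]
  have h3 : ∀ o : PowerSeries F, χ' ⟨oh (QQ a b) o, oh_mem h o⟩ =
      algebraMap K (RK K a b) (algebraMap (PowerSeries F) K o) := by
    intro o
    apply Subtype.ext
    ext k
    rw [h1, algebraMap_RK_coeff]
    simp only [cinf_oh]
    split_ifs <;> simp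
  refine ⟨χ', h1, ?_, h3, ?_⟩
  · rw [injective_iff_map_eq_zero]
    intro f hf
    apply Subtype.ext
    apply cinf_injective (a := a) (b := b)
    intro k
    have h4 := h1 f k
    rw [hf] at h4
    have h5 : algebraMap (PowerSeries F) K (cinf (QQ a b) (f : PowerSeries F[X]) k) = 0 := by
      rw [← h4]; simp
    rwa [FaithfulSMul.algebraMap_eq_zero_iff] at h5
  · rintro ⟨z, hz⟩
    have hX : ∀ N : ℕ, algebraMap K (RK K a b) (algebraMap (PowerSeries F) K (PowerSeries.X ^ N)) =
        χ' ⟨oh (QQ a b) (PowerSeries.X ^ N), oh_mem h _⟩ := fun N => (h3 _).symm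
    unfold RK at hz
    induction hz using Algebra.adjoin_induction with
    | mem x hx =>
      obtain ⟨f, hf, hk⟩ := hx
      refine ⟨0, ⟨f, hf⟩, ?_⟩
      rw [pow_zero, map_one, map_one, one_mul]
      apply Subtype.ext
      ext k
      rw [h1]
      exact hk k
    | algebraMap r =>
      obtain ⟨N, o, ho⟩ := exists_X_pow_mul (F := F) K r
      refine ⟨N, ⟨oh (QQ a b) o, oh_mem h o⟩, ?_⟩
      rw [h3, ← ho, map_mul]
      rfl
    | add x y hx hy hx' hy' =>
      obtain ⟨N, f, hf⟩ := hx'
      obtain ⟨M, f', hf'⟩ := hy'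
      refine ⟨N + M, ⟨oh (QQ a b) (PowerSeries.X ^ M), oh_mem h _⟩ * f +
        ⟨oh (QQ a b) (PowerSeries.X ^ N), oh_mem h _⟩ * f', ?_⟩
      rw [map_add, map_mul, map_mul, ← hX, ← hX, ← hf, ← hf', pow_add, map_mul, map_mul]
      have : (⟨x + y, add_mem hx hy⟩ : RK K a b) = (⟨x, hx⟩ : RK K a b) + (⟨y, hy⟩ : RK K a b) := rfl
      change _ * (⟨x + y, add_mem hx hy⟩ : RK K a b) = _
      rw [this]
      ring
    | mul x y hx hy hx' hy' =>
      obtain ⟨N, f, hf⟩ := hx'
      obtain ⟨M, f', hf'⟩ := hy'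
      refine ⟨N + M, f * f', ?_⟩
      rw [map_mul, ← hf, ← hf', pow_add, map_mul, map_mul]
      have : (⟨x * y, mul_mem hx hy⟩ : RK K a b) = (⟨x, hx⟩ : RK K a b) * (⟨y, hy⟩ : RK K a b) := rfl
      change _ * (⟨x * y, mul_mem hx hy⟩ : RK K a b) = _
      rw [this]
      ring

theorem exists_basis_RK (K : Type) [Field K] [Algebra (PowerSeries F) K]
    [IsFractionRing (PowerSeries F) K] (h : Dist a b) (n : ℕ) : ∃ (r : ℕ) (e : Fin r → MB a b)
    (B : Module.Basis (Fin r) K (Lp (RK K a b) n)),
    (∀ x, Bd (QQ a b) n (e x : PowerSeries F[X])) ∧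
    (∀ x k, ((B x : RK K a b) : LaurentSeries K).coeff k =
      algebraMap (PowerSeries F) K (cinf (QQ a b) (e x) k)) ∧
    LinearIndependent F (fun x => PowerSeries.coeff 0 (e x : PowerSeries F[X])) ∧
    (2 * g ≤ n + 1 → r = n + 1 - g) := by
  obtain ⟨χ, hχ, hinj, hoh, hsurj⟩ := exists_chiR K h
  obtain ⟨r, e₀, he₀, hli, hspan, hr⟩ := exists_basis h n
  let e : Fin r → MB a b := fun x => ⟨e₀ x, (he₀ x).1, n, (he₀ x).2⟩
  have hee : ∀ x, ((e x : MB a b) : PowerSeries F[X]) = e₀ x := fun x => rfl
  have hmem : ∀ x, χ (e x) ∈ Lp (RK K a b) n := by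
    intro x k hk
    rw [hχ, hee, (Bd_iff_cinf.1 (he₀ x).2) k hk, map_zero]
  let v : Fin r → Lp (RK K a b) n := fun x => ⟨χ (e x), hmem x⟩
  -- the image of a combination
  have hcomb : ∀ o : Fin r → PowerSeries F,
      χ (∑ x, (⟨oh (QQ a b) (o x), oh_mem h (o x)⟩ : MB a b) * e x) =
        ∑ x, algebraMap (PowerSeries F) K (o x) • χ (e x) := by
    intro o
    rw [map_sum]
    refine Finset.sum_congr rfl fun x _ => ?_
    rw [map_mul, hoh, Algebra.smul_def]
  have hcoe : ∀ o : Fin r → PowerSeries F,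
      (((∑ x, (⟨oh (QQ a b) (o x), oh_mem h (o x)⟩ : MB a b) * e x : MB a b)) : PowerSeries F[X]) =
        ∑ x, oh (QQ a b) (o x) * e₀ x := by
    intro o
    simp [e]
  have hlv : LinearIndependent K v := by
    refine li_Lp v ?_
    intro c hc i
    obtain ⟨d, hd⟩ := IsLocalization.exist_integer_multiples_of_finite
      (nonZeroDivisors (PowerSeries F)) c
    choose o ho using hd
    have h1 : ∑ x, algebraMap (PowerSeries F) K (o x) • χ (e x) = 0 := by
      have h2 : ∀ x, algebraMap (PowerSeries F) K (o x) • χ (e x) =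
          algebraMap (PowerSeries F) K (d : PowerSeries F) • (c x • χ (e x)) := by
        intro x
        rw [ho, smul_smul, Algebra.smul_def (d : PowerSeries F) (c x)]
      have hc' : ∑ x, c x • χ (e x) = 0 := hc
      rw [Finset.sum_congr rfl (fun x _ => h2 x), ← Finset.smul_sum, hc', smul_zero]
    have h2 := hcomb o
    rw [h1] at h2
    have h3 : (∑ x, (⟨oh (QQ a b) (o x), oh_mem h (o x)⟩ : MB a b) * e x) = 0 := by
      apply hinj
      rw [h2, map_zero]
    have h4 := hcoe o
    rw [h3] at h4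
    have h5 := oh_indep (a := a) (b := b) hli h4.symm i
    have h6 := ho i
    rw [h5, map_zero, Algebra.smul_def] at h6
    have h7 : algebraMap (PowerSeries F) K (d : PowerSeries F) ≠ 0 := by
      rw [Ne, FaithfulSMul.algebraMap_eq_zero_iff]
      exact nonZeroDivisors.ne_zero d.2
    exact (mul_eq_zero.1 h6.symm).resolve_left h7
  have hsp : ⊤ ≤ Submodule.span K (Set.range v) := by
    rintro ⟨z, hz⟩ -
    obtain ⟨N, f, hf⟩ := hsurj z
    have hXN : algebraMap (PowerSeries F) K (PowerSeries.X ^ N) ≠ 0 := by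
      rw [Ne, FaithfulSMul.algebraMap_eq_zero_iff]
      exact pow_ne_zero _ PowerSeries.X_ne_zero
    have hB : Bd (QQ a b) n (f : PowerSeries F[X]) := by
      rw [Bd_iff_cinf]
      intro k hk
      have h1 := hχ f k
      rw [← hf, smul_coeff, hz k hk, mul_zero] at h1
      have h2 := h1.symm
      rwa [FaithfulSMul.algebraMap_eq_zero_iff] at h2
    obtain ⟨o, ho⟩ := hspan f f.2.1 hB
    have h1 : f = ∑ x, (⟨oh (QQ a b) (o x), oh_mem h (o x)⟩ : MB a b) * e x := by
      apply Subtype.ext
      rw [hcoe, ho]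
    have h2 : (⟨z, hz⟩ : Lp (RK K a b) n) = (algebraMap (PowerSeries F) K (PowerSeries.X ^ N))⁻¹ •
        ∑ x, algebraMap (PowerSeries F) K (o x) • v x := by
      rw [eq_inv_smul_iff₀ hXN]
      apply Subtype.ext
      have h4 : ((∑ x, algebraMap (PowerSeries F) K (o x) • v x : Lp (RK K a b) n) : RK K a b) =
          ∑ x, algebraMap (PowerSeries F) K (o x) • χ (e x) := by
        rw [Submodule.coe_sum]
        rfl
      rw [h4, ← hcomb, ← h1, ← hf, Submodule.coe_smul, Algebra.smul_def]
    rw [h2]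
    refine Submodule.smul_mem _ _ (Submodule.sum_mem _ fun x _ => Submodule.smul_mem _ _ ?_)
    exact Submodule.subset_span ⟨x, rfl⟩
  refine ⟨r, e, Module.Basis.mk hlv hsp, fun x => (he₀ x).2, fun x k => ?_, hli, hr⟩
  rw [Module.Basis.mk_apply]
  exact hχ (e x) k

end Pool.Agent.TH549.CK
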