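import Pool.Agent.TH549.CK.Defs

/-! CK-9: base change of normality to an algebraic closure (trace argument). -/

namespace Pool.Agent.TH549.CK

set_option maxHeartbeats 4000000
set_option synthInstance.maxHeartbeats 400000

namespace P9

/-- coefficientwise ring homomorphism of Laurent series -/
noncomputable def mp {A B : Type} [Field A] [Field B] (f : A →+* B) :
    LaurentSeries A →+* LaurentSeries B where
  toFun x := HahnSeries.map x f
  map_zero' := by ext k; simp
  map_one' := by
    ext k
    simp only [HahnSeries.map_coeff, HahnSeries.coeff_one]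
    split_ifs <;> simp
  map_add' x y := by ext k; simp
  map_mul' x y := by
    have := HahnSeries.map_mul (Γ := ℤ) (f : A →ₙ+* B) (x := x) (y := y)
    exact this

@[simp] theorem mp_coeff {A B : Type} [Field A] [Field B] (f : A →+* B) (x : LaurentSeries A)
    (k : ℤ) : (mp f x).coeff k = f (x.coeff k) := rfl

theorem mp_comp {A B D : Type} [Field A] [Field B] [Field D] (f : A →+* B) (g : B →+* D)
    (x : LaurentSeries A) : mp g (mp f x) = mp (g.comp f) x := by
  ext k; simp

theorem mp_algebraMap {A B : Type} [Field A] [Field B] (f : A →+* B) (a : A) :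
    mp f (algebraMap A (LaurentSeries A) a) = algebraMap B (LaurentSeries B) (f a) := by
  rw [LaurentSeries.algebraMap_apply, LaurentSeries.algebraMap_apply]
  exact HahnSeries.map_C a f

section

variable {K : Type} [Field K] {R : Subalgebra K (LaurentSeries K)}

/-- integrally closed subalgebras of the field of Laurent series -/
theorem mem_of_integral (h : IsIntegrallyClosed R) (x : LaurentSeries K) (c : R) (hc : c ≠ 0)
    (hx : (c : LaurentSeries K) * x ∈ R)
    (hi : (R.val.toRingHom : R →+* LaurentSeries K).IsIntegralElem x) : x ∈ R := by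
  classical
  let ι : FractionRing R →+* LaurentSeries K :=
    IsFractionRing.lift (A := R) (g := R.val.toRingHom) (by
      intro a b hab
      exact Subtype.ext hab)
  have hι : ι.comp (algebraMap R (FractionRing R)) = R.val.toRingHom := by
    ext a
    simp [ι]
  set y : FractionRing R := algebraMap R (FractionRing R) ⟨_, hx⟩ / algebraMap R (FractionRing R) c
    with hy
  have hc' : (c : LaurentSeries K) ≠ 0 := fun h0 => hc (Subtype.ext h0)
  have hιy : ι y = x := by
    have h1 : ι (algebraMap R (FractionRing R) ⟨_, hx⟩) = (c : LaurentSeries K) * x := by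
      have := congrArg (fun f => f (⟨_, hx⟩ : R)) hι
      exact this
    have h2 : ι (algebraMap R (FractionRing R) c) = (c : LaurentSeries K) := by
      have := congrArg (fun f => f c) hι
      exact this
    rw [hy, map_div₀, h1, h2]
    field_simp
  have h3 : IsIntegral R y := by
    have h4 : (ι.comp (algebraMap R (FractionRing R))).IsIntegralElem (ι y) := by
      rw [hι, hιy]
      exact hi
    exact RingHom.IsIntegralElem.of_map ι.injective h4
  obtain ⟨z, hz⟩ := (isIntegrallyClosed_iff (FractionRing R)).1 h h3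
  have h5 : ι y = z := by
    rw [← hz]
    have := congrArg (fun f => f z) hι
    exact this
  rw [← hιy, h5]
  exact z.2

/-- converse -/
theorem closed_of_mem (h : ∀ (x : LaurentSeries K) (c : R), c ≠ 0 → (c : LaurentSeries K) * x ∈ R →
    (R.val.toRingHom : R →+* LaurentSeries K).IsIntegralElem x → x ∈ R) : IsIntegrallyClosed R := by
  classical
  let ι : FractionRing R →+* LaurentSeries K :=
    IsFractionRing.lift (A := R) (g := R.val.toRingHom) (by
      intro a b hab
      exact Subtype.ext hab)
  have hι : ι.comp (algebraMap R (FractionRing R)) = R.val.toRingHom := by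
    ext a
    simp [ι]
  rw [isIntegrallyClosed_iff (FractionRing R)]
  intro y hy
  obtain ⟨a, c, hc, hac⟩ := IsFractionRing.div_surjective (A := R) y
  have hc0 : c ≠ 0 := nonZeroDivisors.ne_zero hc
  have hc' : (c : LaurentSeries K) ≠ 0 := fun h0 => hc0 (Subtype.ext h0)
  have h1 : ι (algebraMap R (FractionRing R) a) = (a : LaurentSeries K) := by
    have := congrArg (fun f => f a) hι
    exact this
  have h2 : ι (algebraMap R (FractionRing R) c) = (c : LaurentSeries K) := by
    have := congrArg (fun f => f c) hι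
    exact this
  have h3 : ι y = (a : LaurentSeries K) / c := by rw [← hac, map_div₀, h1, h2]
  have h4 : ι y ∈ R := by
    refine h _ c hc0 ?_ ?_
    · rw [h3, mul_div_cancel₀ _ hc']
      exact a.2
    · have hy' : (algebraMap R (FractionRing R)).IsIntegralElem y := hy
      have h5 : (ι.comp (algebraMap R (FractionRing R))).IsIntegralElem (ι y) := hy'.map ι
      rw [hι] at h5
      exact h5
  refine ⟨⟨_, h4⟩, ?_⟩
  apply ι.injective
  have := congrArg (fun f => f (⟨_, h4⟩ : R)) hι
  exact this

end

section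

variable {K Ω : Type} [Field K] [Field Ω] [Algebra K Ω] (R : Subalgebra K (LaurentSeries K))

/-- the image of `R` in the Laurent series over `Ω` -/
noncomputable def psi (R : Subalgebra K (LaurentSeries K)) (Ω : Type) [Field Ω] [Algebra K Ω] :
    R →+* LaurentSeries Ω :=
  (mp (algebraMap K Ω)).comp R.val.toRingHom

theorem psi_apply (r : R) : psi R Ω r = mp (algebraMap K Ω) (r : LaurentSeries K) := rfl

theorem psi_mem (r : R) : psi R Ω r ∈ ext R Ω :=
  Algebra.subset_adjoin ⟨(r : LaurentSeries K), r.2, fun _ => rfl⟩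

theorem psi_algebraMap (k : K) : psi R Ω (algebraMap K R k) =
    algebraMap Ω (LaurentSeries Ω) (algebraMap K Ω k) := by
  rw [psi_apply, ← mp_algebraMap]
  rfl

/-- the extension is the span of the image of `R` -/
theorem mem_ext_iff (x : LaurentSeries Ω) : x ∈ ext R Ω ↔
    ∃ (ι : Type) (_ : Fintype ι) (e : ι → Ω) (r : ι → R),
      x = ∑ i, algebraMap Ω (LaurentSeries Ω) (e i) * psi R Ω (r i) := by
  constructor
  · intro hx
    refine Algebra.adjoin_induction (p := fun x _ => ∃ (ι : Type) (_ : Fintype ι) (e : ι → Ω)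
      (r : ι → R), x = ∑ i, algebraMap Ω (LaurentSeries Ω) (e i) * psi R Ω (r i)) ?_ ?_ ?_ ?_ hx
    · rintro y ⟨f, hf, hy⟩
      refine ⟨Unit, inferInstance, fun _ => 1, fun _ => ⟨f, hf⟩, ?_⟩
      simp only [map_one, one_mul, Finset.univ_unique, Finset.sum_singleton]
      ext k
      rw [hy k]
      rfl
    · intro a
      refine ⟨Unit, inferInstance, fun _ => a, fun _ => 1, ?_⟩
      simp
    · rintro y z _ _ ⟨ι, _, e, r, rfl⟩ ⟨κ, _, e', r', rfl⟩
      refine ⟨ι ⊕ κ, inferInstance, Sum.elim e e', Sum.elim r r', ?_⟩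
      simp [Fintype.sum_sum_type]
    · rintro y z _ _ ⟨ι, _, e, r, rfl⟩ ⟨κ, _, e', r', rfl⟩
      refine ⟨ι × κ, inferInstance, fun p => e p.1 * e' p.2, fun p => r p.1 * r' p.2, ?_⟩
      rw [Finset.sum_mul_sum, Fintype.sum_prod_type]
      refine Finset.sum_congr rfl fun i _ => Finset.sum_congr rfl fun j _ => ?_
      rw [map_mul, map_mul]
      ring
  · rintro ⟨ι, _, e, r, rfl⟩
    refine sum_mem fun i _ => mul_mem ?_ (psi_mem R _)
    exact (ext R Ω).algebraMap_mem _

/-- constants are integral -/
theorem integral_const [Algebra.IsAlgebraic K Ω] (e : Ω) :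
    (psi R Ω).IsIntegralElem (algebraMap Ω (LaurentSeries Ω) e) := by
  have h1 : (algebraMap K Ω).IsIntegralElem e := Algebra.IsIntegral.isIntegral (R := K) e
  have h2 := h1.map (algebraMap Ω (LaurentSeries Ω))
  have h3 : (algebraMap Ω (LaurentSeries Ω)).comp (algebraMap K Ω) =
      (psi R Ω).comp (algebraMap K R) := by
    ext1 k
    rw [RingHom.comp_apply, RingHom.comp_apply, psi_algebraMap]
  rw [h3] at h2
  exact RingHom.IsIntegralElem.of_comp (f := algebraMap K R) (g := psi R Ω) h2

theorem integral_sum {A B : Type} [CommRing A] [CommRing B] (f : A →+* B) {ι : Type}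
    (s : Finset ι) (g : ι → B) (h : ∀ i ∈ s, f.IsIntegralElem (g i)) :
    f.IsIntegralElem (∑ i ∈ s, g i) := by
  classical
  induction s using Finset.induction_on with
  | empty => rw [Finset.sum_empty]; exact f.isIntegralElem_zero
  | insert a s ha ih =>
    rw [Finset.sum_insert ha]
    exact RingHom.IsIntegralElem.add f (h a (Finset.mem_insert_self a s))
      (ih fun i hi => h i (Finset.mem_insert_of_mem hi))

theorem integral_ext [Algebra.IsAlgebraic K Ω] (x : LaurentSeries Ω) (hx : x ∈ ext R Ω) :
    (psi R Ω).IsIntegralElem x := by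
  obtain ⟨ι, _, e, r, rfl⟩ := (mem_ext_iff R x).1 hx
  refine integral_sum _ _ _ fun i _ => ?_
  exact RingHom.IsIntegralElem.mul (psi R Ω) (integral_const R (e i))
    (RingHom.isIntegralElem_map (psi R Ω) (x := r i))

theorem integral_trans {A B D : Type} [CommRing A] [CommRing B] [CommRing D] (j : A →+* B)
    (g : B →+* D) (hj : ∀ z, j.IsIntegralElem z) (x : D) (hx : g.IsIntegralElem x) :
    (g.comp j).IsIntegralElem x := by
  let : Algebra A B := j.toAlgebra
  let : Algebra B D := g.toAlgebra
  let : Algebra A D := (g.comp j).toAlgebra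
  have : IsScalarTower A B D := IsScalarTower.of_algebraMap_eq' rfl
  have : Algebra.IsIntegral A B := ⟨hj⟩
  exact isIntegral_trans (R := A) (A := B) x hx

theorem dvd_aux {A B : Type} [CommRing A] [CommRing B] [IsDomain A] [IsDomain B] (j : A →+* B) (c : B)
    (hc : c ≠ 0) (hi : j.IsIntegralElem c) : ∃ r : A, r ≠ 0 ∧ ∃ d : B, j r = c * d := by
  let : Algebra A B := j.toAlgebra
  have h1 : IsIntegral A c := hi
  obtain ⟨r, hr, d, hd⟩ := h1.isAlgebraic.exists_nonzero_dvd (mem_nonZeroDivisors_of_ne_zero hc)
  exact ⟨r, hr, d, hd⟩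

/-- the map from `R` to the extension -/
noncomputable def jj (R : Subalgebra K (LaurentSeries K)) (Ω : Type) [Field Ω] [Algebra K Ω] :
    R →+* ext R Ω :=
  (psi R Ω).codRestrict (ext R Ω).toSubring (fun r => psi_mem R r)

theorem comp_jj : ((ext R Ω).val.toRingHom : ext R Ω →+* LaurentSeries Ω).comp (jj R Ω) =
    psi R Ω := rfl

theorem integral_jj [Algebra.IsAlgebraic K Ω] (z : ext R Ω) : (jj R Ω).IsIntegralElem z := by
  have h2 : (psi R Ω).IsIntegralElem (z : LaurentSeries Ω) := integral_ext R _ z.2
  rw [← comp_jj] at h2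
  exact RingHom.IsIntegralElem.of_map (g := (ext R Ω).val.toRingHom)
    (fun a b hab => Subtype.ext hab) h2

/-- an element integral over the extension is integral over `R` -/
theorem integral_of_integral [Algebra.IsAlgebraic K Ω] (x : LaurentSeries Ω)
    (hx : ((ext R Ω).val.toRingHom : ext R Ω →+* LaurentSeries Ω).IsIntegralElem x) :
    (psi R Ω).IsIntegralElem x := by
  have h1 := integral_trans (jj R Ω) _ (integral_jj R) x hx
  rw [comp_jj] at h1
  exact h1

/-- a nonzero element of the extension divides a nonzero element of `R` -/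
theorem exists_dvd [Algebra.IsAlgebraic K Ω] (c : ext R Ω) (hc : c ≠ 0) :
    ∃ r : R, r ≠ 0 ∧ ∃ d : ext R Ω, psi R Ω r = (c : LaurentSeries Ω) * d := by
  obtain ⟨r, hr, d, hd⟩ := dvd_aux (jj R Ω) c hc (integral_jj R c)
  refine ⟨r, hr, d, ?_⟩
  have h3 := congrArg (fun z : ext R Ω => (z : LaurentSeries Ω)) hd
  exact h3

end

end P9

variable {K Ω : Type} [Field K] [Field Ω] [Algebra K Ω] {R : Subalgebra K (LaurentSeries K)}

open P9 in
theorem ext_normal [CharZero K] [IsAlgClosed Ω] [Algebra.IsAlgebraic K Ω]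
    (h : IsIntegrallyClosed R) : IsIntegrallyClosed (ext R Ω) := by
  classical
  refine closed_of_mem fun x c hc hcx hx => ?_
  have hx' : (psi R Ω).IsIntegralElem x := integral_of_integral R x hx
  obtain ⟨c₀, hc₀, d, hd⟩ := exists_dvd R c hc
  have h1 : psi R Ω c₀ * x ∈ ext R Ω := by
    rw [hd, mul_assoc, mul_comm (d : LaurentSeries Ω) x, ← mul_assoc]
    exact mul_mem hcx d.2
  obtain ⟨ι, _, e, r, hr⟩ := (mem_ext_iff R _).1 h1
  -- a finite extension containing the `e i`
  let E : IntermediateField K Ω := IntermediateField.adjoin K (Set.range e)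
  have hE : FiniteDimensional K E := IntermediateField.finiteDimensional_adjoin
    (fun y _ => Algebra.IsIntegral.isIntegral y)
  have heE : ∀ i, e i ∈ E := fun i => IntermediateField.subset_adjoin K _ ⟨i, rfl⟩
  let b := Module.finBasis K E
  let m := Module.finrank K E
  -- coordinates
  have hei : ∀ i, e i = ∑ j, algebraMap K Ω (b.repr ⟨e i, heE i⟩ j) * (b j : Ω) := by
    intro i
    have h2 := congrArg (algebraMap E Ω) (b.sum_repr ⟨e i, heE i⟩)
    rw [map_sum] at h2
    refine Eq.trans (Eq.symm h2) ?_
    refine Finset.sum_congr rfl fun j _ => ?_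
    rw [← Algebra.smul_def]
    rfl
  let r' : Fin m → R := fun j => ∑ i, algebraMap K R (b.repr ⟨e i, heE i⟩ j) * r i
  have hr' : psi R Ω c₀ * x = ∑ j, algebraMap Ω (LaurentSeries Ω) (b j : Ω) * psi R Ω (r' j) := by
    rw [hr]
    simp only [r', map_sum, map_mul, psi_algebraMap]
    simp only [Finset.mul_sum]
    rw [Finset.sum_comm]
    refine Finset.sum_congr rfl fun i _ => ?_
    conv_lhs => rw [hei i]
    rw [map_sum, Finset.sum_mul]
    refine Finset.sum_congr rfl fun j _ => ?_
    rw [map_mul]
    ring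
  have hc₀' : (c₀ : LaurentSeries K) ≠ 0 := fun h0 => hc₀ (Subtype.ext h0)
  have hφc : psi R Ω c₀ ≠ 0 := by
    rw [psi_apply]
    exact (map_ne_zero _).2 hc₀'
  -- the coordinates of `x`
  let g : Fin m → LaurentSeries K := fun j => (r' j : LaurentSeries K) / c₀
  have hg : ∀ j, mp (algebraMap K Ω) (g j) = psi R Ω (r' j) / psi R Ω c₀ := by
    intro j
    rw [map_div₀]
    rfl
  have hxg : x = ∑ j, algebraMap Ω (LaurentSeries Ω) (b j : Ω) * mp (algebraMap K Ω) (g j) := by
    have h2 : x = (∑ j, algebraMap Ω (LaurentSeries Ω) (b j : Ω) * psi R Ω (r' j)) /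
        psi R Ω c₀ := by
      rw [← hr', mul_div_cancel_left₀ _ hφc]
    rw [h2, Finset.sum_div]
    refine Finset.sum_congr rfl fun j _ => ?_
    rw [hg, mul_div_assoc]
  -- conjugates are integral
  have hconj : ∀ σ : E →ₐ[K] Ω, (psi R Ω).IsIntegralElem
      (∑ j, algebraMap Ω (LaurentSeries Ω) (σ (b j)) * mp (algebraMap K Ω) (g j)) := by
    intro σ
    have : Algebra.IsAlgebraic E Ω := Algebra.IsAlgebraic.tower_top (K := K) E
    obtain ⟨τ, hτ⟩ := IsAlgClosed.surjective_domRestrict_of_isAlgebraic (K := K) (L := E)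
      (M := Ω) (E := Ω) σ
    have hτ' : ∀ z : E, τ (z : Ω) = σ z := fun z => congrArg (fun f : E →ₐ[K] Ω => f z) hτ
    have hττ : ∀ y : LaurentSeries K, mp (τ : Ω →+* Ω) (mp (algebraMap K Ω) y) =
        mp (algebraMap K Ω) y := by
      intro y
      rw [mp_comp]
      congr 1
      exact congrArg mp (by ext k; simp)
    have h2 : mp (τ : Ω →+* Ω) x =
        ∑ j, algebraMap Ω (LaurentSeries Ω) (σ (b j)) * mp (algebraMap K Ω) (g j) := by
      conv_lhs => rw [hxg]
      rw [map_sum]
      refine Finset.sum_congr rfl fun j _ => ?_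
      rw [map_mul, hττ, mp_algebraMap]
      congr 2
      exact hτ' _
    rw [← h2]
    have h3 := hx'.map (mp (τ : Ω →+* Ω))
    have h4 : (mp (τ : Ω →+* Ω)).comp (psi R Ω) = psi R Ω := by
      ext1 y
      rw [RingHom.comp_apply, psi_apply, hττ]
    rw [h4] at h3
    exact h3
  -- dual basis
  have hnd : (Algebra.traceForm K E).Nondegenerate := traceForm_nondegenerate K E
  let bd := LinearMap.BilinForm.dualBasis (Algebra.traceForm K E) hnd b
  have hbd : ∀ i j, Algebra.trace K E (bd i * b j) = if j = i then 1 else 0 := fun i j =>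
    LinearMap.BilinForm.apply_dualBasis_left hnd b i j
  have hgi : ∀ i, mp (algebraMap K Ω) (g i) = ∑ σ : E →ₐ[K] Ω,
      algebraMap Ω (LaurentSeries Ω) (σ (bd i)) *
        ∑ j, algebraMap Ω (LaurentSeries Ω) (σ (b j)) * mp (algebraMap K Ω) (g j) := by
    intro i
    have h2 : ∀ j, ∑ σ : E →ₐ[K] Ω, σ (bd i) * σ (b j) = if j = i then 1 else 0 := by
      intro j
      have h3 := trace_eq_sum_embeddings (K := K) (L := E) Ω (x := bd i * b j)
      rw [hbd] at h3
      simp only [map_mul] at h3
      rw [← h3]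
      split_ifs <;> simp
    simp only [Finset.mul_sum]
    rw [Finset.sum_comm]
    have h3 : ∀ j, ∑ σ : E →ₐ[K] Ω, algebraMap Ω (LaurentSeries Ω) (σ (bd i)) *
        (algebraMap Ω (LaurentSeries Ω) (σ (b j)) * mp (algebraMap K Ω) (g j)) =
        if j = i then mp (algebraMap K Ω) (g j) else 0 := by
      intro j
      have h4 := congrArg (algebraMap Ω (LaurentSeries Ω)) (h2 j)
      simp only [map_sum, map_mul] at h4
      simp only [← mul_assoc]
      rw [← Finset.sum_mul, h4]
      split_ifs <;> simp
    simp only [h3]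
    simp
  have hgint : ∀ i, (psi R Ω).IsIntegralElem (mp (algebraMap K Ω) (g i)) := by
    intro i
    rw [hgi]
    refine integral_sum _ _ _ fun σ _ => ?_
    exact RingHom.IsIntegralElem.mul _ (integral_const R _) (hconj σ)
  have hgR : ∀ i, g i ∈ R := by
    intro i
    refine mem_of_integral h (g i) c₀ hc₀ ?_ ?_
    · have : (c₀ : LaurentSeries K) * g i = r' i := by
        simp only [g]
        field_simp
      rw [this]
      exact (r' i).2
    · exact RingHom.IsIntegralElem.of_map (g := mp (algebraMap K Ω))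
        (mp (algebraMap K Ω)).injective (hgint i)
  rw [hxg]
  refine sum_mem fun j _ => mul_mem ((ext R Ω).algebraMap_mem _) ?_
  exact psi_mem R ⟨g j, hgR j⟩

end Pool.Agent.TH549.CK
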