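import Pool.Agent.TH549.CK.P8

/-!
# CK-9: base change of normality (trace argument)
-/

set_option autoImplicit false
set_option maxHeartbeats 4000000
set_option synthInstance.maxHeartbeats 400000

namespace Pool.Agent.TH549.CK

open Polynomial

namespace P9b

/-- an integrally closed domain, in terms of an embedding in a field -/
theorem closed_of {A L : Type} [CommRing A] [Field L] (j : A →+* L) (hj : Function.Injective j)
    (h : ∀ (a c : A), c ≠ 0 → j.IsIntegralElem (j a / j c) → ∃ b : A, j b = j a / j c) :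
    IsIntegrallyClosed A := by
  letI : Algebra A L := j.toAlgebra
  have hinj : Function.Injective (algebraMap A L) := hj
  haveI : IsDomain A := hj.isDomain j
  rw [isIntegrallyClosed_iff (FractionRing A)]
  intro x hx
  let φ : FractionRing A →ₐ[A] L := IsFractionRing.liftAlgHom (g := Algebra.ofId A L) hinj
  obtain ⟨a, c, hc, rfl⟩ := IsFractionRing.div_surjective (A := A) x
  have hc0 : c ≠ 0 := nonZeroDivisors.ne_zero hc
  have h1 : φ (algebraMap A (FractionRing A) a / algebraMap A (FractionRing A) c) = j a / j c := by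
    rw [map_div₀, AlgHom.commutes, AlgHom.commutes]
    rfl
  have h2 : IsIntegral A (φ (algebraMap A (FractionRing A) a / algebraMap A (FractionRing A) c)) :=
    hx.map φ
  rw [h1] at h2
  obtain ⟨b, hb⟩ := h a c hc0 h2
  refine ⟨b, φ.toRingHom.injective ?_⟩
  change φ (algebraMap A (FractionRing A) b) = φ _
  rw [h1, AlgHom.commutes]
  exact hb

/-- an integrally closed domain, in terms of an embedding in a field -/
theorem of_closed {A L : Type} [CommRing A] [Field L] (j : A →+* L) (hj : Function.Injective j)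
    [h : IsIntegrallyClosed A] (a c : A) (hc : c ≠ 0) (hi : j.IsIntegralElem (j a / j c)) :
    ∃ b : A, j b = j a / j c := by
  letI : Algebra A L := j.toAlgebra
  have hinj : Function.Injective (algebraMap A L) := hj
  haveI : IsDomain A := hj.isDomain j
  let φ : FractionRing A →ₐ[A] L := IsFractionRing.liftAlgHom (g := Algebra.ofId A L) hinj
  have h1 : φ (algebraMap A (FractionRing A) a / algebraMap A (FractionRing A) c) = j a / j c := by
    rw [map_div₀, AlgHom.commutes, AlgHom.commutes]
    rfl
  have h2 : IsIntegral A (φ (algebraMap A (FractionRing A) a / algebraMap A (FractionRing A) c)) := by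
    rw [h1]
    exact hi
  have h3 := (isIntegral_algHom_iff φ φ.toRingHom.injective).1 h2
  obtain ⟨b, hb⟩ := (isIntegrallyClosed_iff (FractionRing A)).1 h h3
  refine ⟨b, ?_⟩
  rw [← h1, ← hb, AlgHom.commutes]
  rfl

theorem abs {K Ω L L' A A' : Type} [Field K] [CharZero K] [Field Ω] [Algebra K Ω] [IsAlgClosed Ω]
    [Algebra.IsAlgebraic K Ω] [Field L] [Field L'] [CommRing A] [CommRing A'] (j : A →+* L)
    (hj : Function.Injective j) (j' : A' →+* L') (hj' : Function.Injective j') (ι : L →+* L')
    (ω : Ω →+* L') (κ : K →+* A) (hκ : ∀ a, ω (algebraMap K Ω a) = ι (j (κ a)))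
    (S : (Ω →ₐ[K] Ω) → (L' →+* L')) (hS1 : ∀ σ x, S σ (ω x) = ω (σ x))
    (hS2 : ∀ σ h, S σ (ι h) = ι h)
    (hA1 : ∀ (e : Ω) (r : A), ∃ y : A', j' y = ω e * ι (j r))
    (hA2 : ∀ y : A', ∃ (n : ℕ) (e : Fin n → Ω) (r : Fin n → A),
      j' y = ∑ l, ω (e l) * ι (j (r l)))
    [h : IsIntegrallyClosed A] : IsIntegrallyClosed A' := by
  classical
  -- the algebra structures
  have hex : ∀ r : A, ∃ y : A', j' y = ι (j r) := fun r => by
    obtain ⟨y, hy⟩ := hA1 1 r
    exact ⟨y, by rw [hy, map_one, one_mul]⟩
  choose i hi using hex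
  let iota : A →+* A' :=
    { toFun := i
      map_one' := hj' (by rw [hi, map_one, map_one, map_one])
      map_mul' := fun x y => hj' (by rw [hi, map_mul, map_mul, map_mul, hi, hi])
      map_zero' := hj' (by rw [hi, map_zero, map_zero, map_zero])
      map_add' := fun x y => hj' (by rw [hi, map_add, map_add, map_add, hi, hi]) }
  haveI : IsDomain A' := hj'.isDomain j'
  haveI : IsDomain A := hj.isDomain j
  letI a1 : Algebra A L := j.toAlgebra
  letI a2 : Algebra A' L' := j'.toAlgebra
  letI a3 : Algebra A A' := iota.toAlgebra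
  letI a4 : Algebra A L' := (ι.comp j).toAlgebra
  haveI : IsScalarTower A A' L' := IsScalarTower.of_algebraMap_eq fun r => (hi r).symm
  -- constants are integral
  have hω : ∀ e : Ω, IsIntegral A (ω e) := by
    intro e
    obtain ⟨P, hP, hPe⟩ := Algebra.IsIntegral.isIntegral (R := K) e
    refine ⟨P.map κ, hP.map κ, ?_⟩
    rw [eval₂_map]
    have h1 : (algebraMap A L').comp κ = ω.comp (algebraMap K Ω) := by
      ext a
      exact (hκ a).symm
    rw [h1, ← hom_eval₂, hPe, map_zero]
  have hι : ∀ r : A, IsIntegral A (ι (j r)) := fun r => isIntegral_algebraMap (A := L') (x := r)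
  haveI hint : Algebra.IsIntegral A A' := by
    constructor
    intro y
    have h1 : IsIntegral A (algebraMap A' L' y) := by
      obtain ⟨n, e, r, hy⟩ := hA2 y
      change IsIntegral A (j' y)
      rw [hy]
      exact IsIntegral.sum _ fun l _ => (hω _).mul (hι _)
    exact (isIntegral_algHom_iff (IsScalarTower.toAlgHom A A' L') hj').1 h1
  apply closed_of j' hj'
  intro a c hc hx
  set x := j' a / j' c with hxdef
  have hxA : IsIntegral A x := isIntegral_trans (A := A') x hx
  -- a denominator in `A`
  have hcalg : IsAlgebraic A c := (Algebra.IsIntegral.isIntegral (R := A) c).isAlgebraic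
  obtain ⟨c0, hc0, d, hd⟩ := hcalg.exists_nonzero_dvd (mem_nonZeroDivisors_of_ne_zero hc)
  have hd' : ι (j c0) = j' c * j' d := by
    rw [← map_mul, ← hd]
    exact (hi c0).symm
  have hjc : j' c ≠ 0 := by
    rw [Ne, map_eq_zero_iff j' hj']
    exact hc
  have hιc : ι (j c0) ≠ 0 := by
    rw [Ne, map_eq_zero_iff ι ι.injective, map_eq_zero_iff j hj]
    exact hc0
  have hjd : j' d ≠ 0 := by
    intro h0
    rw [h0, mul_zero] at hd'
    exact hιc hd'
  have hxf : x = j' (a * d) / ι (j c0) := by
    rw [hxdef, hd', map_mul]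
    field_simp
  obtain ⟨n, e, r, hf⟩ := hA2 (a * d)
  -- a finite extension containing the coefficients
  let E := IntermediateField.adjoin K (Set.range e)
  haveI : FiniteDimensional K E := IntermediateField.finiteDimensional_adjoin
    fun x _ => Algebra.IsIntegral.isIntegral x
  let b := Module.finBasis K E
  let eE : Fin n → E := fun l => ⟨e l, IntermediateField.subset_adjoin K _ ⟨l, rfl⟩⟩
  let r' : Fin (Module.finrank K E) → A := fun m => ∑ l, κ (b.repr (eE l) m) * r l
  let hh : Fin (Module.finrank K E) → L := fun m => j (r' m) / j c0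
  have he : ∀ l, e l = ∑ m, algebraMap K Ω (b.repr (eE l) m) * (b m : Ω) := by
    intro l
    have h1 := congrArg (algebraMap E Ω) (b.sum_repr (eE l))
    rw [map_sum] at h1
    have h2 : algebraMap E Ω (eE l) = e l := rfl
    rw [← h2, ← h1]
    refine Finset.sum_congr rfl fun m _ => ?_
    rw [Algebra.smul_def, map_mul]
    rfl
  have hxh : x = ∑ m, ω (b m : Ω) * ι (hh m) := by
    rw [hxf, hf, div_eq_iff hιc, Finset.sum_mul]
    have h1 : ∀ m, ω (b m : Ω) * ι (hh m) * ι (j c0) =
        ∑ l, ω (b m : Ω) * ω (algebraMap K Ω (b.repr (eE l) m)) * ι (j (r l)) := by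
      intro m
      have h2 : ι (hh m) * ι (j c0) = ι (j (r' m)) := by
        rw [← map_mul, div_mul_cancel₀]
        rw [Ne, map_eq_zero_iff j hj]
        exact hc0
      rw [mul_assoc, h2]
      simp only [r', map_sum, map_mul]
      rw [Finset.mul_sum]
      refine Finset.sum_congr rfl fun l _ => ?_
      rw [hκ, mul_assoc]
    rw [Finset.sum_congr rfl fun m _ => h1 m, Finset.sum_comm]
    refine Finset.sum_congr rfl fun l _ => ?_
    rw [← Finset.sum_mul]
    congr 1
    conv_lhs => rw [he l]
    rw [map_sum]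
    refine Finset.sum_congr rfl fun m _ => ?_
    rw [map_mul, mul_comm]
  -- conjugates
  have hsurj := IsAlgClosed.surjective_domRestrict_of_isAlgebraic (K := K) (L := E) (M := Ω) (E := Ω)
  choose ext hext using hsurj
  have hxσ : ∀ σ : E →ₐ[K] Ω, S (ext σ) x = ∑ m, ω (σ (b m)) * ι (hh m) := by
    intro σ
    conv_lhs => rw [hxh]
    rw [map_sum]
    refine Finset.sum_congr rfl fun m _ => ?_
    rw [map_mul, hS1, hS2]
    congr 2
    exact DFunLike.congr_fun (hext σ) (b m)
  have hxσi : ∀ σ : E →ₐ[K] Ω, IsIntegral A (S (ext σ) x) := by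
    intro σ
    let Sσ : L' →ₐ[A] L' := { S (ext σ) with commutes' := fun r => hS2 (ext σ) (j r) }
    exact hxA.map Sσ
  have hιh : ∀ m, ι (hh m) = ∑ σ : E →ₐ[K] Ω, ω (σ (b.traceDual m)) * S (ext σ) x := by
    intro m
    have h1 : ∀ σ : E →ₐ[K] Ω, ω (σ (b.traceDual m)) * S (ext σ) x =
        ∑ m', ω (σ (b.traceDual m * b m')) * ι (hh m') := by
      intro σ
      rw [hxσ, Finset.mul_sum]
      refine Finset.sum_congr rfl fun m' _ => ?_
      rw [map_mul, map_mul, mul_assoc]
    rw [Finset.sum_congr rfl fun σ _ => h1 σ, Finset.sum_comm]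
    have h2 : ∀ m', ∑ σ : E →ₐ[K] Ω, ω (σ (b.traceDual m * b m')) * ι (hh m') =
        if m' = m then ι (hh m) else 0 := by
      intro m'
      rw [← Finset.sum_mul, ← map_sum, ← trace_eq_sum_embeddings (K := K) (L := E) (E := Ω),
        Module.Basis.trace_traceDual_mul]
      split_ifs with h3
      · rw [map_one, map_one, one_mul, h3]
      · rw [map_zero, map_zero, zero_mul]
    rw [Finset.sum_congr rfl fun m' _ => h2 m', Finset.sum_ite_eq' Finset.univ m]
    simp
  have hhi : ∀ m, IsIntegral A (hh m) := by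
    intro m
    have h1 : IsIntegral A (ι (hh m)) := by
      rw [hιh m]
      exact IsIntegral.sum _ fun σ _ => (hω _).mul (hxσi σ)
    let ιA : L →ₐ[A] L' := { ι with commutes' := fun r => rfl }
    exact (isIntegral_algHom_iff ιA ι.injective).1 h1
  have hhA : ∀ m, ∃ s : A, j s = hh m := fun m => of_closed j hj (r' m) c0 hc0 (hhi m)
  choose s hs using hhA
  choose y hy using fun m => hA1 (b m : Ω) (s m)
  refine ⟨∑ m, y m, ?_⟩
  rw [map_sum, hxh]
  refine Finset.sum_congr rfl fun m _ => ?_
  rw [hy, hs]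

/-- the coefficientwise map -/
noncomputable def cmap {F G : Type} [Field F] [Field G] (f : F →+* G) :
    LaurentSeries F →+* LaurentSeries G where
  toFun x := HahnSeries.map x f
  map_one' := by
    ext k
    change f ((1 : LaurentSeries F).coeff k) = _
    rw [HahnSeries.coeff_one, HahnSeries.coeff_one]
    split_ifs <;> simp
  map_mul' x y := HahnSeries.map_mul (f : F →ₙ+* G)
  map_zero' := by
    ext k
    change f ((0 : LaurentSeries F).coeff k) = _
    simp
  map_add' x y := by
    ext k
    change f ((x + y).coeff k) = f (x.coeff k) + f (y.coeff k)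
    rw [HahnSeries.coeff_add, map_add]

theorem coeff_cmap {F G : Type} [Field F] [Field G] (f : F →+* G) (x : LaurentSeries F) (k : ℤ) :
    (cmap f x).coeff k = f (x.coeff k) := rfl

theorem cmap_C {F G : Type} [Field F] [Field G] (f : F →+* G) (a : F) :
    cmap f (HahnSeries.C a : LaurentSeries F) = (HahnSeries.C (f a) : LaurentSeries G) := by
  ext k
  rw [coeff_cmap, HahnSeries.C_apply, HahnSeries.C_apply, HahnSeries.coeff_single,
    HahnSeries.coeff_single]
  split_ifs <;> simp

end P9b

open P9b P8 in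
theorem ext_normal {K Ω : Type} [Field K] [Field Ω] [Algebra K Ω]
    {R : Subalgebra K (LaurentSeries K)} [CharZero K] [IsAlgClosed Ω] [Algebra.IsAlgebraic K Ω]
    (h : IsIntegrallyClosed R) : IsIntegrallyClosed (ext R Ω) := by
  classical
  have hC : ∀ {F : Type} [Field F] (a : F), algebraMap F (LaurentSeries F) a = HahnSeries.C a :=
    fun a => LaurentSeries.algebraMap_apply _ a
  refine P9b.abs (K := K) (Ω := Ω) (L := LaurentSeries K) (L' := LaurentSeries Ω) (A := R)
    (A' := ext R Ω) (R.val : R →+* LaurentSeries K) Subtype.val_injective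
    ((ext R Ω).val : ext R Ω →+* LaurentSeries Ω) Subtype.val_injective
    (cmap (algebraMap K Ω)) HahnSeries.C (algebraMap K R) ?_ (fun σ => cmap (σ : Ω →+* Ω)) ?_ ?_
    ?_ ?_
  · intro a
    change _ = cmap (algebraMap K Ω) (algebraMap K (LaurentSeries K) a)
    rw [hC, cmap_C]
  · intro σ x
    exact cmap_C _ x
  · intro σ x
    ext k
    rw [coeff_cmap, coeff_cmap]
    exact σ.commutes _
  · intro e r
    refine ⟨⟨HahnSeries.C e * cmap (algebraMap K Ω) (r : LaurentSeries K), ?_⟩, rfl⟩
    refine mul_mem ?_ ?_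
    · rw [← hC]
      exact Subalgebra.algebraMap_mem _ e
    · exact Algebra.subset_adjoin ⟨r, r.2, fun k => rfl⟩
  · intro y
    have hy : (y : LaurentSeries Ω) ∈
        @Submodule.span Ω (LaurentSeries Ω) _ _ Algebra.toModule (gens R Ω) := by
      rw [← ext_span]
      exact y.2
    obtain ⟨m, ω, g, hxx⟩ := (@Submodule.mem_span_set' Ω (LaurentSeries Ω) _ _ Algebra.toModule
      (y : LaurentSeries Ω) (gens R Ω)).1 hy
    have hg : ∀ l, ∃ f : R, (g l : LaurentSeries Ω) = cmap (algebraMap K Ω) (f : LaurentSeries K) := by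
      intro l
      obtain ⟨f, hf, h⟩ := mem_gens.1 (g l).2
      exact ⟨⟨f, hf⟩, h⟩
    choose f hf using hg
    refine ⟨m, ω, f, ?_⟩
    change (y : LaurentSeries Ω) = ∑ l, HahnSeries.C (ω l) * cmap (algebraMap K Ω) (f l : LaurentSeries K)
    rw [← hxx]
    refine Finset.sum_congr rfl fun l _ => ?_
    rw [← hf, ← hC, ← Algebra.smul_def]

end Pool.Agent.TH549.CK

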